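import Mathlib

/-!
Algebra of two-vectors: norms, diagonal forms, bounds for curvature-like forms.
-/

open Finset

noncomputable section

namespace Pool.Agent.H21_anco

section wedge

variable {E : Type*} {P : Type*} [Fintype P] {m : ℕ}

/-- squared norm of the two-vector `∑ u_i ∧ v_i` -/
def wed (G : E → E → ℝ) (u v : Fin m → E) : ℝ :=
  ∑ i, ∑ j, (G (u i) (u j) * G (v i) (v j) - G (u i) (v j) * G (v i) (u j))

/-- components of the two-vector -/
def mm (θ : P → E → ℝ) (u v : Fin m → E) (p q : P) : ℝ :=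
  ∑ i, (θ p (u i) * θ q (v i) - θ q (u i) * θ p (v i))

theorem sum4_comm {ι P : Type*} [Fintype ι] [Fintype P] (f : ι → ι → P → P → ℝ) :
    ∑ i, ∑ j, ∑ p, ∑ q, f i j p q = ∑ p, ∑ q, ∑ i, ∑ j, f i j p q := by
  calc ∑ i, ∑ j, ∑ p, ∑ q, f i j p q = ∑ i, ∑ p, ∑ j, ∑ q, f i j p q :=
        sum_congr rfl fun i _ => sum_comm
    _ = ∑ p, ∑ i, ∑ j, ∑ q, f i j p q := sum_comm
    _ = ∑ p, ∑ i, ∑ q, ∑ j, f i j p q :=
        sum_congr rfl fun p _ => sum_congr rfl fun i _ => sum_comm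
    _ = ∑ p, ∑ q, ∑ i, ∑ j, f i j p q := sum_congr rfl fun p _ => sum_comm

theorem wed_diag (θ : P → E → ℝ) (s : P → ℝ) (S : E → E → ℝ)
    (hS : ∀ u v, S u v = ∑ p, s p * (θ p u * θ p v)) (u v : Fin m → E) :
    wed S u v = (1 / 2) * ∑ p, ∑ q, s p * s q * (mm θ u v p q) ^ 2 := by
  have key : ∀ i j, S (u i) (u j) * S (v i) (v j) - S (u i) (v j) * S (v i) (u j) =
      (1 / 2) * ∑ p, ∑ q, s p * s q * ((θ p (u i) * θ q (v i) - θ q (u i) * θ p (v i)) *
        (θ p (u j) * θ q (v j) - θ q (u j) * θ p (v j))) := by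
    intro i j
    rw [hS, hS, hS, hS, sum_mul_sum, sum_mul_sum, ← sum_sub_distrib, mul_sum]
    have h2 : ∀ p q, (1 / 2 : ℝ) * (s p * s q * ((θ p (u i) * θ q (v i) - θ q (u i) * θ p (v i)) *
        (θ p (u j) * θ q (v j) - θ q (u j) * θ p (v j)))) =
        (1 / 2) * (s p * s q * (θ p (u i) * θ q (v i) * θ p (u j) * θ q (v j) -
          θ p (u i) * θ q (v i) * θ q (u j) * θ p (v j))) +
        (1 / 2) * (s q * s p * (θ q (u i) * θ p (v i) * θ q (u j) * θ p (v j) -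
          θ q (u i) * θ p (v i) * θ p (u j) * θ q (v j))) := by
      intro p q
      ring
    have h3 : ∀ p q, s p * (θ p (u i) * θ p (u j)) * (s q * (θ q (v i) * θ q (v j))) -
        s p * (θ p (u i) * θ p (v j)) * (s q * (θ q (v i) * θ q (u j))) =
        s p * s q * (θ p (u i) * θ q (v i) * θ p (u j) * θ q (v j) -
          θ p (u i) * θ q (v i) * θ q (u j) * θ p (v j)) := by
      intro p q
      ring
    simp only [← sum_sub_distrib, mul_sum, h2, h3, sum_add_distrib]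
    rw [sum_comm (f := fun p q => (1 / 2 : ℝ) * (s q * s p *
      (θ q (u i) * θ p (v i) * θ q (u j) * θ p (v j) -
          θ q (u i) * θ p (v i) * θ p (u j) * θ q (v j)))), ← sum_add_distrib]
    refine sum_congr rfl fun p _ => ?_
    rw [← sum_add_distrib]
    refine sum_congr rfl fun q _ => ?_
    ring
  simp only [wed, key, mm]
  simp only [sq, sum_mul_sum]
  simp only [mul_sum]
  rw [sum4_comm]

/-- a curvature-like form expands in two-forms -/
theorem bound_small (θ : P → E → ℝ) (S : E → E → E → E → ℝ) (c : P → P → P → P → ℝ) (τ : ℝ)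
    (hτ : 0 ≤ τ) (hS : ∀ u v w z, S u v w z = ∑ p, ∑ q, ∑ r, ∑ s,
      θ p u * θ q v * θ r w * θ s z * c p q r s)
    (h1 : ∀ u v w z, S u v w z = - S v u w z) (h2 : ∀ u v w z, S u v w z = - S u v z w)
    (hc : ∀ p q r s, |c p q r s| ≤ τ) (G : E → E → ℝ)
    (hG : ∀ u v, G u v = ∑ p, θ p u * θ p v) (u v : Fin m → E) :
    |∑ i, ∑ j, S (u i) (v i) (v j) (u j)| ≤ τ * (Fintype.card P : ℝ) ^ 2 * wed G u v := by
  have hw : wed G u v = (1 / 2) * ∑ p, ∑ q, (mm θ u v p q) ^ 2 := by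
    have := wed_diag θ (fun _ => 1) G (fun a b => by rw [hG]; simp) u v
    simpa using this
  have key : ∀ i j, S (u i) (v i) (v j) (u j) = ∑ p, ∑ q, ∑ r, ∑ s,
      (- (1 / 4 : ℝ)) * c p q r s * (θ p (u i) * θ q (v i) - θ q (u i) * θ p (v i)) *
        (θ r (u j) * θ s (v j) - θ s (u j) * θ r (v j)) := by
    intro i j
    have e1 : S (u i) (v i) (v j) (u j) = (1 / 4) * (S (u i) (v i) (v j) (u j) -
        S (v i) (u i) (v j) (u j) - S (u i) (v i) (u j) (v j) + S (v i) (u i) (u j) (v j)) := by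
      rw [h1 (v i) (u i) (v j) (u j), h2 (u i) (v i) (u j) (v j), h1 (v i) (u i) (u j) (v j),
        h2 (u i) (v i) (u j) (v j)]
      ring
    rw [e1, hS, hS, hS, hS]
    simp only [← sum_sub_distrib, ← sum_add_distrib, mul_sum]
    refine sum_congr rfl fun p _ => sum_congr rfl fun q _ => sum_congr rfl fun r _ =>
      sum_congr rfl fun s _ => ?_
    ring
  have tot : ∑ i, ∑ j, S (u i) (v i) (v j) (u j) = ∑ p, ∑ q, ∑ r, ∑ s,
      (- (1 / 4 : ℝ)) * c p q r s * (mm θ u v p q * mm θ u v r s) := by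
    simp only [key]
    have e2 : ∀ p q r s, (- (1 / 4 : ℝ)) * c p q r s * (mm θ u v p q * mm θ u v r s) =
        ∑ i, ∑ j, (- (1 / 4 : ℝ)) * c p q r s *
        (θ p (u i) * θ q (v i) - θ q (u i) * θ p (v i)) *
        (θ r (u j) * θ s (v j) - θ s (u j) * θ r (v j)) := by
      intro p q r s
      simp only [mm, sum_mul_sum]
      simp only [mul_sum]
      refine sum_congr rfl fun i _ => sum_congr rfl fun j _ => ?_
      ring
    simp only [e2]
    rw [sum4_comm]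
    refine sum_congr rfl fun p _ => sum_congr rfl fun q _ => ?_
    rw [sum4_comm]
  rw [tot]
  have b1 : |∑ p, ∑ q, ∑ r, ∑ s, (- (1 / 4 : ℝ)) * c p q r s * (mm θ u v p q * mm θ u v r s)| ≤
      ∑ p, ∑ q, ∑ r, ∑ s, τ / 4 * (|mm θ u v p q| * |mm θ u v r s|) := by
    refine (abs_sum_le_sum_abs _ _).trans (sum_le_sum fun p _ => ?_)
    refine (abs_sum_le_sum_abs _ _).trans (sum_le_sum fun q _ => ?_)
    refine (abs_sum_le_sum_abs _ _).trans (sum_le_sum fun r _ => ?_)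
    refine (abs_sum_le_sum_abs _ _).trans (sum_le_sum fun s _ => ?_)
    rw [abs_mul, abs_mul, abs_mul]
    have : |(- (1 / 4 : ℝ))| = 1 / 4 := by rw [abs_neg]; norm_num
    rw [this]
    have h3 := hc p q r s
    have h4 : 0 ≤ |mm θ u v p q| * |mm θ u v r s| := by positivity
    nlinarith
  refine b1.trans ?_
  have b2 : ∑ p, ∑ q, ∑ r, ∑ s, τ / 4 * (|mm θ u v p q| * |mm θ u v r s|) =
      τ / 4 * (∑ p, ∑ q, |mm θ u v p q|) ^ 2 := by
    rw [sq, sum_mul_sum]
    simp only [sum_mul_sum]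
    simp only [mul_sum]
    refine sum_congr rfl fun p _ => ?_
    rw [sum_comm]
  have b3 : (∑ p, ∑ q, |mm θ u v p q|) ^ 2 ≤
      (Fintype.card P : ℝ) ^ 2 * ∑ p, ∑ q, (mm θ u v p q) ^ 2 := by
    rw [← Fintype.sum_prod_type', ← Fintype.sum_prod_type' (f := fun p q => (mm θ u v p q) ^ 2)]
    have := sq_sum_le_card_mul_sum_sq (s := (univ : Finset (P × P)))
      (f := fun x => |mm θ u v x.1 x.2|)
    simp only [sq_abs] at this
    refine this.trans (le_of_eq ?_)
    rw [card_univ, Fintype.card_prod]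
    push_cast
    ring
  rw [b2, hw]
  have h5 : 0 ≤ ∑ p, ∑ q, (mm θ u v p q) ^ 2 :=
    sum_nonneg fun p _ => sum_nonneg fun q _ => sq_nonneg _
  have h6 : 0 ≤ (Fintype.card P : ℝ) ^ 2 := by positivity
  have h7 : 0 ≤ (Fintype.card P : ℝ) ^ 2 * ∑ p, ∑ q, (mm θ u v p q) ^ 2 := mul_nonneg h6 h5
  nlinarith

end wedge

end Pool.Agent.H21_anco
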