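import Mathlib

/-!
Closed manifolds as compact submanifolds of finite-dimensional normed spaces, Riemannian metrics,
curvature operator, diameter, almost nonnegative curvature operator, sphere bundles.
-/

open scoped ContDiff
open Set

noncomputable section

namespace Pool.Agent.H21_anco.Pub

/-- the model space of dimension `n` -/
abbrev RR (n : ℕ) : Type := EuclideanSpace ℝ (Fin n)

/-- derivative of the function `f` at `x` in the direction `u` -/
def D {V : Type*} [NormedAddCommGroup V] [NormedSpace ℝ V] {n : ℕ} (f : RR n → V)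
    (x u : RR n) : V := fderiv ℝ f x u

section manifolds

variable {E : Type*} [NormedAddCommGroup E] [NormedSpace ℝ E]

/-- `ψ` is a smooth immersion of the open set `U` of `ℝ^n` into the subset `M` of `E`. When `M` is
an `n`-dimensional submanifold these are its local parametrisations. -/
structure IsParam (M : Set E) (n : ℕ) (U : Set (RR n)) (ψ : RR n → E) : Prop where
  isOpen : IsOpen U
  smooth : ContDiffOn ℝ ∞ ψ U
  maps : ∀ x ∈ U, ψ x ∈ M
  imm : ∀ x ∈ U, Function.Injective (D ψ x)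

/-- a local parametrisation `ψ : U → M` near `p` together with a smooth inverse `ρ` defined on an
open set `W` of the ambient space, so that `ψ` maps `U` bijectively to `W ∩ M` -/
structure IsChartAt (M : Set E) (n : ℕ) (p : E) (U : Set (RR n)) (ψ : RR n → E) (W : Set E)
    (ρ : E → RR n) : Prop where
  param : IsParam M n U ψ
  isOpen : IsOpen W
  mem : p ∈ W
  smooth : ContDiffOn ℝ ∞ ρ W
  left : ∀ q ∈ W, q ∈ M → ρ q ∈ U ∧ ψ (ρ q) = q
  right : ∀ x ∈ U, ψ x ∈ W ∧ ρ (ψ x) = x

/-- `M` is a compact nonempty `n`-dimensional submanifold, without boundary, of `E` -/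
structure IsClosedManifold (M : Set E) (n : ℕ) : Prop where
  compact : IsCompact M
  nonempty : M.Nonempty
  chart : ∀ p ∈ M, ∃ U ψ W ρ, IsChartAt M n p U ψ W ρ

/-- the bilinear forms `G` in the parametrisation `ψ` -/
def pull {n : ℕ} (G : E → LinearMap.BilinForm ℝ E) (ψ : RR n → E) (x u v : RR n) : ℝ :=
  G (ψ x) (D ψ x u) (D ψ x v)

/-- `G`, restricted to the tangent spaces of `M`, is a Riemannian metric on `M` -/
structure IsRiem (M : Set E) (n : ℕ) (G : E → LinearMap.BilinForm ℝ E) : Prop where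
  smooth : ∀ u v, ContDiff ℝ ∞ (fun p => G p u v)
  symm : ∀ U ψ, IsParam M n U ψ → ∀ x ∈ U, ∀ u v, pull G ψ x u v = pull G ψ x v u
  pos : ∀ U ψ, IsParam M n U ψ → ∀ x ∈ U, ∀ u, u ≠ 0 → 0 < pull G ψ x u u

/-- `C` is the Christoffel map of the metric `g` on the open set `U` of coordinates: `C x u v` is
the covariant derivative `∇_u v` of the constant vector field `v` in the direction `u`, given by
Koszul's formula `2 g(∇_u v, w) = ∂_u g(v, w) + ∂_v g(u, w) - ∂_w g(u, v)`. -/
structure IsChristoffel {n : ℕ} (g : RR n → RR n → RR n → ℝ) (U : Set (RR n))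
    (C : RR n → RR n → RR n → RR n) : Prop where
  smooth : ∀ u v, ContDiffOn ℝ ∞ (fun x => C x u v) U
  koszul : ∀ x ∈ U, ∀ u v w, 2 * g x (C x u v) w =
    D (fun y => g y v w) x u + D (fun y => g y u w) x v - D (fun y => g y u v) x w

/-- The Riemann tensor `R(u, v) w = ∇_u ∇_v w - ∇_v ∇_u w` (for constant fields `u, v, w`). -/
def riem {n : ℕ} (C : RR n → RR n → RR n → RR n) (x u v w : RR n) : RR n :=
  D (fun y => C y v w) x u - D (fun y => C y u w) x v + C x u (C x v w) - C x v (C x u w)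

/-- squared norm `|σ|^2` of the two-vector `σ = ∑ a_i ∧ b_i` -/
def wed {n m : ℕ} (g : RR n → RR n → ℝ) (a b : Fin m → RR n) : ℝ :=
  ∑ i, ∑ j, (g (a i) (a j) * g (b i) (b j) - g (a i) (b j) * g (b i) (a j))

/-- The curvature operator of the metric `g` on the coordinate domain `U` is at least `c`: there is
a Christoffel map `C` of `g` and, for every two-vector `σ = ∑ a_i ∧ b_i` at every point,
`⟨R(σ), σ⟩ = ∑_{i,j} g(R(a_i, b_i) b_j, a_j) ≥ c |σ|^2`. -/
def CurvGE {n : ℕ} (g : RR n → RR n → RR n → ℝ) (U : Set (RR n)) (c : ℝ) : Prop :=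
  ∃ C : RR n → RR n → RR n → RR n, IsChristoffel g U C ∧
    ∀ x ∈ U, ∀ (m : ℕ) (a b : Fin m → RR n),
      c * wed (g x) a b ≤ ∑ i, ∑ j, g x (riem C x (a i) (b i) (b j)) (a j)

/-- length of the curve `γ`, defined on `[0, 1]`, for the metric `G` -/
def length (G : E → LinearMap.BilinForm ℝ E) (γ : ℝ → E) : ℝ :=
  ∫ t in (0 : ℝ)..1,
    Real.sqrt (G (γ t) (derivWithin γ (Icc 0 1) t) (derivWithin γ (Icc 0 1) t))

/-- `Connects G M p q ℓ`: a piecewise continuously differentiable curve in `M` from `p` to `q` has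
length `ℓ` for the metric `G` -/
inductive Connects (G : E → LinearMap.BilinForm ℝ E) (M : Set E) : E → E → ℝ → Prop
  | curve (γ : ℝ → E) (hγ : ContDiffOn ℝ 1 γ (Icc 0 1)) (hM : ∀ t ∈ Icc (0 : ℝ) 1, γ t ∈ M) :
      Connects G M (γ 0) (γ 1) (length G γ)
  | trans {p q r : E} {a b : ℝ} : Connects G M p q a → Connects G M q r b →
      Connects G M p r (a + b)

/-- the diameter of `(M, G)` is at most `D` (in particular `M` is connected) -/
def DiamLE (G : E → LinearMap.BilinForm ℝ E) (M : Set E) (D : ℝ) : Prop :=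
  ∀ p ∈ M, ∀ q ∈ M, ∀ η > 0, ∃ ℓ < D + η, Connects G M p q ℓ

/-- `M` has almost nonnegative curvature operator -/
def ANCO (M : Set E) (n : ℕ) : Prop :=
  ∀ ε > 0, ∃ G : E → LinearMap.BilinForm ℝ E, IsRiem M n G ∧ DiamLE G M 1 ∧
    ∀ U ψ, IsParam M n U ψ → CurvGE (pull G ψ) U (-ε)

end manifolds

section bundles

variable {E : Type*} {F : Type*} [NormedAddCommGroup F] [InnerProductSpace ℂ F]

/-- orthogonal projections onto complex lines of the Hermitian space `F` -/
structure IsLineProj (T : F →ₗ[ℂ] F) : Prop where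
  idem : ∀ v, T (T v) = T v
  symm : ∀ v w, inner ℂ (T v) w = inner ℂ v (T w)
  rank : Module.finrank ℂ (LinearMap.range T) = 1

/-- the unit sphere bundle of `L_1 ⊕ ⋯ ⊕ L_k ⊕ ℝ^j` over `B`, where `L_i` is the complex line
bundle with fibre the image of `P i b` over `b` -/
def SB {k : ℕ} (j : ℕ) (B : Set E) (P : Fin k → E → F →ₗ[ℂ] F) :
    Set (E × ((Fin k → F) × RR j)) :=
  {q | q.1 ∈ B ∧ (∀ i, P i q.1 (q.2.1 i) = q.2.1 i) ∧ ∑ i, ‖q.2.1 i‖ ^ 2 + ‖q.2.2‖ ^ 2 = 1}

end bundles

end Pool.Agent.H21_anco.Pub
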