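import Pool.Agent.H21_anco.Final
import Pool.Agent.H21_anco.Pub

/-!
Translation between the definitions used in the statement and those used in the proof.
-/

open scoped ContDiff Topology
open Filter Set

set_option maxSynthPendingDepth 3
set_option linter.unusedSectionVars false

noncomputable section

namespace Pool.Agent.H21_anco

variable {E : Type*} [NormedAddCommGroup E] [NormedSpace ℝ E] {M : Set E} {n : ℕ}

theorem pub_param {U : Set (RR n)} {ψ : RR n → E} : Pub.IsParam M n U ψ ↔ IsParam M n U ψ :=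
  ⟨fun h => ⟨h.isOpen, h.smooth, h.maps, h.imm⟩, fun h => ⟨h.isOpen, h.smooth, h.maps, h.imm⟩⟩

theorem pub_closed : Pub.IsClosedManifold M n ↔ IsClosedManifold M n := by
  constructor
  · intro h
    refine ⟨h.compact, h.nonempty, ?_⟩
    intro p hp
    obtain ⟨U, ψ, W, ρ, h1⟩ := h.chart p hp
    exact ⟨U, ψ, W, ρ, pub_param.1 h1.param, h1.isOpen, h1.mem, h1.smooth, h1.left, h1.right⟩
  · intro h
    refine ⟨h.compact, h.nonempty, ?_⟩
    intro p hp
    obtain ⟨U, ψ, W, ρ, h1⟩ := h.chart p hp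
    exact ⟨U, ψ, W, ρ, pub_param.2 h1.param, h1.isOpen, h1.mem, h1.smooth, h1.left, h1.right⟩

/-! ### curvature -/

theorem pub_wed {m : ℕ} {g : RR n → RR n →L[ℝ] RR n →L[ℝ] ℝ} {g' : RR n → RR n → RR n → ℝ}
    (h : ∀ x u v, g' x u v = g x u v) (x : RR n) (a b : Fin m → RR n) :
    Pub.wed (g' x) a b = wed (fun u v => g x u v) a b := by
  simp only [Pub.wed, wed, h]

theorem pub_curv {g : RR n → RR n →L[ℝ] RR n →L[ℝ] ℝ} {g' : RR n → RR n → RR n → ℝ}
    {U : Set (RR n)} (hU : IsOpen U) (hg : IsMetricOn g U) (h : ∀ x u v, g' x u v = g x u v)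
    {c : ℝ} : Pub.CurvGE g' U c ↔ CurvGE g U c := by
  have hd : ∀ x ∈ U, ∀ u v w, Pub.D (fun y => g' y v w) x u = fderiv ℝ g x u v w := by
    intro x hx u v w
    have h1 : DifferentiableAt ℝ g x :=
      (hg.smooth.contDiffAt (hU.mem_nhds hx)).differentiableAt (by simp)
    rw [fderiv_apply2 h1]
    simp only [Pub.D, h]
  have hCd : ∀ {C : RR n → RR n →L[ℝ] RR n →L[ℝ] RR n}, IsChristoffel g U C → ∀ x ∈ U,
      ∀ u v w, Pub.D (fun y => C y v w) x u = fderiv ℝ C x u v w := by
    intro C hC x hx u v w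
    have h1 : DifferentiableAt ℝ C x :=
      (hC.smooth.contDiffAt (hU.mem_nhds hx)).differentiableAt (by simp)
    rw [fderiv_apply2 h1]
    rfl
  constructor
  · rintro ⟨C', hC', hb⟩
    obtain ⟨C, hC⟩ := exists_christoffel hU hg
    have heq : ∀ x ∈ U, ∀ u v, C' x u v = C x u v := by
      intro x hx u v
      rw [← sub_eq_zero]
      by_contra hne
      have h2 := hg.pos x hx _ hne
      have h3 := hC.koszul x hx u v (C' x u v - C x u v)
      have h4 := hC'.koszul x hx u v (C' x u v - C x u v)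
      rw [hd x hx, hd x hx, hd x hx, h] at h4
      have h5 : ∀ z, g x (C' x u v - C x u v) z = g x (C' x u v) z - g x (C x u v) z := by
        intro z
        rw [map_sub, sub_apply]
      rw [h5] at h2
      linarith
    refine ⟨C, hC, ?_⟩
    intro x hx m a b
    have hr : ∀ u v w, Pub.riem C' x u v w = riem C x u v w := by
      intro u v w
      have h6 : ∀ v w, (fun y => C' y v w) =ᶠ[𝓝 x] fun y => C y v w := by
        intro v w
        filter_upwards [hU.mem_nhds hx] with y hy using heq y hy v w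
      have h7 : ∀ u v w, Pub.D (fun y => C' y v w) x u = fderiv ℝ C x u v w := by
        intro u v w
        rw [← hCd hC x hx, Pub.D, Pub.D, (h6 v w).fderiv_eq]
      rw [Pub.riem, riem, h7, h7, heq x hx, heq x hx, heq x hx, heq x hx]
    have := hb x hx m a b
    simp only [pub_wed h, h, hr] at this
    exact this
  · rintro ⟨C, hC, hb⟩
    refine ⟨fun x u v => C x u v, ⟨?_, ?_⟩, ?_⟩
    · intro u v
      exact (hC.smooth.clm_apply contDiffOn_const).clm_apply contDiffOn_const
    · intro x hx u v w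
      rw [hd x hx, hd x hx, hd x hx, h]
      exact hC.koszul x hx u v w
    · intro x hx m a b
      have hr : ∀ u v w, Pub.riem (fun x u v => C x u v) x u v w = riem C x u v w := by
        intro u v w
        rw [Pub.riem, riem, hCd hC x hx, hCd hC x hx]
      have := hb x hx m a b
      simp only [pub_wed h, h, hr]
      exact this

/-! ### metrics -/

theorem pub_pull {G : E → E →L[ℝ] E →L[ℝ] ℝ} {G' : E → LinearMap.BilinForm ℝ E}
    (h : ∀ p u v, G' p u v = G p u v) (ψ : RR n → E) (x u v : RR n) :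
    Pub.pull G' ψ x u v = pull G ψ x u v := by
  rw [Pub.pull, h, pull_apply]
  rfl

theorem pub_connects {G : E → E →L[ℝ] E →L[ℝ] ℝ} {G' : E → LinearMap.BilinForm ℝ E}
    (h : ∀ p u v, G' p u v = G p u v) {p q : E} {ℓ : ℝ} :
    Pub.Connects G' M p q ℓ ↔ Connects G M p q ℓ := by
  have hl : ∀ γ : ℝ → E, Pub.length G' γ = ∫ t in (0 : ℝ)..1,
        Real.sqrt (G (γ t) (derivWithin γ (Icc 0 1) t) (derivWithin γ (Icc 0 1) t)) := by
    intro γ
    simp only [Pub.length, h]
  constructor
  · intro hc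
    induction hc with
    | curve γ hγ hM =>
      rw [hl]
      exact Connects.curve γ hγ hM
    | trans _ _ ih1 ih2 => exact ih1.trans ih2
  · intro hc
    induction hc with
    | curve γ hγ hM =>
      rw [← hl]
      exact Pub.Connects.curve γ hγ hM
    | trans _ _ ih1 ih2 => exact ih1.trans ih2

theorem pub_diam {G : E → E →L[ℝ] E →L[ℝ] ℝ} {G' : E → LinearMap.BilinForm ℝ E}
    (h : ∀ p u v, G' p u v = G p u v) {D : ℝ} : Pub.DiamLE G' M D ↔ DiamLE G M D := by
  simp only [Pub.DiamLE, DiamLE, pub_connects h]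

theorem pub_riem [FiniteDimensional ℝ E] {G : E → E →L[ℝ] E →L[ℝ] ℝ}
    {G' : E → LinearMap.BilinForm ℝ E} (h : ∀ p u v, G' p u v = G p u v) :
    Pub.IsRiem M n G' ↔ IsRiem M n G := by
  constructor
  · intro hR
    have hs : ContDiff ℝ ∞ G := contDiff_apply2 fun u v => by
      have := hR.smooth u v
      simp only [h] at this
      exact this
    refine ⟨hs, ?_⟩
    intro U ψ hp
    refine ⟨hp.contDiffOn_pull hs, ?_, ?_⟩
    · intro x hx u v
      rw [← pub_pull h, ← pub_pull h]
      exact hR.symm U ψ (pub_param.2 hp) x hx u v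
    · intro x hx u hu
      rw [← pub_pull h]
      exact hR.pos U ψ (pub_param.2 hp) x hx u hu
  · intro hR
    refine ⟨?_, ?_, ?_⟩
    · intro u v
      simp only [h]
      exact (hR.smooth.clm_apply contDiff_const).clm_apply contDiff_const
    · intro U ψ hp x hx u v
      rw [pub_pull h, pub_pull h]
      exact (hR.metric U ψ (pub_param.1 hp)).symm x hx u v
    · intro U ψ hp x hx u hu
      rw [pub_pull h]
      exact (hR.metric U ψ (pub_param.1 hp)).pos x hx u hu

theorem pub_body [FiniteDimensional ℝ E] {G : E → E →L[ℝ] E →L[ℝ] ℝ}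
    {G' : E → LinearMap.BilinForm ℝ E} (h : ∀ p u v, G' p u v = G p u v) {ε : ℝ} :
    (Pub.IsRiem M n G' ∧ Pub.DiamLE G' M 1 ∧
      ∀ U ψ, Pub.IsParam M n U ψ → Pub.CurvGE (Pub.pull G' ψ) U (-ε)) ↔
    (IsRiem M n G ∧ DiamLE G M 1 ∧ ∀ U ψ, IsParam M n U ψ → CurvGE (pull G ψ) U (-ε)) := by
  constructor
  · rintro ⟨h1, h2, h3⟩
    have h1' := (pub_riem h).1 h1
    refine ⟨h1', (pub_diam h).1 h2, ?_⟩
    intro U ψ hp
    exact (pub_curv hp.isOpen (h1'.metric U ψ hp) (pub_pull h ψ)).1 (h3 U ψ (pub_param.2 hp))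
  · rintro ⟨h1, h2, h3⟩
    refine ⟨(pub_riem h).2 h1, (pub_diam h).2 h2, ?_⟩
    intro U ψ hp
    have hp' := pub_param.1 hp
    exact (pub_curv hp'.isOpen (h1.metric U ψ hp') (pub_pull h ψ)).2 (h3 U ψ hp')

theorem pub_anco [FiniteDimensional ℝ E] : Pub.ANCO M n ↔ ANCO M n := by
  constructor
  · intro hA ε hε
    obtain ⟨G', hG'⟩ := hA ε hε
    exact ⟨fun p => LinearMap.toContinuousLinearMap
      ((LinearMap.toContinuousLinearMap (𝕜 := ℝ) (E := E) (F' := ℝ)).toLinearMap ∘ₗ G' p),
      (pub_body fun p u v => rfl).1 hG'⟩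
  · intro hA ε hε
    obtain ⟨G, hG⟩ := hA ε hε
    exact ⟨fun p => (ContinuousLinearMap.coeLM ℝ).comp (G p).toLinearMap,
      (pub_body fun p u v => rfl).2 hG⟩

/-! ### line bundles -/

variable {F : Type*} [NormedAddCommGroup F] [InnerProductSpace ℂ F] [FiniteDimensional ℂ F]

/-- the projection as a continuous linear map -/
def toL {k : ℕ} (P : Fin k → E → F →ₗ[ℂ] F) (i : Fin k) (b : E) : F →L[ℂ] F :=
  LinearMap.toContinuousLinearMap (P i b)

theorem contDiff_toL {k : ℕ} {P : Fin k → E → F →ₗ[ℂ] F}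
    (hP : ∀ i v, ContDiff ℝ ∞ (fun b => P i b v)) (i : Fin k) : ContDiff ℝ ∞ (toL P i) := by
  set f := stdOrthonormalBasis ℂ F
  have h1 : toL P i = fun b => ∑ l, (innerSL ℂ (f l)).smulRight (P i b (f l)) := by
    funext b
    ext v
    simp only [sum_apply, ContinuousLinearMap.smulRight_apply, innerSL_apply_apply]
    conv_lhs => rw [← f.sum_repr v]
    rw [map_sum]
    refine Finset.sum_congr rfl fun l _ => ?_
    rw [map_smul, f.repr_apply_apply]
    rfl
  rw [h1]
  refine ContDiff.sum fun l _ => ?_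
  have h2 := ((ContinuousLinearMap.smulRightL ℂ F F (innerSL ℂ (f l))).restrictScalars
    ℝ).contDiff (n := ∞)
  exact h2.comp (hP i (f l))

theorem lineProj_toL {k : ℕ} {P : Fin k → E → F →ₗ[ℂ] F} {i : Fin k} {b : E}
    (h : Pub.IsLineProj (P i b)) : IsLineProj (toL P i b) :=
  ⟨h.idem, h.symm, h.rank⟩

end Pool.Agent.H21_anco
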