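import Pool.Agent.H21_anco.Point3

/-!
The curvature of the unit hypersurface of the local model.
-/

open scoped ContDiff Topology
open Filter ContinuousLinearMap

set_option maxSynthPendingDepth 3
set_option linter.unusedSimpArgs false
set_option linter.unusedSectionVars false

noncomputable section

namespace Pool.Agent.H21_anco

variable {ι : Type*} [Fintype ι] [DecidableEq ι]
  {Y : Type*} [NormedAddCommGroup Y] [InnerProductSpace ℝ Y] [FiniteDimensional ℝ Y]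
  {δ κ : ℝ} {r : ι → ℝ} {e : ι → ℂ}
  {B : Type*} [NormedAddCommGroup B] [NormedSpace ℝ B] [FiniteDimensional ℝ B]

/-- the flat inner product of the fibre -/
def fl : ((ι → ℂ) × Y) →L[ℝ] ((ι → ℂ) × Y) →L[ℝ] ℝ :=
  (∑ l, dt2.bilinearComp (pj l) (pj l)) +
    (innerSL ℝ).bilinearComp (snd ℝ (ι → ℂ) Y) (snd ℝ (ι → ℂ) Y)

theorem fl_apply (a b : (ι → ℂ) × Y) :
    fl a b = ∑ l, dt2 (a.1 l) (b.1 l) + inner ℝ a.2 b.2 := by
  simp only [fl, add_apply, sum_apply, bilinearComp_apply, pj_apply, coe_snd', innerSL_apply_apply]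

theorem fl_symm (a b : (ι → ℂ) × Y) : fl a b = fl b a := by
  rw [fl_apply, fl_apply, real_inner_comm]
  congr 1
  refine Finset.sum_congr rfl fun l _ => ?_
  simp only [dt2_apply]
  ring

theorem cF_rad' (n b : (ι → ℂ) × Y) : cF δ n n b = fl n b := by
  rw [cF_rad, fl_apply]

theorem cF_rot_self (hδ : 0 < δ) (n : (ι → ℂ) × Y) (ξ : ι → ℝ) : cF δ n (KF ξ n) n = 0 := by
  rw [cF_rot hδ]
  refine Finset.sum_eq_zero fun l _ => ?_
  simp only [cr2_apply]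
  ring

theorem plane_ff (hδ : 0 < δ) (w a b : ℂ) : dt2 a b - dt2 w (D1 δ w a b) =
    c1 δ w a b - δ ^ 2 * kk δ w ^ 2 * cr2 w a * cr2 w b := by
  have e1 : kk δ w = (δ ^ 2 + w.re ^ 2 + w.im ^ 2)⁻¹ := rfl
  have h2 : (δ ^ 2 + w.re ^ 2 + w.im ^ 2) ≠ 0 := by positivity
  simp only [dt2_apply, cr2_apply, c1_apply, D1_re, D1_im]
  rw [e1]
  field_simp
  ring

theorem Pol.al_self {n : (ι → ℂ) × Y} (hP : Pol n r e) (l : ι) : al e l n = r l := by
  have := hP.he l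
  rw [al, hP.hn, map_smul, smul_eq_mul, dt2_apply]
  linear_combination (r l) * this

/-- covariant Hessian of half the squared norm -/
theorem hess_ff {n : (ι → ℂ) × Y} (hP : Pol n r e) (hδ : 0 < δ) (a b : (ι → ℂ) × Y) :
    fl a b - cF δ n (DF δ n a b) n =
      ∑ l, (al e l a * al e l b + tt δ n l ^ 2 * (be δ n e l a * be δ n e l b)) +
        inner ℝ a.2 b.2 := by
  have hs := (isMetric_cF (ι := ι) (Y := Y) hδ).symm n (Set.mem_univ _)
  rw [hs, cF_rad', fl_apply, fl_apply, DF_snd, inner_zero_right, add_zero, add_sub_right_comm,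
    ← Finset.sum_sub_distrib]
  congr 1
  refine Finset.sum_congr rfl fun l _ => ?_
  rw [DF_fst, plane_ff hδ, hP.c1_eq hδ, hP.crn hδ, hP.crn hδ, kk_sg]
  have h1 := hP.tt_th hδ l
  have h2 := (sg_pos hδ (n.1 l)).ne'
  have h3 : δ ^ 2 * ((sg δ (n.1 l) ^ 2)⁻¹) ^ 2 * (r l * (sg δ (n.1 l) / δ) * be δ n e l a) *
      (r l * (sg δ (n.1 l) / δ) * be δ n e l b) =
      th δ n r l ^ 2 * (be δ n e l a * be δ n e l b) := by
    rw [th]
    field_simp
  rw [h3]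
  linear_combination (- (be δ n e l a * be δ n e l b)) * h1

variable {V : Type*} [NormedAddCommGroup V] [NormedSpace ℝ V] [FiniteDimensional ℝ V]

/-- minus the second fundamental form of the unit hypersurface -/
def hh (g : B → B →L[ℝ] B →L[ℝ] ℝ) (δ κ : ℝ) (p : B × ((ι → ℂ) × Y))
    (u v : B × ((ι → ℂ) × Y)) : ℝ :=
  fl u.2 v.2 - cF δ p.2 (DF δ p.2 u.2 v.2) p.2 +
    (1 / 2) * fderiv ℝ (HF κ δ) p.2 p.2 * g p.1 u.1 v.1

theorem hyper_sff {g : B → B →L[ℝ] B →L[ℝ] ℝ} {C : B → B →L[ℝ] B →L[ℝ] B}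
    {A : B → B →L[ℝ] (ι → ℝ)}
    {G : B × ((ι → ℂ) × Y) → (B × ((ι → ℂ) × Y)) →L[ℝ] (B × ((ι → ℂ) × Y)) →L[ℝ] ℝ}
    {Γ : B × ((ι → ℂ) × Y) → (B × ((ι → ℂ) × Y)) →L[ℝ] (B × ((ι → ℂ) × Y)) →L[ℝ]
      (B × ((ι → ℂ) × Y))}
    {Ψ : V → B × ((ι → ℂ) × Y)} {x : V} {gV : V → V →L[ℝ] V →L[ℝ] ℝ}
    {CV : V → V →L[ℝ] V →L[ℝ] V}
    (h : Mod g C (cF δ) (DF δ) (HF κ δ) KF A G Γ (Ψ x)) (hA0 : A (Ψ x).1 = 0)
    (hδ : 0 < δ) (hGp : ∀ u, u ≠ 0 → 0 < G (Ψ x) u u)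
    (hΨ : ∀ᶠ y in 𝓝 x, ContDiffAt ℝ ∞ Ψ y) (hV : LC gV CV x)
    (hpb : ∀ᶠ y in 𝓝 x, ∀ u v, gV y u v = G (Ψ y) (fderiv ℝ Ψ y u) (fderiv ℝ Ψ y v))
    (hsph : ∀ᶠ y in 𝓝 x, fl (Ψ y).2 (Ψ y).2 = 1)
    (hinj : Function.Injective (fderiv ℝ Ψ x))
    (hdim : Module.finrank ℝ V + 1 = Module.finrank ℝ (B × ((ι → ℂ) × Y))) (a b c d : V) :
    G (Ψ x) (sff Γ CV Ψ x a b) (sff Γ CV Ψ x c d) =
      hh g δ κ (Ψ x) (fderiv ℝ Ψ x a) (fderiv ℝ Ψ x b) *
        hh g δ κ (Ψ x) (fderiv ℝ Ψ x c) (fderiv ℝ Ψ x d) := by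
  set p := Ψ x with hp
  have hΨx : ContDiffAt ℝ ∞ Ψ x := hΨ.self_of_nhds
  have hD : ContDiffAt ℝ ∞ (fderiv ℝ Ψ) x := hΨx.fderiv_right (by simp)
  have hsx : fl p.2 p.2 = 1 := hsph.self_of_nhds
  have hGs := h.lcG.symm.self_of_nhds
  -- the normal functional
  have hdf : ∀ z : B × ((ι → ℂ) × Y), G p z (0, p.2) = fl p.2 z.2 := by
    intro z
    have hs := (isMetric_cF (ι := ι) (Y := Y) hδ).symm p.2 (Set.mem_univ _)
    rw [G_at h hA0]
    simp only [map_zero, mul_zero, zero_add]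
    rw [hs, cF_rad']
  -- first and second derivative of the constraint
  have hc1 : ∀ᶠ y in 𝓝 x, ∀ b, fl (Ψ y).2 (fderiv ℝ Ψ y b).2 = 0 := by
    filter_upwards [hΨ, eventually_eventually_nhds.2 hsph] with y hy hy2 b
    have k1 : HasFDerivAt (fun z => (Ψ z).2)
        ((snd ℝ B ((ι → ℂ) × Y)).comp (fderiv ℝ Ψ y)) y :=
      hasFDerivAt_snd.comp y (cd_diff hy).hasFDerivAt
    have k2 : HasFDerivAt (fun z => (fl : ((ι → ℂ) × Y) →L[ℝ] ((ι → ℂ) × Y) →L[ℝ] ℝ) (Ψ z).2)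
        (fl.comp ((snd ℝ B ((ι → ℂ) × Y)).comp (fderiv ℝ Ψ y))) y :=
      (ContinuousLinearMap.hasFDerivAt
        (fl : ((ι → ℂ) × Y) →L[ℝ] ((ι → ℂ) × Y) →L[ℝ] ℝ)).comp y k1
    have k3 := k2.clm_apply k1
    have k4 : HasFDerivAt (fun z => fl (Ψ z).2 (Ψ z).2) (0 : V →L[ℝ] ℝ) y :=
      (hasFDerivAt_const (1 : ℝ) y).congr_of_eventuallyEq hy2
    have k5 := congrArg (fun L : V →L[ℝ] ℝ => L b) (k3.unique k4)
    simp only [add_apply, ContinuousLinearMap.comp_apply, flip_apply, coe_snd', zero_apply] at k5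
    rw [fl_symm (fderiv ℝ Ψ y b).2] at k5
    linarith
  have hc2 : ∀ a b, fl (fderiv ℝ Ψ x a).2 (fderiv ℝ Ψ x b).2 +
      fl p.2 (fderiv ℝ (fderiv ℝ Ψ) x a b).2 = 0 := by
    intro a b
    have k1 : HasFDerivAt (fun z => (Ψ z).2)
        ((snd ℝ B ((ι → ℂ) × Y)).comp (fderiv ℝ Ψ x)) x :=
      hasFDerivAt_snd.comp x (cd_diff hΨx).hasFDerivAt
    have k2 : HasFDerivAt (fun z => (fl : ((ι → ℂ) × Y) →L[ℝ] ((ι → ℂ) × Y) →L[ℝ] ℝ) (Ψ z).2)
        (fl.comp ((snd ℝ B ((ι → ℂ) × Y)).comp (fderiv ℝ Ψ x))) x :=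
      (ContinuousLinearMap.hasFDerivAt
        (fl : ((ι → ℂ) × Y) →L[ℝ] ((ι → ℂ) × Y) →L[ℝ] ℝ)).comp x k1
    have k3 : HasFDerivAt (fun z => fderiv ℝ Ψ z b) ((fderiv ℝ (fderiv ℝ Ψ) x).flip b) x := by
      have := (cd_diff hD).hasFDerivAt.clm_apply (hasFDerivAt_const b x)
      refine this.congr_fderiv ?_
      ext z <;> simp
    have k4 : HasFDerivAt (fun z => (fderiv ℝ Ψ z b).2)
        ((snd ℝ B ((ι → ℂ) × Y)).comp ((fderiv ℝ (fderiv ℝ Ψ) x).flip b)) x :=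
      hasFDerivAt_snd.comp x k3
    have k5 := k2.clm_apply k4
    have k6 : HasFDerivAt (fun z => fl (Ψ z).2 (fderiv ℝ Ψ z b).2) (0 : V →L[ℝ] ℝ) x :=
      (hasFDerivAt_const (0 : ℝ) x).congr_of_eventuallyEq (by
        filter_upwards [hc1] with y hy using hy b)
    have k7 := congrArg (fun L : V →L[ℝ] ℝ => L a) (k5.unique k6)
    simp only [add_apply, ContinuousLinearMap.comp_apply, flip_apply, coe_snd', zero_apply] at k7
    linarith
  -- kernel of the normal functional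
  let df : (B × ((ι → ℂ) × Y)) →ₗ[ℝ] ℝ :=
    ((fl p.2).comp (snd ℝ B ((ι → ℂ) × Y))).toLinearMap
  have hdfa : ∀ z, df z = fl p.2 z.2 := fun z => rfl
  have hrange : LinearMap.range (fderiv ℝ Ψ x).toLinearMap = LinearMap.ker df := by
    apply Submodule.eq_of_le_of_finrank_eq
    · rintro _ ⟨z, rfl⟩
      exact hc1.self_of_nhds z
    · have k1 : Module.finrank ℝ (LinearMap.range (fderiv ℝ Ψ x).toLinearMap) =
          Module.finrank ℝ V := LinearMap.finrank_range_of_inj hinj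
      have k2 := LinearMap.finrank_range_add_finrank_ker df
      have k3 : LinearMap.range df = ⊤ := by
        apply LinearMap.range_eq_top.2
        intro t
        refine ⟨t • (0, p.2), ?_⟩
        rw [map_smul, hdfa, hsx, smul_eq_mul, mul_one]
      rw [k3, finrank_top, Module.finrank_self] at k2
      omega
  -- normality
  have hn := sff_normal h.lcG hV hΨx hpb
  have key : ∀ a b, sff Γ CV Ψ x a b = (fl p.2 (sff Γ CV Ψ x a b).2) • (0, p.2) := by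
    intro a b
    set z := sff Γ CV Ψ x a b - (fl p.2 (sff Γ CV Ψ x a b).2) • (0, p.2) with hz
    have k1 : z ∈ LinearMap.ker df := by
      rw [LinearMap.mem_ker, hdfa, hz]
      simp only [Prod.snd_sub, Prod.smul_snd, map_sub, map_smul, smul_eq_mul]
      rw [hsx]
      ring
    rw [← hrange] at k1
    obtain ⟨c, hc⟩ := k1
    have hc' : fderiv ℝ Ψ x c = z := hc
    have k2 : G p z z = 0 := by
      have k3 := hn a b c
      rw [hc'] at k3
      have k4 : G p (0, p.2) z = 0 := by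
        rw [hGs, hdf, ← hc']
        exact hc1.self_of_nhds c
      have k5 : ∀ y, G p z y = G p (sff Γ CV Ψ x a b) y -
          fl p.2 (sff Γ CV Ψ x a b).2 * G p (0, p.2) y := by
        intro y
        rw [hz]
        simp only [map_sub, map_smul, sub_apply, smul_apply, smul_eq_mul]
      rw [k5, k3, k4]
      simp
    by_contra hne
    have k5 : z ≠ 0 := by
      intro h0
      apply hne
      rw [hz, sub_eq_zero] at h0
      exact h0
    exact (hGp z k5).ne' k2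
  -- value
  have val : ∀ a b, fl p.2 (sff Γ CV Ψ x a b).2 =
      - hh g δ κ p (fderiv ℝ Ψ x a) (fderiv ℝ Ψ x b) := by
    intro a b
    have k1 : fl p.2 (fderiv ℝ Ψ x (CV x a b)).2 = 0 := hc1.self_of_nhds _
    have k2 := hc2 a b
    have k3 : ∀ u v : B × ((ι → ℂ) × Y), fl p.2 (Γ p u v).2 =
        - (1 / 2) * fderiv ℝ (HF κ δ) p.2 p.2 * g p.1 u.1 v.1 +
          cF δ p.2 (DF δ p.2 u.2 v.2) p.2 := by
      intro u v
      have j1 := nu_pair h hA0 u v (0, p.2)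
      have j2 : nu KF A Γ p u v = (0, - KF (fderiv ℝ A p.1 u.1 v.1) p.2) + Γ p u v := by
        rw [nu, nab, hasFDerivAt_fr (cd_diff h.As.self_of_nhds), fr_at hA0, fr_at hA0]
        simp [hA0]
      rw [j2, hdf, Prod.snd_add, map_add, map_neg, ← cF_rad' (δ := δ)] at j1
      have hs := (isMetric_cF (ι := ι) (Y := Y) hδ).symm p.2 (Set.mem_univ _)
      rw [hs, cF_rot_self hδ] at j1
      simp only [map_zero, mul_zero, crv_z2, zero_apply, add_zero, neg_zero, zero_add] at j1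
      rw [cF_rot_self hδ] at j1
      linarith
    simp only [sff, dd, Prod.snd_sub, Prod.snd_add, map_sub, map_add]
    rw [k1, k3, hh]
    linarith
  have hone : G p (0, p.2) (0, p.2) = 1 := by rw [hdf, hsx]
  rw [key a b, key c d, val, val]
  simp only [map_smul, smul_apply, smul_eq_mul]
  rw [hone]
  ring

/-- **lower curvature bound of the unit hypersurface of the local model** -/
theorem hyper_curv {g : B → B →L[ℝ] B →L[ℝ] ℝ} {C : B → B →L[ℝ] B →L[ℝ] B}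
    {A : B → B →L[ℝ] (ι → ℝ)}
    {G : B × ((ι → ℂ) × Y) → (B × ((ι → ℂ) × Y)) →L[ℝ] (B × ((ι → ℂ) × Y)) →L[ℝ] ℝ}
    {Γ : B × ((ι → ℂ) × Y) → (B × ((ι → ℂ) × Y)) →L[ℝ] (B × ((ι → ℂ) × Y)) →L[ℝ]
      (B × ((ι → ℂ) × Y))}
    {Ψ : V → B × ((ι → ℂ) × Y)} {x : V} {gV : V → V →L[ℝ] V →L[ℝ] ℝ}
    {CV : V → V →L[ℝ] V →L[ℝ] V}
    (h : Mod g C (cF δ) (DF δ) (HF κ δ) KF A G Γ (Ψ x)) (hA0 : A (Ψ x).1 = 0)
    (hδ : 0 < δ) (hδ1 : δ ≤ 1) {Λ : ℝ} (hB : Bds g C A Λ (Ψ x).1) (hκ : 2 * Λ ≤ κ)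
    (hH : 1 / 4 ≤ HF κ δ (Ψ x).2) (hH1 : HF κ δ (Ψ x).2 ≤ 1) {ε : ℝ} (hε : 0 ≤ ε)
    (hR : ∀ (m : ℕ) (a b : Fin m → B), - ε * wed (fun u v => g (Ψ x).1 u v) a b ≤
      ∑ i, ∑ j, g (Ψ x).1 (riem C (Ψ x).1 (a i) (b i) (b j)) (a j))
    (hΨ : ∀ᶠ y in 𝓝 x, ContDiffAt ℝ ∞ Ψ y) (hV : LC gV CV x)
    (hpb : ∀ᶠ y in 𝓝 x, ∀ u v, gV y u v = G (Ψ y) (fderiv ℝ Ψ y u) (fderiv ℝ Ψ y v))
    (hsph : ∀ᶠ y in 𝓝 x, fl (Ψ y).2 (Ψ y).2 = 1)
    (hinj : Function.Injective (fderiv ℝ Ψ x))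
    (hdim : Module.finrank ℝ V + 1 = Module.finrank ℝ (B × ((ι → ℂ) × Y)))
    {m : ℕ} (u v : Fin m → V) :
    - (4 * ε + δ * (KC B ι Y κ Λ + Fintype.card ι * κ)) * wed (fun u v => gV x u v) u v ≤
      ∑ i, ∑ j, gV x (riem CV x (u i) (v i) (v j)) (u j) := by
  set p := Ψ x with hp
  obtain ⟨r, e, hP⟩ := exists_pol p.2
  have hΛ := hB.nn
  have hκ0 : 0 ≤ κ := by linarith
  have hΨx : ContDiffAt ℝ ∞ Ψ x := hΨ.self_of_nhds
  have hpx := hpb.self_of_nhds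
  set H := HF κ δ p.2 with hHd
  have hHp : 0 < H := HF_pos
  obtain ⟨f, hf1, hf2⟩ := exists_onb
    ((ContinuousLinearMap.coeLM ℝ : (B →L[ℝ] ℝ) →ₗ[ℝ] (B →ₗ[ℝ] ℝ)).comp
      (g p.1).toLinearMap) hB.gs hB.gp
  have hf2' : ∀ a, a = ∑ q, g p.1 (f q) a • f q := hf2
  set b := g p.1 with hb
  set θ := thE b f H δ p.2 e with hθ
  have hpair : ∀ u v : B × ((ι → ℂ) × Y), G p u v = ∑ q, θ q u * θ q v := by
    intro u v
    rw [G_at h hA0]
    exact pair_E hP hδ hHp hf2' hB.gs u v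
  have hGp : ∀ u, u ≠ 0 → 0 < G p u u := by
    intro u hu
    rw [G_at h hA0]
    have k1 : 0 ≤ g p.1 u.1 u.1 := hB.gnn _
    have k2 : 0 ≤ cF δ p.2 u.2 u.2 := cF_nonneg hδ _
    by_cases h0 : u.1 = 0
    · have h1 : u.2 ≠ 0 := fun h1 => hu (Prod.ext h0 h1)
      have k3 := (isMetric_cF hδ).pos p.2 (Set.mem_univ _) u.2 h1
      have : 0 ≤ H * g p.1 u.1 u.1 := mul_nonneg hHp.le k1
      linarith
    · have k3 := hB.gp u.1 h0
      have : 0 < H * g p.1 u.1 u.1 := mul_pos hHp k3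
      linarith
  -- ambient curvature
  have amb := local_curv h hA0 hδ hδ1 hB hκ hH hH1 hε hR (fun i => fderiv ℝ Ψ x (u i))
    (fun i => fderiv ℝ Ψ x (v i))
  have hwed : wed (fun u v => gV x u v) u v = wed (fun u v => G p u v)
      (fun i => fderiv ℝ Ψ x (u i)) (fun i => fderiv ℝ Ψ x (v i)) := by
    simp only [wed, hpx]
    rfl
  rw [← hwed] at amb
  -- Gauss equation
  have hga : ∑ i, ∑ j, gV x (riem CV x (u i) (v i) (v j)) (u j) =
      ∑ i, ∑ j, G p (riem Γ p (fderiv ℝ Ψ x (u i)) (fderiv ℝ Ψ x (v i)) (fderiv ℝ Ψ x (v j)))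
        (fderiv ℝ Ψ x (u j)) +
      wed (hh g δ κ p) (fun i => fderiv ℝ Ψ x (u i)) (fun i => fderiv ℝ Ψ x (v i)) := by
    rw [wed, ← Finset.sum_add_distrib]
    refine Finset.sum_congr rfl fun i _ => ?_
    rw [← Finset.sum_add_distrib]
    refine Finset.sum_congr rfl fun j _ => ?_
    rw [gauss h.lcG hV hΨ hpb, hyper_sff h hA0 hδ hGp hΨ hV hpb hsph hinj hdim,
      hyper_sff h hA0 hδ hGp hΨ hV hpb hsph hinj hdim]
    ring
  -- the second fundamental form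
  have hsx : fl p.2 p.2 = 1 := hsph.self_of_nhds
  set lam := - ((1 / 2) * fderiv ℝ (HF κ δ) p.2 p.2) with hlam
  have hlam0 : lam = κ * δ * H * ∑ l, th δ p.2 r l * r l := by
    rw [hlam, fderiv_HF hδ, hP.dm hδ]
    simp only [hP.al_self]
    ring
  have hr1 : ∀ l, r l ≤ 1 := by
    intro l
    have k1 : (r l) ^ 2 ≤ 1 := by
      rw [← hsx, fl_apply]
      have k2 : dt2 (p.2.1 l) (p.2.1 l) ≤ ∑ l, dt2 (p.2.1 l) (p.2.1 l) := by
        refine Finset.single_le_sum (f := fun l => dt2 (p.2.1 l) (p.2.1 l)) (fun i _ => ?_)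
          (Finset.mem_univ l)
        simp only [dt2_apply]
        exact add_nonneg (mul_self_nonneg _) (mul_self_nonneg _)
      have k3 : 0 ≤ inner ℝ p.2.2 p.2.2 := real_inner_self_nonneg
      have k4 : dt2 (p.2.1 l) (p.2.1 l) = (r l) ^ 2 := by
        rw [hP.dtn, hP.al_self]
        ring
      linarith
    have := hP.hr l
    nlinarith
  have hlamn : 0 ≤ lam := by
    rw [hlam0]
    have k1 : 0 ≤ ∑ l, th δ p.2 r l * r l :=
      Finset.sum_nonneg fun l _ => mul_nonneg (hP.th_nonneg hδ l) (hP.hr l)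
    positivity
  have hlamb : lam / H ≤ δ * (Fintype.card ι * κ) := by
    rw [hlam0]
    have k1 : ∑ l, th δ p.2 r l * r l ≤ Fintype.card ι := by
      have k2 : ∀ l ∈ (Finset.univ : Finset ι), th δ p.2 r l * r l ≤ 1 := fun l _ =>
        mul_le_one₀ (hP.th_le hδ l) (hP.hr l) (hr1 l)
      refine (Finset.sum_le_sum k2).trans ?_
      simp
    have k3 : κ * δ * H * (∑ l, th δ p.2 r l * r l) / H = κ * δ * ∑ l, th δ p.2 r l * r l := by
      field_simp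
    rw [k3]
    calc κ * δ * ∑ l, th δ p.2 r l * r l ≤ κ * δ * Fintype.card ι := by gcongr
      _ = _ := by ring
  let sc : PI B ι Y → ℝ := fun q => match q with
    | Sum.inl _ => - (lam / H)
    | Sum.inr (Sum.inl (Sum.inl _)) => 1
    | Sum.inr (Sum.inl (Sum.inr l)) => tt δ p.2 l ^ 2
    | Sum.inr (Sum.inr _) => 1
  have hhd : ∀ u v : B × ((ι → ℂ) × Y), hh g δ κ p u v = ∑ q, sc q * (θ q u * θ q v) := by
    intro u v
    rw [hh, hess_ff hP hδ, Fintype.sum_sum_type, Fintype.sum_sum_type, Fintype.sum_sum_type]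
    simp only [sc, hθ, thE]
    rw [← hb, base_pair hf2' hB.gs u.1 v.1, Finset.sum_add_distrib]
    have h2 := Real.mul_self_sqrt hHp.le
    have h1 : ∀ q, - (lam / H) * (Real.sqrt H * b (f q) u.1 * (Real.sqrt H * b (f q) v.1)) =
        - lam * (b (f q) u.1 * b (f q) v.1) := by
      intro q
      have : - (lam / H) * (Real.sqrt H * b (f q) u.1 * (Real.sqrt H * b (f q) v.1)) =
        - (lam / H) * (Real.sqrt H * Real.sqrt H) * (b (f q) u.1 * b (f q) v.1) := by ring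
      rw [this, h2]
      field_simp
    have h3 : ∑ m, inner ℝ (stdOrthonormalBasis ℝ Y m) u.2.2 *
        inner ℝ (stdOrthonormalBasis ℝ Y m) v.2.2 = inner ℝ u.2.2 v.2.2 := by
      rw [← (stdOrthonormalBasis ℝ Y).sum_inner_mul_inner u.2.2 v.2.2]
      refine Finset.sum_congr rfl fun m _ => ?_
      rw [real_inner_comm]
    simp only [h1, one_mul, h3, ← Finset.mul_sum]
    rw [hlam]
    ring
  have hwh := wed_diag θ sc (hh g δ κ p) hhd (fun i => fderiv ℝ Ψ x (u i))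
    (fun i => fderiv ℝ Ψ x (v i))
  have hwG : wed (fun u v => gV x u v) u v = (1 / 2) * ∑ q, ∑ q',
      (mm θ (fun i => fderiv ℝ Ψ x (u i)) (fun i => fderiv ℝ Ψ x (v i)) q q') ^ 2 := by
    rw [hwed]
    have := wed_diag θ (fun _ => 1) (fun u v => G p u v) (fun a b => by rw [hpair]; simp)
      (fun i => fderiv ℝ Ψ x (u i)) (fun i => fderiv ℝ Ψ x (v i))
    simpa using this
  have hsc : ∀ q, (0 ≤ sc q ∧ sc q ≤ 1) ∨ (- (δ * (Fintype.card ι * κ)) ≤ sc q ∧ sc q ≤ 0) := by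
    have hlH : 0 ≤ lam / H := div_nonneg hlamn hHp.le
    rintro (q | (l | l) | m)
    · right
      simp only [sc]
      constructor <;> linarith
    · left
      simp only [sc]
      norm_num
    · left
      simp only [sc]
      have a1 := tt_pos (n := p.2) hδ l
      have a2 := hP.tt_le hδ l
      constructor
      · positivity
      · nlinarith
    · left
      simp only [sc]
      norm_num
  have hcb : 0 ≤ δ * (Fintype.card ι * κ) := by positivity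
  have hscc : ∀ q q', - (δ * (Fintype.card ι * κ)) ≤ sc q * sc q' := by
    intro q q'
    rcases hsc q with ⟨a1, a2⟩ | ⟨a1, a2⟩ <;> rcases hsc q' with ⟨b1, b2⟩ | ⟨b1, b2⟩
    · have := mul_nonneg a1 b1
      linarith
    · nlinarith
    · nlinarith
    · have := mul_nonneg_of_nonpos_of_nonpos a2 b2
      linarith
  have hwl : - (δ * (Fintype.card ι * κ)) * wed (fun u v => gV x u v) u v ≤
      wed (hh g δ κ p) (fun i => fderiv ℝ Ψ x (u i)) (fun i => fderiv ℝ Ψ x (v i)) := by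
    rw [hwh, hwG, ← mul_assoc, mul_comm (- (δ * (Fintype.card ι * κ))) (1 / 2), mul_assoc]
    refine mul_le_mul_of_nonneg_left ?_ (by norm_num)
    simp only [Finset.mul_sum]
    refine Finset.sum_le_sum fun q _ => Finset.sum_le_sum fun q' _ => ?_
    exact mul_le_mul_of_nonneg_right (hscc q q') (sq_nonneg _)
  rw [hga]
  have e1 : - (4 * ε + δ * (KC B ι Y κ Λ + Fintype.card ι * κ)) *
      wed (fun u v => gV x u v) u v = - (4 * ε + δ * KC B ι Y κ Λ) *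
      wed (fun u v => gV x u v) u v + - (δ * (Fintype.card ι * κ)) *
      wed (fun u v => gV x u v) u v := by ring
  rw [e1]
  exact add_le_add amb hwl

end Pool.Agent.H21_anco
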