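import Pool.Agent.H21_anco.Defs
import Pool.Agent.H21_anco.Hyper

/-!
Sphere bundles of sums of complex line bundles and a trivial bundle, as subsets of a normed space,
and the ambient bilinear forms which induce the metrics of the theorem.
-/

open scoped ContDiff Topology
open Filter Set

set_option maxSynthPendingDepth 3
set_option linter.unusedSectionVars false

noncomputable section

namespace Pool.Agent.H21_anco

variable {E : Type*} [NormedAddCommGroup E] [NormedSpace ℝ E]
  {F : Type*} [NormedAddCommGroup F] [InnerProductSpace ℂ F]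
  {ι : Type*} [Fintype ι]
  {Y : Type*} [NormedAddCommGroup Y] [InnerProductSpace ℝ Y]

/-- orthogonal projections onto complex lines of the Hermitian space `F` -/
structure IsLineProj (T : F →L[ℂ] F) : Prop where
  idem : ∀ v, T (T v) = T v
  symm : ∀ v w, inner ℂ (T v) w = inner ℂ v (T w)
  rank : Module.finrank ℂ (LinearMap.range T.toLinearMap) = 1

/-- the unit sphere bundle of `L_1 ⊕ ⋯ ⊕ L_k ⊕ Y` over `B`, where `L_i` is the complex line bundle
with fibre the image of `P i b` over `b` -/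
def SB (B : Set E) (P : ι → E → F →L[ℂ] F) : Set (E × ((ι → F) × Y)) :=
  {q | q.1 ∈ B ∧ (∀ i, P i q.1 (q.2.1 i) = q.2.1 i) ∧ ∑ i, ‖q.2.1 i‖ ^ 2 + ‖q.2.2‖ ^ 2 = 1}

/-- real part of the Hermitian product -/
def reB : F →L[ℝ] F →L[ℝ] ℝ :=
  LinearMap.mkContinuous₂ (LinearMap.mk₂ ℝ (fun x y : F => (inner ℂ x y).re)
    (fun x x' y => by simp)
    (fun c x y => by
      rw [show c • x = (c : ℂ) • x from rfl, inner_smul_left]
      simp)
    (fun x y y' => by simp)
    (fun c x y => by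
      rw [show c • y = (c : ℂ) • y from rfl, inner_smul_right]
      simp)) 1
    (fun x y => by
      rw [one_mul]
      exact (Complex.abs_re_le_norm _).trans (norm_inner_le_norm x y))

/-- imaginary part of the Hermitian product -/
def imB : F →L[ℝ] F →L[ℝ] ℝ :=
  LinearMap.mkContinuous₂ (LinearMap.mk₂ ℝ (fun x y : F => (inner ℂ x y).im)
    (fun x x' y => by simp)
    (fun c x y => by
      rw [show c • x = (c : ℂ) • x from rfl, inner_smul_left]
      simp)
    (fun x y y' => by simp)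
    (fun c x y => by
      rw [show c • y = (c : ℂ) • y from rfl, inner_smul_right]
      simp)) 1
    (fun x y => by
      rw [one_mul]
      exact (Complex.abs_im_le_norm _).trans (norm_inner_le_norm x y))

@[simp] theorem reB_apply (x y : F) : reB x y = (inner ℂ x y).re := rfl
@[simp] theorem imB_apply (x y : F) : imB x y = (inner ℂ x y).im := rfl

/-- projection to the `i`-th vector component -/
def pw (i : ι) : (E × ((ι → F) × Y)) →L[ℝ] F :=
  (ContinuousLinearMap.proj (R := ℝ) (φ := fun _ : ι => F) i).comp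
    ((ContinuousLinearMap.fst ℝ (ι → F) Y).comp (ContinuousLinearMap.snd ℝ E ((ι → F) × Y)))

/-- projection to the last component -/
def py : (E × ((ι → F) × Y)) →L[ℝ] Y :=
  (ContinuousLinearMap.snd ℝ (ι → F) Y).comp (ContinuousLinearMap.snd ℝ E ((ι → F) × Y))

theorem pw_apply (i : ι) (q : E × ((ι → F) × Y)) : pw i q = q.2.1 i := rfl
theorem py_apply (q : E × ((ι → F) × Y)) : py q = q.2.2 := rfl

/-- the ambient bilinear forms inducing the metric on the sphere bundle -/
def Gh (G : E → E →L[ℝ] E →L[ℝ] ℝ) (P : ι → E → F →L[ℂ] F) (κ δ : ℝ) (q : E × ((ι → F) × Y)) :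
    (E × ((ι → F) × Y)) →L[ℝ] (E × ((ι → F) × Y)) →L[ℝ] ℝ :=
  (Real.exp (- (2 * κ * δ) * ∑ i, Real.sqrt (δ ^ 2 + ‖q.2.1 i‖ ^ 2))) •
    (G q.1).bilinearComp (ContinuousLinearMap.fst ℝ E ((ι → F) × Y))
      (ContinuousLinearMap.fst ℝ E ((ι → F) × Y)) +
  ∑ i, (reB.bilinearComp (((P i q.1).restrictScalars ℝ).comp (pw i)) (pw i) -
    (δ ^ 2 + ‖q.2.1 i‖ ^ 2)⁻¹ • ((imB (q.2.1 i)).comp (pw i)).smulRight
      ((imB (q.2.1 i)).comp (pw i))) +
  (innerSL ℝ).bilinearComp py py

theorem Gh_apply (G : E → E →L[ℝ] E →L[ℝ] ℝ) (P : ι → E → F →L[ℂ] F) (κ δ : ℝ)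
    (q u v : E × ((ι → F) × Y)) : Gh G P κ δ q u v =
      Real.exp (- (2 * κ * δ) * ∑ i, Real.sqrt (δ ^ 2 + ‖q.2.1 i‖ ^ 2)) * G q.1 u.1 v.1 +
      ∑ i, ((inner ℂ (P i q.1 (u.2.1 i)) (v.2.1 i)).re - (δ ^ 2 + ‖q.2.1 i‖ ^ 2)⁻¹ *
        ((inner ℂ (q.2.1 i) (u.2.1 i)).im * (inner ℂ (q.2.1 i) (v.2.1 i)).im)) +
      inner ℝ u.2.2 v.2.2 := by
  simp only [Gh, add_apply, smul_apply, sub_apply, sum_apply,
    ContinuousLinearMap.bilinearComp_apply, ContinuousLinearMap.coe_fst', smul_eq_mul,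
    ContinuousLinearMap.comp_apply, ContinuousLinearMap.smulRight_apply, pw_apply, py_apply,
    reB_apply, imB_apply, ContinuousLinearMap.coe_restrictScalars', innerSL_apply_apply]

end Pool.Agent.H21_anco
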