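import Pool.Agent.H21_anco.Curv

/-!
The sphere bundle is a closed manifold.
-/

open scoped ContDiff Topology
open Filter Set

set_option maxSynthPendingDepth 3
set_option linter.unusedSectionVars false

noncomputable section

namespace Pool.Agent.H21_anco

variable {E : Type*} [NormedAddCommGroup E] [NormedSpace ℝ E] [FiniteDimensional ℝ E]
  {F : Type*} [NormedAddCommGroup F] [InnerProductSpace ℂ F] [FiniteDimensional ℂ F]
  {ι : Type*} [Fintype ι] [DecidableEq ι]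
  {Y : Type*} [NormedAddCommGroup Y] [InnerProductSpace ℝ Y] [FiniteDimensional ℝ Y]
  {B : Set E} {n : ℕ} {P : ι → E → F →L[ℂ] F}

theorem isCompact_SB (hB : IsCompact B) (hP : ∀ i, ContDiff ℝ ∞ (P i)) :
    IsCompact (SB (Y := Y) B P) := by
  have : FiniteDimensional ℝ F := FiniteDimensional.complexToReal F
  have hK : IsCompact (B ×ˢ ((Set.univ.pi fun _ : ι => Metric.closedBall (0 : F) 1) ×ˢ
      Metric.closedBall (0 : Y) 1)) :=
    hB.prod ((isCompact_univ_pi fun _ => isCompact_closedBall _ _).prod (isCompact_closedBall _ _))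
  refine hK.of_isClosed_subset ?_ ?_
  · have c1 : Continuous (fun q : E × ((ι → F) × Y) => q.1) := continuous_fst
    have c2 : ∀ i, Continuous (fun q : E × ((ι → F) × Y) => q.2.1 i) := fun i =>
      (pw i : (E × ((ι → F) × Y)) →L[ℝ] F).continuous
    have c3 : Continuous (fun q : E × ((ι → F) × Y) => q.2.2) := continuous_snd.snd
    have c4 : ∀ i, Continuous (fun q : E × ((ι → F) × Y) => P i q.1 (q.2.1 i)) := fun i =>
      (contDiff_app ((hP i).comp contDiff_fst)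
        (pw i : (E × ((ι → F) × Y)) →L[ℝ] F).contDiff).continuous
    have h1 : IsClosed {q : E × ((ι → F) × Y) | q.1 ∈ B} := hB.isClosed.preimage c1
    have h2 : IsClosed {q : E × ((ι → F) × Y) | ∀ i, P i q.1 (q.2.1 i) = q.2.1 i} := by
      have : {q : E × ((ι → F) × Y) | ∀ i, P i q.1 (q.2.1 i) = q.2.1 i} =
          ⋂ i, {q | P i q.1 (q.2.1 i) = q.2.1 i} := by
        ext q
        simp
      rw [this]
      exact isClosed_iInter fun i => isClosed_eq (c4 i) (c2 i)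
    have h3 : IsClosed {q : E × ((ι → F) × Y) | ∑ i, ‖q.2.1 i‖ ^ 2 + ‖q.2.2‖ ^ 2 = 1} := by
      refine isClosed_eq ?_ continuous_const
      exact (continuous_finsetSum _ fun i _ => (c2 i).norm.pow 2).add (c3.norm.pow 2)
    exact h1.inter (h2.inter h3)
  · rintro q ⟨h1, -, h3⟩
    have k1 : ∀ i, ‖q.2.1 i‖ ^ 2 ≤ 1 := by
      intro i
      have := Finset.single_le_sum (f := fun i => ‖q.2.1 i‖ ^ 2) (fun i _ => sq_nonneg _)
        (Finset.mem_univ i)
      have h4 := sq_nonneg ‖q.2.2‖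
      linarith
    have k2 : ‖q.2.2‖ ^ 2 ≤ 1 := by
      have : 0 ≤ ∑ i, ‖q.2.1 i‖ ^ 2 := Finset.sum_nonneg fun i _ => sq_nonneg _
      linarith
    refine ⟨h1, ⟨fun i _ => ?_, ?_⟩⟩
    · rw [mem_closedBall_zero_iff]
      have := norm_nonneg (q.2.1 i)
      nlinarith [k1 i]
    · rw [mem_closedBall_zero_iff]
      have := norm_nonneg q.2.2
      nlinarith

/-! ### central projection of the sphere of the fibre -/

theorem fl_nonneg (m : (ι → ℂ) × Y) : 0 ≤ fl m m := by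
  rw [fl_apply]
  have h1 : 0 ≤ inner ℝ m.2 m.2 := real_inner_self_nonneg
  have h2 : 0 ≤ ∑ i, dt2 (m.1 i) (m.1 i) := Finset.sum_nonneg fun i _ => by
    simp only [dt2_apply]
    exact add_nonneg (mul_self_nonneg _) (mul_self_nonneg _)
  linarith

/-- normalisation -/
def nrm (m : (ι → ℂ) × Y) : (ι → ℂ) × Y := (Real.sqrt (fl m m))⁻¹ • m

theorem fl_nrm {m : (ι → ℂ) × Y} (h : 0 < fl m m) : fl (nrm m) (nrm m) = 1 := by
  simp only [nrm, map_smul, smul_apply, smul_eq_mul]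
  rw [← mul_assoc, ← mul_inv, Real.mul_self_sqrt h.le, inv_mul_cancel₀ h.ne']

/-- the hyperplane orthogonal to `n0` -/
abbrev K0 (n0 : (ι → ℂ) × Y) : Submodule ℝ ((ι → ℂ) × Y) := LinearMap.ker (fl n0).toLinearMap

/-- projection to the hyperplane -/
def pr0 (n0 : (ι → ℂ) × Y) (h0 : fl n0 n0 = 1) : ((ι → ℂ) × Y) →L[ℝ] K0 n0 :=
  (ContinuousLinearMap.id ℝ _ - (fl n0).smulRight n0).codRestrict (K0 n0) (by
    intro m
    rw [LinearMap.mem_ker]
    simp [h0])

theorem pr0_apply (n0 : (ι → ℂ) × Y) (h0 : fl n0 n0 = 1) (m : (ι → ℂ) × Y) :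
    (pr0 n0 h0 m : (ι → ℂ) × Y) = m - fl n0 m • n0 := rfl

theorem fl_shift {n0 : (ι → ℂ) × Y} (h0 : fl n0 n0 = 1) (s : K0 n0) :
    fl (n0 + (s : (ι → ℂ) × Y)) (n0 + s) = 1 + fl (s : (ι → ℂ) × Y) s ∧
      fl n0 (n0 + (s : (ι → ℂ) × Y)) = 1 := by
  have h1 : fl n0 (s : (ι → ℂ) × Y) = 0 := s.2
  constructor
  · simp only [map_add, add_apply]
    rw [fl_symm (s : (ι → ℂ) × Y) n0, h0, h1]
    ring
  · rw [map_add, h0, h1, add_zero]

theorem fl_shift_pos {n0 : (ι → ℂ) × Y} (h0 : fl n0 n0 = 1) (s : K0 n0) :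
    0 < fl (n0 + (s : (ι → ℂ) × Y)) (n0 + s) := by
  rw [(fl_shift h0 s).1]
  have := fl_nonneg (s : (ι → ℂ) × Y)
  linarith

theorem pr0_nrm {n0 : (ι → ℂ) × Y} (h0 : fl n0 n0 = 1) (s : K0 n0) :
    0 < fl n0 (nrm (n0 + (s : (ι → ℂ) × Y))) ∧
    (fl n0 (nrm (n0 + (s : (ι → ℂ) × Y))))⁻¹ • pr0 n0 h0 (nrm (n0 + (s : (ι → ℂ) × Y))) = s := by
  have h1 := fl_shift_pos h0 s
  have h2 := (fl_shift h0 s).2
  have h3 : 0 < (Real.sqrt (fl (n0 + (s : (ι → ℂ) × Y)) (n0 + s)))⁻¹ :=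
    inv_pos.2 (Real.sqrt_pos.2 h1)
  have h4 : fl n0 (nrm (n0 + (s : (ι → ℂ) × Y))) =
      (Real.sqrt (fl (n0 + (s : (ι → ℂ) × Y)) (n0 + s)))⁻¹ := by
    rw [nrm, map_smul, h2, smul_eq_mul, mul_one]
  rw [h4]
  refine ⟨h3, ?_⟩
  apply Subtype.ext
  rw [nrm, map_smul, smul_smul, inv_mul_cancel₀ h3.ne', one_smul, pr0_apply, h2, one_smul,
    add_sub_cancel_left]

theorem nrm_pr0 {n0 m : (ι → ℂ) × Y} (h0 : fl n0 n0 = 1) (hm : fl m m = 1) (hp : 0 < fl n0 m) :
    nrm (n0 + (((fl n0 m)⁻¹ • (pr0 n0 h0 m) : K0 n0) : (ι → ℂ) × Y)) = m := by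
  have h1 : n0 + (((fl n0 m)⁻¹ • (pr0 n0 h0 m) : K0 n0) : (ι → ℂ) × Y) = (fl n0 m)⁻¹ • m := by
    rw [Submodule.coe_smul, pr0_apply, smul_sub, smul_smul, inv_mul_cancel₀ hp.ne', one_smul]
    abel
  rw [h1, nrm]
  simp only [map_smul, smul_apply, hm, smul_smul, smul_eq_mul, mul_one]
  rw [Real.sqrt_mul_self (inv_pos.2 hp).le, inv_inv, mul_inv_cancel₀ hp.ne', one_smul]

theorem finrank_K0 {n0 : (ι → ℂ) × Y} (h0 : fl n0 n0 = 1) :
    Module.finrank ℝ (K0 n0) + 1 = Module.finrank ℝ ((ι → ℂ) × Y) := by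
  have k2 := LinearMap.finrank_range_add_finrank_ker (fl n0).toLinearMap
  have k3 : LinearMap.range (fl n0).toLinearMap = ⊤ := by
    apply LinearMap.range_eq_top.2
    intro t
    refine ⟨t • n0, ?_⟩
    have : fl n0 (t • n0) = t := by rw [map_smul, h0, smul_eq_mul, mul_one]
    exact this
  rw [k3, finrank_top, Module.finrank_self] at k2
  have k4 : 1 + Module.finrank ℝ (K0 n0) = Module.finrank ℝ ((ι → ℂ) × Y) := k2
  omega

/-- fibre coordinate -/
def nuq {n : ℕ} (ρ : E → RR n) (e : ι → RR n → F) (q : E × ((ι → F) × Y)) : (ι → ℂ) × Y :=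
  ((fun i => inner ℂ (e i (ρ q.1)) (q.2.1 i)), q.2.2)

variable {b : E} {U : Set (RR n)} {ψ : RR n → E} {W : Set E} {ρ : E → RR n} {e : ι → RR n → F}
  {A : RR n → RR n →L[ℝ] (ι → ℝ)}

theorem nuq_Th (h : LData B n P b U ψ W ρ e A) {x : RR n} (hx : x ∈ U) (m : (ι → ℂ) × Y) :
    nuq ρ e (Th ψ e (x, m)) = m := by
  have h1 := (h.chart.right x hx).2
  simp only [nuq, Th]
  refine Prod.ext ?_ rfl
  funext i
  simp only
  rw [h1, inner_smul_right, inner_self_eq_norm_sq_to_K, h.en i x hx]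
  simp

theorem Th_nuq (h : LData B n P b U ψ W ρ e A) (hL : ∀ i, ∀ b ∈ B, IsLineProj (P i b))
    {q : E × ((ι → F) × Y)} (hq : q ∈ SB B P) (hqW : q.1 ∈ W) :
    Th ψ e (ρ q.1, nuq ρ e q) = q ∧ fl (nuq ρ e q) (nuq ρ e q) = 1 := by
  obtain ⟨h1, h2⟩ := h.chart.left q.1 hqW hq.1
  have h5 : ∀ i, q.2.1 i = inner ℂ (e i (ρ q.1)) (q.2.1 i) • e i (ρ q.1) := by
    intro i
    have h4 := h.eP i _ h1
    rw [h2] at h4
    exact (hL i _ hq.1).eq_of_fix h4 (h.en i _ h1) (hq.2.1 i)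
  constructor
  · simp only [Th, nuq]
    refine Prod.ext h2 (Prod.ext ?_ rfl)
    funext i
    exact (h5 i).symm
  · rw [fl_apply, ← hq.2.2]
    congr 1
    · refine Finset.sum_congr rfl fun i _ => ?_
      have k6 : ‖q.2.1 i‖ = ‖inner ℂ (e i (ρ q.1)) (q.2.1 i)‖ := by
        conv_lhs => rw [h5 i]
        rw [norm_smul, h.en i _ h1, mul_one]
      rw [k6, ← Complex.normSq_eq_norm_sq, Complex.normSq_apply]
      simp only [nuq, dt2_apply]
    · rw [real_inner_self_eq_norm_sq]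
      rfl

theorem Th_mem (h : LData B n P b U ψ W ρ e A) {x : RR n} (hx : x ∈ U) {m : (ι → ℂ) × Y}
    (hm : fl m m = 1) : Th ψ e (x, m) ∈ SB B P := by
  refine ⟨h.chart.param.maps x hx, ?_, ?_⟩
  · intro i
    simp only [Th]
    rw [map_smul, h.eP i x hx]
  · rw [← hm, fl_apply]
    congr 1
    · refine Finset.sum_congr rfl fun i _ => ?_
      simp only [Th]
      rw [norm_smul, h.en i x hx, mul_one, ← Complex.normSq_eq_norm_sq, Complex.normSq_apply]
      simp only [dt2_apply]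
    · rw [real_inner_self_eq_norm_sq]
      rfl

theorem contDiffOn_Th (h : LData B n P b U ψ W ρ e A) :
    ContDiffOn ℝ ∞ (Th (Y := Y) ψ e) (U ×ˢ univ) := by
  have hfst : ContDiffOn ℝ ∞ (fun q : RR n × ((ι → ℂ) × Y) => q.1) (U ×ˢ univ) := contDiffOn_fst
  have hmaps : MapsTo (fun q : RR n × ((ι → ℂ) × Y) => q.1) (U ×ˢ univ) U := fun q hq => hq.1
  have k1 : ContDiffOn ℝ ∞ (fun q : RR n × ((ι → ℂ) × Y) => ψ q.1) (U ×ˢ univ) :=
    h.chart.param.smooth.comp hfst hmaps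
  have k2 : ∀ i, ContDiffOn ℝ ∞ (fun q : RR n × ((ι → ℂ) × Y) => e i q.1) (U ×ˢ univ) :=
    fun i => (h.es i).comp hfst hmaps
  have k3 : ∀ i, ContDiffOn ℝ ∞ (fun q : RR n × ((ι → ℂ) × Y) => q.2.1 i) (U ×ˢ univ) :=
    fun i => ((pj i).comp (ContinuousLinearMap.snd ℝ (RR n) ((ι → ℂ) × Y))).contDiff.contDiffOn
  have k4 : ContDiffOn ℝ ∞ (fun q : RR n × ((ι → ℂ) × Y) => q.2.2) (U ×ˢ univ) :=
    ((ContinuousLinearMap.snd ℝ (ι → ℂ) Y).comp
        (ContinuousLinearMap.snd ℝ (RR n) ((ι → ℂ) × Y))).contDiff.contDiffOn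
  exact k1.prodMk ((contDiffOn_pi.2 fun i => (k3 i).smul (k2 i)).prodMk k4)

/-- **the sphere bundle is a closed manifold** -/
theorem isClosedManifold_SB [Nonempty ι] (hB : IsClosedManifold B n)
    (hP : ∀ i, ContDiff ℝ ∞ (P i)) (hL : ∀ i, ∀ b ∈ B, IsLineProj (P i b)) {N : ℕ}
    (hN : N + 1 = Module.finrank ℝ (RR n × ((ι → ℂ) × Y))) :
    IsClosedManifold (SB (Y := Y) B P) N := by
  refine ⟨isCompact_SB hB.compact hP, ?_, ?_⟩
  · obtain ⟨b, hb⟩ := hB.nonempty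
    obtain ⟨i0⟩ := (inferInstance : Nonempty ι)
    obtain ⟨U, ψ, W, ρ, e, A, h⟩ := exists_LData hB hP hL hb
    have hx := (h.chart.left b h.chart.mem hb).1
    refine ⟨Th ψ e (ρ b, ((fun i => if i = i0 then 1 else 0), 0)), Th_mem h hx ?_⟩
    rw [fl_apply]
    have k1 : ∀ i, dt2 (if i = i0 then (1 : ℂ) else 0) (if i = i0 then (1 : ℂ) else 0) =
        if i = i0 then 1 else 0 := by
      intro i
      split_ifs <;> simp
    simp only [k1, inner_zero_left, add_zero, Finset.sum_ite_eq', Finset.mem_univ, if_true]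
  · intro p hp
    obtain ⟨U, ψ, W, ρ, e, A, h⟩ := exists_LData hB hP hL hp.1
    set n0 := nuq ρ e p with hn0
    have hTp := Th_nuq h hL hp h.chart.mem
    have h0 : fl n0 n0 = 1 := hTp.2
    have hdim : Module.finrank ℝ (RR N) = Module.finrank ℝ (RR n × K0 n0) := by
      have k1 := finrank_K0 h0
      rw [Module.finrank_prod, finrank_euclideanSpace_fin] at hN
      rw [Module.finrank_prod, finrank_euclideanSpace_fin, finrank_euclideanSpace_fin]
      omega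
    obtain ⟨J⟩ : Nonempty (RR N ≃L[ℝ] (RR n × K0 n0)) :=
      ⟨ContinuousLinearEquiv.ofFinrankEq hdim⟩
    -- domains
    set W' := W ∩ ρ ⁻¹' U with hW'
    have hW'o : IsOpen W' :=
      h.chart.smooth.continuousOn.isOpen_inter_preimage h.chart.isOpen h.chart.param.isOpen
    set O1 : Set (E × ((ι → F) × Y)) := {q | q.1 ∈ W'} with hO1
    have hO1o : IsOpen O1 := hW'o.preimage continuous_fst
    have hνs : ContDiffOn ℝ ∞ (nuq (Y := Y) ρ e) O1 := by
      have s2 : ContDiffOn ℝ ∞ (fun q : E × ((ι → F) × Y) => ρ q.1) O1 :=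
        (h.chart.smooth.mono inter_subset_left).comp contDiffOn_fst fun q hq => hq
      have s3 : ∀ i, ContDiffOn ℝ ∞ (fun q : E × ((ι → F) × Y) => e i (ρ q.1)) O1 := fun i =>
        (h.es i).comp s2 fun q hq => hq.2
      have s4 : ∀ i, ContDiffOn ℝ ∞ (fun q : E × ((ι → F) × Y) => q.2.1 i) O1 := fun i =>
        (pw i : (E × ((ι → F) × Y)) →L[ℝ] F).contDiff.contDiffOn
      have s5 : ContDiffOn ℝ ∞ (fun q : E × ((ι → F) × Y) => q.2.2) O1 :=
        (py : (E × ((ι → F) × Y)) →L[ℝ] Y).contDiff.contDiffOn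
      exact (contDiffOn_pi.2 fun i => (s3 i).inner ℂ (s4 i)).prodMk s5
    have hflc : Continuous (fun m : (ι → ℂ) × Y => fl n0 m) := (fl n0).continuous
    set WM := O1 ∩ nuq ρ e ⁻¹' {m : (ι → ℂ) × Y | 0 < fl n0 m} with hWM
    have hWMo : IsOpen WM :=
      hνs.continuousOn.isOpen_inter_preimage hO1o (isOpen_lt continuous_const hflc)
    set UM : Set (RR N) := {v | (J v).1 ∈ U} with hUM
    have hUMo : IsOpen UM :=
      h.chart.param.isOpen.preimage (continuous_fst.comp J.continuous)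
    set ψM : RR N → E × ((ι → F) × Y) := fun v =>
      Th ψ e ((J v).1, nrm (n0 + ((J v).2 : (ι → ℂ) × Y))) with hψM
    set ρM : E × ((ι → F) × Y) → RR N := fun q =>
      J.symm (ρ q.1, (fl n0 (nuq ρ e q))⁻¹ • pr0 n0 h0 (nuq ρ e q)) with hρM
    have hnrm : ContDiff ℝ ∞ (fun v : RR N => nrm (n0 + ((J v).2 : (ι → ℂ) × Y))) := by
      have s1 : ContDiff ℝ ∞ (fun v : RR N => n0 + ((J v).2 : (ι → ℂ) × Y)) :=
        contDiff_const.add ((K0 n0).subtypeL.contDiff.comp (contDiff_snd.comp J.contDiff))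
      have s2 : ContDiff ℝ ∞ (fun v : RR N => fl (n0 + ((J v).2 : (ι → ℂ) × Y))
          (n0 + ((J v).2 : (ι → ℂ) × Y))) := by
        have s3 : ContDiff ℝ ∞ (fun v : RR N =>
            (fl : ((ι → ℂ) × Y) →L[ℝ] ((ι → ℂ) × Y) →L[ℝ] ℝ) (n0 + ((J v).2 : (ι → ℂ) × Y))) :=
          (ContinuousLinearMap.contDiff
            (fl : ((ι → ℂ) × Y) →L[ℝ] ((ι → ℂ) × Y) →L[ℝ] ℝ)).comp s1
        exact s3.clm_apply s1
      exact ((s2.sqrt fun v => (fl_shift_pos h0 _).ne').inv fun v =>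
        (Real.sqrt_pos.2 (fl_shift_pos h0 _)).ne').smul s1
    have hψMs : ContDiffOn ℝ ∞ ψM UM := by
      refine (contDiffOn_Th h).comp (t := U ×ˢ univ) ?_ fun v hv => ⟨hv, mem_univ _⟩
      exact (contDiff_fst.comp J.contDiff).contDiffOn.prodMk hnrm.contDiffOn
    have hρMs : ContDiffOn ℝ ∞ ρM WM := by
      have s1 : ContDiffOn ℝ ∞ (nuq (Y := Y) ρ e) WM := hνs.mono inter_subset_left
      have s2 : ContDiffOn ℝ ∞ (fun q : E × ((ι → F) × Y) => ρ q.1) WM :=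
        (h.chart.smooth.mono inter_subset_left).comp contDiffOn_fst fun q hq => hq.1
      have s3 : ContDiffOn ℝ ∞ (fun q => fl n0 (nuq ρ e q)) WM :=
        (fl n0).contDiff.comp_contDiffOn s1
      have s4 : ContDiffOn ℝ ∞ (fun q => pr0 n0 h0 (nuq ρ e q)) WM :=
        (pr0 n0 h0).contDiff.comp_contDiffOn s1
      have s5 : ContDiffOn ℝ ∞ (fun q => (fl n0 (nuq ρ e q))⁻¹ • pr0 n0 h0 (nuq ρ e q)) WM :=
        (s3.inv fun q hq => (ne_of_gt hq.2)).smul s4
      exact J.symm.contDiff.comp_contDiffOn (s2.prodMk s5)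
    have hright : ∀ v ∈ UM, ψM v ∈ WM ∧ ρM (ψM v) = v := by
      intro v hv
      have k1 := nuq_Th (Y := Y) h hv (nrm (n0 + ((J v).2 : (ι → ℂ) × Y)))
      have k2 := pr0_nrm h0 (J v).2
      have k3 := h.chart.right _ hv
      have k4 : ρ (ψM v).1 = (J v).1 := k3.2
      refine ⟨⟨⟨k3.1, ?_⟩, ?_⟩, ?_⟩
      · rw [mem_preimage, k4]
        exact hv
      · rw [mem_preimage, mem_ofPred_eq, hψM]
        simp only
        rw [k1]
        exact k2.1
      · simp only [hρM]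
        rw [k4]
        simp only [hψM]
        rw [k1, k2.2]
        exact J.symm_apply_apply v
    refine ⟨UM, ψM, WM, ρM, ⟨hUMo, hψMs, ?_, ?_⟩, hWMo, ?_, hρMs, ?_, hright⟩
    · intro v hv
      exact Th_mem h hv (fl_nrm (fl_shift_pos h0 _))
    · intro v hv
      have k1 : HasFDerivAt ψM (fderiv ℝ ψM v) v :=
        ((hψMs.contDiffAt (hUMo.mem_nhds hv)).differentiableAt (by simp)).hasFDerivAt
      have k2 : HasFDerivAt ρM (fderiv ℝ ρM (ψM v)) (ψM v) :=
        ((hρMs.contDiffAt (hWMo.mem_nhds (hright v hv).1)).differentiableAt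
          (by simp)).hasFDerivAt
      have k3 := k2.comp v k1
      have k4 : HasFDerivAt (ρM ∘ ψM) (ContinuousLinearMap.id ℝ (RR N)) v := by
        refine (hasFDerivAt_id v).congr_of_eventuallyEq ?_
        filter_upwards [hUMo.mem_nhds hv] with w hw using (hright w hw).2
      have k5 := k3.unique k4
      intro a c hac
      have k6 := congrArg (fun L : RR N →L[ℝ] RR N => L a) k5
      have k7 := congrArg (fun L : RR N →L[ℝ] RR N => L c) k5
      simp only [ContinuousLinearMap.comp_apply, ContinuousLinearMap.id_apply] at k6 k7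
      rw [← k6, ← k7, hac]
    · refine ⟨⟨h.chart.mem, (h.chart.left _ h.chart.mem hp.1).1⟩, ?_⟩
      rw [mem_preimage, mem_ofPred_eq, ← hn0, h0]
      exact one_pos
    · intro q hq hqM
      have k1 := Th_nuq h hL hqM hq.1.1
      have k2 : 0 < fl n0 (nuq ρ e q) := hq.2
      have k3 := h.chart.left _ hq.1.1 hqM.1
      have k4 : J (ρM q) = (ρ q.1, (fl n0 (nuq ρ e q))⁻¹ • pr0 n0 h0 (nuq ρ e q)) :=
        J.apply_symm_apply _
      refine ⟨?_, ?_⟩
      · rw [hUM, mem_ofPred_eq, k4]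
        exact k3.1
      · simp only [hψM]
        rw [k4]
        simp only
        rw [nrm_pr0 h0 k1.2 k2]
        exact k1.1

end Pool.Agent.H21_anco
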