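import Pool.Agent.H21_anco.Fibre

/-!
Orthonormal components on the fibre.
-/

open scoped ContDiff Topology
open Filter ContinuousLinearMap

set_option maxSynthPendingDepth 3
set_option linter.unusedSimpArgs false
set_option linter.unusedSectionVars false

noncomputable section

namespace Pool.Agent.H21_anco

variable {ι : Type*} [Fintype ι] [DecidableEq ι]
  {Y : Type*} [NormedAddCommGroup Y] [InnerProductSpace ℝ Y] [FiniteDimensional ℝ Y]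

/-- polar decomposition of the complex coordinates -/
structure Pol (n : (ι → ℂ) × Y) (r : ι → ℝ) (e : ι → ℂ) : Prop where
  hr : ∀ l, 0 ≤ r l
  he : ∀ l, (e l).re ^ 2 + (e l).im ^ 2 = 1
  hn : ∀ l, n.1 l = r l • e l

theorem exists_pol (n : (ι → ℂ) × Y) : ∃ r e, Pol n r e := by
  have h : ∀ w : ℂ, ∃ r : ℝ, ∃ e : ℂ, 0 ≤ r ∧ e.re ^ 2 + e.im ^ 2 = 1 ∧ w = r • e := by
    intro w
    by_cases hw : w = 0
    · exact ⟨0, 1, le_refl _, by simp, by simp [hw]⟩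
    · have h1 : ‖w‖ ≠ 0 := norm_ne_zero_iff.2 hw
      refine ⟨‖w‖, (‖w‖)⁻¹ • w, norm_nonneg _, ?_, ?_⟩
      · have h2 : ‖w‖ ^ 2 = w.re ^ 2 + w.im ^ 2 := by
          rw [← Complex.normSq_eq_norm_sq, Complex.normSq_apply]
          ring
        simp only [Complex.smul_re, Complex.smul_im, smul_eq_mul]
        rw [mul_pow, mul_pow, ← mul_add, ← h2]
        field_simp
      · rw [smul_smul, mul_inv_cancel₀ h1, one_smul]
  choose r e h1 h2 h3 using h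
  exact ⟨fun l => r (n.1 l), fun l => e (n.1 l), fun l => h1 _, fun l => h2 _, fun l => h3 _⟩

/-- radial component -/
def al (e : ι → ℂ) (l : ι) (γ : (ι → ℂ) × Y) : ℝ := dt2 (e l) (γ.1 l)

/-- angular component -/
def be (δ : ℝ) (n : (ι → ℂ) × Y) (e : ι → ℂ) (l : ι) (γ : (ι → ℂ) × Y) : ℝ :=
  δ / sg δ (n.1 l) * cr2 (e l) (γ.1 l)

/-- area form of the `l`-th plane -/
def vl (δ : ℝ) (n : (ι → ℂ) × Y) (e : ι → ℂ) (l : ι) (γ η : (ι → ℂ) × Y) : ℝ :=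
  al e l γ * be δ n e l η - be δ n e l γ * al e l η

/-- `δ / √(δ^2 + |w|^2)` -/
def tt (δ : ℝ) (n : (ι → ℂ) × Y) (l : ι) : ℝ := δ / sg δ (n.1 l)

/-- `|w| / √(δ^2 + |w|^2)` -/
def th (δ : ℝ) (n : (ι → ℂ) × Y) (r : ι → ℝ) (l : ι) : ℝ := r l / sg δ (n.1 l)

variable {δ κ : ℝ} {n : (ι → ℂ) × Y} {r : ι → ℝ} {e : ι → ℂ}

theorem Pol.sq (h : Pol n r e) (l : ι) : sg δ (n.1 l) ^ 2 = δ ^ 2 + r l ^ 2 := by
  rw [sg_sq, h.hn]
  have := h.he l
  simp only [Complex.smul_re, Complex.smul_im, smul_eq_mul]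
  linear_combination (r l ^ 2) * this

theorem tt_pos (hδ : 0 < δ) (l : ι) : 0 < tt δ n l := div_pos hδ (sg_pos hδ _)

theorem Pol.th_nonneg (h : Pol n r e) (hδ : 0 < δ) (l : ι) : 0 ≤ th δ n r l :=
  div_nonneg (h.hr l) (sg_pos hδ _).le

theorem Pol.tt_th (h : Pol n r e) (hδ : 0 < δ) (l : ι) : tt δ n l ^ 2 + th δ n r l ^ 2 = 1 := by
  have h1 := h.sq (δ := δ) l
  have h2 := sg_pos hδ (n.1 l)
  rw [tt, th, div_pow, div_pow, ← add_div, ← h1]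
  field_simp

theorem Pol.tt_le (h : Pol n r e) (hδ : 0 < δ) (l : ι) : tt δ n l ≤ 1 := by
  have h1 := h.tt_th hδ l
  have h2 := tt_pos (n := n) hδ l
  nlinarith [sq_nonneg (th δ n r l)]

theorem Pol.th_le (h : Pol n r e) (hδ : 0 < δ) (l : ι) : th δ n r l ≤ 1 := by
  have h1 := h.tt_th hδ l
  have h2 := h.th_nonneg hδ l
  nlinarith [sq_nonneg (tt δ n l)]

theorem Pol.cr (h : Pol n r e) (hδ : 0 < δ) (l : ι) (a b : (ι → ℂ) × Y) :
    cr2 (a.1 l) (b.1 l) = sg δ (n.1 l) / δ * vl δ n e l a b := by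
  have h1 := h.he l
  have h2 := (sg_pos hδ (n.1 l)).ne'
  have h3 := hδ.ne'
  simp only [vl, al, be, cr2_apply, dt2_apply]
  field_simp
  linear_combination (- ((a.1 l).re * (b.1 l).im - (a.1 l).im * (b.1 l).re)) * h1

theorem Pol.dtn (h : Pol n r e) (l : ι) (b : (ι → ℂ) × Y) :
    dt2 (n.1 l) (b.1 l) = r l * al e l b := by
  rw [h.hn, map_smul, smul_apply, smul_eq_mul, al]

theorem Pol.crn (h : Pol n r e) (hδ : 0 < δ) (l : ι) (b : (ι → ℂ) × Y) :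
    cr2 (n.1 l) (b.1 l) = r l * (sg δ (n.1 l) / δ) * be δ n e l b := by
  have h2 := (sg_pos hδ (n.1 l)).ne'
  have h3 := hδ.ne'
  have h4 : cr2 (n.1 l) (b.1 l) = r l * cr2 (e l) (b.1 l) := by
    rw [h.hn, map_smul, smul_apply, smul_eq_mul]
  rw [h4, be]
  field_simp

theorem Pol.c1_eq (h : Pol n r e) (hδ : 0 < δ) (l : ι) (a b : (ι → ℂ) × Y) :
    c1 δ (n.1 l) (a.1 l) (b.1 l) = al e l a * al e l b + be δ n e l a * be δ n e l b := by
  have h0 := h.he l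
  have h1 := h.sq (δ := δ) l
  have h2 := (sg_pos hδ (n.1 l)).ne'
  have h3 : c1 δ (n.1 l) (a.1 l) (b.1 l) = dt2 (a.1 l) (b.1 l) -
      kk δ (n.1 l) * cr2 (n.1 l) (a.1 l) * cr2 (n.1 l) (b.1 l) := by
    simp only [c1_apply, dt2_apply, cr2_apply]
  have h4 : ∀ b : (ι → ℂ) × Y, cr2 (n.1 l) (b.1 l) = r l * cr2 (e l) (b.1 l) := by
    intro b
    rw [h.hn, map_smul, smul_apply, smul_eq_mul]
  have h5 : dt2 (a.1 l) (b.1 l) = dt2 (e l) (a.1 l) * dt2 (e l) (b.1 l) +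
      cr2 (e l) (a.1 l) * cr2 (e l) (b.1 l) := by
    simp only [dt2_apply, cr2_apply]
    linear_combination (- ((a.1 l).re * (b.1 l).re + (a.1 l).im * (b.1 l).im)) * h0
  rw [h3, h4, h4, h5, kk_sg, al, al, be, be]
  field_simp
  rw [h1]
  ring

theorem Pol.cF_eq (h : Pol n r e) (hδ : 0 < δ) (a b : (ι → ℂ) × Y) :
    cF δ n a b = ∑ l, (al e l a * al e l b + be δ n e l a * be δ n e l b) +
      inner ℝ a.2 b.2 := by
  rw [cF_apply]
  congr 1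
  exact Finset.sum_congr rfl fun l _ => h.c1_eq hδ l a b

/-- (1) curvature of the fibre in components -/
theorem Pol.riem_eq (h : Pol n r e) (hδ : 0 < δ) (a b f g : (ι → ℂ) × Y) :
    cF δ n (riem (DF δ) n a b f) g =
      - ∑ l, 3 * δ ^ 2 / sg δ (n.1 l) ^ 4 * (vl δ n e l a b * vl δ n e l f g) := by
  rw [riem_DF hδ, ← Finset.sum_neg_distrib]
  refine Finset.sum_congr rfl fun l _ => ?_
  have h2 := (sg_pos hδ (n.1 l)).ne'
  rw [h.cr hδ, h.cr hδ, kk_sg]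
  field_simp

/-- (2) -/
theorem Pol.nk_eq (h : Pol n r e) (hδ : 0 < δ) (a b : (ι → ℂ) × Y) (ξ : ι → ℝ) :
    nk (cF δ) (DF δ) KF n ξ a b = ∑ l, ξ l * (tt δ n l ^ 3 * vl δ n e l a b) := by
  rw [nk_F hδ]
  refine Finset.sum_congr rfl fun l _ => ?_
  have h2 := (sg_pos hδ (n.1 l)).ne'
  rw [h.cr hδ, kk_sg, tt]
  field_simp

/-- derivative of `mF` -/
theorem Pol.dm (h : Pol n r e) (hδ : 0 < δ) (a : (ι → ℂ) × Y) :
    fderiv ℝ (mF δ) n a = ∑ l, th δ n r l * al e l a := by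
  rw [fderiv_mF hδ]
  refine Finset.sum_congr rfl fun l _ => ?_
  rw [h.dtn, th]
  ring

/-- (3) -/
theorem Pol.hs_eq (h : Pol n r e) (hδ : 0 < δ) (a b : (ι → ℂ) × Y) :
    hs (DF δ) (HF κ δ) n a b = (2 * κ * δ) ^ 2 * HF κ δ n * fderiv ℝ (mF δ) n a *
      fderiv ℝ (mF δ) n b - 2 * κ * HF κ δ n *
      ∑ l, tt δ n l ^ 3 * (al e l a * al e l b + be δ n e l a * be δ n e l b) := by
  rw [hs_HF hδ]
  congr 1
  have h3 : ∀ l, tt δ n l ^ 3 * (al e l a * al e l b + be δ n e l a * be δ n e l b) =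
      δ * (δ ^ 2 * (sg δ (n.1 l))⁻¹ * kk δ (n.1 l) *
        c1 δ (n.1 l) (a.1 l) (b.1 l)) := by
    intro l
    have h2 := (sg_pos hδ (n.1 l)).ne'
    rw [h.c1_eq hδ, kk_sg, tt]
    field_simp
  simp only [h3, ← Finset.mul_sum]
  ring

/-- (5) -/
theorem Pol.rot (h : Pol n r e) (hδ : 0 < δ) (b : (ι → ℂ) × Y) (ξ : ι → ℝ) :
    cF δ n (KF ξ n) b = ∑ l, ξ l * (δ * th δ n r l * be δ n e l b) := by
  rw [cF_rot hδ]
  refine Finset.sum_congr rfl fun l _ => ?_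
  have h2 := (sg_pos hδ (n.1 l)).ne'
  rw [h.crn hδ, kk_sg, th]
  field_simp

/-- (6) -/
theorem Pol.rot2 (h : Pol n r e) (hδ : 0 < δ) (ξ ζ : ι → ℝ) :
    cF δ n (KF ξ n) (KF ζ n) =
      ∑ l, ξ l * ζ l * (δ * th δ n r l) ^ 2 := by
  rw [h.rot hδ]
  refine Finset.sum_congr rfl fun l _ => ?_
  have h2 := (sg_pos hδ (n.1 l)).ne'
  have h0 := h.he l
  have h3 : be δ n e l (KF ζ n) = δ * th δ n r l * ζ l := by
    rw [be, KF_fst, h.hn, th, h.hn]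
    simp only [map_smul, smul_eq_mul, cr2_apply, IL_re, IL_im]
    rw [← h.hn]
    field_simp
    linear_combination (ζ l * r l) * h0
  rw [h3]
  ring

end Pool.Agent.H21_anco
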