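import Mathlib

/-!
Riemannian metrics in coordinates: Christoffel map, Riemann tensor, bounds for the curvature
operator, calculus with vector fields.
-/

open scoped ContDiff Topology
open Filter ContinuousLinearMap

noncomputable section

namespace Pool.Agent.H21_anco

variable {V : Type*} [NormedAddCommGroup V] [NormedSpace ℝ V]

/-- `C` is the Christoffel map of the metric `g` on the open set `U` of coordinates: `C x u v` is
the covariant derivative `∇_u v` of the constant vector field `v` in the direction `u`, given by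
Koszul's formula `2 g(∇_u v, w) = ∂_u g(v, w) + ∂_v g(u, w) - ∂_w g(u, v)`. -/
structure IsChristoffel (g : V → V →L[ℝ] V →L[ℝ] ℝ) (U : Set V) (C : V → V →L[ℝ] V →L[ℝ] V) :
    Prop where
  smooth : ContDiffOn ℝ ∞ C U
  koszul : ∀ x ∈ U, ∀ u v w : V,
    2 * g x (C x u v) w = fderiv ℝ g x u v w + fderiv ℝ g x v u w - fderiv ℝ g x w u v

/-- The Riemann tensor `R(u, v) w = ∇_u ∇_v w - ∇_v ∇_u w` (for constant fields `u, v, w`). -/
def riem (C : V → V →L[ℝ] V →L[ℝ] V) (x u v w : V) : V :=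
  fderiv ℝ C x u v w - fderiv ℝ C x v u w + C x u (C x v w) - C x v (C x u w)

/-- `g` is a smooth Riemannian metric on the open set `U` of coordinates. -/
structure IsMetricOn (g : V → V →L[ℝ] V →L[ℝ] ℝ) (U : Set V) : Prop where
  smooth : ContDiffOn ℝ ∞ g U
  symm : ∀ x ∈ U, ∀ u v, g x u v = g x v u
  pos : ∀ x ∈ U, ∀ u, u ≠ 0 → 0 < g x u u

/-- local package: `C` is the Levi-Civita connection of `g` near `x` -/
structure LC (g : V → V →L[ℝ] V →L[ℝ] ℝ) (C : V → V →L[ℝ] V →L[ℝ] V) (x : V) : Prop where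
  gse : ∀ᶠ y in 𝓝 x, ContDiffAt ℝ ∞ g y
  cse : ∀ᶠ y in 𝓝 x, ContDiffAt ℝ ∞ C y
  symm : ∀ᶠ y in 𝓝 x, ∀ u v, g y u v = g y v u
  tor : ∀ᶠ y in 𝓝 x, ∀ u v, C y u v = C y v u
  met : ∀ᶠ y in 𝓝 x, ∀ u v w, fderiv ℝ g y u v w = g y (C y u v) w + g y v (C y u w)

theorem LC.gs {g : V → V →L[ℝ] V →L[ℝ] ℝ} {C : V → V →L[ℝ] V →L[ℝ] V} {x : V} (h : LC g C x) :
    ContDiffAt ℝ ∞ g x := h.gse.self_of_nhds

theorem LC.cs {g : V → V →L[ℝ] V →L[ℝ] ℝ} {C : V → V →L[ℝ] V →L[ℝ] V} {x : V} (h : LC g C x) :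
    ContDiffAt ℝ ∞ C x := h.cse.self_of_nhds

theorem LC.eventually {g : V → V →L[ℝ] V →L[ℝ] ℝ} {C : V → V →L[ℝ] V →L[ℝ] V} {x : V}
    (h : LC g C x) : ∀ᶠ y in 𝓝 x, LC g C y := by
  filter_upwards [eventually_eventually_nhds.2 h.gse, eventually_eventually_nhds.2 h.cse,
    eventually_eventually_nhds.2 h.symm, eventually_eventually_nhds.2 h.tor,
    eventually_eventually_nhds.2 h.met] with y h1 h2 h3 h4 h5
  exact ⟨h1, h2, h3, h4, h5⟩

theorem fderiv_symm {g : V → V →L[ℝ] V →L[ℝ] ℝ} {x : V} (hg : DifferentiableAt ℝ g x)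
    (hs : ∀ᶠ y in 𝓝 x, ∀ u v, g y u v = g y v u) (u v w : V) :
    fderiv ℝ g x u v w = fderiv ℝ g x u w v := by
  have h1 : HasFDerivAt (fun y => g y v w) ((fderiv ℝ g x).flip v |>.flip w) x := by
    have := (hg.hasFDerivAt.clm_apply (hasFDerivAt_const v x)).clm_apply (hasFDerivAt_const w x)
    refine this.congr_fderiv ?_
    ext z
    simp
  have h2 : HasFDerivAt (fun y => g y w v) ((fderiv ℝ g x).flip w |>.flip v) x := by
    have := (hg.hasFDerivAt.clm_apply (hasFDerivAt_const w x)).clm_apply (hasFDerivAt_const v x)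
    refine this.congr_fderiv ?_
    ext z
    simp
  have h3 : HasFDerivAt (fun y => g y v w) ((fderiv ℝ g x).flip w |>.flip v) x :=
    h2.congr_of_eventuallyEq (by filter_upwards [hs] with y hy using hy v w)
  have := congrArg (fun L => L u) (h1.unique h3)
  simpa using this

theorem LC.of {g : V → V →L[ℝ] V →L[ℝ] ℝ} {C : V → V →L[ℝ] V →L[ℝ] V} {U : Set V}
    (hU : IsOpen U) (hg : IsMetricOn g U) (hC : IsChristoffel g U C) {x : V} (hx : x ∈ U) :
    LC g C x := by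
  have hn : U ∈ 𝓝 x := hU.mem_nhds hx
  have hsy : ∀ y ∈ U, ∀ᶠ z in 𝓝 y, ∀ u v, g z u v = g z v u := fun y hy => by
    filter_upwards [hU.mem_nhds hy] with z hz using hg.symm z hz
  have hd : ∀ y ∈ U, DifferentiableAt ℝ g y := fun y hy =>
    (hg.smooth.contDiffAt (hU.mem_nhds hy)).differentiableAt (by simp)
  have hdef : ∀ y ∈ U, ∀ a : V, (∀ w, g y a w = 0) → a = 0 := by
    intro y hy a h
    by_contra hne
    have := hg.pos y hy a hne
    rw [h a] at this
    exact lt_irrefl _ this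
  refine ⟨?_, ?_, hsy x hx, ?_, ?_⟩
  · filter_upwards [hn] with y hy using hg.smooth.contDiffAt (hU.mem_nhds hy)
  · filter_upwards [hn] with y hy using hC.smooth.contDiffAt (hU.mem_nhds hy)
  · filter_upwards [hn] with y hy u v
    rw [← sub_eq_zero]
    apply hdef y hy
    intro w
    rw [map_sub, sub_apply]
    have h1 := hC.koszul y hy u v w
    have h2 := hC.koszul y hy v u w
    have h3 := fderiv_symm (hd y hy) (hsy y hy) w u v
    linarith
  · filter_upwards [hn] with y hy u v w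
    have h1 := hC.koszul y hy u v w
    have h2 := hC.koszul y hy u w v
    have h3 := fderiv_symm (hd y hy) (hsy y hy) u v w
    have h4 := fderiv_symm (hd y hy) (hsy y hy) v u w
    have h5 := fderiv_symm (hd y hy) (hsy y hy) w u v
    have h6 := hg.symm y hy v (C y u w)
    rw [h6]
    linarith

/-- covariant derivative of the field `Y` along the field `X` -/
def nab (C : V → V →L[ℝ] V →L[ℝ] V) (X Y : V → V) : V → V :=
  fun y => fderiv ℝ Y y (X y) + C y (X y) (Y y)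

/-- Lie bracket of vector fields -/
def lieB (X Y : V → V) : V → V := fun y => fderiv ℝ Y y (X y) - fderiv ℝ X y (Y y)

section fields

variable {C : V → V →L[ℝ] V →L[ℝ] V} {g : V → V →L[ℝ] V →L[ℝ] ℝ} {x : V} {X Y Z T : V → V}

theorem cd_nab (hC : ContDiffAt ℝ ∞ C x) (hX : ContDiffAt ℝ ∞ X x) (hY : ContDiffAt ℝ ∞ Y x) :
    ContDiffAt ℝ ∞ (nab C X Y) x :=
  ((hY.fderiv_right (m := ∞) (by simp)).clm_apply hX).add ((hC.clm_apply hX).clm_apply hY)

theorem cd_lieB (hX : ContDiffAt ℝ ∞ X x) (hY : ContDiffAt ℝ ∞ Y x) :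
    ContDiffAt ℝ ∞ (lieB X Y) x :=
  ((hY.fderiv_right (m := ∞) (by simp)).clm_apply hX).sub
    ((hX.fderiv_right (m := ∞) (by simp)).clm_apply hY)

theorem cd_diff {F : Type*} [NormedAddCommGroup F] [NormedSpace ℝ F] {f : V → F}
    (h : ContDiffAt ℝ ∞ f x) : DifferentiableAt ℝ f x := h.differentiableAt (by simp)

theorem snd_symm {F : Type*} [NormedAddCommGroup F] [NormedSpace ℝ F] {f : V → F}
    (h : ContDiffAt ℝ ∞ f x) (u v : V) :
    fderiv ℝ (fderiv ℝ f) x u v = fderiv ℝ (fderiv ℝ f) x v u := by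
  have := h.isSymmSndFDerivAt (by
    simp only [minSmoothness_of_isRCLikeNormedField]
    exact ENat.LEInfty.out)
  exact this u v

theorem fderiv_nab (hC : ContDiffAt ℝ ∞ C x) (hX : ContDiffAt ℝ ∞ X x)
    (hY : ContDiffAt ℝ ∞ Y x) (v : V) :
    fderiv ℝ (nab C X Y) x v = fderiv ℝ (fderiv ℝ Y) x v (X x) + fderiv ℝ Y x (fderiv ℝ X x v) +
      fderiv ℝ C x v (X x) (Y x) + C x (fderiv ℝ X x v) (Y x) + C x (X x) (fderiv ℝ Y x v) := by
  have hY' : DifferentiableAt ℝ (fderiv ℝ Y) x := cd_diff (hY.fderiv_right (m := ∞) (by simp))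
  have h1 := (hY'.hasFDerivAt.clm_apply (cd_diff hX).hasFDerivAt).add
    (((cd_diff hC).hasFDerivAt.clm_apply (cd_diff hX).hasFDerivAt).clm_apply
      (cd_diff hY).hasFDerivAt)
  have h2 : fderiv ℝ (nab C X Y) x = _ := h1.fderiv
  rw [h2]
  simp
  abel

/-- the Riemann tensor in terms of vector fields -/
theorem riem_fields (hC : ContDiffAt ℝ ∞ C x)
    (hX : ContDiffAt ℝ ∞ X x) (hY : ContDiffAt ℝ ∞ Y x) (hZ : ContDiffAt ℝ ∞ Z x) :
    riem C x (X x) (Y x) (Z x) =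
      nab C X (nab C Y Z) x - nab C Y (nab C X Z) x - nab C (lieB X Y) Z x := by
  have e1 : nab C X (nab C Y Z) x = fderiv ℝ (nab C Y Z) x (X x) + C x (X x) (nab C Y Z x) := rfl
  have e2 : nab C Y (nab C X Z) x = fderiv ℝ (nab C X Z) x (Y x) + C x (Y x) (nab C X Z x) := rfl
  rw [e1, e2, fderiv_nab hC hY hZ, fderiv_nab hC hX hZ]
  simp only [nab, lieB, riem, map_add, map_sub, sub_apply]
  rw [snd_symm hZ (X x) (Y x)]
  abel

theorem fderiv_pair (hg : ContDiffAt ℝ ∞ g x) (hY : ContDiffAt ℝ ∞ Y x) (hZ : ContDiffAt ℝ ∞ Z x)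
    (v : V) :
    fderiv ℝ (fun y => g y (Y y) (Z y)) x v = fderiv ℝ g x v (Y x) (Z x) +
      g x (fderiv ℝ Y x v) (Z x) + g x (Y x) (fderiv ℝ Z x v) := by
  have h := ((cd_diff hg).hasFDerivAt.clm_apply (cd_diff hY).hasFDerivAt).clm_apply
    (cd_diff hZ).hasFDerivAt
  rw [h.fderiv]
  simp
  abel

/-- metric compatibility for vector fields -/
theorem LC.pair (h : LC g C x) (hY : ContDiffAt ℝ ∞ Y x) (hZ : ContDiffAt ℝ ∞ Z x) (v : V) :
    fderiv ℝ (fun y => g y (Y y) (Z y)) x v =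
      g x (fderiv ℝ Y x v + C x v (Y x)) (Z x) + g x (Y x) (fderiv ℝ Z x v + C x v (Z x)) := by
  rw [fderiv_pair h.gs hY hZ, h.met.self_of_nhds]
  simp only [map_add, add_apply]
  abel

/-- Koszul's formula for vector fields -/
theorem LC.koszul (h : LC g C x) (hX : ContDiffAt ℝ ∞ X x) (hY : ContDiffAt ℝ ∞ Y x)
    (hZ : ContDiffAt ℝ ∞ Z x) :
    2 * g x (nab C X Y x) (Z x) = fderiv ℝ (fun y => g y (Y y) (Z y)) x (X x) +
      fderiv ℝ (fun y => g y (X y) (Z y)) x (Y x) - fderiv ℝ (fun y => g y (X y) (Y y)) x (Z x) +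
      g x (lieB X Y x) (Z x) - g x (lieB X Z x) (Y x) - g x (lieB Y Z x) (X x) := by
  rw [h.pair hY hZ, h.pair hX hZ, h.pair hX hY]
  have hs := h.symm.self_of_nhds
  have ht := h.tor.self_of_nhds
  simp only [nab, lieB, map_add, map_sub, add_apply,
    sub_apply]
  rw [ht (Y x) (X x), ht (Z x) (X x), ht (Z x) (Y x), hs (Y x) (fderiv ℝ Z x (X x)),
    hs (Y x) (C x (X x) (Z x)), hs (X x) (fderiv ℝ Z x (Y x)), hs (X x) (C x (Y x) (Z x)),
    hs (X x) (fderiv ℝ Y x (Z x)), hs (fderiv ℝ X x (Z x)) (Y x), hs (C x (X x) (Z x)) (Y x)]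
  ring

/-- the Riemann tensor, lowered, in terms of vector fields -/
theorem LC.riem_eq (h : LC g C x) (hX : ContDiffAt ℝ ∞ X x) (hY : ContDiffAt ℝ ∞ Y x)
    (hZ : ContDiffAt ℝ ∞ Z x) (hT : ContDiffAt ℝ ∞ T x) :
    g x (riem C x (X x) (Y x) (Z x)) (T x) =
      fderiv ℝ (fun y => g y (nab C Y Z y) (T y)) x (X x) -
      fderiv ℝ (fun y => g y (nab C X Z y) (T y)) x (Y x) -
      g x (nab C Y Z x) (nab C X T x) + g x (nab C X Z x) (nab C Y T x) -
      g x (nab C (lieB X Y) Z x) (T x) := by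
  rw [riem_fields h.cs hX hY hZ, h.pair (cd_nab h.cs hY hZ) hT,
    h.pair (cd_nab h.cs hX hZ) hT]
  have e1 : fderiv ℝ (nab C Y Z) x (X x) + C x (X x) (nab C Y Z x) = nab C X (nab C Y Z) x := rfl
  have e2 : fderiv ℝ (nab C X Z) x (Y x) + C x (Y x) (nab C X Z x) = nab C Y (nab C X Z) x := rfl
  have e3 : fderiv ℝ T x (X x) + C x (X x) (T x) = nab C X T x := rfl
  have e4 : fderiv ℝ T x (Y x) + C x (Y x) (T x) = nab C Y T x := rfl
  rw [e1, e2, e3, e4]
  simp only [map_sub, sub_apply]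
  ring

end fields

end Pool.Agent.H21_anco
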