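import Pool.Agent.H21_anco.Coord

/-!
Existence of the Christoffel map, symmetries of the Riemann tensor, the Gauss equation for
immersions in coordinates.
-/

open scoped ContDiff Topology
open Filter ContinuousLinearMap

set_option maxSynthPendingDepth 3

noncomputable section

namespace Pool.Agent.H21_anco

variable {V : Type*} [NormedAddCommGroup V] [NormedSpace ℝ V]

/-! ### existence of the Christoffel map -/

section exi

variable [FiniteDimensional ℝ V]

theorem exists_equiv (b : V →L[ℝ] V →L[ℝ] ℝ) (hb : ∀ u, u ≠ 0 → 0 < b u u) :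
    ∃ e : V ≃L[ℝ] (V →L[ℝ] ℝ), (e : V →L[ℝ] (V →L[ℝ] ℝ)) = b := by
  have hinj : Function.Injective b := by
    intro u v huv
    by_contra hne
    have h := hb (u - v) (sub_ne_zero.2 hne)
    have h2 : b (u - v) = 0 := by rw [map_sub, huv, sub_self]
    rw [h2] at h
    simp at h
  have hfr : Module.finrank ℝ V = Module.finrank ℝ (V →L[ℝ] ℝ) := by
    have e1 : (V →ₗ[ℝ] ℝ) ≃ₗ[ℝ] (V →L[ℝ] ℝ) := LinearMap.toContinuousLinearMap
    rw [← e1.finrank_eq]
    exact (Subspace.dual_finrank_eq (K := ℝ) (V := V)).symm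
  let e0 : V ≃ₗ[ℝ] (V →L[ℝ] ℝ) :=
    LinearMap.linearEquivOfInjective b.toLinearMap hinj hfr
  refine ⟨e0.toContinuousLinearEquiv, ?_⟩
  ext u v
  simp [e0, LinearMap.linearEquivOfInjective_apply]

/-- the Koszul functional -/
def kos (D : V →L[ℝ] V →L[ℝ] V →L[ℝ] ℝ) : V →L[ℝ] V →L[ℝ] V →L[ℝ] ℝ :=
  (1 / 2 : ℝ) • (D + D.flip - (flipₗᵢ ℝ V V ℝ : (V →L[ℝ] V →L[ℝ] ℝ) →L[ℝ]
    (V →L[ℝ] V →L[ℝ] ℝ)).comp D.flip)

omit [FiniteDimensional ℝ V] in
theorem kos_apply (D : V →L[ℝ] V →L[ℝ] V →L[ℝ] ℝ) (u v w : V) :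
    kos D u v w = (1 / 2) * (D u v w + D v u w - D w u v) := by
  simp [kos]

omit [FiniteDimensional ℝ V] in
theorem contDiffOn_kos {U : Set V} {D : V → V →L[ℝ] V →L[ℝ] V →L[ℝ] ℝ}
    (hD : ContDiffOn ℝ ∞ D U) : ContDiffOn ℝ ∞ (fun x => kos (D x)) U := by
  have hf : ContDiffOn ℝ ∞ (fun x => (D x).flip) U :=
    ((flipₗᵢ ℝ V V (V →L[ℝ] ℝ)).toContinuousLinearEquiv.contDiff (n := ∞)).comp_contDiffOn hD
  have h3 : ContDiffOn ℝ ∞ (fun x => (flipₗᵢ ℝ V V ℝ : (V →L[ℝ] V →L[ℝ] ℝ) →L[ℝ]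
    (V →L[ℝ] V →L[ℝ] ℝ)).comp (D x).flip) U := contDiffOn_const.clm_comp hf
  have h4 := (hD.add hf).sub h3
  exact ContDiffOn.const_smul (1 / 2 : ℝ) h4

theorem exists_christoffel {g : V → V →L[ℝ] V →L[ℝ] ℝ} {U : Set V} (hU : IsOpen U)
    (hg : IsMetricOn g U) : ∃ C, IsChristoffel g U C := by
  refine ⟨fun x => ((compL ℝ V (V →L[ℝ] ℝ) V) (ContinuousLinearMap.inverse (g x))).comp
    (kos (fderiv ℝ g x)), ?_, ?_⟩
  · have h1 : ContDiffOn ℝ ∞ (fun x => ContinuousLinearMap.inverse (g x)) U := by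
      intro x hx
      obtain ⟨e, he⟩ := exists_equiv (g x) (hg.pos x hx)
      have h2 : ContDiffAt ℝ ∞ ContinuousLinearMap.inverse (g x) := by
        rw [← he]
        exact contDiffAt_map_inverse e
      exact (h2.comp x (hg.smooth.contDiffAt (hU.mem_nhds hx))).contDiffWithinAt
    have h3 : ContDiffOn ℝ ∞ (fderiv ℝ g) U := hg.smooth.fderiv_of_isOpen hU (by simp)
    exact ((compL ℝ V (V →L[ℝ] ℝ) V).contDiff.comp_contDiffOn h1).clm_comp (contDiffOn_kos h3)
  · intro x hx u v w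
    obtain ⟨e, he⟩ := exists_equiv (g x) (hg.pos x hx)
    have h1 : ((compL ℝ V (V →L[ℝ] ℝ) V) (ContinuousLinearMap.inverse (g x))).comp
        (kos (fderiv ℝ g x)) u v = e.symm (kos (fderiv ℝ g x) u v) := by
      simp [← he]
    have h2 : g x (e.symm (kos (fderiv ℝ g x) u v)) = kos (fderiv ℝ g x) u v := by
      rw [← he]
      simp
    simp only [h1, h2, kos_apply]
    ring

end exi

/-! ### symmetries of the Riemann tensor -/

section symm

variable {g : V → V →L[ℝ] V →L[ℝ] ℝ} {C : V → V →L[ℝ] V →L[ℝ] V} {x : V}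

theorem LC.riem_const (h : LC g C x) (u v w z : V) :
    g x (riem C x u v w) z =
      fderiv ℝ (fun y => g y (C y v w) z) x u - fderiv ℝ (fun y => g y (C y u w) z) x v -
      g x (C x v w) (C x u z) + g x (C x u w) (C x v z) := by
  have h1 := h.riem_eq (X := fun _ => u) (Y := fun _ => v) (Z := fun _ => w) (T := fun _ => z)
    contDiffAt_const contDiffAt_const contDiffAt_const contDiffAt_const
  have e : ∀ a b : V, nab C (fun _ => a) (fun _ => b) = fun y => C y a b := by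
    intro a b
    ext y
    simp [nab]
  have e2 : lieB (fun _ => u) (fun _ => v) = fun _ => (0 : V) := by
    ext y
    simp [lieB]
  rw [e, e, e, e, e2] at h1
  have e3 : nab C (fun _ => (0 : V)) (fun _ => w) x = 0 := by simp [nab]
  rw [e3] at h1
  simpa using h1

theorem riem_antisymm (C : V → V →L[ℝ] V →L[ℝ] V) (x u v w : V) :
    riem C x u v w = - riem C x v u w := by
  simp only [riem]
  abel

/-- skew symmetry in the last two arguments -/
theorem LC.riem_skew (h : LC g C x) (u v w z : V) :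
    g x (riem C x u v w) z = - g x (riem C x u v z) w := by
  have hs := h.symm.self_of_nhds
  rw [h.riem_const, h.riem_const]
  have hc : ∀ a b c : V, ContDiffAt ℝ ∞ (fun y => g y (C y a b) c) x := fun a b c =>
    (h.gs.clm_apply ((h.cs.clm_apply contDiffAt_const).clm_apply contDiffAt_const)).clm_apply
      contDiffAt_const
  have key : ∀ a b : V, fderiv ℝ (fun y => g y (C y a w) z) x b +
      fderiv ℝ (fun y => g y (C y a z) w) x b =
      fderiv ℝ (fderiv ℝ (fun y => g y w z)) x b a := by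
    intro a b
    have e1 : (fun y => g y (C y a w) z) + (fun y => g y (C y a z) w) =ᶠ[𝓝 x]
        fun y => fderiv ℝ (fun y => g y w z) y a := by
      filter_upwards [h.eventually] with y hy
      have h2 := hy.pair (Y := fun _ => w) (Z := fun _ => z) contDiffAt_const contDiffAt_const a
      rw [h2]
      simp only [Pi.add_apply, fderiv_fun_const, Pi.zero_apply, zero_apply, zero_add]
      rw [hy.symm.self_of_nhds w (C y a z)]
    have e2 := e1.fderiv_eq (𝕜 := ℝ)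
    rw [fderiv_add (cd_diff (hc a w z)) (cd_diff (hc a z w))] at e2
    have e3 := congrArg (fun L => L b) e2
    have hd : ContDiffAt ℝ ∞ (fun y => g y w z) x :=
      (h.gs.clm_apply contDiffAt_const).clm_apply contDiffAt_const
    have e4 : fderiv ℝ (fun y => fderiv ℝ (fun y => g y w z) y a) x b =
        fderiv ℝ (fderiv ℝ (fun y => g y w z)) x b a := by
      have := ((cd_diff (hd.fderiv_right (m := ∞) (by simp))).hasFDerivAt.clm_apply
        (hasFDerivAt_const a x)).fderiv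
      rw [this]
      simp
    rw [← e4]
    simpa using e3
  have hd : ContDiffAt ℝ ∞ (fun y => g y w z) x :=
    (h.gs.clm_apply contDiffAt_const).clm_apply contDiffAt_const
  have k1 := key v u
  have k2 := key u v
  have k3 := snd_symm hd u v
  rw [hs (C x v w) (C x u z), hs (C x u w) (C x v z)]
  linarith

/-- first Bianchi identity -/
theorem LC.bianchi (h : LC g C x) (u v w : V) :
    riem C x u v w + riem C x v w u + riem C x w u v = 0 := by
  have ht := h.tor.self_of_nhds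
  have hD : ∀ a b c : V, fderiv ℝ C x a b c = fderiv ℝ C x a c b := by
    intro a b c
    have h1 : HasFDerivAt (fun y => C y b c) ((fderiv ℝ C x).flip b |>.flip c) x := by
      have := ((cd_diff h.cs).hasFDerivAt.clm_apply (hasFDerivAt_const b x)).clm_apply
        (hasFDerivAt_const c x)
      refine this.congr_fderiv ?_
      ext z
      simp
    have h2 : HasFDerivAt (fun y => C y c b) ((fderiv ℝ C x).flip c |>.flip b) x := by
      have := ((cd_diff h.cs).hasFDerivAt.clm_apply (hasFDerivAt_const c x)).clm_apply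
        (hasFDerivAt_const b x)
      refine this.congr_fderiv ?_
      ext z
      simp
    have h3 : HasFDerivAt (fun y => C y b c) ((fderiv ℝ C x).flip c |>.flip b) x :=
      h2.congr_of_eventuallyEq (by filter_upwards [h.tor] with y hy using hy b c)
    have := congrArg (fun L => L a) (h1.unique h3)
    simpa using this
  simp only [riem]
  rw [hD u w v, hD v u w, hD w v u, ht w v, ht u w, ht v u]
  abel

/-- pair symmetry -/
theorem LC.riem_pair (h : LC g C x) (u v w z : V) :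
    g x (riem C x u v w) z = g x (riem C x w z u) v := by
  have a : ∀ p q r s : V, g x (riem C x p q r) s = - g x (riem C x q p r) s := by
    intro p q r s
    rw [riem_antisymm C x p q r, map_neg, neg_apply]
  have b : ∀ p q r s : V, g x (riem C x p q r) s = - g x (riem C x p q s) r := h.riem_skew
  have c : ∀ p q r s : V, g x (riem C x p q r) s + g x (riem C x q r p) s +
      g x (riem C x r p q) s = 0 := by
    intro p q r s
    have := congrArg (fun y => g x y s) (h.bianchi p q r)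
    simpa using this
  have h1 := c u v w z
  have h2 := c v w z u
  have h3 := c w z u v
  have h4 := c z u v w
  have s1 := b u v w z
  have s2 := b v w z u
  have s3 := b w z u v
  have s4 := b z u v w
  have s5 := b v w u z
  have s6 := b w u v z
  have s7 := b w z v u
  have s8 := b z v w u
  have s9 := b z u w v
  have s10 := b u w z v
  have s11 := b u v z w
  have s12 := b v z u w
  have t1 := a w u v z
  have t2 := a v z u w
  have t3 := a u w v z
  have t4 := a z v w u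
  have t5 := a u w z v
  have t6 := a z v u w
  have t7 := a w u z v
  linarith

end symm

/-! ### the Gauss equation -/

section gauss

variable {W : Type*} [NormedAddCommGroup W] [NormedSpace ℝ W]
  {G : W → W →L[ℝ] W →L[ℝ] ℝ} {Γ : W → W →L[ℝ] W →L[ℝ] W}
  {g : V → V →L[ℝ] V →L[ℝ] ℝ} {C : V → V →L[ℝ] V →L[ℝ] V} {Ψ : V → W} {x : V}

/-- derivative of a pairing along a map -/
theorem LC.pair_along (hG : LC G Γ (Ψ x)) (hΨ : ContDiffAt ℝ ∞ Ψ x) {P Q : V → W}
    (hP : ContDiffAt ℝ ∞ P x) (hQ : ContDiffAt ℝ ∞ Q x) (u : V) :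
    fderiv ℝ (fun y => G (Ψ y) (P y) (Q y)) x u =
      G (Ψ x) (fderiv ℝ P x u + Γ (Ψ x) (fderiv ℝ Ψ x u) (P x)) (Q x) +
      G (Ψ x) (P x) (fderiv ℝ Q x u + Γ (Ψ x) (fderiv ℝ Ψ x u) (Q x)) := by
  have h1 : HasFDerivAt (fun y => G (Ψ y)) ((fderiv ℝ G (Ψ x)).comp (fderiv ℝ Ψ x)) x :=
    (cd_diff hG.gs).hasFDerivAt.comp x (cd_diff hΨ).hasFDerivAt
  have h2 := (h1.clm_apply (cd_diff hP).hasFDerivAt).clm_apply (cd_diff hQ).hasFDerivAt
  rw [h2.fderiv]
  simp only [add_apply, ContinuousLinearMap.comp_apply, flip_apply, map_add]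
  rw [hG.met.self_of_nhds]
  abel

/-- covariant derivative of `DΨ w` along `v` -/
def dd (Γ : W → W →L[ℝ] W →L[ℝ] W) (Ψ : V → W) (v w : V) : V → W :=
  fun y => fderiv ℝ (fderiv ℝ Ψ) y v w + Γ (Ψ y) (fderiv ℝ Ψ y v) (fderiv ℝ Ψ y w)

/-- the second fundamental form -/
def sff (Γ : W → W →L[ℝ] W →L[ℝ] W) (C : V → V →L[ℝ] V →L[ℝ] V) (Ψ : V → W) (y u v : V) : W :=
  dd Γ Ψ u v y - fderiv ℝ Ψ y (C y u v)

theorem cd_dd (hΓ : ContDiffAt ℝ ∞ Γ (Ψ x)) (hΨ : ContDiffAt ℝ ∞ Ψ x) (v w : V) :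
    ContDiffAt ℝ ∞ (dd Γ Ψ v w) x := by
  have h1 : ContDiffAt ℝ ∞ (fderiv ℝ Ψ) x := hΨ.fderiv_right (by simp)
  have h2 : ContDiffAt ℝ ∞ (fderiv ℝ (fderiv ℝ Ψ)) x := h1.fderiv_right (by simp)
  have h3 : ContDiffAt ℝ ∞ (fun y => Γ (Ψ y)) x := hΓ.comp x hΨ
  exact ((h2.clm_apply contDiffAt_const).clm_apply contDiffAt_const).add
    ((h3.clm_apply (h1.clm_apply contDiffAt_const)).clm_apply (h1.clm_apply contDiffAt_const))

/-- the second fundamental form is normal -/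
theorem sff_normal (hG : LC G Γ (Ψ x)) (hg : LC g C x) (hΨ : ContDiffAt ℝ ∞ Ψ x)
    (hpb : ∀ᶠ y in 𝓝 x, ∀ u v, g y u v = G (Ψ y) (fderiv ℝ Ψ y u) (fderiv ℝ Ψ y v))
    (u v w : V) : G (Ψ x) (sff Γ C Ψ x u v) (fderiv ℝ Ψ x w) = 0 := by
  have hD : ContDiffAt ℝ ∞ (fderiv ℝ Ψ) x := hΨ.fderiv_right (by simp)
  have hpx := hpb.self_of_nhds
  have hsG := hG.symm.self_of_nhds
  have hsym : ∀ a b, sff Γ C Ψ x a b = sff Γ C Ψ x b a := by
    intro a b
    simp only [sff, dd]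
    rw [snd_symm hΨ a b, hG.tor.self_of_nhds, hg.tor.self_of_nhds a b]
  have hder : ∀ a : V, HasFDerivAt (fun y => fderiv ℝ Ψ y a) ((fderiv ℝ (fderiv ℝ Ψ) x).flip a)
      x := by
    intro a
    have := (cd_diff hD).hasFDerivAt.clm_apply (hasFDerivAt_const a x)
    refine this.congr_fderiv ?_
    ext z
    simp
  have hskew : ∀ a b c, G (Ψ x) (sff Γ C Ψ x a b) (fderiv ℝ Ψ x c) +
      G (Ψ x) (sff Γ C Ψ x a c) (fderiv ℝ Ψ x b) = 0 := by
    intro a b c
    have h1 := hg.pair (Y := fun _ => b) (Z := fun _ => c) contDiffAt_const contDiffAt_const a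
    have e1 : (fun y => g y b c) =ᶠ[𝓝 x] fun y => G (Ψ y) (fderiv ℝ Ψ y b) (fderiv ℝ Ψ y c) := by
      filter_upwards [hpb] with y hy using hy b c
    rw [e1.fderiv_eq, hG.pair_along hΨ (hD.clm_apply contDiffAt_const)
      (hD.clm_apply contDiffAt_const), (hder b).fderiv, (hder c).fderiv] at h1
    simp only [fderiv_fun_const, Pi.zero_apply, zero_apply, zero_add, flip_apply] at h1
    rw [hpx, hpx] at h1
    simp only [sff, dd, map_sub, sub_apply]
    rw [hsG (fderiv ℝ Ψ x b)] at h1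
    rw [hsG (fderiv ℝ Ψ x b) (fderiv ℝ Ψ x (C x a c))] at h1
    linarith
  have k1 := hskew u v w
  have k2 := hskew v w u
  have k3 := hskew w u v
  rw [hsym v w] at k2
  rw [hsym w u] at k3
  have k4 := hskew u v w
  rw [hsym v u] at k2
  linarith

theorem fderiv_dd (hΓ : ContDiffAt ℝ ∞ Γ (Ψ x)) (hΨ : ContDiffAt ℝ ∞ Ψ x) (u v w : V) :
    fderiv ℝ (dd Γ Ψ v w) x u = fderiv ℝ (fderiv ℝ (fderiv ℝ Ψ)) x u v w +
      fderiv ℝ Γ (Ψ x) (fderiv ℝ Ψ x u) (fderiv ℝ Ψ x v) (fderiv ℝ Ψ x w) +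
      Γ (Ψ x) (fderiv ℝ (fderiv ℝ Ψ) x u v) (fderiv ℝ Ψ x w) +
      Γ (Ψ x) (fderiv ℝ Ψ x v) (fderiv ℝ (fderiv ℝ Ψ) x u w) := by
  have h1 : ContDiffAt ℝ ∞ (fderiv ℝ Ψ) x := hΨ.fderiv_right (by simp)
  have h2 : ContDiffAt ℝ ∞ (fderiv ℝ (fderiv ℝ Ψ)) x := h1.fderiv_right (by simp)
  have h3 : HasFDerivAt (fun y => Γ (Ψ y)) ((fderiv ℝ Γ (Ψ x)).comp (fderiv ℝ Ψ x)) x :=
    (cd_diff hΓ).hasFDerivAt.comp x (cd_diff hΨ).hasFDerivAt
  have a1 := ((cd_diff h2).hasFDerivAt.clm_apply (hasFDerivAt_const v x)).clm_apply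
    (hasFDerivAt_const w x)
  have a2 := (cd_diff h1).hasFDerivAt.clm_apply (hasFDerivAt_const v x)
  have a3 := (cd_diff h1).hasFDerivAt.clm_apply (hasFDerivAt_const w x)
  have a4 := (h3.clm_apply a2).clm_apply a3
  have a5 := a1.add a4
  have e : fderiv ℝ (dd Γ Ψ v w) x = _ := a5.fderiv
  rw [e]
  simp
  abel

/-- the Riemann tensor along a map -/
theorem riem_along (hΓ : ContDiffAt ℝ ∞ Γ (Ψ x)) 
    (hΨ : ContDiffAt ℝ ∞ Ψ x) (u v w : V) :
    riem Γ (Ψ x) (fderiv ℝ Ψ x u) (fderiv ℝ Ψ x v) (fderiv ℝ Ψ x w) =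
      (fderiv ℝ (dd Γ Ψ v w) x u + Γ (Ψ x) (fderiv ℝ Ψ x u) (dd Γ Ψ v w x)) -
      (fderiv ℝ (dd Γ Ψ u w) x v + Γ (Ψ x) (fderiv ℝ Ψ x v) (dd Γ Ψ u w x)) := by
  rw [fderiv_dd hΓ hΨ, fderiv_dd hΓ hΨ]
  have h1 : ContDiffAt ℝ ∞ (fderiv ℝ Ψ) x := hΨ.fderiv_right (by simp)
  simp only [riem, dd, map_add]
  rw [snd_symm h1 u v, snd_symm hΨ u v]
  abel

/-- **Gauss equation** for a map `Ψ` with `g = Ψ^* G`. -/
theorem gauss (hG : LC G Γ (Ψ x)) (hg : LC g C x) (hΨe : ∀ᶠ y in 𝓝 x, ContDiffAt ℝ ∞ Ψ y)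
    (hpb : ∀ᶠ y in 𝓝 x, ∀ u v, g y u v = G (Ψ y) (fderiv ℝ Ψ y u) (fderiv ℝ Ψ y v))
    (u v w z : V) :
    g x (riem C x u v w) z =
      G (Ψ x) (riem Γ (Ψ x) (fderiv ℝ Ψ x u) (fderiv ℝ Ψ x v) (fderiv ℝ Ψ x w))
        (fderiv ℝ Ψ x z) +
      G (Ψ x) (sff Γ C Ψ x v w) (sff Γ C Ψ x u z) -
      G (Ψ x) (sff Γ C Ψ x u w) (sff Γ C Ψ x v z) := by
  have hΨ : ContDiffAt ℝ ∞ Ψ x := hΨe.self_of_nhds
  have hD : ContDiffAt ℝ ∞ (fderiv ℝ Ψ) x := hΨ.fderiv_right (by simp)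
  have hn := sff_normal hG hg hΨ hpb
  have hsG := hG.symm.self_of_nhds
  have hpx := hpb.self_of_nhds
  rw [hg.riem_const, riem_along hG.cs hΨ]
  have hder : ∀ a : V, HasFDerivAt (fun y => fderiv ℝ Ψ y a) ((fderiv ℝ (fderiv ℝ Ψ) x).flip a)
      x := by
    intro a
    have := (cd_diff hD).hasFDerivAt.clm_apply (hasFDerivAt_const a x)
    refine this.congr_fderiv ?_
    ext z
    simp
  -- derivative of `g (C v w) z`
  have key : ∀ a b c d : V, fderiv ℝ (fun y => g y (C y b c) d) x a =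
      G (Ψ x) (fderiv ℝ (dd Γ Ψ b c) x a + Γ (Ψ x) (fderiv ℝ Ψ x a) (dd Γ Ψ b c x))
        (fderiv ℝ Ψ x d) + G (Ψ x) (dd Γ Ψ b c x) (dd Γ Ψ a d x) := by
    intro a b c d
    have e1 : (fun y => g y (C y b c) d) =ᶠ[𝓝 x]
        fun y => G (Ψ y) (dd Γ Ψ b c y) (fderiv ℝ Ψ y d) := by
      have hGe : ∀ᶠ y in 𝓝 x, LC G Γ (Ψ y) := hΨ.continuousAt.eventually hG.eventually
      filter_upwards [hg.eventually, hGe, hΨe,
        eventually_eventually_nhds.2 hpb] with y y1 y2 y3 y4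
      have h1 := sff_normal y2 y1 y3 y4 b c d
      rw [y4.self_of_nhds]
      simp only [sff, map_sub, sub_apply] at h1
      linarith
    rw [e1.fderiv_eq, hG.pair_along hΨ (cd_dd hG.cs hΨ b c) (hD.clm_apply contDiffAt_const),
      (hder d).fderiv]
    rfl
  rw [key u v w z, key v u w z]
  -- orthogonality
  have orth : ∀ a b c d : V, G (Ψ x) (dd Γ Ψ a b x) (dd Γ Ψ c d x) =
      g x (C x a b) (C x c d) + G (Ψ x) (sff Γ C Ψ x a b) (sff Γ C Ψ x c d) := by
    intro a b c d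
    have e1 : dd Γ Ψ a b x = fderiv ℝ Ψ x (C x a b) + sff Γ C Ψ x a b := by
      simp [sff]
    have e2 : dd Γ Ψ c d x = fderiv ℝ Ψ x (C x c d) + sff Γ C Ψ x c d := by
      simp [sff]
    rw [e1, e2, hpx]
    simp only [map_add, add_apply]
    rw [hn, hsG _ (sff Γ C Ψ x c d), hn]
    ring
  rw [orth v w u z, orth u w v z]
  simp only [map_sub, sub_apply]
  ring

end gauss

end Pool.Agent.H21_anco
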