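import Pool.Agent.H21_anco.Theta

/-!
Curvature of the metrics on the sphere bundle.
-/

open scoped ContDiff Topology
open Filter Set

set_option maxSynthPendingDepth 3
set_option linter.unusedSectionVars false

noncomputable section

namespace Pool.Agent.H21_anco

variable {E : Type*} [NormedAddCommGroup E] [NormedSpace ℝ E] [FiniteDimensional ℝ E]
  {F : Type*} [NormedAddCommGroup F] [InnerProductSpace ℂ F] [FiniteDimensional ℂ F]
  {ι : Type*} [Fintype ι] [DecidableEq ι]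
  {Y : Type*} [NormedAddCommGroup Y] [InnerProductSpace ℝ Y] [FiniteDimensional ℝ Y]
  {B : Set E} {n : ℕ} {P : ι → E → F →L[ℂ] F} {G : E → E →L[ℝ] E →L[ℝ] ℝ}
  {δ κ Λ : ℝ} {N : ℕ} {UM : Set (RR N)} {ψM : RR N → E × ((ι → F) × Y)}

theorem crv_shift {V : Type*} [NormedAddCommGroup V] [NormedSpace ℝ V] {T : Type*}
    [NormedAddCommGroup T] [NormedSpace ℝ T] (A : V → V →L[ℝ] T) (S : V →L[ℝ] T) (x a b : V) :
    crv (fun y => A y - S) x a b = crv A x a b := by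
  simp only [crv, fderiv_sub_const]

theorem dcrv_shift {V : Type*} [NormedAddCommGroup V] [NormedSpace ℝ V] {T : Type*}
    [NormedAddCommGroup T] [NormedSpace ℝ T] (A : V → V →L[ℝ] T) (S : V →L[ℝ] T)
    (x a b c : V) : dcrv (fun y => A y - S) x a b c = dcrv A x a b c := by
  simp only [dcrv, crv_shift]

theorem Bds.shift {V : Type*} [NormedAddCommGroup V] [NormedSpace ℝ V]
    {g : V → V →L[ℝ] V →L[ℝ] ℝ} {C : V → V →L[ℝ] V →L[ℝ] V} {A : V → V →L[ℝ] (ι → ℝ)}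
    {x : V} (h : Bds g C A Λ x) (S : V →L[ℝ] (ι → ℝ)) : Bds g C (fun y => A y - S) Λ x := by
  refine ⟨h.nn, h.gs, h.gp, ?_, ?_⟩
  · intro a b l
    rw [crv_shift]
    exact h.fb a b l
  · intro a b c l
    rw [crv_shift, crv_shift, dcrv_shift, dcrv_shift]
    exact h.xb a b c l

/-- the sphere bundle in a local model around a point -/
theorem local_model (hL : ∀ i, ∀ b ∈ B, IsLineProj (P i b)) (hΛ : ∀ b ∈ B, LOK B n G P Λ b)
    (hψM : IsParam (SB B P) N UM ψM) {z0 : RR N} (hz0 : z0 ∈ UM) :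
    ∃ (U : Set (RR n)) (ψ : RR n → E) (W : Set E) (ρ : E → RR n) (e : ι → RR n → F)
      (A : RR n → RR n →L[ℝ] (ι → ℝ)) (C : RR n → RR n →L[ℝ] RR n →L[ℝ] RR n)
      (Ψ : RR N → RR n × ((ι → ℂ) × Y)),
      LData B n P (ψM z0).1 U ψ W ρ e A ∧ IsChristoffel (pull G ψ) U C ∧
      Bds (pull G ψ) C A Λ (Ψ z0).1 ∧ A (Ψ z0).1 = 0 ∧ (Ψ z0).1 ∈ U ∧
      (∀ᶠ z in 𝓝 z0, ContDiffAt ℝ ∞ Ψ z) ∧
      (∀ᶠ z in 𝓝 z0, ∀ u v, pull (Gh (E := E) (F := F) (ι := ι) (Y := Y) G P κ δ) ψM z u v =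
        GE (V := RR n) (ι := ι) (Y := Y) (pull G ψ) δ κ A (Ψ z) (fderiv ℝ Ψ z u)
          (fderiv ℝ Ψ z v)) ∧
      (∀ᶠ z in 𝓝 z0, fl (Ψ z).2 (Ψ z).2 = 1) ∧ Function.Injective (fderiv ℝ Ψ z0) := by
  have hM := hψM.maps z0 hz0
  have hb : (ψM z0).1 ∈ B := hM.1
  obtain ⟨U, ψ, W, ρ, e0, A0, C, hD0, hC, hBd⟩ := hΛ _ hb
  obtain ⟨e, hD⟩ := hD0.gauge (ρ (ψM z0).1)
  set A := fun x => A0 x - A0 (ρ (ψM z0).1) with hA
  set Ψ : RR N → RR n × ((ι → ℂ) × Y) := fun z =>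
    (ρ (ψM z).1, (fun i => inner ℂ (e i (ρ (ψM z).1)) ((ψM z).2.1 i), (ψM z).2.2)) with hΨ
  have hUM := hψM.isOpen.mem_nhds hz0
  have hψc : ContinuousAt ψM z0 := (hψM.smooth.contDiffAt hUM).continuousAt
  have hO : ∀ᶠ z in 𝓝 z0, z ∈ UM ∧ (ψM z).1 ∈ W := by
    have k1 : ContinuousAt (fun z => (ψM z).1) z0 := hψc.fst
    filter_upwards [hUM, k1.eventually (hD.chart.isOpen.mem_nhds hD.chart.mem)] with z h1 h2
      using ⟨h1, h2⟩
  -- properties of `Ψ`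
  have hin : ∀ z, z ∈ UM ∧ (ψM z).1 ∈ W → ρ (ψM z).1 ∈ U ∧ ψ (ρ (ψM z).1) = (ψM z).1 := by
    rintro z ⟨h1, h2⟩
    exact hD.chart.left _ h2 (hψM.maps z h1).1
  have hsm : ∀ z, z ∈ UM ∧ (ψM z).1 ∈ W → ContDiffAt ℝ ∞ Ψ z := by
    intro z hz
    have s1 : ContDiffAt ℝ ∞ ψM z := hψM.smooth.contDiffAt (hψM.isOpen.mem_nhds hz.1)
    have s2 : ContDiffAt ℝ ∞ (fun z => (ψM z).1) z := s1.fst
    have s3 : ContDiffAt ℝ ∞ (fun z => ρ (ψM z).1) z :=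
      (hD.chart.smooth.contDiffAt (hD.chart.isOpen.mem_nhds hz.2)).comp z s2
    have s4 : ∀ i, ContDiffAt ℝ ∞ (fun z => e i (ρ (ψM z).1)) z := fun i =>
      ((hD.es i).contDiffAt (hD.chart.param.isOpen.mem_nhds (hin z hz).1)).comp z s3
    have s5 : ∀ i, ContDiffAt ℝ ∞ (fun z => (ψM z).2.1 i) z := fun i =>
      ((pw i : (E × ((ι → F) × Y)) →L[ℝ] F).contDiff.contDiffAt).comp z s1
    have s6 : ContDiffAt ℝ ∞ (fun z => (ψM z).2.2) z := s1.snd.snd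
    refine s3.prodMk (ContDiffAt.prodMk (contDiffAt_pi.2 fun i => ?_) s6)
    exact (s4 i).inner ℂ (s5 i)
  have hTh : ∀ z, z ∈ UM ∧ (ψM z).1 ∈ W → Th ψ e (Ψ z) = ψM z := by
    intro z hz
    have k1 := hψM.maps z hz.1
    have k2 := hin z hz
    simp only [Th, hΨ]
    refine Prod.ext k2.2 (Prod.ext ?_ rfl)
    funext i
    have k3 := hL i _ k1.1
    have k4 := hD.eP i _ k2.1
    rw [k2.2] at k4
    exact (k3.eq_of_fix k4 (hD.en i _ k2.1) (k1.2.1 i)).symm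
  have hsph : ∀ z, z ∈ UM ∧ (ψM z).1 ∈ W → fl (Ψ z).2 (Ψ z).2 = 1 := by
    intro z hz
    have k1 := hψM.maps z hz.1
    have k2 := hin z hz
    rw [fl_apply, ← k1.2.2]
    congr 1
    · refine Finset.sum_congr rfl fun i _ => ?_
      have k3 := hL i _ k1.1
      have k4 := hD.eP i _ k2.1
      rw [k2.2] at k4
      have k5 := k3.eq_of_fix k4 (hD.en i _ k2.1) (k1.2.1 i)
      have k6 : ‖(ψM z).2.1 i‖ = ‖inner ℂ (e i (ρ (ψM z).1)) ((ψM z).2.1 i)‖ := by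
        conv_lhs => rw [k5]
        rw [norm_smul, hD.en i _ k2.1, mul_one]
      rw [k6, ← Complex.normSq_eq_norm_sq, Complex.normSq_apply]
      simp only [hΨ, dt2_apply]
    · rw [real_inner_self_eq_norm_sq]
  have hfd : ∀ z, z ∈ UM ∧ (ψM z).1 ∈ W → fderiv ℝ ψM z =
      (fderiv ℝ (Th ψ e) (Ψ z)).comp (fderiv ℝ Ψ z) := by
    intro z hz
    obtain ⟨L, hL1, -⟩ := hasFDerivAt_Th (Y := Y) hD (q := Ψ z) (hin z hz).1
    have hOz : ∀ᶠ y in 𝓝 z, y ∈ UM ∧ (ψM y).1 ∈ W := by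
      have k1 : ContinuousAt (fun z => (ψM z).1) z :=
        (hψM.smooth.contDiffAt (hψM.isOpen.mem_nhds hz.1)).continuousAt.fst
      filter_upwards [hψM.isOpen.mem_nhds hz.1, k1.eventually
        (hD.chart.isOpen.mem_nhds hz.2)] with z h1 h2 using ⟨h1, h2⟩
    have k2 : ψM =ᶠ[𝓝 z] fun y => Th ψ e (Ψ y) := by
      filter_upwards [hOz] with y hy using (hTh y hy).symm
    rw [k2.fderiv_eq]
    have k3 : HasFDerivAt (fun y => Th ψ e (Ψ y)) (L.comp (fderiv ℝ Ψ z)) z :=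
      hL1.comp z (cd_diff (hsm z hz)).hasFDerivAt
    rw [k3.fderiv, hL1.fderiv]
  have hz0' : z0 ∈ UM ∧ (ψM z0).1 ∈ W := hO.self_of_nhds
  refine ⟨U, ψ, W, ρ, e, A, C, Ψ, hD, hC, hBd.shift _, ?_, (hin z0 hz0').1, ?_, ?_, ?_, ?_⟩
  · simp only [hA, hΨ, sub_self]
  · filter_upwards [hO] with z hz using hsm z hz
  · filter_upwards [hO] with z hz u v
    rw [pull_apply, hfd z hz, ← Gh_Th hD hL G (hin z hz).1, hTh z hz]
    rfl
  · filter_upwards [hO] with z hz using hsph z hz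
  · intro u v huv
    apply hψM.imm z0 hz0
    rw [hfd z0 hz0', ContinuousLinearMap.comp_apply, ContinuousLinearMap.comp_apply, huv]

/-- **curvature of the metrics on the sphere bundle** -/
theorem curv_SB (hP : ∀ i, ContDiff ℝ ∞ (P i)) (hL : ∀ i, ∀ b ∈ B, IsLineProj (P i b))
    (hG : IsRiem B n G) {ε : ℝ} (hε : 0 ≤ ε)
    (hcurv : ∀ U ψ, IsParam B n U ψ → CurvGE (pull G ψ) U (-ε))
    (hΛ : ∀ b ∈ B, LOK B n G P Λ b) (hκ : 2 * Λ ≤ κ) (hκ0 : 0 ≤ κ) (hδ : 0 < δ) (hδ1 : δ ≤ 1)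
    (hHb : ∀ m : (ι → ℂ) × Y, fl m m = 1 → 1 / 4 ≤ HF κ δ m)
    (hN : N + 1 = Module.finrank ℝ (RR n × ((ι → ℂ) × Y)))
    (hψM : IsParam (SB B P) N UM ψM) :
    IsMetricOn (pull (Gh (E := E) (F := F) (ι := ι) (Y := Y) G P κ δ) ψM) UM ∧
      CurvGE (pull (Gh (E := E) (F := F) (ι := ι) (Y := Y) G P κ δ) ψM) UM
        (- (4 * ε + δ * (KC (RR n) ι Y κ Λ + Fintype.card ι * κ))) := by
  have hmet : IsMetricOn (pull (Gh (E := E) (F := F) (ι := ι) (Y := Y) G P κ δ) ψM) UM := by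
    refine ⟨hψM.contDiffOn_pull (contDiff_Gh hG.smooth hP hδ), ?_, ?_⟩
    · intro z hz u v
      obtain ⟨U, ψ, W, ρ, e, A, C, Ψ, hD, hC, hBd, hA0, hin, hsm, hpb, hsph, hinj⟩ :=
        local_model (κ := κ) (δ := δ) hL hΛ hψM hz
      have hg := hG.metric U ψ hD.chart.param
      have k1 := hpb.self_of_nhds
      rw [k1, k1]
      exact (isMetric_GE hg hD.As hδ).symm (Ψ z) ⟨hin, mem_univ _⟩ _ _
    · intro z hz u hu
      obtain ⟨U, ψ, W, ρ, e, A, C, Ψ, hD, hC, hBd, hA0, hin, hsm, hpb, hsph, hinj⟩ :=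
        local_model (κ := κ) (δ := δ) hL hΛ hψM hz
      have hg := hG.metric U ψ hD.chart.param
      have k1 := hpb.self_of_nhds
      rw [k1]
      refine (isMetric_GE hg hD.As hδ).pos (Ψ z) ⟨hin, mem_univ _⟩ _ ?_
      intro h0
      apply hu
      apply hinj
      rw [h0, map_zero]
  refine ⟨hmet, ?_⟩
  obtain ⟨CV, hCV⟩ := exists_christoffel hψM.isOpen hmet
  refine ⟨CV, hCV, ?_⟩
  intro z hz m u v
  obtain ⟨U, ψ, W, ρ, e, A, C, Ψ, hD, hC, hBd, hA0, hin, hsm, hpb, hsph, hinj⟩ :=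
    local_model (κ := κ) (δ := δ) hL hΛ hψM hz
  have hg := hG.metric U ψ hD.chart.param
  have hO := hD.chart.param.isOpen
  obtain ⟨Γ, hΓ⟩ := exists_christoffel (hO.prod isOpen_univ)
    (isMetric_GE (V := RR n) (ι := ι) (Y := Y) (κ := κ) hg hD.As hδ)
  have hmod := mod_GE (V := RR n) (ι := ι) (Y := Y) (κ := κ) hO hg hC hD.As hδ hΓ hin
  obtain ⟨C', hC', hC'2⟩ := hcurv U ψ hD.chart.param
  have hs1 := hsph.self_of_nhds
  have hH1 : HF κ δ (Ψ z).2 ≤ 1 := by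
    rw [HF, Real.exp_le_one_iff]
    have k1 : 0 ≤ mF δ (Ψ z).2 := Finset.sum_nonneg fun i _ => (sg_pos hδ _).le
    have k2 : 0 ≤ 2 * κ * δ := by positivity
    nlinarith
  refine hyper_curv hmod hA0 hδ hδ1 hBd hκ (hHb _ hs1) hH1 hε ?_ hsm
    (LC.of hψM.isOpen hmet hCV hz) hpb hsph hinj ?_ u v
  · intro m a b
    have k1 := hC'2 (Ψ z).1 hin m a b
    refine k1.trans (le_of_eq ?_)
    refine Finset.sum_congr rfl fun i _ => Finset.sum_congr rfl fun j _ => ?_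
    rw [christoffel_unique hO hg hC' hC hin]
  · rw [← hN, finrank_euclideanSpace_fin]

end Pool.Agent.H21_anco
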