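import Pool.Agent.H21_anco.Coord2
import Pool.Agent.H21_anco.Alg

/-!
Closed manifolds as compact submanifolds of finite-dimensional normed spaces, Riemannian metrics,
curvature operator, diameter, almost nonnegative curvature operator.
-/

open scoped ContDiff Topology
open Filter Set

set_option maxSynthPendingDepth 3

noncomputable section

namespace Pool.Agent.H21_anco

variable {E : Type*} [NormedAddCommGroup E] [NormedSpace ℝ E]

/-- the model space of dimension `n` -/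
abbrev RR (n : ℕ) : Type := EuclideanSpace ℝ (Fin n)

/-- `ψ` is a smooth immersion of the open set `U` of `ℝ^n` into the subset `M` of `E`. When `M` is
an `n`-dimensional submanifold these are its local parametrisations. -/
structure IsParam (M : Set E) (n : ℕ) (U : Set (RR n)) (ψ : RR n → E) : Prop where
  isOpen : IsOpen U
  smooth : ContDiffOn ℝ ∞ ψ U
  maps : ∀ x ∈ U, ψ x ∈ M
  imm : ∀ x ∈ U, Function.Injective (fderiv ℝ ψ x)

/-- a local parametrisation `ψ : U → M` near `p` together with a smooth inverse `ρ` defined on an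
open set `W` of the ambient space, so that `ψ` maps `U` bijectively to `W ∩ M` -/
structure IsChartAt (M : Set E) (n : ℕ) (p : E) (U : Set (RR n)) (ψ : RR n → E) (W : Set E)
    (ρ : E → RR n) : Prop where
  param : IsParam M n U ψ
  isOpen : IsOpen W
  mem : p ∈ W
  smooth : ContDiffOn ℝ ∞ ρ W
  left : ∀ q ∈ W, q ∈ M → ρ q ∈ U ∧ ψ (ρ q) = q
  right : ∀ x ∈ U, ψ x ∈ W ∧ ρ (ψ x) = x

/-- `M` is a compact nonempty `n`-dimensional submanifold, without boundary, of `E` -/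
structure IsClosedManifold (M : Set E) (n : ℕ) : Prop where
  compact : IsCompact M
  nonempty : M.Nonempty
  chart : ∀ p ∈ M, ∃ U ψ W ρ, IsChartAt M n p U ψ W ρ

/-- the bilinear forms `G` in the parametrisation `ψ` -/
def pull {n : ℕ} (G : E → E →L[ℝ] E →L[ℝ] ℝ) (ψ : RR n → E) (x : RR n) :
    RR n →L[ℝ] RR n →L[ℝ] ℝ :=
  (G (ψ x)).bilinearComp (fderiv ℝ ψ x) (fderiv ℝ ψ x)

theorem pull_apply {n : ℕ} (G : E → E →L[ℝ] E →L[ℝ] ℝ) (ψ : RR n → E) (x u v : RR n) :
    pull G ψ x u v = G (ψ x) (fderiv ℝ ψ x u) (fderiv ℝ ψ x v) := rfl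

/-- `G`, restricted to the tangent spaces of `M`, is a Riemannian metric on `M` -/
structure IsRiem (M : Set E) (n : ℕ) (G : E → E →L[ℝ] E →L[ℝ] ℝ) : Prop where
  smooth : ContDiff ℝ ∞ G
  metric : ∀ U ψ, IsParam M n U ψ → IsMetricOn (pull G ψ) U

/-- The curvature operator of the metric `g` on the coordinate domain `U` is at least `c`: there is
a Christoffel map `C` of `g` and, for every two-vector `σ = ∑ a_i ∧ b_i` at every point,
`⟨R(σ), σ⟩ = ∑_{i,j} g(R(a_i, b_i) b_j, a_j) ≥ c |σ|^2`. -/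
def CurvGE {n : ℕ} (g : RR n → RR n →L[ℝ] RR n →L[ℝ] ℝ) (U : Set (RR n)) (c : ℝ) : Prop :=
  ∃ C : RR n → RR n →L[ℝ] RR n →L[ℝ] RR n, IsChristoffel g U C ∧
    ∀ x ∈ U, ∀ (m : ℕ) (a b : Fin m → RR n),
      c * wed (fun u v => g x u v) a b ≤ ∑ i, ∑ j, g x (riem C x (a i) (b i) (b j)) (a j)

/-- `Connects G M p q ℓ`: a piecewise continuously differentiable curve in `M` from `p` to `q` has
length `ℓ` for the metric `G` -/
inductive Connects (G : E → E →L[ℝ] E →L[ℝ] ℝ) (M : Set E) : E → E → ℝ → Prop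
  | curve (γ : ℝ → E) (hγ : ContDiffOn ℝ 1 γ (Icc 0 1)) (hM : ∀ t ∈ Icc (0 : ℝ) 1, γ t ∈ M) :
      Connects G M (γ 0) (γ 1) (∫ t in (0 : ℝ)..1,
        Real.sqrt (G (γ t) (derivWithin γ (Icc 0 1) t) (derivWithin γ (Icc 0 1) t)))
  | trans {p q r : E} {a b : ℝ} : Connects G M p q a → Connects G M q r b →
      Connects G M p r (a + b)

/-- the diameter of `(M, G)` is at most `D` (in particular `M` is connected) -/
def DiamLE (G : E → E →L[ℝ] E →L[ℝ] ℝ) (M : Set E) (D : ℝ) : Prop :=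
  ∀ p ∈ M, ∀ q ∈ M, ∀ η > 0, ∃ ℓ < D + η, Connects G M p q ℓ

/-- `M` has almost nonnegative curvature operator -/
def ANCO (M : Set E) (n : ℕ) : Prop :=
  ∀ ε > 0, ∃ G : E → E →L[ℝ] E →L[ℝ] ℝ, IsRiem M n G ∧ DiamLE G M 1 ∧
    ∀ U ψ, IsParam M n U ψ → CurvGE (pull G ψ) U (-ε)

/-! ### first facts -/

theorem IsParam.contDiffOn_pull {M : Set E} {n : ℕ} {U : Set (RR n)} {ψ : RR n → E}
    (h : IsParam M n U ψ) {G : E → E →L[ℝ] E →L[ℝ] ℝ} (hG : ContDiff ℝ ∞ G) :
    ContDiffOn ℝ ∞ (pull G ψ) U := by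
  have h1 : ContDiffOn ℝ ∞ (fderiv ℝ ψ) U := h.smooth.fderiv_of_isOpen h.isOpen (by simp)
  have h2 : ContDiffOn ℝ ∞ (fun x => G (ψ x)) U := hG.comp_contDiffOn h.smooth
  refine contDiffOn_clm_apply.2 fun u => contDiffOn_clm_apply.2 fun v => ?_
  exact (h2.clm_apply (h1.clm_apply contDiffOn_const)).clm_apply (h1.clm_apply contDiffOn_const)

end Pool.Agent.H21_anco
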