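import Pool.Agent.H21_anco.Fib2

/-!
Lifting of curves to the sphere bundle.
-/

open scoped ContDiff Topology
open Filter Set

set_option maxSynthPendingDepth 3
set_option linter.unusedSectionVars false

noncomputable section

namespace Pool.Agent.H21_anco

section fibre

variable {ι : Type*} [Fintype ι] [DecidableEq ι]
  {Y : Type*} [NormedAddCommGroup Y] [InnerProductSpace ℝ Y] [FiniteDimensional ℝ Y] {δ κ : ℝ}

theorem cF_KK_le (hδ : 0 < δ) (m : (ι → ℂ) × Y) {ξ : ι → ℝ} {s : ℝ} (hξ : ∀ l, |ξ l| ≤ s) :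
    cF δ m (KF ξ m) (KF ξ m) ≤ Fintype.card ι * (δ ^ 2 * s ^ 2) := by
  rw [cF_apply, KF_snd, inner_zero_left, add_zero]
  have h1 : ∀ i ∈ (Finset.univ : Finset ι),
      c1 δ (m.1 i) ((KF ξ m).1 i) ((KF ξ m).1 i) ≤ δ ^ 2 * s ^ 2 := by
    intro i _
    rw [KF_fst, map_smul, map_smul, smul_apply, c1_rot hδ, cr2_apply, IL_re, IL_im, smul_eq_mul,
      smul_eq_mul]
    have k1 := kk_mul hδ (m.1 i)
    have k2 := kk_pos hδ (m.1 i)
    have k3 : kk δ (m.1 i) * ((m.1 i).re * (m.1 i).re - (m.1 i).im * -(m.1 i).im) ≤ 1 := by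
      nlinarith [mul_pos k2 (pow_pos hδ 2)]
    have k4 : (ξ i) ^ 2 ≤ s ^ 2 := by
      rw [← sq_abs]
      exact pow_le_pow_left₀ (abs_nonneg _) (hξ i) 2
    have k5 : 0 ≤ kk δ (m.1 i) * ((m.1 i).re * (m.1 i).re - (m.1 i).im * -(m.1 i).im) := by
      have : 0 ≤ (m.1 i).re * (m.1 i).re - (m.1 i).im * -(m.1 i).im := by
        nlinarith [mul_self_nonneg (m.1 i).re, mul_self_nonneg (m.1 i).im]
      positivity
    calc _ = δ ^ 2 * ((ξ i) ^ 2 *
          (kk δ (m.1 i) * ((m.1 i).re * (m.1 i).re - (m.1 i).im * -(m.1 i).im))) := by ring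
      _ ≤ δ ^ 2 * (s ^ 2 * 1) := by gcongr
      _ = δ ^ 2 * s ^ 2 := by ring
  refine (Finset.sum_le_sum h1).trans (le_of_eq ?_)
  rw [Finset.sum_const, Finset.card_univ, nsmul_eq_mul]

theorem HF_le_one (hδ : 0 < δ) (hκ : 0 ≤ κ) (m : (ι → ℂ) × Y) : HF κ δ m ≤ 1 := by
  rw [HF, Real.exp_le_one_iff]
  have k1 : 0 ≤ mF δ m := Finset.sum_nonneg fun i _ => (sg_pos hδ _).le
  have k2 : 0 ≤ 2 * κ * δ := by positivity
  nlinarith

end fibre

/-- continuity of the speed -/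
theorem cont_speed {Z : Type*} [NormedAddCommGroup Z] [NormedSpace ℝ Z]
    {H : Z → Z →L[ℝ] Z →L[ℝ] ℝ} (hH : Continuous H) {γ : ℝ → Z}
    (hγ : ContDiffOn ℝ 1 γ (Icc 0 1)) : ContinuousOn (fun t => Real.sqrt (H (γ t)
      (derivWithin γ (Icc 0 1) t) (derivWithin γ (Icc 0 1) t))) (Icc 0 1) := by
  have h1 := hγ.continuousOn_derivWithin uniqueDiffOn_Icc_zero_one le_rfl
  have h2 := hH.comp_continuousOn hγ.continuousOn
  exact ((h2.clm_apply h1).clm_apply h1).sqrt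

variable {E : Type*} [NormedAddCommGroup E] [NormedSpace ℝ E] [FiniteDimensional ℝ E]
  {F : Type*} [NormedAddCommGroup F] [InnerProductSpace ℂ F] [FiniteDimensional ℂ F]
  {ι : Type*} [Fintype ι] [DecidableEq ι]
  {Y : Type*} [NormedAddCommGroup Y] [InnerProductSpace ℝ Y] [FiniteDimensional ℝ Y]
  {B : Set E} {n : ℕ} {P : ι → E → F →L[ℂ] F} {G : E → E →L[ℝ] E →L[ℝ] ℝ} {δ κ : ℝ}
  {b : E} {U : Set (RR n)} {ψ : RR n → E} {W : Set E} {ρ : E → RR n} {e : ι → RR n → F}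
  {A : RR n → RR n →L[ℝ] (ι → ℝ)}

/-- charts with a bounded connection form -/
def GCh (B : Set E) (n : ℕ) (G : E → E →L[ℝ] E →L[ℝ] ℝ) (P : ι → E → F →L[ℂ] F) (C : ℝ)
    (b : E) : Prop :=
  ∃ (U : Set (RR n)) (ψ : RR n → E) (W : Set E) (ρ : E → RR n) (e : ι → RR n → F)
    (A : RR n → RR n →L[ℝ] (ι → ℝ)) (O : Set E), LData B n P b U ψ W ρ e A ∧ IsOpen O ∧ b ∈ O ∧
      O ⊆ W ∧ ∀ b' ∈ O, b' ∈ B → ∀ v l, |A (ρ b') v l| ≤ C * Real.sqrt (pull G ψ (ρ b') v v)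

theorem local_norm {V : Type*} [NormedAddCommGroup V] [NormedSpace ℝ V]
    [FiniteDimensional ℝ V] {g : V → V →L[ℝ] V →L[ℝ] ℝ} {O : Set V} (hO : IsOpen O)
    (hg : IsMetricOn g O) {x0 : V} (hx0 : x0 ∈ O) :
    ∃ K > 0, ∀ᶠ x in 𝓝 x0, ∀ a, ‖a‖ ≤ K * Real.sqrt (g x a a) := by
  obtain ⟨K, hK0, hK⟩ := exists_norm_le (g x0) (hg.symm x0 hx0) (hg.pos x0 hx0)
  have hO' := hO.mem_nhds hx0
  have t4 : ∀ᶠ x in 𝓝 x0, ‖g x - g x0‖ < 1 / (2 * K ^ 2) := by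
    have k1 : ContinuousAt (fun x => g x - g x0) x0 :=
      (hg.smooth.contDiffAt hO').continuousAt.sub continuousAt_const
    refine k1.norm.eventually_lt_const ?_
    simp only [sub_self, norm_zero]
    positivity
  refine ⟨2 * K, by positivity, ?_⟩
  filter_upwards [t4] with x x4
  intro a
  have k1 : |(g x - g x0) a a| ≤ 1 / (2 * K ^ 2) * ‖a‖ * ‖a‖ := by
    refine ((g x - g x0).le_opNorm₂ a a).trans ?_
    gcongr
  have k2 : ‖a‖ ^ 2 ≤ K ^ 2 * g x0 a a := by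
    have k3 := hK a
    have k4 : 0 ≤ g x0 a a := by
      by_cases h : a = 0
      · simp [h]
      · exact (hg.pos x0 hx0 a h).le
    calc ‖a‖ ^ 2 ≤ (K * Real.sqrt (g x0 a a)) ^ 2 := by gcongr
      _ = K ^ 2 * g x0 a a := by rw [mul_pow, Real.sq_sqrt k4]
  have k5 : g x0 a a ≤ g x a a + 1 / (2 * K ^ 2) * ‖a‖ ^ 2 := by
    have := (abs_le.1 k1).1
    simp only [sub_apply] at this
    nlinarith
  have k6 : ‖a‖ ^ 2 ≤ 2 * K ^ 2 * g x a a := by
    have k7 : K ^ 2 * (1 / (2 * K ^ 2) * ‖a‖ ^ 2) = ‖a‖ ^ 2 / 2 := by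
      field_simp
    have k8 : K ^ 2 * g x0 a a ≤ K ^ 2 * (g x a a + 1 / (2 * K ^ 2) * ‖a‖ ^ 2) :=
      mul_le_mul_of_nonneg_left k5 (by positivity)
    rw [mul_add, k7] at k8
    linarith
  have k9 : 0 ≤ g x a a := by
    by_contra h
    have : 2 * K ^ 2 * g x a a < 0 := mul_neg_of_pos_of_neg (by positivity) (not_le.1 h)
    nlinarith [sq_nonneg ‖a‖]
  have k10 : ‖a‖ ^ 2 ≤ ((2 * K) * Real.sqrt (g x a a)) ^ 2 := by
    rw [mul_pow, Real.sq_sqrt k9]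
    nlinarith [mul_nonneg (sq_nonneg K) k9]
  exact le_of_sq_le_sq k10 (by positivity)

/-- uniform bounds of the connection forms -/
theorem exists_GCh (hB : IsClosedManifold B n)
    (hG : IsRiem B n G) (hP : ∀ i, ContDiff ℝ ∞ (P i))
    (hL : ∀ i, ∀ b ∈ B, IsLineProj (P i b)) : ∃ C ≥ 0, ∀ b ∈ B, GCh B n G P C b := by
  have key : ∀ b0 ∈ B, ∃ C, ∀ᶠ b in 𝓝[B] b0, GCh B n G P C b := by
    intro b0 hb0
    obtain ⟨U, ψ, W, ρ, e, A, h⟩ := exists_LData hB hP hL hb0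
    have hm := hG.metric U ψ h.chart.param
    have hx0 := (h.chart.left b0 h.chart.mem hb0).1
    obtain ⟨K, hK0, hK⟩ := local_norm h.chart.param.isOpen hm hx0
    have hρ : Tendsto ρ (𝓝 b0) (𝓝 (ρ b0)) :=
      (h.chart.smooth.continuousOn).continuousAt (h.chart.isOpen.mem_nhds h.chart.mem)
    have t1 : ∀ᶠ x in 𝓝 (ρ b0), ‖A x‖ < ‖A (ρ b0)‖ + 1 :=
      ((h.As.contDiffAt (h.chart.param.isOpen.mem_nhds hx0)).continuousAt.norm).eventually_lt_const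
        (by linarith)
    obtain ⟨O, hO1, hO2, hO3⟩ := eventually_nhds_iff.1 (hρ.eventually (hK.and t1))
    refine ⟨(‖A (ρ b0)‖ + 1) * K, ?_⟩
    have k1 : ∀ᶠ b in 𝓝[B] b0, b ∈ O ∩ W :=
      nhdsWithin_le_nhds ((hO2.inter h.chart.isOpen).mem_nhds ⟨hO3, h.chart.mem⟩)
    filter_upwards [k1] with b b1
    refine ⟨U, ψ, W, ρ, e, A, O ∩ W, h.at b1.2, hO2.inter h.chart.isOpen, b1,
      inter_subset_right, ?_⟩
    rintro b' hb' - v l
    obtain ⟨j1, j2⟩ := hO1 b' hb'.1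
    have j3 := norm_le_pi_norm (A (ρ b') v) l
    rw [Real.norm_eq_abs] at j3
    refine j3.trans (((A (ρ b')).le_opNorm v).trans ?_)
    rw [mul_assoc]
    have j4 := j1 v
    have j5 := norm_nonneg (A (ρ b'))
    gcongr
  have hmono : ∀ C C' b, C ≤ C' → GCh B n G P C b → GCh B n G P C' b := by
    rintro C C' b hl ⟨U, ψ, W, ρ, e, A, O, h1, h2, h3, h4, h5⟩
    exact ⟨U, ψ, W, ρ, e, A, O, h1, h2, h3, h4, fun b' hb' hb'B v l => (h5 b' hb' hb'B v l).trans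
      (mul_le_mul_of_nonneg_right hl (Real.sqrt_nonneg _))⟩
  obtain ⟨C, hC⟩ : ∃ C, ∀ b ∈ B, GCh B n G P C b := by
    refine hB.compact.induction_on (p := fun s => ∃ C, ∀ b ∈ s, GCh B n G P C b) ?_ ?_ ?_ ?_
    · exact ⟨0, fun b hb => absurd hb (notMem_empty b)⟩
    · rintro s t hst ⟨C, h⟩
      exact ⟨C, fun b hb => h b (hst hb)⟩
    · rintro s t ⟨C, h⟩ ⟨C', h'⟩
      refine ⟨max C C', ?_⟩
      rintro b (hb | hb)
      · exact hmono _ _ b (le_max_left _ _) (h b hb)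
      · exact hmono _ _ b (le_max_right _ _) (h' b hb)
    · intro b hb
      obtain ⟨C, h⟩ := key b hb
      exact ⟨_, h, C, fun b hb => hb⟩
  exact ⟨max C 0, le_max_right _ _, fun b hb => hmono _ _ b (le_max_left _ _) (hC b hb)⟩

/-- lift of a piece of a curve -/
theorem lift_piece (hδ : 0 < δ) (hκ : 0 ≤ κ) (hP : ∀ i, ContDiff ℝ ∞ (P i))
    (hL : ∀ i, ∀ b ∈ B, IsLineProj (P i b)) (hG : IsRiem B n G) {C : ℝ} (hC : 0 ≤ C)
    (h : LData B n P b U ψ W ρ e A) {O : Set E} (hOW : O ⊆ W)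
    (hA : ∀ b' ∈ O, b' ∈ B → ∀ v l, |A (ρ b') v l| ≤ C * Real.sqrt (pull G ψ (ρ b') v v))
    {γ : ℝ → E} (hγ : ContDiffOn ℝ 1 γ (Icc 0 1)) (hγB : ∀ t ∈ Icc (0 : ℝ) 1, γ t ∈ B)
    {s t : ℝ} (hs : 0 ≤ s) (hst : s ≤ t) (ht : t ≤ 1) (hγO : ∀ r ∈ Icc s t, γ r ∈ O)
    {q : E × ((ι → F) × Y)} (hq : q ∈ SB B P) (hqs : q.1 = γ s) :
    ∃ q' ∈ SB (Y := Y) B P, q'.1 = γ t ∧ ∃ ℓ ≤ (1 + δ * (Fintype.card ι * C)) *
      ∫ r in s..t, Real.sqrt (G (γ r) (derivWithin γ (Icc 0 1) r) (derivWithin γ (Icc 0 1) r)),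
      Connects (Gh (E := E) (F := F) (ι := ι) (Y := Y) G P κ δ) (SB B P) q q' ℓ := by
  have hqW : q.1 ∈ W := hOW (by rw [hqs]; exact hγO s ⟨le_rfl, hst⟩)
  set m := nuq ρ e q with hm
  obtain ⟨hT, hfl⟩ := Th_nuq h hL hq hqW
  rw [← hm] at hT hfl
  set a : ℝ → ℝ := fun τ => s + (t - s) * τ with ha
  have haI : ∀ τ ∈ Icc (0 : ℝ) 1, a τ ∈ Icc s t := by
    rintro τ ⟨h1, h2⟩
    have h3 : 0 ≤ t - s := by linarith
    constructor
    · simp only [ha]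
      nlinarith [mul_nonneg h3 h1]
    · simp only [ha]
      nlinarith [mul_nonneg h3 (sub_nonneg.2 h2)]
  have haJ : ∀ τ ∈ Icc (0 : ℝ) 1, a τ ∈ Icc (0 : ℝ) 1 := fun τ hτ =>
    ⟨hs.trans (haI τ hτ).1, (haI τ hτ).2.trans ht⟩
  have hin : ∀ τ ∈ Icc (0 : ℝ) 1, γ (a τ) ∈ O ∧ γ (a τ) ∈ B := fun τ hτ =>
    ⟨hγO _ (haI τ hτ), hγB _ (haJ τ hτ)⟩
  have hasm : ContDiff ℝ 1 a := contDiff_const.add (contDiff_const.mul contDiff_id)
  have hγa : ContDiffOn ℝ 1 (fun τ => γ (a τ)) (Icc 0 1) :=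
    hγ.comp hasm.contDiffOn haJ
  set x : ℝ → RR n := fun τ => ρ (γ (a τ)) with hx
  have hxs : ContDiffOn ℝ 1 x (Icc 0 1) :=
    (h.chart.smooth.of_le (by simp)).comp hγa fun τ hτ => hOW (hin τ hτ).1
  have hxU : ∀ τ ∈ Icc (0 : ℝ) 1, x τ ∈ U ∧ ψ (x τ) = γ (a τ) := fun τ hτ =>
    h.chart.left _ (hOW (hin τ hτ).1) (hin τ hτ).2
  set Γ : ℝ → E × ((ι → F) × Y) := fun τ => Th ψ e (x τ, m) with hΓ
  have hΓs : ContDiffOn ℝ 1 Γ (Icc 0 1) :=
    ((contDiffOn_Th h).of_le (by simp)).comp (hxs.prodMk contDiffOn_const)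
      fun τ hτ => ⟨(hxU τ hτ).1, mem_univ _⟩
  have hΓM : ∀ τ ∈ Icc (0 : ℝ) 1, Γ τ ∈ SB B P := fun τ hτ => Th_mem h (hxU τ hτ).1 hfl
  have hcon := Connects.curve (G := Gh (E := E) (F := F) (ι := ι) (Y := Y) G P κ δ) Γ hΓs hΓM
  have h0 : Γ 0 = q := by
    simp only [hΓ, hx, ha, mul_zero, add_zero]
    rw [← hqs]
    exact hT
  have ha1 : a 1 = t := by
    simp only [ha]
    ring
  have h1 : (Γ 1).1 = γ t := by
    have := (hxU 1 ⟨zero_le_one, le_rfl⟩).2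
    rw [ha1] at this
    exact this
  rw [h0] at hcon
  refine ⟨Γ 1, hΓM 1 ⟨zero_le_one, le_rfl⟩, h1, _, ?_, hcon⟩
  -- comparison of speeds
  set sp : ℝ → ℝ := fun r =>
    Real.sqrt (G (γ r) (derivWithin γ (Icc 0 1) r) (derivWithin γ (Icc 0 1) r)) with hsp
  set c := 1 + δ * (Fintype.card ι * C) with hc
  have hc0 : 0 ≤ c := by positivity
  have hmain : ∀ τ ∈ Icc (0 : ℝ) 1, Real.sqrt (Gh (E := E) (F := F) (ι := ι) (Y := Y) G P κ δ (Γ τ)
      (derivWithin Γ (Icc 0 1) τ) (derivWithin Γ (Icc 0 1) τ)) ≤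
      c * ((t - s) * sp (s + (t - s) * τ)) := by
    intro τ hτ
    have hud := uniqueDiffOn_Icc_zero_one τ hτ
    have d1 : HasDerivWithinAt γ (derivWithin γ (Icc 0 1) (a τ)) (Icc 0 1) (a τ) :=
      ((hγ.differentiableOn (by simp)) (a τ) (haJ τ hτ)).hasDerivWithinAt
    have d2 : HasDerivWithinAt a (t - s) (Icc 0 1) τ := by
      have h5 := ((hasDerivAt_id τ).const_mul (t - s)).const_add s
      rw [mul_one] at h5
      exact h5.hasDerivWithinAt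
    have d3 : HasDerivWithinAt (γ ∘ a) ((t - s) • derivWithin γ (Icc 0 1) (a τ)) (Icc 0 1) τ :=
      d1.scomp τ d2 haJ
    set w := (t - s) • derivWithin γ (Icc 0 1) (a τ) with hw
    have d4 : HasFDerivAt ρ (fderiv ℝ ρ (γ (a τ))) ((γ ∘ a) τ) :=
      ((h.chart.smooth.contDiffAt (h.chart.isOpen.mem_nhds (hOW (hin τ hτ).1))).differentiableAt
        (by simp)).hasFDerivAt
    have d5 : HasDerivWithinAt x (fderiv ℝ ρ (γ (a τ)) w) (Icc 0 1) τ :=
      d4.comp_hasDerivWithinAt τ d3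
    set x' := fderiv ℝ ρ (γ (a τ)) w with hx'
    have hUx := h.chart.param.isOpen.mem_nhds (hxU τ hτ).1
    have d6 : HasFDerivAt ψ (fderiv ℝ ψ (x τ)) (x τ) :=
      ((h.chart.param.smooth.contDiffAt hUx).differentiableAt (by simp)).hasFDerivAt
    have d7 : HasDerivWithinAt (ψ ∘ x) (fderiv ℝ ψ (x τ) x') (Icc 0 1) τ :=
      d6.comp_hasDerivWithinAt τ d5
    have d8 : HasDerivWithinAt (γ ∘ a) (fderiv ℝ ψ (x τ) x') (Icc 0 1) τ :=
      d7.congr (fun y hy => ((hxU y hy).2).symm) ((hxU τ hτ).2).symm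
    have d9 : fderiv ℝ ψ (x τ) x' = w := hud.eq_deriv _ d8 d3
    obtain ⟨L, hL1, hL2⟩ := hasFDerivAt_Th (Y := Y) h (q := (x τ, m)) (hxU τ hτ).1
    have d10 : HasDerivWithinAt (fun τ => (x τ, m)) (x', (0 : (ι → ℂ) × Y)) (Icc 0 1) τ :=
      d5.prodMk (hasDerivWithinAt_const τ _ m)
    have d11 : HasDerivWithinAt Γ (L (x', (0 : (ι → ℂ) × Y))) (Icc 0 1) τ :=
      HasFDerivAt.comp_hasDerivWithinAt (l := Th ψ e) (l' := L) (f := fun τ => (x τ, m)) τ hL1 d10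
    have d12 : derivWithin Γ (Icc 0 1) τ =
        fderiv ℝ (Th ψ e) (x τ, m) (x', (0 : (ι → ℂ) × Y)) := by
      rw [hL1.fderiv]
      exact d11.derivWithin hud
    have d13 := Gh_Th (δ := δ) (κ := κ) h hL G (q := (x τ, m)) (hxU τ hτ).1
      (x', (0 : (ι → ℂ) × Y)) (x', (0 : (ι → ℂ) × Y))
    rw [← d12] at d13
    have d14 : Gh (E := E) (F := F) (ι := ι) (Y := Y) G P κ δ (Γ τ)
      (derivWithin Γ (Icc 0 1) τ) (derivWithin Γ (Icc 0 1) τ) =
      HF κ δ m * pull G ψ (x τ) x' x' + cF δ m (KF (A (x τ) x') m) (KF (A (x τ) x') m) := by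
      rw [GE_apply] at d13
      simp only [zero_add] at d13
      exact d13
    set g0 := pull G ψ (x τ) x' x' with hg0
    have hg0n : 0 ≤ g0 := by
      by_cases hx0 : x' = 0
      · rw [hg0, hx0]
        simp
      · exact ((hG.metric U ψ h.chart.param).pos (x τ) (hxU τ hτ).1 x' hx0).le
    have e1 : HF κ δ m * g0 ≤ g0 := by
      have := HF_le_one hδ hκ m
      nlinarith
    have e2 : cF δ m (KF (A (x τ) x') m) (KF (A (x τ) x') m) ≤
        Fintype.card ι * (δ ^ 2 * (C * Real.sqrt g0) ^ 2) :=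
      cF_KK_le hδ m fun l => hA _ (hin τ hτ).1 (hin τ hτ).2 x' l
    have e3 : (C * Real.sqrt g0) ^ 2 = C ^ 2 * g0 := by rw [mul_pow, Real.sq_sqrt hg0n]
    rw [e3] at e2
    have e4 : HF κ δ m * g0 + cF δ m (KF (A (x τ) x') m) (KF (A (x τ) x') m) ≤
        (c * Real.sqrt g0) ^ 2 := by
      rw [mul_pow, Real.sq_sqrt hg0n]
      have e5 : (1 + (Fintype.card ι : ℝ) * (δ ^ 2 * C ^ 2)) ≤ c ^ 2 := by
        have e6 : (Fintype.card ι : ℝ) ≤ (Fintype.card ι : ℝ) ^ 2 := by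
          have := Nat.le_self_pow (n := 2) (by norm_num) (Fintype.card ι)
          exact_mod_cast this
        have e7 : 0 ≤ δ * (Fintype.card ι * C) := by positivity
        have e8 : (Fintype.card ι : ℝ) * (δ ^ 2 * C ^ 2) ≤
            (Fintype.card ι : ℝ) ^ 2 * (δ ^ 2 * C ^ 2) :=
          mul_le_mul_of_nonneg_right e6 (by positivity)
        have e9 : c ^ 2 = 1 + 2 * (δ * (Fintype.card ι * C)) +
            (Fintype.card ι : ℝ) ^ 2 * (δ ^ 2 * C ^ 2) := by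
          rw [hc]
          ring
        rw [e9]
        linarith
      have e10 := mul_le_mul_of_nonneg_right e5 hg0n
      linarith
    rw [d14]
    refine (Real.sqrt_le_sqrt e4).trans ?_
    rw [Real.sqrt_sq (mul_nonneg hc0 (Real.sqrt_nonneg _))]
    refine mul_le_mul_of_nonneg_left (le_of_eq ?_) hc0
    rw [hg0, pull_apply, d9, (hxU τ hτ).2, hw]
    simp only [map_smul, smul_apply, smul_eq_mul]
    rw [← mul_assoc, Real.sqrt_mul (mul_self_nonneg _), Real.sqrt_mul_self (by linarith)]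
  have hGc : Continuous G := hG.smooth.continuous
  have hspc : ContinuousOn sp (Icc 0 1) := cont_speed hGc hγ
  have hspa : ContinuousOn (fun τ => c * ((t - s) * sp (s + (t - s) * τ))) (Icc 0 1) := by
    have : ContinuousOn (fun τ => sp (a τ)) (Icc 0 1) := hspc.comp hasm.continuous.continuousOn haJ
    exact continuousOn_const.mul (continuousOn_const.mul this)
  have hΓc := cont_speed (contDiff_Gh (Y := Y) hG.smooth hP (κ := κ) hδ).continuous hΓs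
  calc _ ≤ ∫ τ in (0 : ℝ)..1, c * ((t - s) * sp (s + (t - s) * τ)) :=
        intervalIntegral.integral_mono_on zero_le_one
          (hΓc.intervalIntegrable_of_Icc zero_le_one) (hspa.intervalIntegrable_of_Icc zero_le_one)
          hmain
    _ = c * ∫ r in s..t, sp r := by
        rw [intervalIntegral.integral_const_mul, intervalIntegral.integral_const_mul]
        congr 1
        have := intervalIntegral.smul_integral_comp_add_mul (f := sp) (a := 0) (b := 1) (t - s) s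
        rw [smul_eq_mul] at this
        rw [this]
        congr 1 <;> ring

end Pool.Agent.H21_anco
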