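import Pool.Agent.H21_anco.Diam

/-!
Diameter of the sphere bundle.
-/

open scoped ContDiff Topology
open Filter Set

set_option maxSynthPendingDepth 3
set_option linter.unusedSectionVars false

noncomputable section

namespace Pool.Agent.H21_anco

theorem Connects.refl {Z : Type*} [NormedAddCommGroup Z] [NormedSpace ℝ Z]
    {H : Z → Z →L[ℝ] Z →L[ℝ] ℝ} {M : Set Z} {q : Z} (hq : q ∈ M) : Connects H M q q 0 := by
  have h1 := Connects.curve (G := H) (M := M) (fun _ => q) contDiffOn_const (fun _ _ => hq)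
  have h2 : (∫ t in (0 : ℝ)..1, Real.sqrt (H q (derivWithin (fun _ : ℝ => q) (Icc 0 1) t)
      (derivWithin (fun _ : ℝ => q) (Icc 0 1) t))) = 0 := by
    simp
  rw [h2] at h1
  exact h1

variable {E : Type*} [NormedAddCommGroup E] [NormedSpace ℝ E] [FiniteDimensional ℝ E]
  {F : Type*} [NormedAddCommGroup F] [InnerProductSpace ℂ F] [FiniteDimensional ℂ F]
  {ι : Type*} [Fintype ι] [DecidableEq ι]
  {Y : Type*} [NormedAddCommGroup Y] [InnerProductSpace ℝ Y] [FiniteDimensional ℝ Y]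
  {B : Set E} {n : ℕ} {P : ι → E → F →L[ℂ] F} {G : E → E →L[ℝ] E →L[ℝ] ℝ} {δ κ C : ℝ}

/-- lift of a curve -/
theorem lift_curve (hδ : 0 < δ) (hκ : 0 ≤ κ) (hP : ∀ i, ContDiff ℝ ∞ (P i))
    (hL : ∀ i, ∀ b ∈ B, IsLineProj (P i b)) (hG : IsRiem B n G) (hC : 0 ≤ C)
    (hGC : ∀ b ∈ B, GCh B n G P C b)
    {γ : ℝ → E} (hγ : ContDiffOn ℝ 1 γ (Icc 0 1)) (hγB : ∀ t ∈ Icc (0 : ℝ) 1, γ t ∈ B)
    {q : E × ((ι → F) × Y)} (hq : q ∈ SB B P) (hqs : q.1 = γ 0) :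
    ∃ q' ∈ SB (Y := Y) B P, q'.1 = γ 1 ∧ ∃ ℓ ≤ (1 + δ * (Fintype.card ι * C)) *
      ∫ r in (0 : ℝ)..1,
        Real.sqrt (G (γ r) (derivWithin γ (Icc 0 1) r) (derivWithin γ (Icc 0 1) r)),
      Connects (Gh (E := E) (F := F) (ι := ι) (Y := Y) G P κ δ) (SB B P) q q' ℓ := by
  choose U ψ W ρ e A O h1 h2 h3 h4 h5 using hGC
  set sp : ℝ → ℝ := fun r =>
    Real.sqrt (G (γ r) (derivWithin γ (Icc 0 1) r) (derivWithin γ (Icc 0 1) r)) with hsp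
  have hspc : ContinuousOn sp (Icc 0 1) := cont_speed hG.smooth.continuous hγ
  have hγc : Continuous (fun r : unitInterval => γ r) :=
    continuousOn_iff_continuous_domRestrict.1 hγ.continuousOn
  obtain ⟨t, ht0, htm, ⟨N, hN⟩, hti⟩ := exists_monotone_Icc_subset_open_cover_unitInterval
    (c := fun b : B => (fun r : unitInterval => γ r) ⁻¹' (O b.1 b.2))
    (fun b => (h2 b.1 b.2).preimage hγc)
    (fun r _ => mem_iUnion.2 ⟨⟨γ r, hγB r r.2⟩, h3 _ _⟩)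
  have key : ∀ k : ℕ, ∃ q' ∈ SB (Y := Y) B P, q'.1 = γ (t k) ∧
      ∃ ℓ ≤ (1 + δ * (Fintype.card ι * C)) * ∫ r in (0 : ℝ)..(t k), sp r,
      Connects (Gh (E := E) (F := F) (ι := ι) (Y := Y) G P κ δ) (SB B P) q q' ℓ := by
    intro k
    induction k with
    | zero =>
      refine ⟨q, hq, ?_, 0, ?_, Connects.refl hq⟩
      · rw [ht0]
        exact hqs
      · rw [ht0]
        simp
    | succ k ih =>
      obtain ⟨q1, hq1, hq1t, ℓ1, hℓ1, hc1⟩ := ih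
      obtain ⟨b, hb⟩ := hti k
      have hmk : ((t k : unitInterval) : ℝ) ≤ (t (k + 1) : unitInterval) := htm (Nat.le_succ k)
      obtain ⟨q2, hq2, hq2t, ℓ2, hℓ2, hc2⟩ := lift_piece (δ := δ) (κ := κ) hδ hκ hP hL hG hC
        (h1 b.1 b.2) (h4 b.1 b.2) (h5 b.1 b.2) hγ hγB (t k).2.1 hmk
        (t (k + 1)).2.2 (fun r hr => by
          have hr' : r ∈ Icc (0 : ℝ) 1 := ⟨(t k).2.1.trans hr.1, hr.2.trans (t (k + 1)).2.2⟩
          exact hb (show (⟨r, hr'⟩ : unitInterval) ∈ Icc (t k) (t (k + 1)) from hr)) hq1 hq1t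
      refine ⟨q2, hq2, hq2t, ℓ1 + ℓ2, ?_, hc1.trans hc2⟩
      have i1 : IntervalIntegrable sp MeasureTheory.volume 0 (t k) :=
        (hspc.mono (Icc_subset_Icc le_rfl (t k).2.2)).intervalIntegrable_of_Icc (t k).2.1
      have i2 : IntervalIntegrable sp MeasureTheory.volume (t k) (t (k + 1)) :=
        (hspc.mono (Icc_subset_Icc (t k).2.1 (t (k + 1)).2.2)).intervalIntegrable_of_Icc hmk
      rw [← intervalIntegral.integral_add_adjacent_intervals i1 i2, mul_add]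
      exact add_le_add hℓ1 hℓ2
  obtain ⟨q', h6, h7, ℓ, h8, h9⟩ := key N
  rw [hN N le_rfl] at h7 h8
  exact ⟨q', h6, h7, ℓ, h8, h9⟩

theorem lift_connects (hδ : 0 < δ) (hκ : 0 ≤ κ) (hP : ∀ i, ContDiff ℝ ∞ (P i))
    (hL : ∀ i, ∀ b ∈ B, IsLineProj (P i b)) (hG : IsRiem B n G) (hC : 0 ≤ C)
    (hGC : ∀ b ∈ B, GCh B n G P C b) {p p' : E} {ℓ : ℝ} (h : Connects G B p p' ℓ) :
    ∀ q ∈ SB (Y := Y) B P, q.1 = p → ∃ q' ∈ SB (Y := Y) B P, q'.1 = p' ∧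
      ∃ ℓ' ≤ (1 + δ * (Fintype.card ι * C)) * ℓ,
      Connects (Gh (E := E) (F := F) (ι := ι) (Y := Y) G P κ δ) (SB B P) q q' ℓ' := by
  induction h with
  | curve γ hγ hM =>
    intro q hq hqs
    exact lift_curve hδ hκ hP hL hG hC hGC hγ hM hq hqs
  | trans _ _ ih1 ih2 =>
    intro q hq hqs
    obtain ⟨q1, hq1, hq1t, ℓ1, hℓ1, hc1⟩ := ih1 q hq hqs
    obtain ⟨q2, hq2, hq2t, ℓ2, hℓ2, hc2⟩ := ih2 q1 hq1 hq1t
    refine ⟨q2, hq2, hq2t, ℓ1 + ℓ2, ?_, hc1.trans hc2⟩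
    rw [mul_add]
    exact add_le_add hℓ1 hℓ2

/-- **diameter of the sphere bundle** -/
theorem diam_SB [Nonempty ι] (hδ : 0 < δ) (hκ : 0 ≤ κ) (hP : ∀ i, ContDiff ℝ ∞ (P i))
    (hL : ∀ i, ∀ b ∈ B, IsLineProj (P i b)) (hG : IsRiem B n G) (hC : 0 ≤ C)
    (hGC : ∀ b ∈ B, GCh B n G P C b) (hδC : δ * (Fintype.card ι * C) ≤ 1)
    (hD : DiamLE G B 1) :
    DiamLE (Gh (E := E) (F := F) (ι := ι) (Y := Y) G P κ δ) (SB (Y := Y) B P) 6 := by
  intro p hp q hq η hη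
  obtain ⟨ℓ, hℓ, hc⟩ := hD p.1 hp.1 q.1 hq.1 (η / 2) (by positivity)
  obtain ⟨q', hq', hq't, ℓ', hℓ', hc'⟩ := lift_connects (κ := κ) hδ hκ hP hL hG hC hGC hc p hp rfl
  obtain ⟨ℓ'', hℓ'', hc''⟩ := fibre_arc (G := G) (κ := κ) (δ := δ) hq.1 (fun i => hL i q.1 hq.1)
    (u := q'.2) (v := q.2) (by
      intro i
      have := hq'.2.1 i
      rw [hq't] at this
      exact this) hq.2.1 (by rw [rp_self]; exact hq'.2.2) (by rw [rp_self]; exact hq.2.2)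
  have e1 : ((q.1, q'.2) : E × ((ι → F) × Y)) = q' := Prod.ext hq't.symm rfl
  rw [e1] at hc''
  refine ⟨ℓ' + ℓ'', ?_, hc'.trans hc''⟩
  have h1 := Real.pi_le_four
  by_cases h0 : 0 ≤ ℓ
  · have h2 : (1 + δ * (Fintype.card ι * C)) * ℓ ≤ 2 * ℓ :=
      mul_le_mul_of_nonneg_right (by linarith) h0
    linarith
  · have h2 : (1 + δ * (Fintype.card ι * C)) * ℓ ≤ 0 := by
      have : 0 ≤ δ * (Fintype.card ι * C) := by positivity
      nlinarith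
    linarith

end Pool.Agent.H21_anco
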