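import Pool.Agent.H21_anco.Coord2

/-!
The plane with the rotationally symmetric metric `|γ|^2 - ⟨Iw, γ⟩^2 / (δ^2 + |w|^2)`.
-/

open scoped ContDiff Topology
open Filter ContinuousLinearMap

set_option maxSynthPendingDepth 3
set_option linter.unusedSimpArgs false

noncomputable section

namespace Pool.Agent.H21_anco

section util

variable {E : Type*} [NormedAddCommGroup E] [NormedSpace ℝ E]
  {V : Type*} [NormedAddCommGroup V] [NormedSpace ℝ V] [FiniteDimensional ℝ V]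
  {W : Type*} [NormedAddCommGroup W] [NormedSpace ℝ W]

theorem contDiffOn_apply2 {f : E → V →L[ℝ] V →L[ℝ] W} {s : Set E}
    (h : ∀ u v, ContDiffOn ℝ ∞ (fun x => f x u v) s) : ContDiffOn ℝ ∞ f s :=
  contDiffOn_clm_apply.2 fun u => contDiffOn_clm_apply.2 fun v => h u v

theorem contDiff_apply2 {f : E → V →L[ℝ] V →L[ℝ] W}
    (h : ∀ u v, ContDiff ℝ ∞ (fun x => f x u v)) : ContDiff ℝ ∞ f :=
  contDiff_clm_apply_iff.2 fun u => contDiff_clm_apply_iff.2 fun v => h u v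

omit [FiniteDimensional ℝ V] in
theorem fderiv_apply2 {f : E → V →L[ℝ] V →L[ℝ] W} {x : E} (h : DifferentiableAt ℝ f x) (u : E)
    (v w : V) : fderiv ℝ f x u v w = fderiv ℝ (fun y => f y v w) x u := by
  have h2 := (h.hasFDerivAt.clm_apply (hasFDerivAt_const v x)).clm_apply (hasFDerivAt_const w x)
  rw [h2.fderiv]
  simp

end util

/-- Euclidean inner product of the plane -/
def dt2 : ℂ →L[ℝ] ℂ →L[ℝ] ℝ :=
  Complex.reCLM.smulRight Complex.reCLM + Complex.imCLM.smulRight Complex.imCLM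

/-- determinant of two vectors of the plane -/
def cr2 : ℂ →L[ℝ] ℂ →L[ℝ] ℝ :=
  Complex.reCLM.smulRight Complex.imCLM - Complex.imCLM.smulRight Complex.reCLM

/-- multiplication by `I` -/
def IL : ℂ →L[ℝ] ℂ := ContinuousLinearMap.mul ℝ ℂ Complex.I

@[simp] theorem dt2_apply (a b : ℂ) : dt2 a b = a.re * b.re + a.im * b.im := by
  simp [dt2]

@[simp] theorem cr2_apply (a b : ℂ) : cr2 a b = a.re * b.im - a.im * b.re := by
  simp [cr2]

@[simp] theorem IL_re (a : ℂ) : (IL a).re = - a.im := by simp [IL]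
@[simp] theorem IL_im (a : ℂ) : (IL a).im = a.re := by simp [IL]

/-- `(δ^2 + |w|^2)⁻¹` -/
def kk (δ : ℝ) (w : ℂ) : ℝ := (δ ^ 2 + w.re ^ 2 + w.im ^ 2)⁻¹

/-- the metric of the plane -/
def c1 (δ : ℝ) (w : ℂ) : ℂ →L[ℝ] ℂ →L[ℝ] ℝ := dt2 - kk δ w • (cr2 w).smulRight (cr2 w)

/-- the Christoffel map of the plane -/
def D1 (δ : ℝ) (w : ℂ) : ℂ →L[ℝ] ℂ →L[ℝ] ℂ :=
  - kk δ w • ((cr2 w).smulRight IL + ((cr2 w).smulRight IL).flip) -
    (kk δ w) ^ 2 • (cr2 w).smulRight ((cr2 w).smulRight w)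

@[simp] theorem c1_apply (δ : ℝ) (w a b : ℂ) : c1 δ w a b = a.re * b.re + a.im * b.im -
    kk δ w * (w.re * a.im - w.im * a.re) * (w.re * b.im - w.im * b.re) := by
  simp [c1]
  ring

theorem D1_apply (δ : ℝ) (w a b : ℂ) : D1 δ w a b =
    - kk δ w • (cr2 w a • IL b + cr2 w b • IL a) - (kk δ w) ^ 2 • (cr2 w a * cr2 w b) • w := by
  simp [D1, smul_smul, mul_comm]
  ring

@[simp] theorem D1_re (δ : ℝ) (w a b : ℂ) : (D1 δ w a b).re =
    kk δ w * ((w.re * a.im - w.im * a.re) * b.im + (w.re * b.im - w.im * b.re) * a.im) -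
    (kk δ w) ^ 2 * ((w.re * a.im - w.im * a.re) * (w.re * b.im - w.im * b.re)) * w.re := by
  rw [D1_apply]
  simp only [Complex.add_re, Complex.sub_re, Complex.smul_re, Complex.add_im, Complex.sub_im,
    Complex.smul_im, smul_eq_mul, IL_re, IL_im, cr2_apply]
  ring

@[simp] theorem D1_im (δ : ℝ) (w a b : ℂ) : (D1 δ w a b).im =
    - kk δ w * ((w.re * a.im - w.im * a.re) * b.re + (w.re * b.im - w.im * b.re) * a.re) -
    (kk δ w) ^ 2 * ((w.re * a.im - w.im * a.re) * (w.re * b.im - w.im * b.re)) * w.im := by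
  rw [D1_apply]
  simp only [Complex.add_re, Complex.sub_re, Complex.smul_re, Complex.add_im, Complex.sub_im,
    Complex.smul_im, smul_eq_mul, IL_re, IL_im, cr2_apply]
  ring

variable {δ : ℝ}

theorem kk_pos (hδ : 0 < δ) (w : ℂ) : 0 < kk δ w := by
  unfold kk
  positivity

theorem kk_mul (hδ : 0 < δ) (w : ℂ) : kk δ w * (δ ^ 2 + w.re ^ 2 + w.im ^ 2) = 1 := by
  unfold kk
  apply inv_mul_cancel₀
  positivity

theorem contDiff_kk (hδ : 0 < δ) : ContDiff ℝ ∞ (kk δ) := by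
  unfold kk
  refine ContDiff.inv ?_ ?_
  · exact ((contDiff_const.add (Complex.reCLM.contDiff.pow 2)).add (Complex.imCLM.contDiff.pow 2))
  · intro w
    positivity

theorem hasFDerivAt_kk (hδ : 0 < δ) (w : ℂ) :
    HasFDerivAt (kk δ) ((- 2 * kk δ w ^ 2) • dt2 w) w := by
  have h1 : HasFDerivAt (fun w : ℂ => δ ^ 2 + w.re ^ 2 + w.im ^ 2) ((2 : ℝ) • dt2 w) w := by
    have a := Complex.reCLM.hasFDerivAt (x := w)
    have b := Complex.imCLM.hasFDerivAt (x := w)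
    have c := ((hasFDerivAt_const (δ ^ 2) w).add (a.pow 2)).add (b.pow 2)
    refine c.congr_fderiv ?_
    ext z
    simp
    ring
  have h2 : (δ ^ 2 + w.re ^ 2 + w.im ^ 2) ≠ 0 := by positivity
  have h3 := (hasDerivAt_inv h2).comp_hasFDerivAt w h1
  refine h3.congr_fderiv ?_
  ext z
  simp [kk]
  field_simp

theorem contDiff_c1 (hδ : 0 < δ) : ContDiff ℝ ∞ (c1 δ) := by
  have h1 := contDiff_kk hδ
  have h2 : ContDiff ℝ ∞ (fun w : ℂ => cr2 w) := cr2.contDiff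
  unfold c1
  exact contDiff_const.sub (h1.smul (h2.smulRight h2))

theorem contDiff_D1 (hδ : 0 < δ) : ContDiff ℝ ∞ (D1 δ) := by
  apply contDiff_apply2
  intro u v
  have h1 := contDiff_kk hδ
  have h2 : ∀ a : ℂ, ContDiff ℝ ∞ (fun w : ℂ => cr2 w a) := fun a =>
    cr2.contDiff.clm_apply contDiff_const
  simp only [D1_apply]
  exact (h1.neg.smul (((h2 u).smul contDiff_const).add ((h2 v).smul contDiff_const))).sub
    ((h1.pow 2).smul (((h2 u).mul (h2 v)).smul contDiff_id))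

/-- derivative of the metric -/
theorem fderiv_c1 (hδ : 0 < δ) (w u a b : ℂ) : fderiv ℝ (c1 δ) w u a b =
    2 * kk δ w ^ 2 * dt2 w u * cr2 w a * cr2 w b - kk δ w * cr2 u a * cr2 w b -
      kk δ w * cr2 w a * cr2 u b := by
  rw [fderiv_apply2 (((contDiff_c1 hδ).differentiable (by simp)) w)]
  have h1 := hasFDerivAt_kk hδ w
  have h2 : ∀ a : ℂ, HasFDerivAt (fun w : ℂ => cr2 w a) (cr2.flip a) w := fun a =>
    (cr2.flip a).hasFDerivAt
  have h3 : (fun y => c1 δ y a b) = fun y => dt2 a b - kk δ y * cr2 y a * cr2 y b := by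
    ext y
    simp
  rw [h3]
  have h4 := (hasFDerivAt_const (dt2 a b) w).sub ((h1.mul (h2 a)).mul (h2 b))
  refine (congrArg (fun L : ℂ →L[ℝ] ℝ => L u) h4.fderiv).trans ?_
  simp
  ring

/-- Koszul's formula -/
theorem koszul_c1 (hδ : 0 < δ) (w a b e : ℂ) : 2 * c1 δ w (D1 δ w a b) e =
    fderiv ℝ (c1 δ) w a b e + fderiv ℝ (c1 δ) w b a e - fderiv ℝ (c1 δ) w e a b := by
  rw [fderiv_c1 hδ, fderiv_c1 hδ, fderiv_c1 hδ]
  simp
  ring

/-- derivative of the Christoffel map -/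
theorem fderiv_D1 (hδ : 0 < δ) (w u a b : ℂ) : fderiv ℝ (D1 δ) w u a b =
    (2 * kk δ w ^ 2 * dt2 w u) • (cr2 w a • IL b + cr2 w b • IL a) -
    kk δ w • (cr2 u a • IL b + cr2 u b • IL a) +
    (4 * kk δ w ^ 3 * dt2 w u * cr2 w a * cr2 w b) • w -
    (kk δ w ^ 2 * (cr2 u a * cr2 w b + cr2 w a * cr2 u b)) • w -
    (kk δ w ^ 2 * (cr2 w a * cr2 w b)) • u := by
  rw [fderiv_apply2 (((contDiff_D1 hδ).differentiable (by simp)) w)]
  have h1 := hasFDerivAt_kk hδ w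
  have h2 : ∀ a : ℂ, HasFDerivAt (fun w : ℂ => cr2 w a) (cr2.flip a) w := fun a =>
    (cr2.flip a).hasFDerivAt
  simp only [D1_apply]
  have h4 := (h1.neg.smul (((h2 a).smul (hasFDerivAt_const (IL b) w)).add
    ((h2 b).smul (hasFDerivAt_const (IL a) w)))).sub
    ((h1.pow 2).smul (((h2 a).mul (h2 b)).smul (hasFDerivAt_id w)))
  refine (congrArg (fun L : ℂ →L[ℝ] ℂ => L u) h4.fderiv).trans ?_
  simp only [add_apply, sub_apply, smul_apply, smulRight_apply, neg_apply, flip_apply,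
    zero_apply, Pi.smul_apply', Pi.add_apply, Pi.mul_apply, Pi.neg_apply, id_eq,
    smul_eq_mul, coe_id']
  module

/-- the curvature of the plane -/
theorem riem_D1 (hδ : 0 < δ) (w a b e f : ℂ) : c1 δ w (riem (D1 δ) w a b e) f =
    - 3 * δ ^ 4 * kk δ w ^ 3 * cr2 a b * cr2 e f := by
  have hk := kk_mul hδ w
  have key : riem (D1 δ) w a b e = (- 3 * δ ^ 2 * kk δ w ^ 3 * cr2 a b) •
      (δ ^ 2 • IL e + dt2 w e • IL w) := by
    unfold riem
    rw [fderiv_D1 hδ, fderiv_D1 hδ]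
    have e1 : kk δ w = (δ ^ 2 + w.re ^ 2 + w.im ^ 2)⁻¹ := rfl
    have h2 : (δ ^ 2 + w.re ^ 2 + w.im ^ 2) ≠ 0 := by positivity
    apply Complex.ext
    · simp only [Complex.add_re, Complex.sub_re, Complex.smul_re, Complex.add_im, Complex.sub_im,
        Complex.smul_im, smul_eq_mul, IL_re, IL_im, cr2_apply, dt2_apply, D1_re, D1_im]
      rw [e1]
      field_simp
      ring
    · simp only [Complex.add_re, Complex.sub_re, Complex.smul_re, Complex.add_im, Complex.sub_im,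
        Complex.smul_im, smul_eq_mul, IL_re, IL_im, cr2_apply, dt2_apply, D1_re, D1_im]
      rw [e1]
      field_simp
      ring
  rw [key]
  have e1 : kk δ w = (δ ^ 2 + w.re ^ 2 + w.im ^ 2)⁻¹ := rfl
  have h2 : (δ ^ 2 + w.re ^ 2 + w.im ^ 2) ≠ 0 := by positivity
  simp only [Complex.add_re, Complex.smul_re, Complex.add_im, Complex.smul_im, smul_eq_mul, IL_re,
    IL_im, cr2_apply, dt2_apply, c1_apply]
  rw [e1]
  field_simp
  ring

/-- rotation invariance of the metric -/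
theorem c1_inv (hδ : 0 < δ) (w a b : ℂ) (t : ℝ) : fderiv ℝ (c1 δ) w (t • IL w) a b =
    - c1 δ w (t • IL a) b - c1 δ w a (t • IL b) := by
  rw [fderiv_c1 hδ]
  simp only [Complex.smul_re, Complex.smul_im, smul_eq_mul, IL_re, IL_im, cr2_apply, dt2_apply,
    c1_apply]
  ring

/-- `√(δ^2 + |w|^2)` -/
def sg (δ : ℝ) (w : ℂ) : ℝ := Real.sqrt (δ ^ 2 + w.re ^ 2 + w.im ^ 2)

theorem sg_pos (hδ : 0 < δ) (w : ℂ) : 0 < sg δ w := Real.sqrt_pos.2 (by positivity)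

theorem sg_sq (w : ℂ) : sg δ w ^ 2 = δ ^ 2 + w.re ^ 2 + w.im ^ 2 :=
  Real.sq_sqrt (by positivity)

theorem kk_sg (w : ℂ) : kk δ w = (sg δ w ^ 2)⁻¹ := by
  rw [sg_sq]
  rfl

theorem contDiff_sg (hδ : 0 < δ) : ContDiff ℝ ∞ (sg δ) := by
  unfold sg
  refine ContDiff.sqrt ?_ ?_
  · exact ((contDiff_const.add (Complex.reCLM.contDiff.pow 2)).add (Complex.imCLM.contDiff.pow 2))
  · intro w
    positivity

theorem hasFDerivAt_sg (hδ : 0 < δ) (w : ℂ) : HasFDerivAt (sg δ) ((sg δ w)⁻¹ • dt2 w) w := by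
  have h1 : HasFDerivAt (fun w : ℂ => δ ^ 2 + w.re ^ 2 + w.im ^ 2) ((2 : ℝ) • dt2 w) w := by
    have a := Complex.reCLM.hasFDerivAt (x := w)
    have b := Complex.imCLM.hasFDerivAt (x := w)
    have c := ((hasFDerivAt_const (δ ^ 2) w).add (a.pow 2)).add (b.pow 2)
    refine c.congr_fderiv ?_
    ext z
    simp
    ring
  have h2 : (δ ^ 2 + w.re ^ 2 + w.im ^ 2) ≠ 0 := by positivity
  have h3 := h1.sqrt h2
  refine h3.congr_fderiv ?_
  ext z
  simp [sg]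
  ring

theorem fderiv_sg (hδ : 0 < δ) (w a : ℂ) : fderiv ℝ (sg δ) w a = (sg δ w)⁻¹ * dt2 w a := by
  rw [(hasFDerivAt_sg hδ w).fderiv]
  simp

theorem fderiv2_sg (hδ : 0 < δ) (w a b : ℂ) : fderiv ℝ (fderiv ℝ (sg δ)) w a b =
    (sg δ w)⁻¹ * (dt2 a b - kk δ w * dt2 w a * dt2 w b) := by
  have h1 : fderiv ℝ (sg δ) = fun w => (sg δ w)⁻¹ • dt2 w := by
    ext1 w
    exact (hasFDerivAt_sg hδ w).fderiv
  have h2 : HasFDerivAt (fun w => (sg δ w)⁻¹)
      ((-(sg δ w ^ 2)⁻¹) • ((sg δ w)⁻¹ • dt2 w)) w :=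
    (hasDerivAt_inv (sg_pos hδ w).ne').comp_hasFDerivAt w (hasFDerivAt_sg hδ w)
  have h3 : HasFDerivAt (fun w : ℂ => dt2 w) dt2 w := dt2.hasFDerivAt
  have h4 := h2.smul h3
  rw [h1]
  refine (congrArg (fun L : ℂ →L[ℝ] ℂ →L[ℝ] ℝ => L a b) h4.fderiv).trans ?_
  rw [kk_sg]
  simp
  ring

/-- the Hessian of `√(δ^2 + |w|^2)` -/
theorem hess_sg (hδ : 0 < δ) (w a b : ℂ) :
    fderiv ℝ (fderiv ℝ (sg δ)) w a b - fderiv ℝ (sg δ) w (D1 δ w a b) =
      δ ^ 2 * (sg δ w)⁻¹ * kk δ w * c1 δ w a b := by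
  have hk := kk_mul hδ w
  have e1 : kk δ w = (δ ^ 2 + w.re ^ 2 + w.im ^ 2)⁻¹ := rfl
  have h2 : (δ ^ 2 + w.re ^ 2 + w.im ^ 2) ≠ 0 := by positivity
  have h3 := (sg_pos hδ w).ne'
  rw [fderiv2_sg hδ, fderiv_sg hδ]
  simp only [dt2_apply, c1_apply, D1_re, D1_im]
  rw [e1]
  field_simp
  ring

/-- covariant derivative of the rotation field -/
theorem rot_cov (hδ : 0 < δ) (w a b : ℂ) : c1 δ w (IL a + D1 δ w a (IL w)) b =
    δ ^ 4 * kk δ w ^ 2 * cr2 a b := by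
  have e1 : kk δ w = (δ ^ 2 + w.re ^ 2 + w.im ^ 2)⁻¹ := rfl
  have h2 : (δ ^ 2 + w.re ^ 2 + w.im ^ 2) ≠ 0 := by positivity
  simp only [Complex.add_re, Complex.add_im, IL_re,
    IL_im, cr2_apply, c1_apply, D1_re, D1_im]
  rw [e1]
  field_simp
  ring

theorem c1_rot (hδ : 0 < δ) (w b : ℂ) : c1 δ w (IL w) b = δ ^ 2 * kk δ w * cr2 w b := by
  have e1 : kk δ w = (δ ^ 2 + w.re ^ 2 + w.im ^ 2)⁻¹ := rfl
  have h2 : (δ ^ 2 + w.re ^ 2 + w.im ^ 2) ≠ 0 := by positivity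
  simp only [IL_re, IL_im, cr2_apply, c1_apply]
  rw [e1]
  field_simp
  ring

theorem c1_rad (w b : ℂ) : c1 δ w w b = dt2 w b := by
  simp only [c1_apply, dt2_apply]
  ring

theorem dt2_rot (w : ℂ) : dt2 w (IL w) = 0 := by
  simp
  ring

end Pool.Agent.H21_anco
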