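import Pool.Agent.H21_anco.Chart

/-!
Great circle arcs in the fibres of the sphere bundle.
-/

open scoped ContDiff Topology
open Filter Set

set_option maxSynthPendingDepth 3
set_option linter.unusedSectionVars false

noncomputable section

namespace Pool.Agent.H21_anco

variable {E : Type*} [NormedAddCommGroup E] [NormedSpace ℝ E]
  {F : Type*} [NormedAddCommGroup F] [InnerProductSpace ℂ F] [FiniteDimensional ℂ F]
  {ι : Type*} [Fintype ι] [DecidableEq ι]
  {Y : Type*} [NormedAddCommGroup Y] [InnerProductSpace ℝ Y]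
  {B : Set E} {P : ι → E → F →L[ℂ] F} {G : E → E →L[ℝ] E →L[ℝ] ℝ} {δ κ : ℝ}

/-- real inner product of the fibre -/
def rp (a b : (ι → F) × Y) : ℝ := ∑ i, (inner ℂ (a.1 i) (b.1 i)).re + inner ℝ a.2 b.2

theorem rp_apply (a b : (ι → F) × Y) :
    rp a b = ∑ i, (inner ℂ (a.1 i) (b.1 i)).re + inner ℝ a.2 b.2 := rfl

theorem rp_add_right (a b c : (ι → F) × Y) : rp a (b + c) = rp a b + rp a c := by
  simp only [rp, Prod.fst_add, Prod.snd_add, Pi.add_apply, inner_add_right, Complex.add_re,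
    Finset.sum_add_distrib]
  ring

theorem rp_smul_right (a b : (ι → F) × Y) (t : ℝ) : rp a (t • b) = t * rp a b := by
  simp only [rp, Prod.smul_fst, Prod.smul_snd, Pi.smul_apply, inner_smul_right, mul_add,
    Finset.mul_sum]
  congr 1
  refine Finset.sum_congr rfl fun i _ => ?_
  rw [← Complex.coe_smul, inner_smul_right]
  simp

theorem rp_symm (a b : (ι → F) × Y) : rp a b = rp b a := by
  rw [rp_apply, rp_apply, real_inner_comm]
  congr 1
  refine Finset.sum_congr rfl fun i _ => ?_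
  rw [← inner_conj_symm, Complex.conj_re]

theorem rp_add_left (a b c : (ι → F) × Y) : rp (a + b) c = rp a c + rp b c := by
  rw [rp_symm, rp_add_right, rp_symm c a, rp_symm c b]

theorem rp_smul_left (a b : (ι → F) × Y) (t : ℝ) : rp (t • a) b = t * rp a b := by
  rw [rp_symm, rp_smul_right, rp_symm]

theorem rp_self (a : (ι → F) × Y) : rp a a = ∑ i, ‖a.1 i‖ ^ 2 + ‖a.2‖ ^ 2 := by
  rw [rp_apply, real_inner_self_eq_norm_sq]
  congr 1
  refine Finset.sum_congr rfl fun i _ => ?_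
  rw [inner_self_eq_norm_sq_to_K]
  norm_cast

theorem rp_nonneg (a : (ι → F) × Y) : 0 ≤ rp a a := by
  rw [rp_self]
  positivity

theorem rp_zero {a : (ι → F) × Y} (h : rp a a = 0) : a = 0 := by
  rw [rp_self] at h
  have h1 : 0 ≤ ∑ i, ‖a.1 i‖ ^ 2 := Finset.sum_nonneg fun i _ => sq_nonneg _
  have h2 : ∑ i, ‖a.1 i‖ ^ 2 = 0 := by nlinarith [sq_nonneg ‖a.2‖]
  have h3 : ‖a.2‖ ^ 2 = 0 := by linarith
  refine Prod.ext ?_ ?_
  · funext i
    have := (Finset.sum_eq_zero_iff_of_nonneg (fun i _ => sq_nonneg _)).1 h2 i (Finset.mem_univ i)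
    simpa using this
  · simpa using h3

/-- fixed vectors over `b` -/
def Fx (P : ι → E → F →L[ℂ] F) (b : E) (m : (ι → F) × Y) : Prop := ∀ i, P i b (m.1 i) = m.1 i

theorem Fx.smul {b : E} {m : (ι → F) × Y} (h : Fx P b m) (t : ℝ) : Fx P b (t • m) := by
  intro i
  rw [Prod.smul_fst, Pi.smul_apply, ← Complex.coe_smul, map_smul, h i]

theorem Fx.add {b : E} {m m' : (ι → F) × Y} (h : Fx P b m) (h' : Fx P b m') :
    Fx P b (m + m') := by
  intro i
  rw [Prod.fst_add, Pi.add_apply, map_add, h i, h' i]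

theorem exists_orth [Nonempty ι] {b : E} (hL : ∀ i, IsLineProj (P i b)) {u : (ι → F) × Y}
    (hu : Fx P b u) : ∃ z : (ι → F) × Y, Fx P b z ∧ rp z z = 1 ∧ rp u z = 0 := by
  obtain ⟨i0⟩ := (inferInstance : Nonempty ι)
  have key : ∀ w : F, P i0 b w = w → ‖w‖ = 1 → (inner ℂ (u.1 i0) w).re = 0 →
      ∃ z : (ι → F) × Y, Fx P b z ∧ rp z z = 1 ∧ rp u z = 0 := by
    intro w h1 h2 h3
    refine ⟨(Pi.single i0 w, 0), ?_, ?_, ?_⟩
    · intro i
      simp only
      by_cases hi : i = i0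
      · subst hi
        rw [Pi.single_eq_same, h1]
      · rw [Pi.single_eq_of_ne hi, map_zero]
    · rw [rp_self]
      have k1 : ∀ i, ‖(Pi.single i0 w : ι → F) i‖ ^ 2 = if i = i0 then 1 else 0 := by
        intro i
        by_cases hi : i = i0
        · subst hi
          rw [Pi.single_eq_same, h2, if_pos rfl]
          norm_num
        · rw [Pi.single_eq_of_ne hi, if_neg hi, norm_zero]
          norm_num
      simp only [k1, Finset.sum_ite_eq', Finset.mem_univ, if_true, norm_zero]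
      norm_num
    · rw [rp_apply, Finset.sum_eq_single i0]
      · simp only [Pi.single_eq_same, h3, inner_zero_right, add_zero]
      · intro i _ hi
        simp only
        rw [Pi.single_eq_of_ne hi, inner_zero_right]
        rfl
      · intro hh
        exact absurd (Finset.mem_univ i0) hh
  by_cases h0 : u.1 i0 = 0
  · obtain ⟨v, hv0, hv⟩ := (hL i0).exists_vec
    refine key ((‖v‖)⁻¹ • v) ?_ ?_ ?_
    · rw [← Complex.coe_smul, map_smul, hv]
    · rw [norm_smul, norm_inv, norm_norm, inv_mul_cancel₀ (norm_ne_zero_iff.2 hv0)]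
    · rw [h0, inner_zero_left]
      rfl
  · refine key (((‖u.1 i0‖ : ℂ))⁻¹ • (Complex.I • u.1 i0)) ?_ ?_ ?_
    · rw [map_smul, map_smul, hu i0]
    · rw [norm_smul, norm_smul, norm_inv]
      simp [norm_ne_zero_iff.2 h0]
    · rw [inner_smul_right, inner_smul_right, inner_self_eq_norm_sq_to_K]
      have h1 : ‖u.1 i0‖ ≠ 0 := norm_ne_zero_iff.2 h0
      have h2 : ((‖u.1 i0‖ : ℂ))⁻¹ * (Complex.I * (‖u.1 i0‖ : ℂ) ^ 2) =
          ((‖u.1 i0‖ : ℝ) : ℂ) * Complex.I := by
        have h3 : (‖u.1 i0‖ : ℂ) ≠ 0 := by exact_mod_cast h1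
        field_simp
      have h4 : (((‖u.1 i0‖ : ℂ))⁻¹ * (Complex.I * ((‖u.1 i0‖ : ℝ) : ℂ) ^ 2)).re = 0 := by
        rw [h2]
        simp
      exact h4

end Pool.Agent.H21_anco
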