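import Pool.Agent.H21_anco.Fib

/-!
Great circle arcs in the fibres of the sphere bundle.
-/

open scoped ContDiff Topology
open Filter Set

set_option maxSynthPendingDepth 3
set_option linter.unusedSectionVars false

noncomputable section

namespace Pool.Agent.H21_anco

variable {E : Type*} [NormedAddCommGroup E] [NormedSpace ℝ E]
  {F : Type*} [NormedAddCommGroup F] [InnerProductSpace ℂ F] [FiniteDimensional ℂ F]
  {ι : Type*} [Fintype ι] [DecidableEq ι]
  {Y : Type*} [NormedAddCommGroup Y] [InnerProductSpace ℝ Y]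
  {B : Set E} {P : ι → E → F →L[ℂ] F} {G : E → E →L[ℝ] E →L[ℝ] ℝ} {δ κ : ℝ}

theorem Gh_vert_le {b : E} {u m : (ι → F) × Y} (hm : Fx P b m) :
    Gh (E := E) (F := F) (ι := ι) (Y := Y) G P κ δ (b, u) (0, m) (0, m) ≤ rp m m := by
  rw [Gh_apply, rp_apply]
  simp only [map_zero, zero_apply, mul_zero, zero_add]
  gcongr with i _
  rw [hm i]
  have h1 : 0 ≤ (δ ^ 2 + ‖u.1 i‖ ^ 2)⁻¹ *
      ((inner ℂ (u.1 i) (m.1 i)).im * (inner ℂ (u.1 i) (m.1 i)).im) := by
    have := mul_self_nonneg (inner ℂ (u.1 i) (m.1 i)).im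
    positivity
  linarith

/-- two points of a fibre are connected by an arc of length at most `π` -/
theorem fibre_arc [Nonempty ι] {b : E} (hb : b ∈ B) (hL : ∀ i, IsLineProj (P i b))
    {u v : (ι → F) × Y} (hu : Fx P b u) (hv : Fx P b v) (hu1 : rp u u = 1) (hv1 : rp v v = 1) :
    ∃ ℓ ≤ Real.pi, Connects (Gh (E := E) (F := F) (ι := ι) (Y := Y) G P κ δ) (SB B P)
      (b, u) (b, v) ℓ := by
  -- the angle and the second vector
  obtain ⟨θ, z, hθ0, hθ1, hz, hz1, huz, hvz⟩ : ∃ (θ : ℝ) (z : (ι → F) × Y), 0 ≤ θ ∧ θ ≤ Real.pi ∧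
      Fx P b z ∧ rp z z = 1 ∧ rp u z = 0 ∧ v = Real.cos θ • u + Real.sin θ • z := by
    set c := rp u v with hc
    set w := v + (-c) • u with hw
    have hww : rp w w = 1 - c ^ 2 := by
      rw [hw]
      simp only [rp_add_left, rp_add_right, rp_smul_left, rp_smul_right, rp_symm v u, hu1, hv1,
        ← hc]
      ring
    have huw : rp u w = 0 := by
      rw [hw, rp_add_right, rp_smul_right, hu1, ← hc]
      ring
    have h1 : 0 ≤ 1 - c ^ 2 := by rw [← hww]; exact rp_nonneg w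
    have h2 : -1 ≤ c := by nlinarith
    have h3 : c ≤ 1 := by nlinarith
    have hcos : Real.cos (Real.arccos c) = c := Real.cos_arccos h2 h3
    have hsin : Real.sin (Real.arccos c) = Real.sqrt (1 - c ^ 2) := Real.sin_arccos c
    have hwF : Fx P b w := hv.add (hu.smul _)
    by_cases h4 : 1 - c ^ 2 = 0
    · obtain ⟨z, hz, hz1, huz⟩ := exists_orth hL hu
      refine ⟨Real.arccos c, z, Real.arccos_nonneg c, Real.arccos_le_pi c, hz, hz1, huz, ?_⟩
      rw [hcos, hsin, h4, Real.sqrt_zero, zero_smul, add_zero]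
      have h5 : w = 0 := rp_zero (hww.trans h4)
      rw [hw, neg_smul, add_neg_eq_zero] at h5
      exact h5
    · have h5 : 0 < 1 - c ^ 2 := lt_of_le_of_ne h1 (Ne.symm h4)
      have h6 : 0 < Real.sqrt (1 - c ^ 2) := Real.sqrt_pos.2 h5
      refine ⟨Real.arccos c, (Real.sqrt (1 - c ^ 2))⁻¹ • w, Real.arccos_nonneg c,
        Real.arccos_le_pi c, hwF.smul _, ?_, ?_, ?_⟩
      · rw [rp_smul_left, rp_smul_right, hww]
        have h7 : Real.sqrt (1 - c ^ 2) * Real.sqrt (1 - c ^ 2) = 1 - c ^ 2 :=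
          Real.mul_self_sqrt h1
        field_simp
        nlinarith
      · rw [rp_smul_right, huw, mul_zero]
      · rw [hcos, hsin, smul_smul, mul_inv_cancel₀ h6.ne', one_smul, hw, neg_smul]
        abel
  -- the curve
  set γ : ℝ → E × ((ι → F) × Y) := fun t =>
    (b, Real.cos (θ * t) • u + Real.sin (θ * t) • z) with hγ
  have hd : ∀ t, HasDerivAt γ ((0 : E), (-Real.sin (θ * t) * θ) • u +
      (Real.cos (θ * t) * θ) • z) t := by
    intro t
    have k0 : HasDerivAt (fun t : ℝ => θ * t) θ t := by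
      simpa using (hasDerivAt_id t).const_mul θ
    have k1 : HasDerivAt (fun t => Real.cos (θ * t)) (-Real.sin (θ * t) * θ) t := k0.cos
    have k2 : HasDerivAt (fun t => Real.sin (θ * t)) (Real.cos (θ * t) * θ) t := k0.sin
    exact (hasDerivAt_const t b).prodMk ((k1.smul_const u).add (k2.smul_const z))
  have hF : ∀ s c : ℝ, Fx P b (s • u + c • z) := fun s c => (hu.smul s).add (hz.smul c)
  have hrp : ∀ s c : ℝ, rp (s • u + c • z) (s • u + c • z) = s ^ 2 + c ^ 2 := by
    intro s c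
    simp only [rp_add_left, rp_add_right, rp_smul_left, rp_smul_right, rp_symm z u, huz, hu1, hz1]
    ring
  have hsm : ContDiff ℝ 1 γ := by
    have k0 : ContDiff ℝ 1 (fun t : ℝ => θ * t) := contDiff_const.mul contDiff_id
    have k1 : ContDiff ℝ 1 (fun t => Real.cos (θ * t)) := k0.cos
    have k2 : ContDiff ℝ 1 (fun t => Real.sin (θ * t)) := k0.sin
    exact contDiff_const.prodMk ((k1.smul contDiff_const).add (k2.smul contDiff_const))
  have hM : ∀ t ∈ Icc (0 : ℝ) 1, γ t ∈ SB B P := by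
    intro t _
    refine ⟨hb, hF _ _, ?_⟩
    have := hrp (Real.cos (θ * t)) (Real.sin (θ * t))
    rw [rp_self, Real.cos_sq_add_sin_sq] at this
    exact this
  have hcon := Connects.curve (G := Gh (E := E) (F := F) (ι := ι) (Y := Y) G P κ δ) γ
    hsm.contDiffOn hM
  have h0 : γ 0 = (b, u) := by
    simp [hγ]
  have h1 : γ 1 = (b, v) := by
    simp only [hγ, mul_one]
    rw [← hvz]
  rw [h0, h1] at hcon
  refine ⟨_, ?_, hcon⟩
  refine (le_abs_self _).trans ?_
  rw [← Real.norm_eq_abs]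
  have k3 := intervalIntegral.norm_integral_le_of_norm_le_const (a := (0 : ℝ)) (b := 1)
    (C := Real.pi) (f := fun t => Real.sqrt (Gh (E := E) (F := F) (ι := ι) (Y := Y) G P κ δ (γ t)
      (derivWithin γ (Icc 0 1) t) (derivWithin γ (Icc 0 1) t))) ?_
  · simpa using k3
  · intro t ht
    rw [uIoc_of_le zero_le_one] at ht
    have ht' : t ∈ Icc (0 : ℝ) 1 := ⟨ht.1.le, ht.2⟩
    have k4 : derivWithin γ (Icc 0 1) t = ((0 : E), (-Real.sin (θ * t) * θ) • u +
      (Real.cos (θ * t) * θ) • z) :=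
      (hd t).hasDerivWithinAt.derivWithin (uniqueDiffOn_Icc_zero_one t ht')
    rw [Real.norm_eq_abs, abs_of_nonneg (Real.sqrt_nonneg _), k4]
    refine (Real.sqrt_le_sqrt (Gh_vert_le (hF _ _))).trans ?_
    rw [hrp]
    have k5 : (-Real.sin (θ * t) * θ) ^ 2 + (Real.cos (θ * t) * θ) ^ 2 = θ ^ 2 := by
      have := Real.sin_sq_add_cos_sq (θ * t)
      linear_combination θ ^ 2 * this
    rw [k5, Real.sqrt_sq hθ0]
    exact hθ1

end Pool.Agent.H21_anco
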