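import Pool.Agent.H21_anco.Model3
import Pool.Agent.H21_anco.Factor

/-!
The fibre `(ι → ℂ) × Y` with the product metric, its connection, its rotations and the warping
function.
-/

open scoped ContDiff Topology
open Filter ContinuousLinearMap

set_option maxSynthPendingDepth 3
set_option linter.unusedSimpArgs false
set_option linter.unusedSectionVars false

noncomputable section

namespace Pool.Agent.H21_anco

variable {ι : Type*} [Fintype ι] [DecidableEq ι]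
  {Y : Type*} [NormedAddCommGroup Y] [InnerProductSpace ℝ Y] [FiniteDimensional ℝ Y]

/-- coordinate projection -/
def pj (i : ι) : ((ι → ℂ) × Y) →L[ℝ] ℂ :=
  (ContinuousLinearMap.proj (R := ℝ) (φ := fun _ : ι => ℂ) i).comp (fst ℝ (ι → ℂ) Y)

/-- coordinate inclusion -/
def ij (i : ι) : ℂ →L[ℝ] ((ι → ℂ) × Y) :=
  (inl ℝ (ι → ℂ) Y).comp (ContinuousLinearMap.single ℝ (fun _ : ι => ℂ) i)

@[simp] theorem pj_apply (i : ι) (n : (ι → ℂ) × Y) : pj i n = n.1 i := rfl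

@[simp] theorem ij_fst (i j : ι) (z : ℂ) : (ij i z : (ι → ℂ) × Y).1 j = if j = i then z else 0 := by
  simp [ij, Pi.single_apply]

@[simp] theorem ij_snd (i : ι) (z : ℂ) : (ij i z : (ι → ℂ) × Y).2 = 0 := by
  simp [ij]

/-- the fibre metric -/
def cF (δ : ℝ) (n : (ι → ℂ) × Y) : ((ι → ℂ) × Y) →L[ℝ] ((ι → ℂ) × Y) →L[ℝ] ℝ :=
  (∑ i, (c1 δ (n.1 i)).bilinearComp (pj i) (pj i)) +
    (innerSL ℝ).bilinearComp (snd ℝ (ι → ℂ) Y) (snd ℝ (ι → ℂ) Y)

/-- the Christoffel map of the fibre -/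
def DF (δ : ℝ) (n : (ι → ℂ) × Y) : ((ι → ℂ) × Y) →L[ℝ] ((ι → ℂ) × Y) →L[ℝ] ((ι → ℂ) × Y) :=
  ∑ i, (compL ℝ ((ι → ℂ) × Y) ℂ ((ι → ℂ) × Y) (ij i)).comp
    ((D1 δ (n.1 i)).bilinearComp (pj i) (pj i))

/-- the rotations of the fibre -/
def KF : (ι → ℝ) →L[ℝ] ((ι → ℂ) × Y) →L[ℝ] ((ι → ℂ) × Y) :=
  ∑ i, (ContinuousLinearMap.proj (R := ℝ) (φ := fun _ : ι => ℝ) i).smulRight
    ((ij i).comp (IL.comp (pj i)))

/-- the function `∑ √(δ^2 + |w_i|^2)` -/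
def mF (δ : ℝ) (n : (ι → ℂ) × Y) : ℝ := ∑ i, sg δ (n.1 i)

/-- the warping function -/
def HF (κ δ : ℝ) (n : (ι → ℂ) × Y) : ℝ := Real.exp (- (2 * κ * δ) * mF δ n)

theorem cF_apply (δ : ℝ) (n a b : (ι → ℂ) × Y) :
    cF δ n a b = ∑ i, c1 δ (n.1 i) (a.1 i) (b.1 i) + inner ℝ a.2 b.2 := by
  simp only [cF, add_apply, sum_apply, bilinearComp_apply, pj_apply, coe_snd', innerSL_apply_apply]

theorem DF_fst (δ : ℝ) (n a b : (ι → ℂ) × Y) (i : ι) :
    (DF δ n a b).1 i = D1 δ (n.1 i) (a.1 i) (b.1 i) := by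
  have h : DF δ n a b = ∑ j, ij j (D1 δ (n.1 j) (a.1 j) (b.1 j)) := by
    simp only [DF, sum_apply, ContinuousLinearMap.comp_apply, bilinearComp_apply, pj_apply,
      compL_apply]
  rw [h, Prod.fst_sum, Finset.sum_apply]
  simp only [ij_fst, Finset.sum_ite_eq, Finset.mem_univ, if_true]

theorem DF_snd (δ : ℝ) (n a b : (ι → ℂ) × Y) : (DF δ n a b).2 = 0 := by
  have h : DF δ n a b = ∑ j, ij j (D1 δ (n.1 j) (a.1 j) (b.1 j)) := by
    simp only [DF, sum_apply, ContinuousLinearMap.comp_apply, bilinearComp_apply, pj_apply,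
      compL_apply]
  rw [h, Prod.snd_sum]
  simp only [ij_snd, Finset.sum_const_zero]

theorem KF_fst (ξ : ι → ℝ) (n : (ι → ℂ) × Y) (i : ι) : (KF ξ n).1 i = ξ i • IL (n.1 i) := by
  have h : KF ξ n = ∑ j, ξ j • ij j (IL (n.1 j)) := by
    simp only [KF, sum_apply, ContinuousLinearMap.comp_apply, pj_apply, smulRight_apply,
      smul_apply, proj_apply]
  rw [h, Prod.fst_sum, Finset.sum_apply]
  simp only [Prod.smul_fst, Pi.smul_apply, ij_fst, smul_ite, smul_zero, Finset.sum_ite_eq,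
    Finset.mem_univ, if_true]

theorem KF_snd (ξ : ι → ℝ) (n : (ι → ℂ) × Y) : (KF ξ n).2 = 0 := by
  have h : KF ξ n = ∑ j, ξ j • ij j (IL (n.1 j)) := by
    simp only [KF, sum_apply, ContinuousLinearMap.comp_apply, pj_apply, smulRight_apply,
      smul_apply, proj_apply]
  rw [h, Prod.snd_sum]
  simp only [Prod.smul_snd, ij_snd, smul_zero, Finset.sum_const_zero]

variable {δ κ : ℝ}

theorem contDiff_cd (i : ι) : ContDiff ℝ ∞ (fun n : (ι → ℂ) × Y => n.1 i) :=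
  (pj i : ((ι → ℂ) × Y) →L[ℝ] ℂ).contDiff

theorem contDiff_cF (hδ : 0 < δ) : ContDiff ℝ ∞ (cF (ι := ι) (Y := Y) δ) := by
  apply contDiff_apply2
  intro u v
  simp only [cF_apply]
  refine ContDiff.add (ContDiff.sum fun i _ => ?_) contDiff_const
  exact (((contDiff_c1 hδ).comp (contDiff_cd i)).clm_apply contDiff_const).clm_apply contDiff_const

theorem contDiff_DF (hδ : 0 < δ) : ContDiff ℝ ∞ (DF (ι := ι) (Y := Y) δ) := by
  apply contDiff_apply2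
  intro u v
  have h : (fun n : (ι → ℂ) × Y => DF δ n u v) =
      fun n => ∑ j, ij j (D1 δ (n.1 j) (u.1 j) (v.1 j)) := by
    ext1 n
    simp only [DF, sum_apply, ContinuousLinearMap.comp_apply, bilinearComp_apply, pj_apply,
      compL_apply]
  rw [h]
  refine ContDiff.sum fun i _ => (ij i : ℂ →L[ℝ] (ι → ℂ) × Y).contDiff.comp
    (g := fun z => ij i z) (f := fun n : (ι → ℂ) × Y => D1 δ (n.1 i) (u.1 i) (v.1 i)) ?_
  exact (((contDiff_D1 hδ).comp (contDiff_cd i)).clm_apply contDiff_const).clm_apply contDiff_const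

theorem contDiff_mF (hδ : 0 < δ) : ContDiff ℝ ∞ (mF (ι := ι) (Y := Y) δ) :=
  ContDiff.sum fun i _ => (contDiff_sg hδ).comp (contDiff_cd i)

theorem contDiff_HF (hδ : 0 < δ) : ContDiff ℝ ∞ (HF (ι := ι) (Y := Y) κ δ) :=
  Real.contDiff_exp.comp (contDiff_const.mul (contDiff_mF hδ))

theorem fderiv_cF (hδ : 0 < δ) (n u a b : (ι → ℂ) × Y) : fderiv ℝ (cF δ) n u a b =
    ∑ i, fderiv ℝ (c1 δ) (n.1 i) (u.1 i) (a.1 i) (b.1 i) := by
  rw [fderiv_apply2 ((contDiff_cF hδ).differentiable (by simp) n)]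
  simp only [cF_apply]
  have h1 : ∀ i ∈ (Finset.univ : Finset ι), HasFDerivAt (fun n : (ι → ℂ) × Y =>
      c1 δ (n.1 i) (a.1 i) (b.1 i))
      ((((fderiv ℝ (c1 δ) (n.1 i)).flip (a.1 i)).flip (b.1 i)).comp (pj i)) n := by
    intro i _
    have h2 : HasFDerivAt (c1 δ) (fderiv ℝ (c1 δ) (n.1 i)) (n.1 i) :=
      ((contDiff_c1 hδ).differentiable (by simp) _).hasFDerivAt
    have h3 : HasFDerivAt (fun n : (ι → ℂ) × Y => n.1 i) (pj i) n :=
      (pj i : ((ι → ℂ) × Y) →L[ℝ] ℂ).hasFDerivAt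
    have h4 := ((h2.comp n h3).clm_apply (hasFDerivAt_const (a.1 i) n)).clm_apply
      (hasFDerivAt_const (b.1 i) n)
    refine h4.congr_fderiv ?_
    ext z <;> simp
  have h5 := (HasFDerivAt.fun_sum h1).add (hasFDerivAt_const (inner ℝ a.2 b.2) n)
  refine (congrArg (fun L : ((ι → ℂ) × Y) →L[ℝ] ℝ => L u) h5.fderiv).trans ?_
  simp

theorem fderiv_DF (hδ : 0 < δ) (n u a b : (ι → ℂ) × Y) :
    fderiv ℝ (DF δ) n u a b =
    ∑ i, ij i (fderiv ℝ (D1 δ) (n.1 i) (u.1 i) (a.1 i) (b.1 i)) := by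
  rw [fderiv_apply2 ((contDiff_DF hδ).differentiable (by simp) n)]
  have h : (fun n : (ι → ℂ) × Y => DF δ n a b) =
      fun n => ∑ j, ij j (D1 δ (n.1 j) (a.1 j) (b.1 j)) := by
    ext1 n
    simp only [DF, sum_apply, ContinuousLinearMap.comp_apply, bilinearComp_apply, pj_apply,
      compL_apply]
  rw [h]
  have h1 : ∀ i ∈ (Finset.univ : Finset ι), HasFDerivAt (fun n : (ι → ℂ) × Y =>
      (ij i (D1 δ (n.1 i) (a.1 i) (b.1 i)) : (ι → ℂ) × Y))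
      ((ij i).comp ((((fderiv ℝ (D1 δ) (n.1 i)).flip (a.1 i)).flip (b.1 i)).comp (pj i))) n := by
    intro i _
    have h2 : HasFDerivAt (D1 δ) (fderiv ℝ (D1 δ) (n.1 i)) (n.1 i) :=
      ((contDiff_D1 hδ).differentiable (by simp) _).hasFDerivAt
    have h3 : HasFDerivAt (fun n : (ι → ℂ) × Y => n.1 i) (pj i) n :=
      (pj i : ((ι → ℂ) × Y) →L[ℝ] ℂ).hasFDerivAt
    have h4 := ((h2.comp n h3).clm_apply (hasFDerivAt_const (a.1 i) n)).clm_apply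
      (hasFDerivAt_const (b.1 i) n)
    have h5 := (ij i : ℂ →L[ℝ] (ι → ℂ) × Y).hasFDerivAt.comp n h4
    refine h5.congr_fderiv ?_
    congr 1
    ext z <;> simp
  have h5 := HasFDerivAt.fun_sum h1
  refine (congrArg (fun L : ((ι → ℂ) × Y) →L[ℝ] (ι → ℂ) × Y => L u) h5.fderiv).trans ?_
  simp

theorem c1_posdef (hδ : 0 < δ) (w a : ℂ) (ha : a ≠ 0) : 0 < c1 δ w a a := by
  have hk := kk_mul hδ w
  have hp := kk_pos hδ w
  rw [c1_apply]
  have h1 : 0 < a.re ^ 2 + a.im ^ 2 := by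
    by_contra h
    have h2 : a.re ^ 2 + a.im ^ 2 = 0 := le_antisymm (not_lt.1 h) (by positivity)
    have h3 : a.re = 0 := by nlinarith [sq_nonneg a.re, sq_nonneg a.im]
    have h4 : a.im = 0 := by nlinarith [sq_nonneg a.re, sq_nonneg a.im]
    exact ha (Complex.ext h3 h4)
  have h2 : 0 < kk δ w * δ ^ 2 * (a.re ^ 2 + a.im ^ 2) := by positivity
  have h3 : 0 ≤ kk δ w * (w.re * a.re + w.im * a.im) ^ 2 := by positivity
  have h4 : a.re * a.re + a.im * a.im -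
    kk δ w * (w.re * a.im - w.im * a.re) * (w.re * a.im - w.im * a.re) =
    kk δ w * δ ^ 2 * (a.re ^ 2 + a.im ^ 2) + kk δ w * (w.re * a.re + w.im * a.im) ^ 2 := by
    linear_combination - (a.re ^ 2 + a.im ^ 2) * hk
  rw [h4]
  linarith

theorem isMetric_cF (hδ : 0 < δ) : IsMetricOn (cF (ι := ι) (Y := Y) δ) Set.univ := by
  refine ⟨(contDiff_cF hδ).contDiffOn, ?_, ?_⟩
  · intro n _ u v
    rw [cF_apply, cF_apply, real_inner_comm]
    congr 1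
    refine Finset.sum_congr rfl fun i _ => ?_
    simp only [c1_apply]
    ring
  · intro n _ u hu
    rw [cF_apply]
    have h1 : ∀ i, 0 ≤ c1 δ (n.1 i) (u.1 i) (u.1 i) := by
      intro i
      by_cases h : u.1 i = 0
      · rw [h]
        simp
      · exact (c1_posdef hδ _ _ h).le
    have h2 : 0 ≤ inner ℝ u.2 u.2 := real_inner_self_nonneg
    by_cases h : u.2 = 0
    · have h3 : ∃ i, u.1 i ≠ 0 := by
        by_contra hh
        push Not at hh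
        exact hu (Prod.ext (funext hh) h)
      obtain ⟨i, hi⟩ := h3
      have h4 : 0 < ∑ i, c1 δ (n.1 i) (u.1 i) (u.1 i) :=
        Finset.sum_pos' (fun i _ => h1 i) ⟨i, Finset.mem_univ i, c1_posdef hδ _ _ hi⟩
      linarith
    · have h3 : 0 < inner ℝ u.2 u.2 := real_inner_self_pos.2 h
      have h4 : 0 ≤ ∑ i, c1 δ (n.1 i) (u.1 i) (u.1 i) := Finset.sum_nonneg fun i _ => h1 i
      linarith

theorem isChristoffel_DF (hδ : 0 < δ) :
    IsChristoffel (cF (ι := ι) (Y := Y) δ) Set.univ (DF δ) := by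
  refine ⟨(contDiff_DF hδ).contDiffOn, ?_⟩
  intro n _ u v w
  rw [fderiv_cF hδ, fderiv_cF hδ, fderiv_cF hδ, cF_apply, DF_snd, inner_zero_left, add_zero,
    Finset.mul_sum, ← Finset.sum_add_distrib, ← Finset.sum_sub_distrib]
  refine Finset.sum_congr rfl fun i _ => ?_
  rw [DF_fst, koszul_c1 hδ]

theorem lc_cF (hδ : 0 < δ) (n : (ι → ℂ) × Y) : LC (cF (ι := ι) (Y := Y) δ) (DF δ) n :=
  LC.of isOpen_univ (isMetric_cF hδ) (isChristoffel_DF hδ) (Set.mem_univ n)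

/-- curvature of the fibre -/
theorem riem_DF (hδ : 0 < δ) (n a b e f : (ι → ℂ) × Y) :
    cF δ n (riem (DF δ) n a b e) f =
      ∑ i, - 3 * δ ^ 4 * kk δ (n.1 i) ^ 3 * cr2 (a.1 i) (b.1 i) * cr2 (e.1 i) (f.1 i) := by
  rw [cF_apply]
  have h1 : ∀ i, (riem (DF δ) n a b e).1 i =
      riem (D1 δ) (n.1 i) (a.1 i) (b.1 i) (e.1 i) := by
    intro i
    simp only [riem, fderiv_DF hδ, Prod.fst_sub, Prod.fst_add, Prod.fst_sum, Pi.sub_apply,
      Pi.add_apply, Finset.sum_apply, ij_fst, Finset.sum_ite_eq, Finset.mem_univ, if_true, DF_fst]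
  have h2 : (riem (DF δ) n a b e).2 = 0 := by
    simp only [riem, fderiv_DF hδ, Prod.snd_sub, Prod.snd_add, Prod.snd_sum, ij_snd, DF_snd,
      Finset.sum_const_zero, sub_zero, add_zero]
  rw [h2, inner_zero_left, add_zero]
  refine Finset.sum_congr rfl fun i _ => ?_
  rw [h1, riem_D1 hδ]

theorem KF_comm (ξ η : ι → ℝ) (n : (ι → ℂ) × Y) : KF ξ (KF η n) = KF η (KF ξ n) := by
  apply Prod.ext
  · funext i
    simp only [KF_fst, map_smul, smul_smul, mul_comm]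
  · rw [KF_snd, KF_snd]

theorem cF_inv (hδ : 0 < δ) (n a b : (ι → ℂ) × Y) (ξ : ι → ℝ) :
    fderiv ℝ (cF δ) n (KF ξ n) a b = - cF δ n (KF ξ a) b - cF δ n a (KF ξ b) := by
  rw [fderiv_cF hδ, cF_apply, cF_apply, KF_snd, KF_snd, inner_zero_left, inner_zero_right,
    add_zero, add_zero, ← Finset.sum_neg_distrib, ← Finset.sum_sub_distrib]
  refine Finset.sum_congr rfl fun i _ => ?_
  rw [KF_fst, KF_fst, KF_fst, c1_inv hδ]

theorem hasFDerivAt_mF (hδ : 0 < δ) (n : (ι → ℂ) × Y) :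
    HasFDerivAt (mF δ) (∑ i, (fderiv ℝ (sg δ) (n.1 i)).comp (pj i)) n := by
  have h1 : ∀ i ∈ (Finset.univ : Finset ι), HasFDerivAt (fun n : (ι → ℂ) × Y => sg δ (n.1 i))
      ((fderiv ℝ (sg δ) (n.1 i)).comp (pj i)) n := by
    intro i _
    exact ((contDiff_sg hδ).differentiable (by simp) _).hasFDerivAt.comp n
      (pj i : ((ι → ℂ) × Y) →L[ℝ] ℂ).hasFDerivAt
  exact HasFDerivAt.fun_sum h1

theorem fderiv_mF (hδ : 0 < δ) (n a : (ι → ℂ) × Y) :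
    fderiv ℝ (mF δ) n a = ∑ i, (sg δ (n.1 i))⁻¹ * dt2 (n.1 i) (a.1 i) := by
  rw [(hasFDerivAt_mF hδ n).fderiv]
  simp only [sum_apply, ContinuousLinearMap.comp_apply, pj_apply, fderiv_sg hδ]

theorem fderiv2_mF (hδ : 0 < δ) (n a b : (ι → ℂ) × Y) :
    fderiv ℝ (fderiv ℝ (mF δ)) n a b =
      ∑ i, fderiv ℝ (fderiv ℝ (sg δ)) (n.1 i) (a.1 i) (b.1 i) := by
  have hd : DifferentiableAt ℝ (fderiv ℝ (mF δ)) n :=
    cd_diff ((contDiff_mF hδ).contDiffAt.fderiv_right (m := ∞) (by simp))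
  have h0 : fderiv ℝ (fderiv ℝ (mF δ)) n a b = fderiv ℝ (fun y => fderiv ℝ (mF δ) y b) n a := by
    have h2 := hd.hasFDerivAt.clm_apply (hasFDerivAt_const b n)
    rw [h2.fderiv]
    simp
  have h3 : (fun y : (ι → ℂ) × Y => fderiv ℝ (mF δ) y b) =
      fun y => ∑ i, fderiv ℝ (sg δ) (y.1 i) (b.1 i) := by
    ext1 y
    rw [(hasFDerivAt_mF hδ y).fderiv]
    simp only [sum_apply, ContinuousLinearMap.comp_apply, pj_apply]
  rw [h0, h3]
  have h1 : ∀ i ∈ (Finset.univ : Finset ι), HasFDerivAt (fun y : (ι → ℂ) × Y =>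
      fderiv ℝ (sg δ) (y.1 i) (b.1 i))
      (((fderiv ℝ (fderiv ℝ (sg δ)) (n.1 i)).flip (b.1 i)).comp (pj i)) n := by
    intro i _
    have h4 : DifferentiableAt ℝ (fderiv ℝ (sg δ)) (n.1 i) :=
      cd_diff ((contDiff_sg hδ).contDiffAt.fderiv_right (m := ∞) (by simp))
    have h5 : HasFDerivAt (fun n : (ι → ℂ) × Y => n.1 i) (pj i) n :=
      (pj i : ((ι → ℂ) × Y) →L[ℝ] ℂ).hasFDerivAt
    have h6 := (h4.hasFDerivAt.comp n h5).clm_apply (hasFDerivAt_const (b.1 i) n)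
    refine h6.congr_fderiv ?_
    ext z <;> simp
  have h7 := HasFDerivAt.fun_sum h1
  refine (congrArg (fun L : ((ι → ℂ) × Y) →L[ℝ] ℝ => L a) h7.fderiv).trans ?_
  simp

/-- the covariant Hessian of `mF` -/
theorem hs_mF (hδ : 0 < δ) (n a b : (ι → ℂ) × Y) :
    fderiv ℝ (fderiv ℝ (mF δ)) n a b - fderiv ℝ (mF δ) n (DF δ n a b) =
      ∑ i, δ ^ 2 * (sg δ (n.1 i))⁻¹ * kk δ (n.1 i) * c1 δ (n.1 i) (a.1 i) (b.1 i) := by
  rw [fderiv2_mF hδ, (hasFDerivAt_mF hδ n).fderiv]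
  simp only [sum_apply, ContinuousLinearMap.comp_apply, pj_apply, DF_fst]
  rw [← Finset.sum_sub_distrib]
  refine Finset.sum_congr rfl fun i _ => ?_
  rw [hess_sg hδ]

theorem fderiv_HF (hδ : 0 < δ) (n a : (ι → ℂ) × Y) :
    fderiv ℝ (HF κ δ) n a = - (2 * κ * δ) * HF κ δ n * fderiv ℝ (mF δ) n a := by
  have h1 := ((((contDiff_mF (ι := ι) (Y := Y) hδ).differentiable (by simp)) n).hasFDerivAt.const_mul
    (- (2 * κ * δ))).exp
  refine (congrArg (fun L : ((ι → ℂ) × Y) →L[ℝ] ℝ => L a) h1.fderiv).trans ?_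
  simp [HF]
  ring

theorem fderiv2_HF (hδ : 0 < δ) (n a b : (ι → ℂ) × Y) :
    fderiv ℝ (fderiv ℝ (HF κ δ)) n a b = (2 * κ * δ) ^ 2 * HF κ δ n * fderiv ℝ (mF δ) n a *
      fderiv ℝ (mF δ) n b - (2 * κ * δ) * HF κ δ n * fderiv ℝ (fderiv ℝ (mF δ)) n a b := by
  have hd : DifferentiableAt ℝ (fderiv ℝ (HF κ δ)) n :=
    cd_diff ((contDiff_HF (κ := κ) hδ).contDiffAt.fderiv_right (m := ∞) (by simp))
  have h0 : fderiv ℝ (fderiv ℝ (HF κ δ)) n a b =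
      fderiv ℝ (fun y => fderiv ℝ (HF κ δ) y b) n a := by
    have h2 := hd.hasFDerivAt.clm_apply (hasFDerivAt_const b n)
    rw [h2.fderiv]
    simp
  have h3 : (fun y : (ι → ℂ) × Y => fderiv ℝ (HF κ δ) y b) =
      fun y => - (2 * κ * δ) * HF κ δ y * fderiv ℝ (mF δ) y b := by
    ext1 y
    exact fderiv_HF hδ y b
  rw [h0, h3]
  have h4 : HasFDerivAt (HF (ι := ι) (Y := Y) κ δ) (fderiv ℝ (HF κ δ) n) n :=
    ((contDiff_HF (κ := κ) hδ).differentiable (by simp) n).hasFDerivAt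
  have h5 : DifferentiableAt ℝ (fderiv ℝ (mF (ι := ι) (Y := Y) δ)) n :=
    cd_diff ((contDiff_mF hδ).contDiffAt.fderiv_right (m := ∞) (by simp))
  have h6 := (h4.const_mul (- (2 * κ * δ))).mul (h5.hasFDerivAt.clm_apply (hasFDerivAt_const b n))
  refine (congrArg (fun L : ((ι → ℂ) × Y) →L[ℝ] ℝ => L a) h6.fderiv).trans ?_
  simp [fderiv_HF hδ]
  ring

theorem hs_HF (hδ : 0 < δ) (n a b : (ι → ℂ) × Y) :
    hs (DF δ) (HF κ δ) n a b = (2 * κ * δ) ^ 2 * HF κ δ n * fderiv ℝ (mF δ) n a *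
      fderiv ℝ (mF δ) n b - (2 * κ * δ) * HF κ δ n *
      ∑ i, δ ^ 2 * (sg δ (n.1 i))⁻¹ * kk δ (n.1 i) * c1 δ (n.1 i) (a.1 i) (b.1 i) := by
  rw [hs, fderiv2_HF hδ, fderiv_HF hδ, ← hs_mF hδ]
  ring

theorem HF_inv (hδ : 0 < δ) (n : (ι → ℂ) × Y) (ξ : ι → ℝ) :
    fderiv ℝ (HF κ δ) n (KF ξ n) = 0 := by
  rw [fderiv_HF hδ, fderiv_mF hδ]
  have h1 : ∀ i, (sg δ (n.1 i))⁻¹ * dt2 (n.1 i) ((KF ξ n).1 i) = 0 := by
    intro i
    rw [KF_fst, map_smul, dt2_rot]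
    simp
  simp [h1, -dt2_apply]

theorem nk_F (hδ : 0 < δ) (n a b : (ι → ℂ) × Y) (ξ : ι → ℝ) :
    nk (cF δ) (DF δ) KF n ξ a b = ∑ i, ξ i * (δ ^ 4 * kk δ (n.1 i) ^ 2 * cr2 (a.1 i) (b.1 i)) := by
  rw [nk, cF_apply, Prod.snd_add, KF_snd, DF_snd, add_zero, inner_zero_left, add_zero]
  refine Finset.sum_congr rfl fun i _ => ?_
  rw [Prod.fst_add, Pi.add_apply, KF_fst, DF_fst, KF_fst, map_smul, ← smul_add, map_smul,
    smul_apply, rot_cov hδ, smul_eq_mul]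

theorem cF_rot (hδ : 0 < δ) (n b : (ι → ℂ) × Y) (ξ : ι → ℝ) :
    cF δ n (KF ξ n) b = ∑ i, ξ i * (δ ^ 2 * kk δ (n.1 i) * cr2 (n.1 i) (b.1 i)) := by
  rw [cF_apply, KF_snd, inner_zero_left, add_zero]
  refine Finset.sum_congr rfl fun i _ => ?_
  rw [KF_fst, map_smul, smul_apply, c1_rot hδ, smul_eq_mul]

theorem cF_rad (n b : (ι → ℂ) × Y) :
    cF δ n n b = ∑ i, dt2 (n.1 i) (b.1 i) + inner ℝ n.2 b.2 := by
  rw [cF_apply]
  congr 1
  refine Finset.sum_congr rfl fun i _ => ?_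
  rw [c1_rad]

end Pool.Agent.H21_anco
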