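import Pool.Agent.H21_anco.Scale

/-!
Almost nonnegative curvature operator of the sphere bundle.
-/

open scoped ContDiff Topology
open Filter Set

set_option maxSynthPendingDepth 3
set_option linter.unusedSectionVars false

noncomputable section

namespace Pool.Agent.H21_anco

variable {E : Type*} [NormedAddCommGroup E] [NormedSpace ℝ E] [FiniteDimensional ℝ E]
  {F : Type*} [NormedAddCommGroup F] [InnerProductSpace ℂ F] [FiniteDimensional ℂ F]
  {ι : Type*} [Fintype ι] [DecidableEq ι]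
  {Y : Type*} [NormedAddCommGroup Y] [InnerProductSpace ℝ Y] [FiniteDimensional ℝ Y]
  {B : Set E} {n : ℕ} {P : ι → E → F →L[ℂ] F} {δ κ : ℝ}

theorem HF_lower (hδ : 0 < δ) (hδ1 : δ ≤ 1) (hκ : 0 ≤ κ) (hs : δ * (8 * κ * Fintype.card ι) ≤ 1)
    {m : (ι → ℂ) × Y} (hm : fl m m = 1) : 1 / 4 ≤ HF κ δ m := by
  have h1 : ∀ i, sg δ (m.1 i) ≤ 2 := by
    intro i
    rw [sg, Real.sqrt_le_left (by norm_num)]
    have h2 : dt2 (m.1 i) (m.1 i) ≤ 1 := by
      rw [fl_apply] at hm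
      have h3 := Finset.single_le_sum (f := fun i => dt2 (m.1 i) (m.1 i)) (fun i _ => by
        simp only [dt2_apply]
        exact add_nonneg (mul_self_nonneg _) (mul_self_nonneg _)) (Finset.mem_univ i)
      have h4 : 0 ≤ inner ℝ m.2 m.2 := real_inner_self_nonneg
      linarith
    rw [dt2_apply] at h2
    nlinarith
  have h2 : mF δ m ≤ Fintype.card ι * 2 := by
    refine (Finset.sum_le_sum fun i _ => h1 i).trans (le_of_eq ?_)
    rw [Finset.sum_const, Finset.card_univ, nsmul_eq_mul]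
  have h3 : 2 * κ * δ * mF δ m ≤ 2 * κ * δ * (Fintype.card ι * 2) :=
    mul_le_mul_of_nonneg_left h2 (by positivity)
  rw [HF]
  have h4 := Real.add_one_le_exp (-(2 * κ * δ) * mF δ m)
  nlinarith

theorem exists_delta (a b c : ℝ) : ∃ δ : ℝ, 0 < δ ∧ δ ≤ 1 ∧ δ * a ≤ 1 ∧ δ * b ≤ 1 ∧ δ * c ≤ 1 := by
  have h0 : 0 < 1 + |a| + |b| + |c| := by positivity
  have ha := le_abs_self a
  have hb := le_abs_self b
  have hc := le_abs_self c
  have ha' := abs_nonneg a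
  have hb' := abs_nonneg b
  have hc' := abs_nonneg c
  refine ⟨(1 + |a| + |b| + |c|)⁻¹, inv_pos.2 h0, ?_, ?_, ?_, ?_⟩
  · exact inv_le_one_of_one_le₀ (by linarith)
  · rw [inv_mul_le_iff₀ h0]
    linarith
  · rw [inv_mul_le_iff₀ h0]
    linarith
  · rw [inv_mul_le_iff₀ h0]
    linarith

/-- **the sphere bundle has almost nonnegative curvature operator** -/
theorem anco_SB [Nonempty ι] (hB : IsClosedManifold B n) (hA : ANCO B n)
    (hP : ∀ i, ContDiff ℝ ∞ (P i)) (hL : ∀ i, ∀ b ∈ B, IsLineProj (P i b)) {N : ℕ}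
    (hN : N + 1 = Module.finrank ℝ (RR n × ((ι → ℂ) × Y))) : ANCO (SB (Y := Y) B P) N := by
  intro ε hε
  obtain ⟨G, hG, hD, hcurv⟩ := hA (ε / 288) (by positivity)
  obtain ⟨Λ, hΛ⟩ := exists_LOK hB hG hP hL
  obtain ⟨C, hC, hGC⟩ := exists_GCh hB hG hP hL
  set κ := max (2 * Λ) 0 with hκ
  have hκ0 : 0 ≤ κ := le_max_right _ _
  have hκΛ : 2 * Λ ≤ κ := le_max_left _ _
  set K1 := KC (RR n) ι Y κ Λ + Fintype.card ι * κ with hK1
  obtain ⟨δ, hδ, hδ1, hδa, hδb, hδc⟩ := exists_delta (72 * K1 / ε) (Fintype.card ι * C)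
    (8 * κ * Fintype.card ι)
  have hδK : δ * K1 ≤ ε / 72 := by
    have h1 : δ * (72 * K1 / ε) = (δ * K1) * 72 / ε := by ring
    rw [h1, div_le_one hε] at hδa
    linarith
  have hH : ∀ m : (ι → ℂ) × Y, fl m m = 1 → 1 / 4 ≤ HF κ δ m := fun m hm =>
    HF_lower hδ hδ1 hκ0 hδc hm
  have hcv : ∀ (UM : Set (RR N)) (ψM : RR N → E × ((ι → F) × Y)), IsParam (SB B P) N UM ψM →
      IsMetricOn (pull (Gh (E := E) (F := F) (ι := ι) (Y := Y) G P κ δ) ψM) UM ∧
      CurvGE (pull (Gh (E := E) (F := F) (ι := ι) (Y := Y) G P κ δ) ψM) UM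
        (- (4 * (ε / 288) + δ * (KC (RR n) ι Y κ Λ + Fintype.card ι * κ))) := fun UM ψM hψM =>
    curv_SB hP hL hG (by positivity) hcurv hΛ hκΛ hκ0 hδ hδ1 hH hN hψM
  have hR : IsRiem (SB (Y := Y) B P) N (Gh (E := E) (F := F) (ι := ι) (Y := Y) G P κ δ) :=
    ⟨contDiff_Gh hG.smooth hP hδ, fun U ψ h => (hcv U ψ h).1⟩
  have hs : (0 : ℝ) < 1 / 36 := by norm_num
  refine ⟨fun p => (1 / 36 : ℝ) • Gh (E := E) (F := F) (ι := ι) (Y := Y) G P κ δ p,
    hR.scale hs, ?_, ?_⟩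
  · have h0 : DiamLE (Gh (E := E) (F := F) (ι := ι) (Y := Y) G P κ δ) (SB (Y := Y) B P) 6 :=
      diam_SB hδ hκ0 hP hL hG hC hGC hδb hD
    have h1 := h0.scale hs
    have h2 : Real.sqrt (1 / 36) * 6 = 1 := by
      have : Real.sqrt (1 / 36) = 1 / 6 := by
        rw [show (1 : ℝ) / 36 = (1 / 6) ^ 2 by norm_num, Real.sqrt_sq (by norm_num)]
      rw [this]
      norm_num
    rw [h2] at h1
    exact h1
  · intro U ψ hψ
    rw [pull_scale]
    obtain ⟨h1, h2⟩ := hcv U ψ hψ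
    refine (h2.scale hψ.isOpen h1 hs).mono (h1.scale hs) ?_
    rw [← hK1]
    rw [div_div_eq_mul_div, div_one]
    linarith

end Pool.Agent.H21_anco
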