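import Pool.Agent.H21_anco.Alg

/-!
Four-linear forms, their expansion in a basis and their bound by types.
-/

open Finset

set_option linter.unusedSectionVars false

noncomputable section

namespace Pool.Agent.H21_anco

section lin

variable {E : Type*} [AddCommGroup E] [Module ℝ E]

/-- four-linear functions -/
structure Lin4 (S : E → E → E → E → ℝ) : Prop where
  a1 : ∀ u u' v w z, S (u + u') v w z = S u v w z + S u' v w z
  m1 : ∀ (t : ℝ) u v w z, S (t • u) v w z = t * S u v w z
  a2 : ∀ u v v' w z, S u (v + v') w z = S u v w z + S u v' w z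
  m2 : ∀ (t : ℝ) u v w z, S u (t • v) w z = t * S u v w z
  a3 : ∀ u v w w' z, S u v (w + w') z = S u v w z + S u v w' z
  m3 : ∀ (t : ℝ) u v w z, S u v (t • w) z = t * S u v w z
  a4 : ∀ u v w z z', S u v w (z + z') = S u v w z + S u v w z'
  m4 : ∀ (t : ℝ) u v w z, S u v w (t • z) = t * S u v w z

theorem Lin4.add {S S' : E → E → E → E → ℝ} (h : Lin4 S) (h' : Lin4 S') :
    Lin4 (fun u v w z => S u v w z + S' u v w z) := by
  constructor <;> intros
  · simp only [h.a1, h'.a1]; ring
  · simp only [h.m1, h'.m1]; ring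
  · simp only [h.a2, h'.a2]; ring
  · simp only [h.m2, h'.m2]; ring
  · simp only [h.a3, h'.a3]; ring
  · simp only [h.m3, h'.m3]; ring
  · simp only [h.a4, h'.a4]; ring
  · simp only [h.m4, h'.m4]; ring

theorem Lin4.sub {S S' : E → E → E → E → ℝ} (h : Lin4 S) (h' : Lin4 S') :
    Lin4 (fun u v w z => S u v w z - S' u v w z) := by
  constructor <;> intros
  · simp only [h.a1, h'.a1]; ring
  · simp only [h.m1, h'.m1]; ring
  · simp only [h.a2, h'.a2]; ring
  · simp only [h.m2, h'.m2]; ring
  · simp only [h.a3, h'.a3]; ring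
  · simp only [h.m3, h'.m3]; ring
  · simp only [h.a4, h'.a4]; ring
  · simp only [h.m4, h'.m4]; ring

theorem Lin4.const_mul {S : E → E → E → E → ℝ} (h : Lin4 S) (k : ℝ) :
    Lin4 (fun u v w z => k * S u v w z) := by
  constructor <;> intros
  · simp only [h.a1]; ring
  · simp only [h.m1]; ring
  · simp only [h.a2]; ring
  · simp only [h.m2]; ring
  · simp only [h.a3]; ring
  · simp only [h.m3]; ring
  · simp only [h.a4]; ring
  · simp only [h.m4]; ring

theorem Lin4.sum {ι : Type*} (s : Finset ι) {S : ι → E → E → E → E → ℝ}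
    (h : ∀ i, Lin4 (S i)) : Lin4 (fun u v w z => ∑ i ∈ s, S i u v w z) := by
  constructor <;> intros
  · simp only [(h _).a1, sum_add_distrib]
  · simp only [(h _).m1, mul_sum]
  · simp only [(h _).a2, sum_add_distrib]
  · simp only [(h _).m2, mul_sum]
  · simp only [(h _).a3, sum_add_distrib]
  · simp only [(h _).m3, mul_sum]
  · simp only [(h _).a4, sum_add_distrib]
  · simp only [(h _).m4, mul_sum]

theorem sum_of_lin {P : Type*} [Fintype P] {f : E → ℝ} (ha : ∀ u v, f (u + v) = f u + f v)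
    (hm : ∀ (t : ℝ) u, f (t • u) = t * f u) (x : P → ℝ) (e : P → E) :
    f (∑ p, x p • e p) = ∑ p, x p * f (e p) := by
  let L : E →ₗ[ℝ] ℝ := { toFun := f, map_add' := ha, map_smul' := hm }
  have h : L (∑ p, x p • e p) = ∑ p, x p * L (e p) := by
    rw [map_sum]
    simp
  exact h

theorem Lin4.expand {P : Type*} [Fintype P] {S : E → E → E → E → ℝ} (h : Lin4 S)
    (θ : P → E → ℝ) (e : P → E) (he : ∀ u, u = ∑ p, θ p u • e p) (u v w z : E) :
    S u v w z = ∑ p, ∑ q, ∑ r, ∑ s, θ p u * θ q v * θ r w * θ s z * S (e p) (e q) (e r) (e s) := by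
  have k1 : S u v w z = ∑ p, θ p u * S (e p) v w z := by
    conv_lhs => rw [he u]
    exact sum_of_lin (f := fun u => S u v w z) (fun a b => h.a1 a b v w z)
      (fun t a => h.m1 t a v w z) _ _
  have k2 : ∀ a, S a v w z = ∑ q, θ q v * S a (e q) w z := by
    intro a
    conv_lhs => rw [he v]
    exact sum_of_lin (f := fun v => S a v w z) (fun b c => h.a2 a b c w z)
      (fun t b => h.m2 t a b w z) _ _
  have k3 : ∀ a b, S a b w z = ∑ r, θ r w * S a b (e r) z := by
    intro a b
    conv_lhs => rw [he w]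
    exact sum_of_lin (f := fun w => S a b w z) (fun c d => h.a3 a b c d z)
      (fun t c => h.m3 t a b c z) _ _
  have k4 : ∀ a b c, S a b c z = ∑ s, θ s z * S a b c (e s) := by
    intro a b c
    conv_lhs => rw [he z]
    exact sum_of_lin (f := fun z => S a b c z) (fun d d' => h.a4 a b c d d')
      (fun t d => h.m4 t a b c d) _ _
  rw [k1]
  refine sum_congr rfl fun p _ => ?_
  rw [k2, mul_sum]
  refine sum_congr rfl fun q _ => ?_
  rw [k3, mul_sum, mul_sum]
  refine sum_congr rfl fun r _ => ?_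
  rw [k4, mul_sum, mul_sum, mul_sum]
  refine sum_congr rfl fun s _ => ?_
  ring

/-- bound of a curvature-like form by types -/
theorem bound_types {S : E → E → E → E → ℝ} (h1 : ∀ u v w z, S u v w z = - S v u w z)
    (h2 : ∀ u v w z, S u v w z = - S u v z w) (h3 : ∀ u v w z, S u v w z = S w z u v)
    (b f : E → Prop) (τ : ℝ)
    (t1 : ∀ u v w z, f u → f v → f w → f z → |S u v w z| ≤ τ)
    (t2 : ∀ u v w z, f u → f v → f w → b z → |S u v w z| ≤ τ)
    (t3 : ∀ u v w z, f u → f v → b w → b z → |S u v w z| ≤ τ)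
    (t4 : ∀ u v w z, b u → f v → f w → b z → |S u v w z| ≤ τ)
    (t5 : ∀ u v w z, b u → b v → b w → f z → |S u v w z| ≤ τ)
    (t6 : ∀ u v w z, b u → b v → b w → b z → |S u v w z| ≤ τ)
    (u v w z : E) (hu : b u ∨ f u) (hv : b v ∨ f v) (hw : b w ∨ f w) (hz : b z ∨ f z) :
    |S u v w z| ≤ τ := by
  rcases hu with hu | hu <;> rcases hv with hv | hv <;> rcases hw with hw | hw <;>
    rcases hz with hz | hz
  · exact t6 u v w z hu hv hw hz
  · exact t5 u v w z hu hv hw hz
  · rw [h2, abs_neg]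
    exact t5 u v z w hu hv hz hw
  · rw [h3]
    exact t3 w z u v hw hz hu hv
  · rw [h3]
    exact t5 w z u v hw hz hu hv
  · rw [h2, abs_neg]
    exact t4 u v z w hu hv hz hw
  · exact t4 u v w z hu hv hw hz
  · rw [h3, h2, abs_neg]
    exact t2 w z v u hw hz hv hu
  · rw [h3, h2, abs_neg]
    exact t5 w z v u hw hz hv hu
  · rw [h1, abs_neg, h2, abs_neg]
    exact t4 v u z w hv hu hz hw
  · rw [h1, abs_neg]
    exact t4 v u w z hv hu hw hz
  · rw [h3]
    exact t2 w z u v hw hz hu hv
  · exact t3 u v w z hu hv hw hz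
  · rw [h2, abs_neg]
    exact t2 u v z w hu hv hz hw
  · exact t2 u v w z hu hv hw hz
  · exact t1 u v w z hu hv hw hz

end lin

end Pool.Agent.H21_anco
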