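import Pool.Agent.H21_anco.Local

/-!
Change of gauge; uniform bounds over a compact base.
-/

open scoped ContDiff Topology
open Filter Set

set_option maxSynthPendingDepth 3
set_option linter.unusedSectionVars false

noncomputable section

namespace Pool.Agent.H21_anco

variable {E : Type*} [NormedAddCommGroup E] [NormedSpace ℝ E] [FiniteDimensional ℝ E]
  {F : Type*} [NormedAddCommGroup F] [InnerProductSpace ℂ F] [FiniteDimensional ℂ F]
  {ι : Type*} [Fintype ι] [DecidableEq ι]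
  {B : Set E} {n : ℕ} {P : ι → E → F →L[ℂ] F} {b : E} {U : Set (RR n)}
  {ψ : RR n → E} {W : Set E} {ρ : E → RR n} {e : ι → RR n → F}
  {A : RR n → RR n →L[ℝ] (ι → ℝ)}

theorem LData.at (h : LData B n P b U ψ W ρ e A) {b' : E} (hb' : b' ∈ W) :
    LData B n P b' U ψ W ρ e A :=
  ⟨⟨h.chart.param, h.chart.isOpen, hb', h.chart.smooth, h.chart.left, h.chart.right⟩, h.es, h.en,
    h.eP, h.As, h.conn⟩

/-- change of gauge making the connection form vanish at `x0` -/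
theorem LData.gauge (h : LData B n P b U ψ W ρ e A) (x0 : RR n) :
    ∃ e', LData B n P b U ψ W ρ e' (fun x => A x - A x0) := by
  set u : ι → RR n → ℂ := fun i x => Complex.exp (- Complex.I * (A x0 (x - x0) i : ℂ)) with hu
  have hφ : ∀ i x, HasFDerivAt (fun x => A x0 (x - x0) i)
      ((ContinuousLinearMap.proj (R := ℝ) (φ := fun _ : ι => ℝ) i).comp (A x0)) x := by
    intro i x
    have k1 : HasFDerivAt (fun x => x - x0) (ContinuousLinearMap.id ℝ (RR n)) x :=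
      (hasFDerivAt_id x).sub_const x0
    have k2 : HasFDerivAt (fun y => (ContinuousLinearMap.proj (R := ℝ) (φ := fun _ : ι => ℝ) i).comp
        (A x0) (y - x0)) (((ContinuousLinearMap.proj (R := ℝ) (φ := fun _ : ι => ℝ) i).comp
        (A x0)).comp (ContinuousLinearMap.id ℝ (RR n))) x :=
      (ContinuousLinearMap.hasFDerivAt _).comp x k1
    exact k2
  have hsm : ∀ i, ContDiff ℝ ∞ (u i) := by
    intro i
    have k1 : ContDiff ℝ ∞ (fun x => A x0 (x - x0) i) :=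
      ((ContinuousLinearMap.proj (R := ℝ) (φ := fun _ : ι => ℝ) i).comp (A x0)).contDiff.comp
        (contDiff_id.sub contDiff_const)
    exact (contDiff_const.mul (Complex.ofRealCLM.contDiff.comp k1)).cexp
  have hun : ∀ i x, ‖u i x‖ = 1 := by
    intro i x
    rw [hu]
    simp only
    rw [Complex.norm_exp]
    simp
  have hud : ∀ i x, HasFDerivAt (u i) (u i x • ((- Complex.I) • Complex.ofRealCLM.comp
      ((ContinuousLinearMap.proj (R := ℝ) (φ := fun _ : ι => ℝ) i).comp (A x0)))) x := by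
    intro i x
    have k1 := (Complex.ofRealCLM.hasFDerivAt.comp x (hφ i x)).const_mul (- Complex.I)
    exact k1.cexp
  refine ⟨fun i x => u i x • e i x, h.chart, fun i => (hsm i).contDiffOn.smul (h.es i), ?_, ?_,
    h.As.sub contDiffOn_const, ?_⟩
  · intro i x hx
    rw [norm_smul, hun, h.en i x hx, one_mul]
  · intro i x hx
    rw [map_smul, h.eP i x hx]
  · intro i x hx a
    have k1 : HasFDerivAt (e i) (fderiv ℝ (e i) x) x :=
      (((h.es i).contDiffAt (h.chart.param.isOpen.mem_nhds hx)).differentiableAt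
        (by simp)).hasFDerivAt
    have k2 := (hud i x).smul k1
    have k3 : fderiv ℝ (fun x => u i x • e i x) x a = u i x • fderiv ℝ (e i) x a +
        (u i x * (- Complex.I * (A x0 a i : ℂ))) • e i x := by
      refine (congrArg (fun L : RR n →L[ℝ] F => L a) k2.fderiv).trans ?_
      simp [smul_smul, mul_assoc]
    rw [k3, inner_add_right, inner_smul_left, inner_smul_left, inner_smul_right,
      inner_smul_right, h.conn i x hx a, inner_self_eq_norm_sq_to_K, h.en i x hx]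
    have k4 : (starRingEnd ℂ) (u i x) * u i x = 1 := by
      rw [← Complex.normSq_eq_conj_mul_self, Complex.normSq_eq_norm_sq, hun]
      simp
    simp only [sub_apply, Pi.sub_apply, Complex.ofReal_sub]
    push_cast
    linear_combination (Complex.I * (A x a i : ℂ) - Complex.I * (A x0 a i : ℂ)) * k4

/-! ### bounds -/

theorem exists_norm_le {V : Type*} [NormedAddCommGroup V] [NormedSpace ℝ V]
    [FiniteDimensional ℝ V] (b : V →L[ℝ] V →L[ℝ] ℝ) (hs : ∀ u v, b u v = b v u)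
    (hp : ∀ u, u ≠ 0 → 0 < b u u) : ∃ K > 0, ∀ a, ‖a‖ ≤ K * Real.sqrt (b a a) := by
  obtain ⟨f, hf1, hf2⟩ := exists_onb
    ((ContinuousLinearMap.coeLM ℝ : (V →L[ℝ] ℝ) →ₗ[ℝ] (V →ₗ[ℝ] ℝ)).comp
      b.toLinearMap) hs hp
  have hf1' : ∀ q q', b (f q) (f q') = if q = q' then 1 else 0 := hf1
  have hf2' : ∀ a, a = ∑ q, b (f q) a • f q := hf2
  have hpn : ∀ u, 0 ≤ b u u := by
    intro u
    by_cases h : u = 0
    · simp [h]
    · exact (hp u h).le
  refine ⟨∑ q, ‖f q‖ + 1, by positivity, ?_⟩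
  intro a
  have k1 : ‖a‖ ≤ ∑ q, ‖f q‖ * Real.sqrt (b a a) := by
    conv_lhs => rw [hf2' a]
    refine (norm_sum_le _ _).trans (Finset.sum_le_sum fun q _ => ?_)
    rw [norm_smul, Real.norm_eq_abs, mul_comm]
    refine mul_le_mul_of_nonneg_left ?_ (norm_nonneg _)
    have k2 := abs_bil b hs hpn (f q) a
    rw [hf1' q q, if_pos rfl, Real.sqrt_one, one_mul] at k2
    exact k2
  rw [← Finset.sum_mul] at k1
  have k3 := Real.sqrt_nonneg (b a a)
  nlinarith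

theorem Bds.mono {V : Type*} [NormedAddCommGroup V] [NormedSpace ℝ V]
    {g : V → V →L[ℝ] V →L[ℝ] ℝ} {C : V → V →L[ℝ] V →L[ℝ] V} {A : V → V →L[ℝ] (ι → ℝ)}
    {Λ Λ' : ℝ} {x : V} (h : Bds g C A Λ x) (hl : Λ ≤ Λ') : Bds g C A Λ' x :=
  ⟨h.nn.trans hl, h.gs, h.gp, fun a b l => (h.fb a b l).trans
    (mul_le_mul_of_nonneg_right hl (by positivity)), fun a b c l => (h.xb a b c l).trans
    (mul_le_mul_of_nonneg_right hl (by positivity))⟩

theorem dcrv_eq {V : Type*} [NormedAddCommGroup V] [NormedSpace ℝ V] {T : Type*}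
    [NormedAddCommGroup T] [NormedSpace ℝ T] {A : V → V →L[ℝ] T} {x : V}
    (hA : ContDiffAt ℝ ∞ A x) (a b c : V) :
    dcrv A x a b c = fderiv ℝ (fderiv ℝ A) x a b c - fderiv ℝ (fderiv ℝ A) x a c b := by
  have h1 : DifferentiableAt ℝ (fderiv ℝ A) x := cd_diff (hA.fderiv_right (m := ∞) (by simp))
  have h2 := ((h1.hasFDerivAt.clm_apply (hasFDerivAt_const b x)).clm_apply
    (hasFDerivAt_const c x)).sub ((h1.hasFDerivAt.clm_apply (hasFDerivAt_const c x)).clm_apply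
    (hasFDerivAt_const b x))
  refine (congrArg (fun L : V →L[ℝ] T => L a) h2.fderiv).trans ?_
  simp

theorem local_bds {V : Type*} [NormedAddCommGroup V] [NormedSpace ℝ V]
    [FiniteDimensional ℝ V] {g : V → V →L[ℝ] V →L[ℝ] ℝ} {C : V → V →L[ℝ] V →L[ℝ] V}
    {A : V → V →L[ℝ] (ι → ℝ)} {O : Set V} (hO : IsOpen O) (hg : IsMetricOn g O)
    (hC : IsChristoffel g O C) (hA : ContDiffOn ℝ ∞ A O) {x0 : V} (hx0 : x0 ∈ O) :
    ∃ Λ, ∀ᶠ x in 𝓝 x0, Bds g C A Λ x := by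
  obtain ⟨K, hK0, hK⟩ := exists_norm_le (g x0) (hg.symm x0 hx0) (hg.pos x0 hx0)
  have hO' := hO.mem_nhds hx0
  -- continuity at the centre
  have cA1 : ContDiffOn ℝ ∞ (fderiv ℝ A) O := hA.fderiv_of_isOpen hO (by simp)
  have cA2 : ContDiffOn ℝ ∞ (fderiv ℝ (fderiv ℝ A)) O := cA1.fderiv_of_isOpen hO (by simp)
  have t1 : ∀ᶠ x in 𝓝 x0, ‖fderiv ℝ A x‖ < ‖fderiv ℝ A x0‖ + 1 :=
    ((cA1.contDiffAt hO').continuousAt.norm).eventually_lt_const (by linarith)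
  have t2 : ∀ᶠ x in 𝓝 x0, ‖fderiv ℝ (fderiv ℝ A) x‖ < ‖fderiv ℝ (fderiv ℝ A) x0‖ + 1 :=
    ((cA2.contDiffAt hO').continuousAt.norm).eventually_lt_const (by linarith)
  have t3 : ∀ᶠ x in 𝓝 x0, ‖C x‖ < ‖C x0‖ + 1 :=
    ((hC.smooth.contDiffAt hO').continuousAt.norm).eventually_lt_const (by linarith)
  have t4 : ∀ᶠ x in 𝓝 x0, ‖g x - g x0‖ < 1 / (2 * K ^ 2) := by
    have k1 : ContinuousAt (fun x => g x - g x0) x0 :=
      (hg.smooth.contDiffAt hO').continuousAt.sub continuousAt_const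
    refine k1.norm.eventually_lt_const ?_
    simp only [sub_self, norm_zero]
    positivity
  set c1 := ‖fderiv ℝ A x0‖ + 1
  set c2 := ‖fderiv ℝ (fderiv ℝ A) x0‖ + 1
  set c3 := ‖C x0‖ + 1
  have hc1 : 0 < c1 := by positivity
  have hc2 : 0 < c2 := by positivity
  have hc3 : 0 < c3 := by positivity
  refine ⟨2 * c1 * (2 * K) ^ 2 + 4 * (c2 + c1 * c3) * (2 * K) ^ 3, ?_⟩
  filter_upwards [t1, t2, t3, t4, hO'] with x x1 x2 x3 x4 x5
  have hL : ∀ a, ‖a‖ ≤ (2 * K) * Real.sqrt (g x a a) := by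
    intro a
    have k1 : |(g x - g x0) a a| ≤ 1 / (2 * K ^ 2) * ‖a‖ * ‖a‖ := by
      refine ((g x - g x0).le_opNorm₂ a a).trans ?_
      gcongr
    have k2 : ‖a‖ ^ 2 ≤ K ^ 2 * g x0 a a := by
      have k3 := hK a
      have k4 : 0 ≤ g x0 a a := by
        by_cases h : a = 0
        · simp [h]
        · exact (hg.pos x0 hx0 a h).le
      calc ‖a‖ ^ 2 ≤ (K * Real.sqrt (g x0 a a)) ^ 2 := by gcongr
        _ = K ^ 2 * g x0 a a := by rw [mul_pow, Real.sq_sqrt k4]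
    have k5 : g x0 a a ≤ g x a a + 1 / (2 * K ^ 2) * ‖a‖ ^ 2 := by
      have := (abs_le.1 k1).1
      simp only [sub_apply] at this
      nlinarith
    have k6 : ‖a‖ ^ 2 ≤ 2 * K ^ 2 * g x a a := by
      have k7 : K ^ 2 * (1 / (2 * K ^ 2) * ‖a‖ ^ 2) = ‖a‖ ^ 2 / 2 := by
        field_simp
      have k8 : K ^ 2 * g x0 a a ≤ K ^ 2 * (g x a a + 1 / (2 * K ^ 2) * ‖a‖ ^ 2) :=
        mul_le_mul_of_nonneg_left k5 (by positivity)
      rw [mul_add, k7] at k8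
      linarith
    have k9 : 0 ≤ g x a a := by
      by_contra h
      have : 2 * K ^ 2 * g x a a < 0 := mul_neg_of_pos_of_neg (by positivity) (not_le.1 h)
      nlinarith [sq_nonneg ‖a‖]
    have k10 : ‖a‖ ^ 2 ≤ ((2 * K) * Real.sqrt (g x a a)) ^ 2 := by
      rw [mul_pow, Real.sq_sqrt k9]
      nlinarith [mul_nonneg (sq_nonneg K) k9]
    exact le_of_sq_le_sq k10 (by positivity)
  have hcr : ∀ a b, ‖crv A x a b‖ ≤ 2 * c1 * ‖a‖ * ‖b‖ := by
    intro a b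
    have k1 := (fderiv ℝ A x).le_opNorm₂ a b
    have k2 := (fderiv ℝ A x).le_opNorm₂ b a
    have k3 : ‖fderiv ℝ A x‖ * ‖a‖ * ‖b‖ ≤ c1 * ‖a‖ * ‖b‖ := by gcongr
    have k4 : ‖fderiv ℝ A x‖ * ‖b‖ * ‖a‖ ≤ c1 * ‖b‖ * ‖a‖ := by gcongr
    calc ‖crv A x a b‖ ≤ ‖fderiv ℝ A x a b‖ + ‖fderiv ℝ A x b a‖ := norm_sub_le _ _
      _ ≤ c1 * ‖a‖ * ‖b‖ + c1 * ‖b‖ * ‖a‖ := add_le_add (k1.trans k3) (k2.trans k4)
      _ = _ := by ring
  have hdc : ∀ a b c, ‖dcrv A x a b c‖ ≤ 2 * c2 * ‖a‖ * ‖b‖ * ‖c‖ := by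
    intro a b c
    rw [dcrv_eq (hA.contDiffAt (hO.mem_nhds x5))]
    have k0 : ∀ a b c : V, ‖fderiv ℝ (fderiv ℝ A) x a b c‖ ≤ c2 * ‖a‖ * ‖b‖ * ‖c‖ := by
      intro a b c
      have k1 := (fderiv ℝ (fderiv ℝ A) x a).le_opNorm₂ b c
      have k2 := (fderiv ℝ (fderiv ℝ A) x).le_opNorm a
      calc _ ≤ _ := k1
        _ ≤ (‖fderiv ℝ (fderiv ℝ A) x‖ * ‖a‖) * ‖b‖ * ‖c‖ := by gcongr
        _ ≤ (c2 * ‖a‖) * ‖b‖ * ‖c‖ := by gcongr
    calc _ ≤ _ := norm_sub_le _ _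
      _ ≤ c2 * ‖a‖ * ‖b‖ * ‖c‖ + c2 * ‖a‖ * ‖c‖ * ‖b‖ := add_le_add (k0 a b c) (k0 a c b)
      _ = _ := by ring
  have hcC : ∀ a b c, ‖crv A x a (C x b c)‖ ≤ 2 * (c1 * c3) * ‖a‖ * ‖b‖ * ‖c‖ := by
    intro a b c
    have k1 := (C x).le_opNorm₂ b c
    have k2 : ‖C x b c‖ ≤ c3 * ‖b‖ * ‖c‖ := k1.trans (by gcongr)
    calc _ ≤ _ := hcr a (C x b c)
      _ ≤ 2 * c1 * ‖a‖ * (c3 * ‖b‖ * ‖c‖) := by gcongr
      _ = _ := by ring
  refine ⟨by positivity, hg.symm x x5, hg.pos x x5, ?_, ?_⟩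
  · intro a b l
    have k1 := (norm_le_pi_norm (crv A x a b) l).trans (hcr a b)
    rw [Real.norm_eq_abs] at k1
    refine k1.trans ?_
    have k2 : 2 * c1 * ‖a‖ * ‖b‖ ≤ 2 * c1 * ((2 * K) * Real.sqrt (g x a a)) *
        ((2 * K) * Real.sqrt (g x b b)) := by
      have := hL a
      have := hL b
      gcongr
    refine k2.trans ?_
    have k3 : 0 ≤ 4 * (c2 + c1 * c3) * (2 * K) ^ 3 *
        (Real.sqrt (g x a a) * Real.sqrt (g x b b)) := by positivity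
    linarith
  · intro a b c l
    have k0 : ‖dcrv A x a b c + crv A x a (C x b c) - dcrv A x b a c - crv A x b (C x a c)‖ ≤
        4 * (c2 + c1 * c3) * ‖a‖ * ‖b‖ * ‖c‖ := by
      have k1 := hdc a b c
      have k2 := hdc b a c
      have k3 := hcC a b c
      have k4 := hcC b a c
      calc _ ≤ ‖dcrv A x a b c + crv A x a (C x b c) - dcrv A x b a c‖ +
            ‖crv A x b (C x a c)‖ := norm_sub_le _ _
        _ ≤ ‖dcrv A x a b c + crv A x a (C x b c)‖ + ‖dcrv A x b a c‖ +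
            ‖crv A x b (C x a c)‖ := by gcongr; exact norm_sub_le _ _
        _ ≤ ‖dcrv A x a b c‖ + ‖crv A x a (C x b c)‖ + ‖dcrv A x b a c‖ +
            ‖crv A x b (C x a c)‖ := by gcongr; exact norm_add_le _ _
        _ ≤ 2 * c2 * ‖a‖ * ‖b‖ * ‖c‖ + 2 * (c1 * c3) * ‖a‖ * ‖b‖ * ‖c‖ +
            2 * c2 * ‖b‖ * ‖a‖ * ‖c‖ + 2 * (c1 * c3) * ‖b‖ * ‖a‖ * ‖c‖ := by gcongr
        _ = _ := by ring
    have k1 := (norm_le_pi_norm _ l).trans k0
    rw [Real.norm_eq_abs] at k1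
    refine k1.trans ?_
    have k2 : 4 * (c2 + c1 * c3) * ‖a‖ * ‖b‖ * ‖c‖ ≤ 4 * (c2 + c1 * c3) *
        ((2 * K) * Real.sqrt (g x a a)) * ((2 * K) * Real.sqrt (g x b b)) *
        ((2 * K) * Real.sqrt (g x c c)) := by
      have := hL a
      have := hL b
      have := hL c
      gcongr
    refine k2.trans ?_
    have k3 : 0 ≤ 2 * c1 * (2 * K) ^ 2 *
        (Real.sqrt (g x a a) * Real.sqrt (g x b b) * Real.sqrt (g x c c)) := by positivity
    linarith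

/-- local data with bounds at the point `b` -/
def LOK (B : Set E) (n : ℕ) (G : E → E →L[ℝ] E →L[ℝ] ℝ) (P : ι → E → F →L[ℂ] F) (Λ : ℝ)
    (b : E) : Prop :=
  ∃ U ψ W ρ e A C, LData B n P b U ψ W ρ e A ∧ IsChristoffel (pull G ψ) U C ∧
    Bds (pull G ψ) C A Λ (ρ b)

/-- uniform bounds over the compact base -/
theorem exists_LOK {G : E → E →L[ℝ] E →L[ℝ] ℝ} (hB : IsClosedManifold B n)
    (hG : IsRiem B n G) (hP : ∀ i, ContDiff ℝ ∞ (P i))
    (hL : ∀ i, ∀ b ∈ B, IsLineProj (P i b)) : ∃ Λ, ∀ b ∈ B, LOK B n G P Λ b := by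
  have key : ∀ b0 ∈ B, ∃ Λ, ∀ᶠ b in 𝓝[B] b0, LOK B n G P Λ b := by
    intro b0 hb0
    obtain ⟨U, ψ, W, ρ, e, A, h⟩ := exists_LData hB hP hL hb0
    have hm := hG.metric U ψ h.chart.param
    obtain ⟨C, hC⟩ := exists_christoffel h.chart.param.isOpen hm
    have hx0 := (h.chart.left b0 h.chart.mem hb0).1
    obtain ⟨Λ, hΛ⟩ := local_bds h.chart.param.isOpen hm hC h.As hx0
    have hρ : Tendsto ρ (𝓝 b0) (𝓝 (ρ b0)) :=
      (h.chart.smooth.continuousOn).continuousAt (h.chart.isOpen.mem_nhds h.chart.mem)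
    refine ⟨Λ, ?_⟩
    have k1 : ∀ᶠ b in 𝓝[B] b0, b ∈ W :=
      nhdsWithin_le_nhds (h.chart.isOpen.mem_nhds h.chart.mem)
    have k2 : ∀ᶠ b in 𝓝[B] b0, Bds (pull G ψ) C A Λ (ρ b) :=
      nhdsWithin_le_nhds (hρ.eventually hΛ)
    filter_upwards [k1, k2] with b b1 b2
    exact ⟨U, ψ, W, ρ, e, A, C, h.at b1, hC, b2⟩
  have hmono : ∀ Λ Λ' b, Λ ≤ Λ' → LOK B n G P Λ b → LOK B n G P Λ' b := by
    rintro Λ Λ' b hl ⟨U, ψ, W, ρ, e, A, C, h1, h2, h3⟩
    exact ⟨U, ψ, W, ρ, e, A, C, h1, h2, h3.mono hl⟩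
  refine hB.compact.induction_on (p := fun s => ∃ Λ, ∀ b ∈ s, LOK B n G P Λ b) ?_ ?_ ?_ ?_
  · exact ⟨0, fun b hb => absurd hb (notMem_empty b)⟩
  · rintro s t hst ⟨Λ, h⟩
    exact ⟨Λ, fun b hb => h b (hst hb)⟩
  · rintro s t ⟨Λ, h⟩ ⟨Λ', h'⟩
    refine ⟨max Λ Λ', ?_⟩
    rintro b (hb | hb)
    · exact hmono _ _ b (le_max_left _ _) (h b hb)
    · exact hmono _ _ b (le_max_right _ _) (h' b hb)
  · intro b hb
    obtain ⟨Λ, h⟩ := key b hb
    exact ⟨_, h, Λ, fun b hb => hb⟩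

end Pool.Agent.H21_anco
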