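import Pool.Agent.H21_anco.Bundle

/-!
Local unit sections of the line bundles, connection forms, uniform bounds.
-/

open scoped ContDiff Topology
open Filter Set

set_option maxSynthPendingDepth 3
set_option linter.unusedSectionVars false

noncomputable section

namespace Pool.Agent.H21_anco

variable {E : Type*} [NormedAddCommGroup E] [NormedSpace ℝ E] [FiniteDimensional ℝ E]
  {F : Type*} [NormedAddCommGroup F] [InnerProductSpace ℂ F] [FiniteDimensional ℂ F]
  {ι : Type*} [Fintype ι]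
  {Y : Type*} [NormedAddCommGroup Y] [InnerProductSpace ℝ Y] [FiniteDimensional ℝ Y]

/-! ### projections onto lines -/

theorem IsLineProj.exists_vec {T : F →L[ℂ] F} (h : IsLineProj T) : ∃ v, v ≠ 0 ∧ T v = v := by
  obtain ⟨⟨w, ⟨u, hu⟩⟩, hw, -⟩ := finrank_eq_one_iff'.1 h.rank
  refine ⟨w, fun h0 => hw (Subtype.ext h0), ?_⟩
  rw [← hu]
  exact h.idem u

theorem IsLineProj.eq_of_fix {T : F →L[ℂ] F} (h : IsLineProj T) {e w : F} (he : T e = e)
    (he1 : ‖e‖ = 1) (hw : T w = w) : w = inner ℂ e w • e := by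
  obtain ⟨⟨v, hv0⟩, hv, hall⟩ := finrank_eq_one_iff'.1 h.rank
  obtain ⟨c, hc⟩ := hall ⟨e, ⟨e, he⟩⟩
  obtain ⟨d, hd⟩ := hall ⟨w, ⟨w, hw⟩⟩
  have hc' : c • v = e := congrArg Subtype.val hc
  have hd' : d • v = w := congrArg Subtype.val hd
  have hc0 : c ≠ 0 := by
    intro h0
    rw [h0, zero_smul] at hc'
    rw [← hc', norm_zero] at he1
    exact zero_ne_one he1
  have hw2 : w = (d / c) • e := by
    rw [← hc', ← hd', smul_smul]
    congr 1
    field_simp
  have h3 : inner ℂ e w = d / c := by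
    rw [hw2, inner_smul_right, inner_self_eq_norm_sq_to_K, he1]
    simp
  rw [h3]
  exact hw2

theorem IsLineProj.apply_eq {T : F →L[ℂ] F} (h : IsLineProj T) {e : F} (he : T e = e)
    (he1 : ‖e‖ = 1) (v : F) : T v = inner ℂ e v • e := by
  have h1 := h.eq_of_fix he he1 (h.idem v)
  have h2 : inner ℂ e (T v) = inner ℂ e v := by rw [← h.symm, he]
  rw [← h2]
  exact h1

/-! ### smoothness of the ambient forms -/

theorem contDiffOn_app {V : Type*} [NormedAddCommGroup V] [NormedSpace ℝ V] {s : Set V}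
    {T : V → F →L[ℂ] F} {e : V → F}
    (hT : ContDiffOn ℝ ∞ T s) (he : ContDiffOn ℝ ∞ e s) : ContDiffOn ℝ ∞ (fun x => T x (e x)) s := by
  have h1 : ContDiffOn ℝ ∞ (fun x => (T x).restrictScalars ℝ) s :=
    (ContinuousLinearMap.restrictScalarsL ℂ F F ℝ ℝ).contDiff.comp_contDiffOn hT
  exact h1.clm_apply he

theorem contDiff_app {V : Type*} [NormedAddCommGroup V] [NormedSpace ℝ V]
    {T : V → F →L[ℂ] F} {e : V → F}
    (hT : ContDiff ℝ ∞ T) (he : ContDiff ℝ ∞ e) : ContDiff ℝ ∞ (fun x => T x (e x)) := by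
  rw [← contDiffOn_univ] at *
  exact contDiffOn_app hT he

theorem contDiff_Gh {G : E → E →L[ℝ] E →L[ℝ] ℝ} (hG : ContDiff ℝ ∞ G)
    {P : ι → E → F →L[ℂ] F} (hP : ∀ i, ContDiff ℝ ∞ (P i)) {κ δ : ℝ} (hδ : 0 < δ) :
    ContDiff ℝ ∞ (Gh (Y := Y) G P κ δ) := by
  have : FiniteDimensional ℝ F := FiniteDimensional.complexToReal F
  apply contDiff_apply2
  intro u v
  have hw : ∀ i, ContDiff ℝ ∞ (fun q : E × ((ι → F) × Y) => q.2.1 i) := fun i =>
    (pw i : (E × ((ι → F) × Y)) →L[ℝ] F).contDiff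
  have hn : ∀ i, ContDiff ℝ ∞ (fun q : E × ((ι → F) × Y) => δ ^ 2 + ‖q.2.1 i‖ ^ 2) := fun i =>
    contDiff_const.add ((hw i).norm_sq ℂ)
  have hpos : ∀ i, ∀ q : E × ((ι → F) × Y), δ ^ 2 + ‖q.2.1 i‖ ^ 2 ≠ 0 := fun i q => by positivity
  have hre : ContDiff ℝ ∞ (fun z : ℂ => z.re) := Complex.reCLM.contDiff
  have him : ContDiff ℝ ∞ (fun z : ℂ => z.im) := Complex.imCLM.contDiff
  simp only [Gh_apply]
  refine ContDiff.add (ContDiff.add ?_ (ContDiff.sum fun i _ => ?_)) contDiff_const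
  · refine ContDiff.mul (ContDiff.exp (contDiff_const.mul (ContDiff.sum fun i _ =>
      (hn i).sqrt (hpos i)))) ?_
    exact ((hG.comp contDiff_fst).clm_apply contDiff_const).clm_apply contDiff_const
  · refine ContDiff.sub ?_ (ContDiff.mul ((hn i).inv (hpos i)) (ContDiff.mul ?_ ?_))
    · exact hre.comp ((contDiff_app ((hP i).comp contDiff_fst) contDiff_const).inner ℂ
        contDiff_const)
    · exact him.comp ((hw i).inner ℂ contDiff_const)
    · exact him.comp ((hw i).inner ℂ contDiff_const)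

/-- local unit sections with their connection forms, in a chart around `b` -/
structure LData (B : Set E) (n : ℕ) (P : ι → E → F →L[ℂ] F) (b : E) (U : Set (RR n))
    (ψ : RR n → E) (W : Set E) (ρ : E → RR n) (e : ι → RR n → F)
    (A : RR n → RR n →L[ℝ] (ι → ℝ)) : Prop where
  chart : IsChartAt B n b U ψ W ρ
  es : ∀ i, ContDiffOn ℝ ∞ (e i) U
  en : ∀ i, ∀ x ∈ U, ‖e i x‖ = 1
  eP : ∀ i, ∀ x ∈ U, P i (ψ x) (e i x) = e i x
  As : ContDiffOn ℝ ∞ A U
  conn : ∀ i, ∀ x ∈ U, ∀ a, inner ℂ (e i x) (fderiv ℝ (e i) x a) = Complex.I * (A x a i : ℂ)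

/-- the connection form of unit sections -/
def connA {n : ℕ} (e : ι → RR n → F) (x : RR n) : RR n →L[ℝ] (ι → ℝ) :=
  ContinuousLinearMap.pi fun i => (imB (e i x)).comp (fderiv ℝ (e i) x)

theorem connA_apply {n : ℕ} (e : ι → RR n → F) (x a : RR n) (i : ι) :
    connA e x a i = (inner ℂ (e i x) (fderiv ℝ (e i) x a)).im := rfl

theorem contDiffOn_connA {n : ℕ} {U : Set (RR n)} (hU : IsOpen U) {e : ι → RR n → F}
    (he : ∀ i, ContDiffOn ℝ ∞ (e i) U) : ContDiffOn ℝ ∞ (connA e) U := by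
  refine contDiffOn_clm_apply.2 fun a => contDiffOn_pi.2 fun i => ?_
  have h1 : ContDiffOn ℝ ∞ (fderiv ℝ (e i)) U := (he i).fderiv_of_isOpen hU (by simp)
  have h2 : ContDiffOn ℝ ∞ (fun x => imB (e i x)) U := imB.contDiff.comp_contDiffOn (he i)
  exact h2.clm_apply (h1.clm_apply contDiffOn_const)

theorem conn_of_unit {n : ℕ} {U : Set (RR n)} (hU : IsOpen U) {e : RR n → F}
    (he : ContDiffOn ℝ ∞ e U) (h1 : ∀ x ∈ U, ‖e x‖ = 1) {x : RR n} (hx : x ∈ U) (a : RR n) :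
    (inner ℂ (e x) (fderiv ℝ e x a)).re = 0 := by
  have hd : HasFDerivAt e (fderiv ℝ e x) x :=
    ((he.contDiffAt (hU.mem_nhds hx)).differentiableAt (by simp)).hasFDerivAt
  have k2 : HasFDerivAt (fun z => (reB : F →L[ℝ] F →L[ℝ] ℝ) (e z)) (reB.comp (fderiv ℝ e x)) x :=
    (ContinuousLinearMap.hasFDerivAt (reB : F →L[ℝ] F →L[ℝ] ℝ)).comp x hd
  have k3 := k2.clm_apply hd
  have k4 : HasFDerivAt (fun z => reB (e z) (e z)) (0 : RR n →L[ℝ] ℝ) x := by
    refine (hasFDerivAt_const (1 : ℝ) x).congr_of_eventuallyEq ?_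
    filter_upwards [hU.mem_nhds hx] with z hz
    rw [reB_apply, inner_self_eq_norm_sq_to_K, h1 z hz]
    simp
  have k5 := congrArg (fun L : RR n →L[ℝ] ℝ => L a) (k3.unique k4)
  simp only [add_apply, ContinuousLinearMap.comp_apply, ContinuousLinearMap.flip_apply,
    reB_apply, zero_apply] at k5
  have k6 : (inner ℂ (fderiv ℝ e x a) (e x)).re = (inner ℂ (e x) (fderiv ℝ e x a)).re := by
    rw [← inner_conj_symm, Complex.conj_re]
  rw [k6] at k5
  linarith

/-- local unit sections exist -/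
theorem exists_LData {B : Set E} {n : ℕ} (hB : IsClosedManifold B n) {P : ι → E → F →L[ℂ] F}
    (hP : ∀ i, ContDiff ℝ ∞ (P i)) (hL : ∀ i, ∀ b ∈ B, IsLineProj (P i b)) {b : E} (hb : b ∈ B) :
    ∃ U ψ W ρ e A, LData B n P b U ψ W ρ e A := by
  obtain ⟨U, ψ, W, ρ, hc⟩ := hB.chart b hb
  choose v hv0 hv using fun i => (hL i b hb).exists_vec
  have ho : IsOpen {g : ι → F | ∀ i, g i ≠ 0} := by
    have : {g : ι → F | ∀ i, g i ≠ 0} = ⋂ i, {g | g i ≠ 0} := by
      ext g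
      simp
    rw [this]
    refine isOpen_iInter_of_finite fun i => ?_
    have h1 : IsOpen {w : F | w ≠ 0} := isOpen_ne
    exact h1.preimage (f := fun g : ι → F => g i) (continuous_apply i)
  have hsP : ∀ i, ContDiff ℝ ∞ (fun q => P i q (v i)) := fun i =>
    contDiff_app (hP i) contDiff_const
  have hcont : Continuous (fun q : E => fun i => P i q (v i)) :=
    continuous_pi fun i => (hsP i).continuous
  set U' := U ∩ (fun x => fun i => P i (ψ x) (v i)) ⁻¹' {g : ι → F | ∀ i, g i ≠ 0} with hU'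
  set W' := W ∩ (fun q => fun i => P i q (v i)) ⁻¹' {g : ι → F | ∀ i, g i ≠ 0} with hW'
  have hU'o : IsOpen U' :=
    (hcont.comp_continuousOn hc.param.smooth.continuousOn).isOpen_inter_preimage
      hc.param.isOpen ho
  have hW'o : IsOpen W' := hc.isOpen.inter (ho.preimage hcont)
  set e : ι → RR n → F := fun i x => (‖P i (ψ x) (v i)‖)⁻¹ • P i (ψ x) (v i) with he
  have hne : ∀ i, ∀ x ∈ U', P i (ψ x) (v i) ≠ 0 := fun i x hx => hx.2 i
  have hsm : ∀ i, ContDiffOn ℝ ∞ (fun x => P i (ψ x) (v i)) U' := fun i =>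
    (hsP i).comp_contDiffOn (hc.param.smooth.mono inter_subset_left)
  have hes : ∀ i, ContDiffOn ℝ ∞ (e i) U' := by
    intro i
    have k : ContDiffOn ℝ ∞ (fun x => (‖P i (ψ x) (v i)‖)⁻¹) U' :=
      ((hsm i).norm ℂ (hne i)).inv fun x hx => norm_ne_zero_iff.2 (hne i x hx)
    exact k.smul (hsm i)
  have hen : ∀ i, ∀ x ∈ U', ‖e i x‖ = 1 := by
    intro i x hx
    rw [he]
    simp only
    rw [norm_smul, norm_inv, norm_norm, inv_mul_cancel₀ (norm_ne_zero_iff.2 (hne i x hx))]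
  refine ⟨U', ψ, W', ρ, e, connA e, ⟨⟨hU'o, hc.param.smooth.mono inter_subset_left,
    fun x hx => hc.param.maps x hx.1, fun x hx => hc.param.imm x hx.1⟩, hW'o, ⟨hc.mem, ?_⟩,
    hc.smooth.mono inter_subset_left, ?_, ?_⟩, hes, hen, ?_, contDiffOn_connA hU'o hes, ?_⟩
  · intro i
    simp only
    rw [hv i]
    exact hv0 i
  · intro q hq hqB
    obtain ⟨k1, k2⟩ := hc.left q hq.1 hqB
    refine ⟨⟨k1, ?_⟩, k2⟩
    intro i
    simp only
    rw [k2]
    exact hq.2 i
  · intro x hx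
    obtain ⟨k1, k2⟩ := hc.right x hx.1
    exact ⟨⟨k1, hx.2⟩, k2⟩
  · intro i x hx
    have k1 := hL i (ψ x) (hc.param.maps x hx.1)
    simp only [he]
    rw [← Complex.coe_smul, map_smul, k1.idem]
  · intro i x hx a
    have k1 := conn_of_unit hU'o (hes i) (hen i) hx a
    apply Complex.ext
    · rw [k1]
      simp
    · rw [connA_apply]
      simp

end Pool.Agent.H21_anco
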