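import Pool.Agent.H21_anco.Four

/-!
The main part of the curvature form and its lower bound.
-/

open Finset

set_option linter.unusedSectionVars false
set_option maxSynthPendingDepth 3

noncomputable section

namespace Pool.Agent.H21_anco

section main

variable {B : Type*} [NormedAddCommGroup B] [NormedSpace ℝ B]
  {N : Type*} [NormedAddCommGroup N] [NormedSpace ℝ N] {ι : Type*} [Fintype ι]
  (g : B →L[ℝ] B →L[ℝ] ℝ) (F : ι → B →L[ℝ] B →L[ℝ] ℝ) (α β : ι → N →L[ℝ] ℝ)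
  (RB : B → B → B → B → ℝ) (H κ : ℝ) (φ k : ι → ℝ)

/-- area forms -/
def vv (l : ι) (γ η : N) : ℝ := α l γ * β l η - β l γ * α l η

/-- mixed part -/
def md (l : ι) (a : B) (γ η : N) (b : B) : ℝ :=
  φ l * (κ * H * (α l γ * α l η + β l γ * β l η) * g a b - (1 / 2) * vv α β l γ η * F l a b)

/-- the part of the main form attached to `l` -/
def Ml (l : ι) (u v w z : B × N) : ℝ :=
  - k l * (vv α β l u.2 v.2 * vv α β l w.2 z.2) +
    φ l * (vv α β l u.2 v.2 * F l w.1 z.1 + F l u.1 v.1 * vv α β l w.2 z.2) +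
    md g F α β H κ φ l u.1 v.2 w.2 z.1 - md g F α β H κ φ l v.1 u.2 w.2 z.1 -
    md g F α β H κ φ l u.1 v.2 z.2 w.1 + md g F α β H κ φ l v.1 u.2 z.2 w.1

/-- the main form -/
def Mn (u v w z : B × N) : ℝ :=
  H * RB u.1 v.1 w.1 z.1 + ∑ l, Ml g F α β H κ φ k l u v w z

theorem lin4_Ml (l : ι) : Lin4 (Ml g F α β H κ φ k l) := by
  constructor <;> intros <;>
    simp only [Ml, md, vv, Prod.fst_add, Prod.snd_add, Prod.smul_fst, Prod.smul_snd, map_add,
      map_smul, add_apply, smul_apply, smul_eq_mul] <;>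
    ring

variable {RB}

theorem lin4_Mn (hR : Lin4 RB) : Lin4 (Mn g F α β RB H κ φ k) := by
  have h1 : Lin4 (fun u v w z : B × N => RB u.1 v.1 w.1 z.1) := by
    constructor <;> intros <;> simp only [Prod.fst_add, Prod.smul_fst]
    · rw [hR.a1]
    · rw [hR.m1]
    · rw [hR.a2]
    · rw [hR.m2]
    · rw [hR.a3]
    · rw [hR.m3]
    · rw [hR.a4]
    · rw [hR.m4]
  exact (h1.const_mul H).add (Lin4.sum univ fun l => lin4_Ml g F α β H κ φ k l)

theorem Mn_anti1 (hR : ∀ a b e f, RB a b e f = - RB b a e f)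
    (hF : ∀ l a b, F l a b = - F l b a) (u v w z : B × N) :
    Mn g F α β RB H κ φ k u v w z = - Mn g F α β RB H κ φ k v u w z := by
  simp only [Mn, neg_add, ← sum_neg_distrib]
  rw [hR]
  congr 1
  · ring
  refine sum_congr rfl fun l _ => ?_
  simp only [Ml, md, vv]
  rw [hF l u.1 v.1]
  ring

theorem Mn_anti2 (hR : ∀ a b e f, RB a b e f = - RB a b f e)
    (hF : ∀ l a b, F l a b = - F l b a) (u v w z : B × N) :
    Mn g F α β RB H κ φ k u v w z = - Mn g F α β RB H κ φ k u v z w := by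
  simp only [Mn, neg_add, ← sum_neg_distrib]
  rw [hR]
  congr 1
  · ring
  refine sum_congr rfl fun l _ => ?_
  simp only [Ml, md, vv]
  rw [hF l w.1 z.1]
  ring

theorem Mn_pair (hR : ∀ a b e f, RB a b e f = RB e f a b) (hg : ∀ a b, g a b = g b a)
    (hF : ∀ l a b, F l a b = - F l b a) (u v w z : B × N) :
    Mn g F α β RB H κ φ k u v w z = Mn g F α β RB H κ φ k w z u v := by
  simp only [Mn]
  rw [hR]
  congr 1
  refine sum_congr rfl fun l _ => ?_
  simp only [Ml, md, vv]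
  rw [hF l u.1 z.1, hF l v.1 z.1, hF l u.1 w.1, hF l v.1 w.1, hg u.1 z.1, hg v.1 z.1, hg u.1 w.1,
    hg v.1 w.1]
  ring

theorem bil_sum {m : ℕ} (b : B →L[ℝ] B →L[ℝ] ℝ) (x y : Fin m → B) :
    b (∑ i, x i) (∑ j, y j) = ∑ i, ∑ j, b (x i) (y j) := by
  simp only [map_sum, _root_.sum_apply]
  exact sum_comm

theorem sum_Ml {m : ℕ} (hF : ∀ l a b, F l a b = - F l b a) (l : ι) (u v : Fin m → B × N) :
    ∑ i, ∑ j, Ml g F α β H κ φ k l (u i) (v i) (v j) (u j) =
      k l * (∑ i, vv α β l (u i).2 (v i).2) ^ 2 -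
      2 * φ l * (∑ i, vv α β l (u i).2 (v i).2) * (∑ i, F l (u i).1 (v i).1) +
      φ l * (κ * H * (
        g (∑ i, (α l (v i).2 • (u i).1 - α l (u i).2 • (v i).1))
          (∑ i, (α l (v i).2 • (u i).1 - α l (u i).2 • (v i).1)) +
        g (∑ i, (β l (v i).2 • (u i).1 - β l (u i).2 • (v i).1))
          (∑ i, (β l (v i).2 • (u i).1 - β l (u i).2 • (v i).1))) -
        F l (∑ i, (α l (v i).2 • (u i).1 - α l (u i).2 • (v i).1))
          (∑ i, (β l (v i).2 • (u i).1 - β l (u i).2 • (v i).1))) := by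
  have hFF : ∀ P Q, F l P Q = (1 / 2) * (F l P Q - F l Q P) := by
    intro P Q
    rw [hF l Q P]
    ring
  have e2 : φ l * (∑ i, vv α β l (u i).2 (v i).2) * (∑ i, F l (u i).1 (v i).1) =
      ∑ i, ∑ j, φ l * (vv α β l (u i).2 (v i).2 * F l (u j).1 (v j).1) := by
    rw [mul_assoc, sum_mul_sum]
    simp only [mul_sum]
  have e3 : φ l * (∑ i, vv α β l (u i).2 (v i).2) * (∑ i, F l (u i).1 (v i).1) =
      ∑ i, ∑ j, φ l * (F l (u i).1 (v i).1 * vv α β l (u j).2 (v j).2) := by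
    rw [mul_assoc, mul_comm (∑ i, vv α β l (u i).2 (v i).2), sum_mul_sum]
    simp only [mul_sum]
  have e1 : k l * (∑ i, vv α β l (u i).2 (v i).2) ^ 2 =
      ∑ i, ∑ j, k l * (vv α β l (u i).2 (v i).2 * vv α β l (u j).2 (v j).2) := by
    rw [sq, sum_mul_sum]
    simp only [mul_sum]
  have e4 : 2 * φ l * (∑ i, vv α β l (u i).2 (v i).2) * (∑ i, F l (u i).1 (v i).1) =
      φ l * (∑ i, vv α β l (u i).2 (v i).2) * (∑ i, F l (u i).1 (v i).1) +
      φ l * (∑ i, vv α β l (u i).2 (v i).2) * (∑ i, F l (u i).1 (v i).1) := by ring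
  rw [e4]
  nth_rewrite 1 [e2]
  rw [e3, e1, hFF (∑ i, (α l (v i).2 • (u i).1 - α l (u i).2 • (v i).1)), bil_sum, bil_sum,
    bil_sum, bil_sum]
  simp only [mul_add, mul_sub, mul_sum, ← sum_add_distrib, ← sum_sub_distrib]
  refine sum_congr rfl fun i _ => sum_congr rfl fun j _ => ?_
  rw [Ml, hF l (v j).1 (u j).1]
  simp only [md, vv, map_sub, map_smul, sub_apply,
    smul_apply, smul_eq_mul]
  ring

theorem cs_pos (hs : ∀ a b, g a b = g b a) (hp : ∀ a, 0 ≤ g a a) (a b : B) :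
    (g a b) ^ 2 ≤ g a a * g b b := by
  have h1 : ∀ t : ℝ, 0 ≤ g b b * (t * t) + (2 * g a b) * t + g a a := by
    intro t
    have h2 := hp (a + t • b)
    simp only [map_add, map_smul, add_apply,
      smul_apply, smul_eq_mul] at h2
    rw [hs b a] at h2
    linarith
  have h3 := discrim_le_zero h1
  rw [discrim] at h3
  nlinarith

/-- lower bound of the main form -/
theorem main_bound {m : ℕ} (hF : ∀ l a b, F l a b = - F l b a)
    (hp : ∀ a, 0 ≤ g a a) (Λ d : ℝ) (hΛ : 0 ≤ Λ)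
    (hFb : ∀ l a b, |F l a b| ≤ Λ * Real.sqrt (g a a) * Real.sqrt (g b b))
    (hκ : Λ ≤ 2 * (κ * H)) (hφ : ∀ l, 0 ≤ φ l) (hk : ∀ l, 0 < k l)
    (hd : ∀ l, φ l ^ 2 ≤ k l * d) (u v : Fin m → B × N) :
    H * (∑ i, ∑ j, RB (u i).1 (v i).1 (v j).1 (u j).1) -
      d * ∑ l, (∑ i, F l (u i).1 (v i).1) ^ 2 ≤
      ∑ i, ∑ j, Mn g F α β RB H κ φ k (u i) (v i) (v j) (u j) := by
  have e1 : ∑ i, ∑ j, Mn g F α β RB H κ φ k (u i) (v i) (v j) (u j) =
      H * (∑ i, ∑ j, RB (u i).1 (v i).1 (v j).1 (u j).1) +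
      ∑ l, ∑ i, ∑ j, Ml g F α β H κ φ k l (u i) (v i) (v j) (u j) := by
    simp only [Mn, sum_add_distrib, mul_sum]
    congr 1
    calc ∑ i, ∑ j, ∑ l, Ml g F α β H κ φ k l (u i) (v i) (v j) (u j) =
        ∑ i, ∑ l, ∑ j, Ml g F α β H κ φ k l (u i) (v i) (v j) (u j) :=
          sum_congr rfl fun i _ => sum_comm
      _ = _ := sum_comm
  rw [e1, sub_eq_add_neg, mul_sum (a := d), ← sum_neg_distrib]
  have hκH : 0 ≤ κ * H := by linarith
  refine add_le_add le_rfl (sum_le_sum fun l _ => ?_)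
  rw [sum_Ml g F α β H κ φ k hF]
  set V := ∑ i, vv α β l (u i).2 (v i).2
  set X := ∑ i, F l (u i).1 (v i).1
  set P := ∑ i, (α l (v i).2 • (u i).1 - α l (u i).2 • (v i).1)
  set Q := ∑ i, (β l (v i).2 • (u i).1 - β l (u i).2 • (v i).1)
  have h1 : 0 ≤ k l * V ^ 2 - 2 * φ l * V * X + d * X ^ 2 := by
    have h2 : k l * (k l * V ^ 2 - 2 * φ l * V * X + d * X ^ 2) =
        (k l * V - φ l * X) ^ 2 + (k l * d - φ l ^ 2) * X ^ 2 := by ring
    have h3 : 0 ≤ k l * (k l * V ^ 2 - 2 * φ l * V * X + d * X ^ 2) := by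
      rw [h2]
      have := hd l
      have h4 : 0 ≤ (k l * d - φ l ^ 2) * X ^ 2 := mul_nonneg (by linarith) (sq_nonneg _)
      positivity
    exact nonneg_of_mul_nonneg_right h3 (hk l)
  have h5 : 0 ≤ κ * H * (g P P + g Q Q) - F l P Q := by
    have h6 := (abs_le.1 (hFb l P Q)).2
    have h7 : Real.sqrt (g P P) * Real.sqrt (g Q Q) ≤ (g P P + g Q Q) / 2 := by
      have a1 := Real.sq_sqrt (hp P)
      have a2 := Real.sq_sqrt (hp Q)
      nlinarith [sq_nonneg (Real.sqrt (g P P) - Real.sqrt (g Q Q))]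
    have h8 : 0 ≤ g P P + g Q Q := add_nonneg (hp P) (hp Q)
    have h9 : Λ * Real.sqrt (g P P) * Real.sqrt (g Q Q) ≤ Λ * ((g P P + g Q Q) / 2) := by
      rw [mul_assoc]
      exact mul_le_mul_of_nonneg_left h7 hΛ
    have h10 : Λ * ((g P P + g Q Q) / 2) ≤ κ * H * (g P P + g Q Q) := by nlinarith
    linarith
  have h11 := mul_nonneg (hφ l) h5
  linarith

end main

end Pool.Agent.H21_anco
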