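import Pool.Agent.H21_anco.Coord2

/-!
The local model: a metric `H g + c(∇n, ∇n)` on `B × N`, for a connection `A` acting on the fibre
coordinate `n` by commuting endomorphisms.
-/

open scoped ContDiff Topology
open Filter ContinuousLinearMap

set_option maxSynthPendingDepth 3

noncomputable section

namespace Pool.Agent.H21_anco

variable {B : Type*} [NormedAddCommGroup B] [NormedSpace ℝ B]
  {N : Type*} [NormedAddCommGroup N] [NormedSpace ℝ N]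
  {T : Type*} [NormedAddCommGroup T] [NormedSpace ℝ T]

/-- the frame field attached to `u` -/
def fr (K : T →L[ℝ] N →L[ℝ] N) (A : B → B →L[ℝ] T) (u : B × N) : B × N → B × N :=
  fun q => (u.1, u.2 - K (A q.1 u.1) q.2)

/-- curvature of the connection -/
def crv (A : B → B →L[ℝ] T) (x a b : B) : T := fderiv ℝ A x a b - fderiv ℝ A x b a

/-- the local model near `p` -/
structure Mod (g : B → B →L[ℝ] B →L[ℝ] ℝ) (C : B → B →L[ℝ] B →L[ℝ] B)
    (c : N → N →L[ℝ] N →L[ℝ] ℝ) (D : N → N →L[ℝ] N →L[ℝ] N) (H : N → ℝ)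
    (K : T →L[ℝ] N →L[ℝ] N) (A : B → B →L[ℝ] T)
    (G : B × N → (B × N) →L[ℝ] (B × N) →L[ℝ] ℝ)
    (Γ : B × N → (B × N) →L[ℝ] (B × N) →L[ℝ] (B × N)) (p : B × N) : Prop where
  lcG : LC G Γ p
  lcg : LC g C p.1
  lcc : LC c D p.2
  As : ∀ᶠ x in 𝓝 p.1, ContDiffAt ℝ ∞ A x
  Hs : ∀ᶠ n in 𝓝 p.2, ContDiffAt ℝ ∞ H n
  Kc : ∀ ξ η n, K ξ (K η n) = K η (K ξ n)
  Hinv : ∀ᶠ n in 𝓝 p.2, ∀ ξ, fderiv ℝ H n (K ξ n) = 0
  cinv : ∀ᶠ n in 𝓝 p.2, ∀ ξ γ η, fderiv ℝ c n (K ξ n) γ η = - c n (K ξ γ) η - c n γ (K ξ η)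
  hG : ∀ᶠ q in 𝓝 p, ∀ u v, G q u v = H q.2 * g q.1 u.1 v.1 +
    c q.2 (u.2 + K (A q.1 u.1) q.2) (v.2 + K (A q.1 v.1) q.2)

variable {g : B → B →L[ℝ] B →L[ℝ] ℝ} {C : B → B →L[ℝ] B →L[ℝ] B}
    {c : N → N →L[ℝ] N →L[ℝ] ℝ} {D : N → N →L[ℝ] N →L[ℝ] N} {H : N → ℝ}
    {K : T →L[ℝ] N →L[ℝ] N} {A : B → B →L[ℝ] T}
    {G : B × N → (B × N) →L[ℝ] (B × N) →L[ℝ] ℝ}
    {Γ : B × N → (B × N) →L[ℝ] (B × N) →L[ℝ] (B × N)} {p : B × N}

theorem Mod.eventually (h : Mod g C c D H K A G Γ p) : ∀ᶠ q in 𝓝 p, Mod g C c D H K A G Γ q := by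
  have f1 : Tendsto (Prod.fst : B × N → B) (𝓝 p) (𝓝 p.1) := continuous_fst.continuousAt
  have f2 : Tendsto (Prod.snd : B × N → N) (𝓝 p) (𝓝 p.2) := continuous_snd.continuousAt
  filter_upwards [h.lcG.eventually, f1.eventually h.lcg.eventually,
    f2.eventually h.lcc.eventually, f1.eventually (eventually_eventually_nhds.2 h.As),
    f2.eventually (eventually_eventually_nhds.2 h.Hs),
    f2.eventually (eventually_eventually_nhds.2 h.Hinv),
    f2.eventually (eventually_eventually_nhds.2 h.cinv),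
    eventually_eventually_nhds.2 h.hG] with q q1 q2 q3 q4 q5 q6 q7 q8
  exact ⟨q1, q2, q3, q4, q5, h.Kc, q6, q7, q8⟩

theorem cd_fr (hA : ContDiffAt ℝ ∞ A p.1) (u : B × N) : ContDiffAt ℝ ∞ (fr K A u) p := by
  have h1 : ContDiffAt ℝ ∞ (fun q : B × N => A q.1 u.1) p :=
    (hA.comp p contDiffAt_fst).clm_apply contDiffAt_const
  have h2 : ContDiffAt ℝ ∞ (fun q : B × N => K (A q.1 u.1) q.2) p :=
    (K.contDiff.contDiffAt.comp p h1).clm_apply contDiffAt_snd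
  exact contDiffAt_const.prodMk (contDiffAt_const.sub h2)

theorem hasFDerivAt_fr (hA : DifferentiableAt ℝ A p.1) (u z : B × N) :
    fderiv ℝ (fr K A u) p z = (0, - K (fderiv ℝ A p.1 z.1 u.1) p.2 - K (A p.1 u.1) z.2) := by
  have h1 : HasFDerivAt (fun q : B × N => A q.1) ((fderiv ℝ A p.1).comp (fst ℝ B N)) p :=
    hA.hasFDerivAt.comp p hasFDerivAt_fst
  have h2 := h1.clm_apply (hasFDerivAt_const u.1 p)
  have h3 := (K.hasFDerivAt.comp p h2).clm_apply (hasFDerivAt_snd (p := p))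
  have h4 := (hasFDerivAt_const u.1 p).prodMk ((hasFDerivAt_const u.2 p).sub h3)
  have h5 : HasFDerivAt (fr K A u) _ p := h4
  rw [h5.fderiv]
  simp
  abel

theorem lieB_fr (h : Mod g C c D H K A G Γ p) (u v : B × N) :
    lieB (fr K A u) (fr K A v) p = (0, - K (crv A p.1 u.1 v.1) p.2 + K (A p.1 u.1) v.2 -
      K (A p.1 v.1) u.2) := by
  have hA := cd_diff h.As.self_of_nhds
  simp only [lieB]
  rw [hasFDerivAt_fr hA, hasFDerivAt_fr hA]
  have h1 := h.Kc (A p.1 u.1) (A p.1 v.1) p.2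
  ext
  · simp
  · simp only [fr, crv, map_sub, Prod.snd_sub, sub_apply]
    rw [h1]
    abel

/-- pairing of two frame fields -/
theorem pair_fr (h : Mod g C c D H K A G Γ p) (u v : B × N) :
    (fun q => G q (fr K A u q) (fr K A v q)) =ᶠ[𝓝 p]
      fun q => H q.2 * g q.1 u.1 v.1 + c q.2 u.2 v.2 := by
  filter_upwards [h.hG] with q hq
  rw [hq]
  simp [fr]

theorem fderiv_pair_fr (h : Mod g C c D H K A G Γ p) (u v w : B × N) :
    fderiv ℝ (fun q => G q (fr K A u q) (fr K A v q)) p (fr K A w p) =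
      fderiv ℝ H p.2 w.2 * g p.1 u.1 v.1 + H p.2 * fderiv ℝ g p.1 w.1 u.1 v.1 +
      fderiv ℝ c p.2 w.2 u.2 v.2 + c p.2 (K (A p.1 w.1) u.2) v.2 +
      c p.2 u.2 (K (A p.1 w.1) v.2) := by
  have hH := cd_diff h.Hs.self_of_nhds
  have hg := cd_diff h.lcg.gs
  have hc := cd_diff h.lcc.gs
  have h1 : HasFDerivAt (fun q : B × N => H q.2) ((fderiv ℝ H p.2).comp (snd ℝ B N)) p :=
    hH.hasFDerivAt.comp p hasFDerivAt_snd
  have h2 : HasFDerivAt (fun q : B × N => g q.1) ((fderiv ℝ g p.1).comp (fst ℝ B N)) p :=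
    hg.hasFDerivAt.comp p hasFDerivAt_fst
  have h3 : HasFDerivAt (fun q : B × N => c q.2) ((fderiv ℝ c p.2).comp (snd ℝ B N)) p :=
    hc.hasFDerivAt.comp p hasFDerivAt_snd
  have h4 := (h2.clm_apply (hasFDerivAt_const u.1 p)).clm_apply (hasFDerivAt_const v.1 p)
  have h5 := (h3.clm_apply (hasFDerivAt_const u.2 p)).clm_apply (hasFDerivAt_const v.2 p)
  have h6 := (h1.mul h4).add h5
  rw [(pair_fr h u v).fderiv_eq]
  have h7 : fderiv ℝ (fun q : B × N => H q.2 * g q.1 u.1 v.1 + c q.2 u.2 v.2) p = _ := h6.fderiv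
  rw [h7]
  have hi := h.Hinv.self_of_nhds (A p.1 w.1)
  have hj := h.cinv.self_of_nhds (A p.1 w.1) u.2 v.2
  simp only [fr]
  simp [hi, hj]
  ring

/-- the connection in the frame -/
theorem om (h : Mod g C c D H K A G Γ p) (u v w : B × N) :
    G p (nab Γ (fr K A u) (fr K A v) p) (fr K A w p) =
      (1 / 2) * (fderiv ℝ H p.2 u.2 * g p.1 v.1 w.1 + fderiv ℝ H p.2 v.2 * g p.1 u.1 w.1 -
        fderiv ℝ H p.2 w.2 * g p.1 u.1 v.1) + H p.2 * g p.1 (C p.1 u.1 v.1) w.1 +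
      c p.2 (D p.2 u.2 v.2) w.2 + c p.2 (K (A p.1 u.1) v.2) w.2 -
      (1 / 2) * c p.2 (K (crv A p.1 u.1 v.1) p.2) w.2 +
      (1 / 2) * c p.2 (K (crv A p.1 u.1 w.1) p.2) v.2 +
      (1 / 2) * c p.2 (K (crv A p.1 v.1 w.1) p.2) u.2 := by
  have hA := h.As.self_of_nhds
  have h1 := h.lcG.koszul (cd_fr (K := K) hA u) (cd_fr (K := K) hA v)
    (cd_fr (K := K) hA w)
  rw [fderiv_pair_fr h v w u, fderiv_pair_fr h u w v, fderiv_pair_fr h u v w,
    lieB_fr h, lieB_fr h, lieB_fr h] at h1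
  have hGp := h.hG.self_of_nhds
  rw [hGp (0, _) (fr K A w p), hGp (0, _) (fr K A v p), hGp (0, _) (fr K A u p)] at h1
  have e : ∀ z : B × N, (fr K A z p).2 + K (A p.1 (fr K A z p).1) p.2 = z.2 := by
    intro z
    simp [fr]
  rw [e, e, e] at h1
  simp only [map_zero, zero_apply, mul_zero, zero_add, add_zero, map_add, map_sub, map_neg,
    add_apply, sub_apply, neg_apply] at h1
  have m1 := h.lcg.met.self_of_nhds
  have m2 := h.lcc.met.self_of_nhds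
  have s1 := h.lcg.symm.self_of_nhds
  have s2 := h.lcc.symm.self_of_nhds
  have t1 := h.lcg.tor.self_of_nhds
  have t2 := h.lcc.tor.self_of_nhds
  rw [m1, m1, m1, m2, m2, m2] at h1
  rw [t1 v.1 u.1, t1 w.1 u.1, t1 w.1 v.1, t2 v.2 u.2, t2 w.2 u.2, t2 w.2 v.2] at h1
  rw [s1 v.1 (C p.1 u.1 w.1), s1 u.1 (C p.1 v.1 w.1), s2 v.2 (D p.2 u.2 w.2),
    s2 u.2 (D p.2 v.2 w.2), s2 v.2 (K (A p.1 u.1) w.2), s2 u.2 (K (A p.1 v.1) w.2),
    s2 u.2 (K (A p.1 w.1) v.2)] at h1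
  linear_combination (1 / 2) * h1

end Pool.Agent.H21_anco
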