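import Pool.Agent.H21_anco.Model

/-!
The curvature of the local model at a point where the connection form vanishes.
-/

open scoped ContDiff Topology
open Filter ContinuousLinearMap

set_option maxSynthPendingDepth 3

noncomputable section

namespace Pool.Agent.H21_anco

variable {B : Type*} [NormedAddCommGroup B] [NormedSpace ℝ B]
  {N : Type*} [NormedAddCommGroup N] [NormedSpace ℝ N]
  {T : Type*} [NormedAddCommGroup T] [NormedSpace ℝ T]
  {g : B → B →L[ℝ] B →L[ℝ] ℝ} {C : B → B →L[ℝ] B →L[ℝ] B}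
    {c : N → N →L[ℝ] N →L[ℝ] ℝ} {D : N → N →L[ℝ] N →L[ℝ] N} {H : N → ℝ}
    {K : T →L[ℝ] N →L[ℝ] N} {A : B → B →L[ℝ] T}
    {G : B × N → (B × N) →L[ℝ] (B × N) →L[ℝ] ℝ}
    {Γ : B × N → (B × N) →L[ℝ] (B × N) →L[ℝ] (B × N)} {p : B × N}

/-- covariant derivative of the one-form `c(K ξ n, ·)` -/
def nk (c : N → N →L[ℝ] N →L[ℝ] ℝ) (D : N → N →L[ℝ] N →L[ℝ] N) (K : T →L[ℝ] N →L[ℝ] N) (n : N)
    (ξ : T) (γ η : N) : ℝ := c n (K ξ γ + D n γ (K ξ n)) η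

/-- covariant Hessian of a function on the fibre -/
def hs (D : N → N →L[ℝ] N →L[ℝ] N) (H : N → ℝ) (n γ η : N) : ℝ :=
  fderiv ℝ (fderiv ℝ H) n γ η - fderiv ℝ H n (D n γ η)

/-- derivative of the curvature of the connection -/
def dcrv (A : B → B →L[ℝ] T) (x a b e : B) : T := fderiv ℝ (fun y => crv A y b e) x a

theorem cd_crv {x : B} (hA : ContDiffAt ℝ ∞ A x) (a b : B) :
    ContDiffAt ℝ ∞ (fun y => crv A y a b) x := by
  have h1 : ContDiffAt ℝ ∞ (fderiv ℝ A) x := hA.fderiv_right (by simp)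
  exact ((h1.clm_apply contDiffAt_const).clm_apply contDiffAt_const).sub
    ((h1.clm_apply contDiffAt_const).clm_apply contDiffAt_const)

theorem hasFDerivAt_kap (h : Mod g C c D H K A G Γ p) (a b : B) (γ : N) (u : B × N) :
    ∃ L : (B × N) →L[ℝ] ℝ,
      HasFDerivAt (fun q : B × N => c q.2 (K (crv A q.1 a b) q.2) γ) L p ∧
      L u = c p.2 (K (dcrv A p.1 u.1 a b) p.2) γ + nk c D K p.2 (crv A p.1 a b) u.2 γ +
        c p.2 (K (crv A p.1 a b) p.2) (D p.2 u.2 γ) := by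
  have hc := cd_diff h.lcc.gs
  have h1 : HasFDerivAt (fun q : B × N => c q.2) ((fderiv ℝ c p.2).comp (snd ℝ B N)) p :=
    hc.hasFDerivAt.comp p hasFDerivAt_snd
  have h2 : HasFDerivAt (fun q : B × N => crv A q.1 a b)
      ((fderiv ℝ (fun y => crv A y a b) p.1).comp (fst ℝ B N)) p :=
    (cd_diff (cd_crv h.As.self_of_nhds a b)).hasFDerivAt.comp p hasFDerivAt_fst
  have h3 := (K.hasFDerivAt.comp p h2).clm_apply (hasFDerivAt_snd (p := p))
  have h4 := (h1.clm_apply h3).clm_apply (hasFDerivAt_const γ p)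
  refine ⟨_, h4, ?_⟩
  have m2 := h.lcc.met.self_of_nhds
  simp [m2, nk, dcrv]
  ring

/-- derivative of the connection coefficients in the frame -/
theorem fderiv_om (h : Mod g C c D H K A G Γ p) (hA0 : A p.1 = 0) (u v w z : B × N) :
    fderiv ℝ (fun q => G q (nab Γ (fr K A v) (fr K A w) q) (fr K A z q)) p u =
      (1 / 2) * (fderiv ℝ (fderiv ℝ H) p.2 u.2 v.2 * g p.1 w.1 z.1 +
        fderiv ℝ H p.2 v.2 * fderiv ℝ g p.1 u.1 w.1 z.1 +
        fderiv ℝ (fderiv ℝ H) p.2 u.2 w.2 * g p.1 v.1 z.1 +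
        fderiv ℝ H p.2 w.2 * fderiv ℝ g p.1 u.1 v.1 z.1 -
        fderiv ℝ (fderiv ℝ H) p.2 u.2 z.2 * g p.1 v.1 w.1 -
        fderiv ℝ H p.2 z.2 * fderiv ℝ g p.1 u.1 v.1 w.1) +
      fderiv ℝ H p.2 u.2 * g p.1 (C p.1 v.1 w.1) z.1 +
      H p.2 * fderiv ℝ (fun x => g x (C x v.1 w.1) z.1) p.1 u.1 +
      fderiv ℝ (fun n => c n (D n v.2 w.2) z.2) p.2 u.2 +
      c p.2 (K (fderiv ℝ A p.1 u.1 v.1) w.2) z.2 -
      (1 / 2) * (c p.2 (K (dcrv A p.1 u.1 v.1 w.1) p.2) z.2 +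
        nk c D K p.2 (crv A p.1 v.1 w.1) u.2 z.2 +
        c p.2 (K (crv A p.1 v.1 w.1) p.2) (D p.2 u.2 z.2)) +
      (1 / 2) * (c p.2 (K (dcrv A p.1 u.1 v.1 z.1) p.2) w.2 +
        nk c D K p.2 (crv A p.1 v.1 z.1) u.2 w.2 +
        c p.2 (K (crv A p.1 v.1 z.1) p.2) (D p.2 u.2 w.2)) +
      (1 / 2) * (c p.2 (K (dcrv A p.1 u.1 w.1 z.1) p.2) v.2 +
        nk c D K p.2 (crv A p.1 w.1 z.1) u.2 v.2 +
        c p.2 (K (crv A p.1 w.1 z.1) p.2) (D p.2 u.2 v.2)) := by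
  have hH := cd_diff h.Hs.self_of_nhds
  have hdH : DifferentiableAt ℝ (fderiv ℝ H) p.2 :=
    cd_diff (h.Hs.self_of_nhds.fderiv_right (m := ∞) (by simp))
  have hg := cd_diff h.lcg.gs
  have hc := cd_diff h.lcc.gs
  have k1 : HasFDerivAt (fun q : B × N => H q.2) ((fderiv ℝ H p.2).comp (snd ℝ B N)) p :=
    hH.hasFDerivAt.comp p hasFDerivAt_snd
  have k1d : HasFDerivAt (fun q : B × N => fderiv ℝ H q.2)
      ((fderiv ℝ (fderiv ℝ H) p.2).comp (snd ℝ B N)) p :=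
    hdH.hasFDerivAt.comp p hasFDerivAt_snd
  have k2 : HasFDerivAt (fun q : B × N => g q.1) ((fderiv ℝ g p.1).comp (fst ℝ B N)) p :=
    hg.hasFDerivAt.comp p hasFDerivAt_fst
  have k3 : HasFDerivAt (fun q : B × N => c q.2) ((fderiv ℝ c p.2).comp (snd ℝ B N)) p :=
    hc.hasFDerivAt.comp p hasFDerivAt_snd
  have kA : HasFDerivAt (fun q : B × N => A q.1) ((fderiv ℝ A p.1).comp (fst ℝ B N)) p :=
    (cd_diff h.As.self_of_nhds).hasFDerivAt.comp p hasFDerivAt_fst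
  have kg : ∀ a b : B, HasFDerivAt (fun q : B × N => g q.1 a b) _ p := fun a b =>
    (k2.clm_apply (hasFDerivAt_const a p)).clm_apply (hasFDerivAt_const b p)
  have kh : ∀ γ : N, HasFDerivAt (fun q : B × N => fderiv ℝ H q.2 γ) _ p := fun γ =>
    k1d.clm_apply (hasFDerivAt_const γ p)
  have kC : HasFDerivAt (fun q : B × N => g q.1 (C q.1 v.1 w.1) z.1)
      ((fderiv ℝ (fun x => g x (C x v.1 w.1) z.1) p.1).comp (fst ℝ B N)) p :=
    (cd_diff ((h.lcg.gs.clm_apply ((h.lcg.cs.clm_apply contDiffAt_const).clm_apply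
      contDiffAt_const)).clm_apply contDiffAt_const)).hasFDerivAt.comp p hasFDerivAt_fst
  have kD : HasFDerivAt (fun q : B × N => c q.2 (D q.2 v.2 w.2) z.2)
      ((fderiv ℝ (fun n => c n (D n v.2 w.2) z.2) p.2).comp (snd ℝ B N)) p :=
    (cd_diff ((h.lcc.gs.clm_apply ((h.lcc.cs.clm_apply contDiffAt_const).clm_apply
      contDiffAt_const)).clm_apply contDiffAt_const)).hasFDerivAt.comp p hasFDerivAt_snd
  have kK := (k3.clm_apply ((K.hasFDerivAt.comp p (kA.clm_apply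
    (hasFDerivAt_const v.1 p))).clm_apply (hasFDerivAt_const w.2 p))).clm_apply
    (hasFDerivAt_const z.2 p)
  obtain ⟨L1, l1, e1⟩ := hasFDerivAt_kap h v.1 w.1 z.2 u
  obtain ⟨L2, l2, e2⟩ := hasFDerivAt_kap h v.1 z.1 w.2 u
  obtain ⟨L3, l3, e3⟩ := hasFDerivAt_kap h w.1 z.1 v.2 u
  have ev : (fun q => G q (nab Γ (fr K A v) (fr K A w) q) (fr K A z q)) =ᶠ[𝓝 p]
      fun q => (1 / 2) * (fderiv ℝ H q.2 v.2 * g q.1 w.1 z.1 +
        fderiv ℝ H q.2 w.2 * g q.1 v.1 z.1 - fderiv ℝ H q.2 z.2 * g q.1 v.1 w.1) +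
      H q.2 * g q.1 (C q.1 v.1 w.1) z.1 +
      c q.2 (D q.2 v.2 w.2) z.2 + c q.2 (K (A q.1 v.1) w.2) z.2 -
      (1 / 2) * c q.2 (K (crv A q.1 v.1 w.1) q.2) z.2 +
      (1 / 2) * c q.2 (K (crv A q.1 v.1 z.1) q.2) w.2 +
      (1 / 2) * c q.2 (K (crv A q.1 w.1 z.1) q.2) v.2 := by
    filter_upwards [h.eventually] with q hq using om hq v w z
  rw [ev.fderiv_eq]
  have tot := (((((((((((kh v.2).mul (kg w.1 z.1)).add ((kh w.2).mul (kg v.1 z.1))).sub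
    ((kh z.2).mul (kg v.1 w.1))).const_mul (1 / 2 : ℝ)).add (k1.mul kC)).add kD).add kK).sub
    (l1.const_mul (1 / 2 : ℝ))).add (l2.const_mul (1 / 2 : ℝ))).add
    (l3.const_mul (1 / 2 : ℝ)))
  refine (congrArg (fun L : (B × N) →L[ℝ] ℝ => L u) tot.fderiv).trans ?_
  simp only [add_apply, sub_apply, smul_apply, ContinuousLinearMap.comp_apply,
    smul_eq_mul, e1, e2, e3, flip_apply, coe_fst', coe_snd', hA0, zero_apply, map_zero,
    Function.comp_apply]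
  simp
  ring

end Pool.Agent.H21_anco
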