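import Pool.Agent.H21_anco.Model2

/-!
The six types of components of the curvature tensor of the local model.
-/

open scoped ContDiff Topology
open Filter ContinuousLinearMap

set_option maxSynthPendingDepth 3

noncomputable section

namespace Pool.Agent.H21_anco

variable {B : Type*} [NormedAddCommGroup B] [NormedSpace ℝ B]
  {N : Type*} [NormedAddCommGroup N] [NormedSpace ℝ N]
  {T : Type*} [NormedAddCommGroup T] [NormedSpace ℝ T]
  {g : B → B →L[ℝ] B →L[ℝ] ℝ} {C : B → B →L[ℝ] B →L[ℝ] B}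
    {c : N → N →L[ℝ] N →L[ℝ] ℝ} {D : N → N →L[ℝ] N →L[ℝ] N} {H : N → ℝ}
    {K : T →L[ℝ] N →L[ℝ] N} {A : B → B →L[ℝ] T}
    {G : B × N → (B × N) →L[ℝ] (B × N) →L[ℝ] ℝ}
    {Γ : B × N → (B × N) →L[ℝ] (B × N) →L[ℝ] (B × N)} {p : B × N}

theorem fr_at (hA0 : A p.1 = 0) (u : B × N) : fr K A u p = u := by
  simp [fr, hA0]

theorem G_at (h : Mod g C c D H K A G Γ p) (hA0 : A p.1 = 0) (u v : B × N) :
    G p u v = H p.2 * g p.1 u.1 v.1 + c p.2 u.2 v.2 := by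
  rw [h.hG.self_of_nhds]
  simp [hA0]

/-- the covariant derivative of the frame -/
def nu (K : T →L[ℝ] N →L[ℝ] N) (A : B → B →L[ℝ] T)
    (Γ : B × N → (B × N) →L[ℝ] (B × N) →L[ℝ] (B × N)) (p u v : B × N) : B × N :=
  nab Γ (fr K A u) (fr K A v) p

theorem nu_pair (h : Mod g C c D H K A G Γ p) (hA0 : A p.1 = 0) (u v w : B × N) :
    G p (nu K A Γ p u v) w =
      (1 / 2) * (fderiv ℝ H p.2 u.2 * g p.1 v.1 w.1 + fderiv ℝ H p.2 v.2 * g p.1 u.1 w.1 -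
        fderiv ℝ H p.2 w.2 * g p.1 u.1 v.1) + H p.2 * g p.1 (C p.1 u.1 v.1) w.1 +
      c p.2 (D p.2 u.2 v.2) w.2 -
      (1 / 2) * c p.2 (K (crv A p.1 u.1 v.1) p.2) w.2 +
      (1 / 2) * c p.2 (K (crv A p.1 u.1 w.1) p.2) v.2 +
      (1 / 2) * c p.2 (K (crv A p.1 v.1 w.1) p.2) u.2 := by
  have h1 := om h u v w
  rw [fr_at hA0 w] at h1
  rw [nu, h1]
  simp [hA0]

theorem riem_fr (h : Mod g C c D H K A G Γ p) (hA0 : A p.1 = 0) (u v w z : B × N) :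
    G p (riem Γ p u v w) z =
      fderiv ℝ (fun q => G q (nab Γ (fr K A v) (fr K A w) q) (fr K A z q)) p u -
      fderiv ℝ (fun q => G q (nab Γ (fr K A u) (fr K A w) q) (fr K A z q)) p v -
      G p (nu K A Γ p v w) (nu K A Γ p u z) + G p (nu K A Γ p u w) (nu K A Γ p v z) -
      G p (nu K A Γ p (0, - K (crv A p.1 u.1 v.1) p.2) w) z := by
  have hA := h.As.self_of_nhds
  have h1 := h.lcG.riem_eq (cd_fr (K := K) hA u) (cd_fr (K := K) hA v)
    (cd_fr (K := K) hA w) (cd_fr (K := K) hA z)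
  rw [fr_at hA0, fr_at hA0, fr_at hA0, fr_at hA0] at h1
  rw [h1]
  have e : nab Γ (lieB (fr K A u) (fr K A v)) (fr K A w) p =
      nu K A Γ p (0, - K (crv A p.1 u.1 v.1) p.2) w := by
    have h2 := lieB_fr h u v
    rw [hA0] at h2
    simp only [nu, nab]
    rw [h2, fr_at hA0 (0, _)]
    simp
  rw [e]
  rfl

@[simp] theorem crv_z1 (A : B → B →L[ℝ] T) (x b : B) : crv A x 0 b = 0 := by
  simp [crv]

@[simp] theorem crv_z2 (A : B → B →L[ℝ] T) (x b : B) : crv A x b 0 = 0 := by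
  simp [crv]

@[simp] theorem dcrv_z1 (A : B → B →L[ℝ] T) (x b e : B) : dcrv A x 0 b e = 0 := by
  simp [dcrv]

@[simp] theorem dcrv_z2 (A : B → B →L[ℝ] T) (x b e : B) : dcrv A x b 0 e = 0 := by
  simp [dcrv]

@[simp] theorem dcrv_z3 (A : B → B →L[ℝ] T) (x b e : B) : dcrv A x b e 0 = 0 := by
  simp [dcrv]

@[simp] theorem nk_z1 (n : N) (γ η : N) : nk c D K n 0 γ η = 0 := by
  simp [nk]

@[simp] theorem nk_z2 (n : N) (ξ : T) (η : N) : nk c D K n ξ 0 η = 0 := by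
  simp [nk]

@[simp] theorem nk_z3 (n : N) (ξ : T) (η : N) : nk c D K n ξ η 0 = 0 := by
  simp [nk]

theorem nuFF (h : Mod g C c D H K A G Γ p) (hA0 : A p.1 = 0) (x y : N) (Y : B × N) :
    G p (nu K A Γ p (0, x) (0, y)) Y = c p.2 (D p.2 x y) Y.2 := by
  rw [nu_pair h hA0]
  simp

theorem nuBF (h : Mod g C c D H K A G Γ p) (hA0 : A p.1 = 0) (a : B) (e : N) (Y : B × N) :
    G p (nu K A Γ p (a, 0) (0, e)) Y =
      (1 / 2) * (fderiv ℝ H p.2 e * g p.1 a Y.1 + c p.2 (K (crv A p.1 a Y.1) p.2) e) := by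
  rw [nu_pair h hA0]
  simp
  ring

theorem nuFBp (h : Mod g C c D H K A G Γ p) (hA0 : A p.1 = 0) (a : B) (e : N) (Y : B × N) :
    G p (nu K A Γ p (0, e) (a, 0)) Y =
      (1 / 2) * (fderiv ℝ H p.2 e * g p.1 a Y.1 + c p.2 (K (crv A p.1 a Y.1) p.2) e) := by
  rw [nu_pair h hA0]
  simp
  ring

theorem nuBBp (h : Mod g C c D H K A G Γ p) (hA0 : A p.1 = 0) (x y : B) (Y : B × N) :
    G p (nu K A Γ p (x, 0) (y, 0)) Y = H p.2 * g p.1 (C p.1 x y) Y.1 -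
      (1 / 2) * fderiv ℝ H p.2 Y.2 * g p.1 x y -
      (1 / 2) * c p.2 (K (crv A p.1 x y) p.2) Y.2 := by
  rw [nu_pair h hA0]
  simp
  ring

/-- base component of the mixed covariant derivative -/
theorem nuFB1 (h : Mod g C c D H K A G Γ p) (hA0 : A p.1 = 0) (x : N) (y Y : B) :
    H p.2 * g p.1 (nu K A Γ p (0, x) (y, 0)).1 Y =
      (1 / 2) * (fderiv ℝ H p.2 x * g p.1 y Y + c p.2 (K (crv A p.1 y Y) p.2) x) := by
  have h3 := nuFBp h hA0 y x (Y, 0)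
  rw [G_at h hA0] at h3
  simpa using h3

theorem nuFB2 (h : Mod g C c D H K A G Γ p) (hA0 : A p.1 = 0) (x : N) (y : B) (Y : N) :
    c p.2 (nu K A Γ p (0, x) (y, 0)).2 Y = 0 := by
  have h3 := nuFBp h hA0 y x (0, Y)
  rw [G_at h hA0] at h3
  simpa using h3

/-- fibre component of the covariant derivative of base fields -/
theorem nuBB2 (h : Mod g C c D H K A G Γ p) (hA0 : A p.1 = 0) (x y : B) (η : N) :
    c p.2 (nu K A Γ p (x, 0) (y, 0)).2 η = - (1 / 2) * fderiv ℝ H p.2 η *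
      g p.1 x y - (1 / 2) * c p.2 (K (crv A p.1 x y) p.2) η := by
  have h3 := nuBBp h hA0 x y (0, η)
  rw [G_at h hA0] at h3
  simp only [map_zero, mul_zero, zero_add, zero_sub] at h3
  linarith

theorem nuBB1 (h : Mod g C c D H K A G Γ p) (hA0 : A p.1 = 0) (x y Y : B) :
    H p.2 * g p.1 (nu K A Γ p (x, 0) (y, 0)).1 Y = H p.2 * g p.1 (C p.1 x y) Y := by
  have h3 := nuBBp h hA0 x y (Y, 0)
  rw [G_at h hA0] at h3
  simpa using h3

theorem nuBF2 (h : Mod g C c D H K A G Γ p) (hA0 : A p.1 = 0) (x : N) (y : B) (Y : N) :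
    c p.2 (nu K A Γ p (y, 0) (0, x)).2 Y = 0 := by
  have h3 := nuBF h hA0 y x (0, Y)
  rw [G_at h hA0] at h3
  simpa using h3

theorem nuBF1 (h : Mod g C c D H K A G Γ p) (hA0 : A p.1 = 0) (x : N) (y Y : B) :
    H p.2 * g p.1 (nu K A Γ p (y, 0) (0, x)).1 Y =
      (1 / 2) * (fderiv ℝ H p.2 x * g p.1 y Y + c p.2 (K (crv A p.1 y Y) p.2) x) := by
  have h3 := nuBF h hA0 y x (Y, 0)
  rw [G_at h hA0] at h3
  simpa using h3

/-- type fibre-fibre-fibre-fibre -/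
theorem riem_FFFF (h : Mod g C c D H K A G Γ p) (hA0 : A p.1 = 0) (a b e f : N) :
    G p (riem Γ p (0, a) (0, b) (0, e)) (0, f) = c p.2 (riem D p.2 a b e) f := by
  rw [riem_fr h hA0, fderiv_om h hA0, fderiv_om h hA0, h.lcc.riem_const]
  have s2 := h.lcc.symm.self_of_nhds
  have k2 : ∀ x y z w : N, G p (nu K A Γ p (0, x) (0, y)) (nu K A Γ p (0, z) (0, w)) =
      c p.2 (D p.2 x y) (D p.2 z w) := by
    intro x y z w
    have h3 := nuFF h hA0 z w (0, D p.2 x y)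
    rw [G_at h hA0] at h3
    simp only [map_zero, mul_zero, zero_add] at h3
    rw [nuFF h hA0, s2 _ (nu K A Γ p (0, z) (0, w)).2, h3, s2]
  rw [k2, k2, nuFF h hA0]
  simp

/-- type fibre-fibre-fibre-base -/
theorem riem_FFFB (h : Mod g C c D H K A G Γ p) (hA0 : A p.1 = 0) (a b e : N) (f : B) :
    G p (riem Γ p (0, a) (0, b) (0, e)) (f, 0) = 0 := by
  rw [riem_fr h hA0, fderiv_om h hA0, fderiv_om h hA0]
  have s2 := h.lcc.symm.self_of_nhds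
  have k2 : ∀ x : N, ∀ y : B, ∀ η : N, c p.2 η (nu K A Γ p (0, x) (y, 0)).2 = 0 := by
    intro x y η
    rw [s2, nuFB2 h hA0]
  rw [nuFF h hA0, nuFF h hA0, nuFF h hA0, k2, k2]
  simp

/-- type fibre-fibre-base-base -/
theorem riem_FFBB (h : Mod g C c D H K A G Γ p) (hA0 : A p.1 = 0) (a b : N) (e f : B) :
    G p (riem Γ p (0, a) (0, b) (e, 0)) (f, 0) =
      (1 / 2) * (nk c D K p.2 (crv A p.1 e f) a b - nk c D K p.2 (crv A p.1 e f) b a) -
      H p.2 * g p.1 (nu K A Γ p (0, b) (e, 0)).1 (nu K A Γ p (0, a) (f, 0)).1 +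
      H p.2 * g p.1 (nu K A Γ p (0, a) (e, 0)).1 (nu K A Γ p (0, b) (f, 0)).1 := by
  rw [riem_fr h hA0, fderiv_om h hA0, fderiv_om h hA0]
  have hH : ContDiffAt ℝ ∞ H p.2 := h.Hs.self_of_nhds
  have k3 := snd_symm hH a b
  rw [G_at h hA0, G_at h hA0 (nu K A Γ p (0, a) (e, 0)), nuFB2 h hA0, nuFB2 h hA0,
    nuFBp h hA0]
  have t2 := h.lcc.tor.self_of_nhds a b
  simp [k3, t2]
  ring

/-- type base-fibre-fibre-base -/
theorem riem_BFFB (h : Mod g C c D H K A G Γ p) (hA0 : A p.1 = 0) (a : B) (b e : N) (f : B) :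
    G p (riem Γ p (a, 0) (0, b) (0, e)) (f, 0) =
      - (1 / 2) * hs D H p.2 b e * g p.1 a f - (1 / 2) * nk c D K p.2 (crv A p.1 a f) b e +
      H p.2 * g p.1 (nu K A Γ p (0, e) (a, 0)).1 (nu K A Γ p (0, b) (f, 0)).1 := by
  rw [riem_fr h hA0, fderiv_om h hA0, fderiv_om h hA0]
  have s2 := h.lcc.symm.self_of_nhds
  have k3 : ∀ η : N, c p.2 η (nu K A Γ p (a, 0) (f, 0)).2 = - (1 / 2) * fderiv ℝ H p.2 η *
      g p.1 a f - (1 / 2) * c p.2 (K (crv A p.1 a f) p.2) η := by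
    intro η
    rw [s2, nuBB2 h hA0]
  rw [nuFF h hA0, nuFF h hA0, k3, nuBF h hA0, nuFB1 h hA0]
  simp [hs]
  ring

/-- type base-base-base-fibre -/
theorem riem_BBBF (h : Mod g C c D H K A G Γ p) (hA0 : A p.1 = 0) (a b e : B) (f : N) :
    G p (riem Γ p (a, 0) (b, 0) (e, 0)) (0, f) =
      - (1 / 2) * c p.2 (K (dcrv A p.1 a b e + crv A p.1 a (C p.1 b e) -
        dcrv A p.1 b a e - crv A p.1 b (C p.1 a e)) p.2) f := by
  rw [riem_fr h hA0, fderiv_om h hA0, fderiv_om h hA0]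
  have s2 := h.lcc.symm.self_of_nhds
  have s1 := h.lcg.symm.self_of_nhds
  have k4 : ∀ x y z : B, G p (nu K A Γ p (x, 0) (y, 0)) (nu K A Γ p (z, 0) (0, f)) =
      (1 / 2) * (fderiv ℝ H p.2 f * g p.1 z (C p.1 x y) +
        c p.2 (K (crv A p.1 z (C p.1 x y)) p.2) f) := by
    intro x y z
    rw [G_at h hA0, nuBB1 h hA0, s1, nuBF1 h hA0,
      s2 _ (nu K A Γ p (z, 0) (0, f)).2, nuBF2 h hA0, add_zero]
  rw [nuFBp h hA0, k4, k4]
  have m1 := h.lcg.met.self_of_nhds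
  have t1 := h.lcg.tor.self_of_nhds a b
  simp only [m1]
  rw [s1 (C p.1 a b) e, s1 (C p.1 b a) e, t1]
  simp
  ring

/-- type base-base-base-base -/
theorem riem_BBBB (h : Mod g C c D H K A G Γ p) (hA0 : A p.1 = 0) (a b e f : B) :
    G p (riem Γ p (a, 0) (b, 0) (e, 0)) (f, 0) =
      H p.2 * g p.1 (riem C p.1 a b e) f -
      c p.2 (nu K A Γ p (b, 0) (e, 0)).2 (nu K A Γ p (a, 0) (f, 0)).2 +
      c p.2 (nu K A Γ p (a, 0) (e, 0)).2 (nu K A Γ p (b, 0) (f, 0)).2 +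
      (1 / 2) * c p.2 (K (crv A p.1 e f) p.2) (K (crv A p.1 a b) p.2) := by
  rw [riem_fr h hA0, fderiv_om h hA0, fderiv_om h hA0, h.lcg.riem_const]
  have s1 := h.lcg.symm.self_of_nhds
  have k4 : ∀ x y z w : B, G p (nu K A Γ p (x, 0) (y, 0)) (nu K A Γ p (z, 0) (w, 0)) =
      H p.2 * g p.1 (C p.1 x y) (C p.1 z w) +
      c p.2 (nu K A Γ p (x, 0) (y, 0)).2 (nu K A Γ p (z, 0) (w, 0)).2 := by
    intro x y z w
    rw [G_at h hA0, nuBB1 h hA0, s1, nuBB1 h hA0, s1]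
  have k6 := h.Hinv.self_of_nhds (crv A p.1 a b)
  rw [nuFBp h hA0, k4, k4]
  simp [k6]
  ring

end Pool.Agent.H21_anco
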