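import Pool.Agent.H21_anco.Comp
import Pool.Agent.H21_anco.Main

/-!
The remainder of the curvature form of the local model is small.
-/

open scoped ContDiff Topology
open Filter ContinuousLinearMap

set_option maxSynthPendingDepth 3
set_option linter.unusedSimpArgs false
set_option linter.unusedSectionVars false

noncomputable section

namespace Pool.Agent.H21_anco

section onb

theorem exists_onb {V : Type*} [AddCommGroup V] [Module ℝ V] [FiniteDimensional ℝ V]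
    (b : V →ₗ[ℝ] V →ₗ[ℝ] ℝ) (hs : ∀ u v, b u v = b v u) (hp : ∀ u, u ≠ 0 → 0 < b u u) :
    ∃ f : Fin (Module.finrank ℝ V) → V, (∀ p q, b (f p) (f q) = if p = q then 1 else 0) ∧
      ∀ a, a = ∑ p, b (f p) a • f p := by
  let core : InnerProductSpace.Core ℝ V :=
    { inner := fun u v => b u v
      conj_inner_symm := fun u v => by simp [hs v u]
      re_inner_nonneg := fun u => by
        by_cases h : u = 0
        · simp [h]
        · simpa using (hp u h).le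
      add_left := fun u v w => by simp
      smul_left := fun u v r => by simp
      definite := fun u h => by
        by_contra hne
        exact (hp u hne).ne' h }
  let _ : NormedAddCommGroup V := core.toNormedAddCommGroup
  let _ : InnerProductSpace ℝ V := InnerProductSpace.ofCore core.toCore
  let o := stdOrthonormalBasis ℝ V
  refine ⟨o, ?_, ?_⟩
  · intro p q
    have := orthonormal_iff_ite.1 o.orthonormal p q
    exact this
  · intro a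
    exact (o.sum_repr' a).symm

end onb

variable {ι : Type*} [Fintype ι] [DecidableEq ι]
  {Y : Type*} [NormedAddCommGroup Y] [InnerProductSpace ℝ Y] [FiniteDimensional ℝ Y]

/-- radial component, linear version -/
def alL (e : ι → ℂ) (l : ι) : ((ι → ℂ) × Y) →L[ℝ] ℝ := (dt2 (e l)).comp (pj l)

/-- angular component, linear version -/
def beL (δ : ℝ) (n : (ι → ℂ) × Y) (e : ι → ℂ) (l : ι) : ((ι → ℂ) × Y) →L[ℝ] ℝ :=
  (δ / sg δ (n.1 l)) • (cr2 (e l)).comp (pj l)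

theorem alL_apply (e : ι → ℂ) (l : ι) (γ : (ι → ℂ) × Y) : alL e l γ = al e l γ := rfl

theorem al_zero (e : ι → ℂ) (l : ι) : al e l (0 : (ι → ℂ) × Y) = 0 := by
  simp [al]

theorem be_zero (δ : ℝ) (n : (ι → ℂ) × Y) (e : ι → ℂ) (l : ι) : be δ n e l 0 = 0 := by
  simp [be]

theorem beL_apply (δ : ℝ) (n : (ι → ℂ) × Y) (e : ι → ℂ) (l : ι) (γ : (ι → ℂ) × Y) :
    beL δ n e l γ = be δ n e l γ := rfl

variable {δ κ : ℝ} {n : (ι → ℂ) × Y} {r : ι → ℝ} {e : ι → ℂ}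

theorem Pol.al_sq (h : Pol n r e) (hδ : 0 < δ) (l : ι) (γ : (ι → ℂ) × Y) :
    al e l γ ^ 2 ≤ cF δ n γ γ ∧ be δ n e l γ ^ 2 ≤ cF δ n γ γ := by
  rw [h.cF_eq hδ]
  have h1 : al e l γ * al e l γ + be δ n e l γ * be δ n e l γ ≤
      ∑ l, (al e l γ * al e l γ + be δ n e l γ * be δ n e l γ) :=
    Finset.single_le_sum (f := fun l => al e l γ * al e l γ + be δ n e l γ * be δ n e l γ)
      (fun i _ => add_nonneg (mul_self_nonneg _) (mul_self_nonneg _)) (Finset.mem_univ l)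
  have h2 : 0 ≤ inner ℝ γ.2 γ.2 := real_inner_self_nonneg
  constructor <;> nlinarith [sq_nonneg (al e l γ), sq_nonneg (be δ n e l γ)]

theorem cF_nonneg (hδ : 0 < δ) (γ : (ι → ℂ) × Y) : 0 ≤ cF δ n γ γ := by
  by_cases h : γ = 0
  · simp [h]
  · exact ((isMetric_cF hδ).pos n (Set.mem_univ n) γ h).le

theorem Pol.al_abs (h : Pol n r e) (hδ : 0 < δ) (l : ι) (γ : (ι → ℂ) × Y) :
    |al e l γ| ≤ Real.sqrt (cF δ n γ γ) := Real.abs_le_sqrt (h.al_sq hδ l γ).1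

theorem Pol.be_abs (h : Pol n r e) (hδ : 0 < δ) (l : ι) (γ : (ι → ℂ) × Y) :
    |be δ n e l γ| ≤ Real.sqrt (cF δ n γ γ) := Real.abs_le_sqrt (h.al_sq hδ l γ).2

theorem Pol.dm_abs (h : Pol n r e) (hδ : 0 < δ) (γ : (ι → ℂ) × Y) :
    |fderiv ℝ (mF δ) n γ| ≤ Fintype.card ι * Real.sqrt (cF δ n γ γ) := by
  rw [h.dm hδ]
  refine (Finset.abs_sum_le_sum_abs _ _).trans ?_
  have h1 : ∀ l ∈ (Finset.univ : Finset ι), |th δ n r l * al e l γ| ≤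
      Real.sqrt (cF δ n γ γ) := by
    intro l _
    rw [abs_mul, abs_of_nonneg (h.th_nonneg hδ l)]
    have a1 := h.th_le hδ l
    have a2 := h.th_nonneg hδ l
    have a3 := h.al_abs hδ l γ
    have a4 := abs_nonneg (al e l γ)
    nlinarith
  refine (Finset.sum_le_sum h1).trans ?_
  rw [Finset.sum_const, Finset.card_univ, nsmul_eq_mul]

theorem HF_pos : 0 < HF κ δ n := Real.exp_pos _

theorem Pol.dH_abs (h : Pol n r e) (hδ : 0 < δ) (hκ : 0 ≤ κ) (γ : (ι → ℂ) × Y) :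
    |fderiv ℝ (HF κ δ) n γ| ≤
      2 * κ * δ * HF κ δ n * (Fintype.card ι * Real.sqrt (cF δ n γ γ)) := by
  rw [fderiv_HF hδ, abs_mul, abs_mul, abs_neg, abs_of_nonneg (by positivity : 0 ≤ 2 * κ * δ),
    abs_of_pos HF_pos]
  have h2 := HF_pos (κ := κ) (δ := δ) (n := n)
  exact mul_le_mul_of_nonneg_left (h.dm_abs hδ γ) (by positivity)

theorem Pol.rot_abs (h : Pol n r e) (hδ : 0 < δ) (γ : (ι → ℂ) × Y) (ξ : ι → ℝ) (c : ℝ)
    (hξ : ∀ l, |ξ l| ≤ c) :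
    |cF δ n (KF ξ n) γ| ≤ δ * (Fintype.card ι * c * Real.sqrt (cF δ n γ γ)) := by
  rw [h.rot hδ]
  refine (Finset.abs_sum_le_sum_abs _ _).trans ?_
  have h1 : ∀ l ∈ (Finset.univ : Finset ι), |ξ l * (δ * th δ n r l * be δ n e l γ)| ≤
      δ * (c * Real.sqrt (cF δ n γ γ)) := by
    intro l _
    rw [abs_mul, abs_mul, abs_mul, abs_of_nonneg (h.th_nonneg hδ l), abs_of_pos hδ]
    have a1 := h.th_le hδ l
    have a2 := h.th_nonneg hδ l
    have a3 := h.be_abs hδ l γ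
    have a4 := abs_nonneg (be δ n e l γ)
    have a5 := hξ l
    have a6 := abs_nonneg (ξ l)
    have a7 : th δ n r l * |be δ n e l γ| ≤ Real.sqrt (cF δ n γ γ) := by nlinarith
    have a8 : |ξ l| * (th δ n r l * |be δ n e l γ|) ≤ c * Real.sqrt (cF δ n γ γ) :=
      mul_le_mul a5 a7 (by positivity) (a6.trans a5)
    calc |ξ l| * (δ * th δ n r l * |be δ n e l γ|) =
        δ * (|ξ l| * (th δ n r l * |be δ n e l γ|)) := by ring
      _ ≤ _ := mul_le_mul_of_nonneg_left a8 hδ.le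
  refine (Finset.sum_le_sum h1).trans ?_
  rw [Finset.sum_const, Finset.card_univ, nsmul_eq_mul]
  apply le_of_eq
  ring

theorem abs_bil {V : Type*} [NormedAddCommGroup V] [NormedSpace ℝ V] (b : V →L[ℝ] V →L[ℝ] ℝ)
    (hs : ∀ u v, b u v = b v u) (hp : ∀ u, 0 ≤ b u u) (u v : V) :
    |b u v| ≤ Real.sqrt (b u u) * Real.sqrt (b v v) := by
  rw [← Real.sqrt_mul (hp u)]
  exact Real.abs_le_sqrt (cs_pos b hs hp u v)

section point

variable {B : Type*} [NormedAddCommGroup B] [NormedSpace ℝ B]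
  {g : B → B →L[ℝ] B →L[ℝ] ℝ} {C : B → B →L[ℝ] B →L[ℝ] B} {A : B → B →L[ℝ] (ι → ℝ)}
  {G : B × ((ι → ℂ) × Y) → (B × ((ι → ℂ) × Y)) →L[ℝ] (B × ((ι → ℂ) × Y)) →L[ℝ] ℝ}
  {Γ : B × ((ι → ℂ) × Y) → (B × ((ι → ℂ) × Y)) →L[ℝ] (B × ((ι → ℂ) × Y)) →L[ℝ]
    (B × ((ι → ℂ) × Y))}
  {p : B × ((ι → ℂ) × Y)}

/-- the `l`-th curvature form of the connection -/
def crvL (A : B → B →L[ℝ] (ι → ℝ)) (x : B) (l : ι) : B →L[ℝ] B →L[ℝ] ℝ :=
  (compL ℝ B (ι → ℝ) ℝ (ContinuousLinearMap.proj (R := ℝ) (φ := fun _ : ι => ℝ) l)).comp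
    (fderiv ℝ A x - (fderiv ℝ A x).flip)

theorem crvL_apply (A : B → B →L[ℝ] (ι → ℝ)) (x : B) (l : ι) (a b : B) :
    crvL A x l a b = crv A x a b l := by
  simp [crvL, crv]

theorem crvL_anti (A : B → B →L[ℝ] (ι → ℝ)) (x : B) (l : ι) (a b : B) :
    crvL A x l a b = - crvL A x l b a := by
  simp [crvL_apply, crv]

/-- bounds at the point -/
structure Bds (g : B → B →L[ℝ] B →L[ℝ] ℝ) (C : B → B →L[ℝ] B →L[ℝ] B)
    (A : B → B →L[ℝ] (ι → ℝ)) (Λ : ℝ) (x : B) : Prop where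
  nn : 0 ≤ Λ
  gs : ∀ a b, g x a b = g x b a
  gp : ∀ a, a ≠ 0 → 0 < g x a a
  fb : ∀ a b l, |crv A x a b l| ≤ Λ * (Real.sqrt (g x a a) * Real.sqrt (g x b b))
  xb : ∀ a b c l, |(dcrv A x a b c + crv A x a (C x b c) - dcrv A x b a c -
    crv A x b (C x a c)) l| ≤
      Λ * (Real.sqrt (g x a a) * Real.sqrt (g x b b) * Real.sqrt (g x c c))

theorem Bds.gnn {Λ : ℝ} {x : B} (h : Bds g C A Λ x) (a : B) : 0 ≤ g x a a := by
  by_cases h0 : a = 0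
  · simp [h0]
  · exact (h.gp a h0).le

/-- the base component of the mixed covariant derivative is small -/
theorem nuFB_small (h : Mod g C (cF δ) (DF δ) (HF κ δ) KF A G Γ p) (hA0 : A p.1 = 0)
    (hP : Pol p.2 r e) (hδ : 0 < δ) (hκ : 0 ≤ κ) {Λ : ℝ} (hB : Bds g C A Λ p.1)
    (hH : 1 / 4 ≤ HF κ δ p.2) (γ : (ι → ℂ) × Y) (a : B) :
    Real.sqrt (g p.1 (nu KF A Γ p (0, γ) (a, 0)).1 (nu KF A Γ p (0, γ) (a, 0)).1) ≤
      δ * (Fintype.card ι * (κ + 2 * Λ)) * (Real.sqrt (g p.1 a a) *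
        Real.sqrt (cF δ p.2 γ γ)) := by
  set t := (nu KF A Γ p (0, γ) (a, 0)).1 with ht
  set X := Real.sqrt (g p.1 t t) with hX
  set Aa := Real.sqrt (g p.1 a a) with hAa
  set Cc := Real.sqrt (cF δ p.2 γ γ) with hCc
  have hX0 : 0 ≤ X := Real.sqrt_nonneg _
  have hA1 : 0 ≤ Aa := Real.sqrt_nonneg _
  have hC1 : 0 ≤ Cc := Real.sqrt_nonneg _
  have hXX : X ^ 2 = g p.1 t t := Real.sq_sqrt (hB.gnn t)
  have e0 := nuFB1 h hA0 γ a t
  rw [← ht, ← hXX] at e0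
  have e1 : |g p.1 a t| ≤ Aa * X := abs_bil (g p.1) hB.gs hB.gnn a t
  have e2 := hP.dH_abs (κ := κ) hδ hκ γ
  have e3 := hP.rot_abs hδ γ (crv A p.1 a t) (Λ * (Aa * X)) (fun l => hB.fb a t l)
  set H := HF κ δ p.2 with hHdef
  rw [← hCc] at e2 e3
  have hHp : 0 < H := HF_pos
  set c0 : ℝ := (Fintype.card ι : ℝ) with hc0
  have hc1 : 0 ≤ c0 := Nat.cast_nonneg _
  have hΛ := hB.nn
  have e4 : fderiv ℝ (HF κ δ) p.2 γ * g p.1 a t ≤ (2 * κ * δ * H * (c0 * Cc)) * (Aa * X) :=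
    (le_abs_self _).trans (by rw [abs_mul]; exact mul_le_mul e2 e1 (abs_nonneg _) (by positivity))
  have e5 := (le_abs_self _).trans e3
  have e6 : H * X ^ 2 ≤ X * (δ * c0 * Aa * Cc * (κ * H + Λ / 2)) := by
    rw [e0]
    nlinarith
  have e7 : κ * H + Λ / 2 ≤ H * (κ + 2 * Λ) := by nlinarith
  have e8 : X * (δ * c0 * Aa * Cc * (κ * H + Λ / 2)) ≤
      X * (δ * c0 * Aa * Cc * (H * (κ + 2 * Λ))) := by gcongr
  have e9 : H * (X * X) ≤ H * (X * (δ * (c0 * (κ + 2 * Λ)) * (Aa * Cc))) := by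
    calc H * (X * X) = H * X ^ 2 := by ring
      _ ≤ _ := e6.trans e8
      _ = _ := by ring
  have e10 := le_of_mul_le_mul_left e9 hHp
  rcases hX0.eq_or_lt with h0 | h0
  · rw [← h0]
    positivity
  · exact le_of_mul_le_mul_left e10 h0

/-- the fibre component of the covariant derivative of base fields is small -/
theorem nuBB_small (h : Mod g C (cF δ) (DF δ) (HF κ δ) KF A G Γ p) (hA0 : A p.1 = 0)
    (hP : Pol p.2 r e) (hδ : 0 < δ) (hκ : 0 ≤ κ) {Λ : ℝ} (hB : Bds g C A Λ p.1)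
    (hH : HF κ δ p.2 ≤ 1) (a b : B) :
    Real.sqrt (cF δ p.2 (nu KF A Γ p (a, 0) (b, 0)).2 (nu KF A Γ p (a, 0) (b, 0)).2) ≤
      δ * (Fintype.card ι * (κ + 2 * Λ)) * (Real.sqrt (g p.1 a a) *
        Real.sqrt (g p.1 b b)) := by
  set t := (nu KF A Γ p (a, 0) (b, 0)).2 with ht
  set X := Real.sqrt (cF δ p.2 t t) with hX
  set Aa := Real.sqrt (g p.1 a a) with hAa
  set Cc := Real.sqrt (g p.1 b b) with hCc
  have hX0 : 0 ≤ X := Real.sqrt_nonneg _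
  have hA1 : 0 ≤ Aa := Real.sqrt_nonneg _
  have hC1 : 0 ≤ Cc := Real.sqrt_nonneg _
  have hXX : X ^ 2 = cF δ p.2 t t := Real.sq_sqrt (cF_nonneg hδ t)
  have e0 := nuBB2 h hA0 a b t
  rw [← ht, ← hXX] at e0
  have e1 : |g p.1 a b| ≤ Aa * Cc := abs_bil (g p.1) hB.gs hB.gnn a b
  have e2 := hP.dH_abs (κ := κ) hδ hκ t
  have e3 := hP.rot_abs hδ t (crv A p.1 a b) (Λ * (Aa * Cc)) (fun l => hB.fb a b l)
  set H := HF κ δ p.2 with hHdef
  rw [← hX] at e2 e3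
  have hHp : 0 < H := HF_pos
  set c0 : ℝ := (Fintype.card ι : ℝ) with hc0
  have hc1 : 0 ≤ c0 := Nat.cast_nonneg _
  have hΛ := hB.nn
  have e4 : - (fderiv ℝ (HF κ δ) p.2 t * g p.1 a b) ≤ (2 * κ * δ * H * (c0 * X)) * (Aa * Cc) :=
    (neg_le_abs _).trans (by rw [abs_mul]; exact mul_le_mul e2 e1 (abs_nonneg _) (by positivity))
  have e5 := (neg_le_abs _).trans e3
  have e6 : X * X ≤ X * (δ * c0 * Aa * Cc * (κ * H + Λ / 2)) := by
    nlinarith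
  have e7 : κ * H + Λ / 2 ≤ κ + 2 * Λ := by nlinarith
  have e8 : X * (δ * c0 * Aa * Cc * (κ * H + Λ / 2)) ≤
      X * (δ * c0 * Aa * Cc * (κ + 2 * Λ)) := by gcongr
  have e10 : X * X ≤ X * (δ * (c0 * (κ + 2 * Λ)) * (Aa * Cc)) := by
    calc X * X ≤ _ := e6.trans e8
      _ = _ := by ring
  rcases hX0.eq_or_lt with h0 | h0
  · rw [← h0]
    positivity
  · exact le_of_mul_le_mul_left e10 h0

/-- the curvature form of the model minus the main form -/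
def Sm (g : B → B →L[ℝ] B →L[ℝ] ℝ) (C : B → B →L[ℝ] B →L[ℝ] B) (A : B → B →L[ℝ] (ι → ℝ))
    (G : B × ((ι → ℂ) × Y) → (B × ((ι → ℂ) × Y)) →L[ℝ] (B × ((ι → ℂ) × Y)) →L[ℝ] ℝ)
    (Γ : B × ((ι → ℂ) × Y) → (B × ((ι → ℂ) × Y)) →L[ℝ] (B × ((ι → ℂ) × Y)) →L[ℝ]
      (B × ((ι → ℂ) × Y))) (δ κ : ℝ) (e : ι → ℂ)
    (p : B × ((ι → ℂ) × Y)) (u v w z : B × ((ι → ℂ) × Y)) : ℝ :=
  G p (riem Γ p u v w) z -
    Mn (g p.1) (crvL A p.1) (alL e) (beL δ p.2 e) (fun a b c d => g p.1 (riem C p.1 a b c) d)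
      (HF κ δ p.2) κ (fun l => tt δ p.2 l ^ 3) (fun l => 3 * δ ^ 2 / sg δ (p.2.1 l) ^ 4) u v w z

theorem Sm_FFFF (h : Mod g C (cF δ) (DF δ) (HF κ δ) KF A G Γ p) (hA0 : A p.1 = 0)
    (hP : Pol p.2 r e) (hδ : 0 < δ) (a b c d : (ι → ℂ) × Y) :
    Sm g C A G Γ δ κ e p (0, a) (0, b) (0, c) (0, d) = 0 := by
  rw [Sm, riem_FFFF h hA0, hP.riem_eq hδ, Mn]
  simp [Ml, md, vv, vl, alL_apply, beL_apply, riem]

theorem Sm_FFFB (h : Mod g C (cF δ) (DF δ) (HF κ δ) KF A G Γ p) (hA0 : A p.1 = 0)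
    (a b c : (ι → ℂ) × Y) (d : B) :
    Sm g C A G Γ δ κ e p (0, a) (0, b) (0, c) (d, 0) = 0 := by
  rw [Sm, riem_FFFB h hA0, Mn]
  simp [Ml, md, vv, riem]

theorem Sm_FFBB (h : Mod g C (cF δ) (DF δ) (HF κ δ) KF A G Γ p) (hA0 : A p.1 = 0)
    (hP : Pol p.2 r e) (hδ : 0 < δ) (a b : (ι → ℂ) × Y) (c d : B) :
    Sm g C A G Γ δ κ e p (0, a) (0, b) (c, 0) (d, 0) =
      - HF κ δ p.2 * g p.1 (nu KF A Γ p (0, b) (c, 0)).1 (nu KF A Γ p (0, a) (d, 0)).1 +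
      HF κ δ p.2 * g p.1 (nu KF A Γ p (0, a) (c, 0)).1 (nu KF A Γ p (0, b) (d, 0)).1 := by
  rw [Sm, riem_FFBB h hA0, hP.nk_eq hδ, hP.nk_eq hδ, Mn]
  have e1 : ∑ l, crv A p.1 c d l * (tt δ p.2 l ^ 3 * vl δ p.2 e l b a) =
      - ∑ l, crv A p.1 c d l * (tt δ p.2 l ^ 3 * vl δ p.2 e l a b) := by
    rw [← Finset.sum_neg_distrib]
    refine Finset.sum_congr rfl fun l _ => ?_
    rw [vl, vl]
    ring
  have e2 : ∑ l, Ml (g p.1) (crvL A p.1) (alL e) (beL δ p.2 e) (HF κ δ p.2) κ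
      (fun l => tt δ p.2 l ^ 3) (fun l => 3 * δ ^ 2 / sg δ (p.2.1 l) ^ 4) l (0, a) (0, b)
      (c, 0) (d, 0) = ∑ l, crv A p.1 c d l * (tt δ p.2 l ^ 3 * vl δ p.2 e l a b) := by
    refine Finset.sum_congr rfl fun l _ => ?_
    simp [Ml, md, vv, alL_apply, beL_apply, crvL_apply, vl]
    ring
  rw [e1, e2]
  simp [riem]
  ring

theorem Sm_BFFB (h : Mod g C (cF δ) (DF δ) (HF κ δ) KF A G Γ p) (hA0 : A p.1 = 0)
    (hP : Pol p.2 r e) (hδ : 0 < δ) (a : B) (b c : (ι → ℂ) × Y) (d : B) :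
    Sm g C A G Γ δ κ e p (a, 0) (0, b) (0, c) (d, 0) =
      - 2 * (κ * δ) ^ 2 * HF κ δ p.2 * fderiv ℝ (mF δ) p.2 b * fderiv ℝ (mF δ) p.2 c *
        g p.1 a d +
      HF κ δ p.2 * g p.1 (nu KF A Γ p (0, c) (a, 0)).1 (nu KF A Γ p (0, b) (d, 0)).1 := by
  rw [Sm, riem_BFFB h hA0, hP.nk_eq hδ, hP.hs_eq hδ, Mn]
  have e2 : ∑ l, Ml (g p.1) (crvL A p.1) (alL e) (beL δ p.2 e) (HF κ δ p.2) κ
      (fun l => tt δ p.2 l ^ 3) (fun l => 3 * δ ^ 2 / sg δ (p.2.1 l) ^ 4) l (a, 0) (0, b)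
      (0, c) (d, 0) = κ * HF κ δ p.2 * g p.1 a d *
        (∑ l, tt δ p.2 l ^ 3 * (al e l b * al e l c + be δ p.2 e l b * be δ p.2 e l c)) -
        (1 / 2) * ∑ l, crv A p.1 a d l * (tt δ p.2 l ^ 3 * vl δ p.2 e l b c) := by
    rw [Finset.mul_sum, Finset.mul_sum, ← Finset.sum_sub_distrib]
    refine Finset.sum_congr rfl fun l _ => ?_
    simp [Ml, md, vv, alL_apply, beL_apply, crvL_apply, vl, al_zero, be_zero]
    ring
  rw [e2]
  simp [riem]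
  ring

theorem Sm_BBBF (h : Mod g C (cF δ) (DF δ) (HF κ δ) KF A G Γ p) (hA0 : A p.1 = 0)
    (a b c : B) (d : (ι → ℂ) × Y) :
    Sm g C A G Γ δ κ e p (a, 0) (b, 0) (c, 0) (0, d) =
      - (1 / 2) * cF δ p.2 (KF (dcrv A p.1 a b c + crv A p.1 a (C p.1 b c) -
        dcrv A p.1 b a c - crv A p.1 b (C p.1 a c)) p.2) d := by
  rw [Sm, riem_BBBF h hA0, Mn]
  simp [Ml, md, vv, riem]

theorem Sm_BBBB (h : Mod g C (cF δ) (DF δ) (HF κ δ) KF A G Γ p) (hA0 : A p.1 = 0)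
    (a b c d : B) :
    Sm g C A G Γ δ κ e p (a, 0) (b, 0) (c, 0) (d, 0) =
      - cF δ p.2 (nu KF A Γ p (b, 0) (c, 0)).2 (nu KF A Γ p (a, 0) (d, 0)).2 +
      cF δ p.2 (nu KF A Γ p (a, 0) (c, 0)).2 (nu KF A Γ p (b, 0) (d, 0)).2 +
      (1 / 2) * cF δ p.2 (KF (crv A p.1 c d) p.2) (KF (crv A p.1 a b) p.2) := by
  rw [Sm, riem_BBBB h hA0, Mn]
  simp [Ml, md, vv, riem]
  ring

end point

end Pool.Agent.H21_anco
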