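import Pool.Agent.H21_anco.Point

/-!
Lower curvature bound of the local model at a point.
-/

open scoped ContDiff Topology
open Filter ContinuousLinearMap

set_option maxSynthPendingDepth 3
set_option linter.unusedSimpArgs false
set_option linter.unusedSectionVars false

noncomputable section

namespace Pool.Agent.H21_anco

variable {ι : Type*} [Fintype ι] [DecidableEq ι]
  {Y : Type*} [NormedAddCommGroup Y] [InnerProductSpace ℝ Y] [FiniteDimensional ℝ Y]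
  {δ κ : ℝ} {r : ι → ℝ} {e : ι → ℂ}

theorem lin4_riem {V : Type*} [NormedAddCommGroup V] [NormedSpace ℝ V] (b : V →L[ℝ] V →L[ℝ] ℝ)
    (C : V → V →L[ℝ] V →L[ℝ] V) (x : V) : Lin4 (fun u v w z => b (riem C x u v w) z) := by
  constructor <;> intros <;>
    simp only [riem, map_add, map_sub, map_smul, add_apply, sub_apply, smul_apply,
      smul_eq_mul] <;>
    ring

variable {B : Type*} [NormedAddCommGroup B] [NormedSpace ℝ B]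
  {g : B → B →L[ℝ] B →L[ℝ] ℝ} {C : B → B →L[ℝ] B →L[ℝ] B} {A : B → B →L[ℝ] (ι → ℝ)}
  {G : B × ((ι → ℂ) × Y) → (B × ((ι → ℂ) × Y)) →L[ℝ] (B × ((ι → ℂ) × Y)) →L[ℝ] ℝ}
  {Γ : B × ((ι → ℂ) × Y) → (B × ((ι → ℂ) × Y)) →L[ℝ] (B × ((ι → ℂ) × Y)) →L[ℝ]
    (B × ((ι → ℂ) × Y))}
  {p : B × ((ι → ℂ) × Y)}

theorem Sm_lin : Lin4 (Sm g C A G Γ δ κ e p) :=
  (lin4_riem (G p) Γ p).sub (lin4_Mn _ _ _ _ _ _ _ _ (lin4_riem (g p.1) C p.1))

theorem Sm_anti1 (u v w z) :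
    Sm g C A G Γ δ κ e p u v w z = - Sm g C A G Γ δ κ e p v u w z := by
  simp only [Sm]
  rw [Mn_anti1 (g p.1) (crvL A p.1) (alL e) (beL δ p.2 e) (HF κ δ p.2) κ _ _
    (fun a b c d => by rw [riem_antisymm C p.1 a b c, map_neg, neg_apply])
    (crvL_anti A p.1) u v w z, riem_antisymm Γ p u v w, map_neg, neg_apply]
  ring

theorem Sm_anti2 (h : Mod g C (cF δ) (DF δ) (HF κ δ) KF A G Γ p) (u v w z) :
    Sm g C A G Γ δ κ e p u v w z = - Sm g C A G Γ δ κ e p u v z w := by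
  simp only [Sm]
  rw [Mn_anti2 (g p.1) (crvL A p.1) (alL e) (beL δ p.2 e) (HF κ δ p.2) κ _ _
    (fun a b c d => h.lcg.riem_skew a b c d)
    (crvL_anti A p.1) u v w z, h.lcG.riem_skew u v w z]
  ring

theorem Sm_pair (h : Mod g C (cF δ) (DF δ) (HF κ δ) KF A G Γ p) (u v w z) :
    Sm g C A G Γ δ κ e p u v w z = Sm g C A G Γ δ κ e p w z u v := by
  simp only [Sm]
  rw [Mn_pair (g p.1) (crvL A p.1) (alL e) (beL δ p.2 e) (HF κ δ p.2) κ _ _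
    (fun a b c d => h.lcg.riem_pair a b c d) h.lcg.symm.self_of_nhds
    (crvL_anti A p.1) u v w z, h.lcG.riem_pair u v w z]

/-- unit-size base vectors -/
def isB (g : B → B →L[ℝ] B →L[ℝ] ℝ) (p : B × ((ι → ℂ) × Y)) (u : B × ((ι → ℂ) × Y)) : Prop :=
  u.2 = 0 ∧ g p.1 u.1 u.1 ≤ 4

/-- unit-size fibre vectors -/
def isF (δ : ℝ) (p : B × ((ι → ℂ) × Y)) (u : B × ((ι → ℂ) × Y)) : Prop :=
  u.1 = 0 ∧ cF δ p.2 u.2 u.2 ≤ 1

theorem sqrt_le_two {x : ℝ} (h : x ≤ 4) : Real.sqrt x ≤ 2 := by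
  rw [show (2 : ℝ) = Real.sqrt 4 by rw [show (4 : ℝ) = 2 ^ 2 by norm_num]; simp]
  exact Real.sqrt_le_sqrt h

theorem sqrt_le_one' {x : ℝ} (h : x ≤ 1) : Real.sqrt x ≤ 1 := by
  rw [show (1 : ℝ) = Real.sqrt 1 by simp]
  exact Real.sqrt_le_sqrt h

/-- the bound of the remainder -/
theorem Sm_bound (h : Mod g C (cF δ) (DF δ) (HF κ δ) KF A G Γ p) (hA0 : A p.1 = 0)
    (hP : Pol p.2 r e) (hδ : 0 < δ) (hδ1 : δ ≤ 1) (hκ : 0 ≤ κ) {Λ : ℝ} (hB : Bds g C A Λ p.1)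
    (hH : 1 / 4 ≤ HF κ δ p.2) (hH1 : HF κ δ p.2 ≤ 1) (M : ℝ)
    (hM : M = Fintype.card ι * (κ + 2 * Λ))
    (u v w z : B × ((ι → ℂ) × Y)) (hu : isB g p u ∨ isF δ p u) (hv : isB g p v ∨ isF δ p v)
    (hw : isB g p w ∨ isF δ p w) (hz : isB g p z ∨ isF δ p z) :
    |Sm g C A G Γ δ κ e p u v w z| ≤ δ * (40 * (M + M ^ 2)) := by
  have hΛ := hB.nn
  set c0 : ℝ := (Fintype.card ι : ℝ) with hc0
  have hc1 : 0 ≤ c0 := Nat.cast_nonneg _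
  have hM0 : 0 ≤ M := by rw [hM]; positivity
  have hHp : 0 < HF κ δ p.2 := HF_pos
  have hτ : 0 ≤ δ * (40 * (M + M ^ 2)) := by positivity
  have hδ2 : δ ^ 2 ≤ δ := by nlinarith
  have hcκ : c0 * κ ≤ M := by rw [hM]; nlinarith
  have hcΛ : c0 * Λ * 2 ≤ M := by rw [hM]; nlinarith
  -- bounds for the auxiliary vectors
  have b1 : ∀ γ : (ι → ℂ) × Y, ∀ a : B, cF δ p.2 γ γ ≤ 1 → g p.1 a a ≤ 4 →
      Real.sqrt (g p.1 (nu KF A Γ p (0, γ) (a, 0)).1 (nu KF A Γ p (0, γ) (a, 0)).1) ≤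
        2 * (δ * M) := by
    intro γ a hγ ha
    have k := nuFB_small h hA0 hP hδ hκ hB hH γ a
    rw [← hM] at k
    have k1 := sqrt_le_two ha
    have k2 := sqrt_le_one' hγ
    have k3 : Real.sqrt (g p.1 a a) * Real.sqrt (cF δ p.2 γ γ) ≤ 2 * 1 :=
      mul_le_mul k1 k2 (Real.sqrt_nonneg _) (by norm_num)
    calc _ ≤ _ := k
      _ ≤ δ * M * (2 * 1) := mul_le_mul_of_nonneg_left k3 (by positivity)
      _ = _ := by ring
  have b2 : ∀ a b : B, g p.1 a a ≤ 4 → g p.1 b b ≤ 4 →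
      Real.sqrt (cF δ p.2 (nu KF A Γ p (a, 0) (b, 0)).2 (nu KF A Γ p (a, 0) (b, 0)).2) ≤
        4 * (δ * M) := by
    intro a b ha hb
    have k := nuBB_small h hA0 hP hδ hκ hB hH1 a b
    rw [← hM] at k
    have k1 := sqrt_le_two ha
    have k2 := sqrt_le_two hb
    have k3 : Real.sqrt (g p.1 a a) * Real.sqrt (g p.1 b b) ≤ 2 * 2 :=
      mul_le_mul k1 k2 (Real.sqrt_nonneg _) (by norm_num)
    calc _ ≤ _ := k
      _ ≤ δ * M * (2 * 2) := mul_le_mul_of_nonneg_left k3 (by positivity)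
      _ = _ := by ring
  have hgs := hB.gs
  have hgn := hB.gnn
  have hcs := (isMetric_cF (ι := ι) (Y := Y) hδ).symm p.2 (Set.mem_univ _)
  have hcn : ∀ γ, 0 ≤ cF δ p.2 γ γ := fun γ => cF_nonneg hδ γ
  refine bound_types Sm_anti1 (Sm_anti2 h) (Sm_pair h) (isB g p) (isF δ p) _ ?_ ?_ ?_ ?_ ?_ ?_
    u v w z hu hv hw hz
  · rintro ⟨u1, u2⟩ ⟨v1, v2⟩ ⟨w1, w2⟩ ⟨z1, z2⟩ ⟨hu, hu'⟩ ⟨hv, hv'⟩ ⟨hw, hw'⟩ ⟨hz, hz'⟩
    simp only at hu hv hw hz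
    subst hu hv hw hz
    rw [Sm_FFFF h hA0 hP hδ, abs_zero]
    exact hτ
  · rintro ⟨u1, u2⟩ ⟨v1, v2⟩ ⟨w1, w2⟩ ⟨z1, z2⟩ ⟨hu, hu'⟩ ⟨hv, hv'⟩ ⟨hw, hw'⟩ ⟨hz, hz'⟩
    simp only at hu hv hw hz
    subst hu hv hw hz
    rw [Sm_FFFB h hA0, abs_zero]
    exact hτ
  · rintro ⟨u1, u2⟩ ⟨v1, v2⟩ ⟨w1, w2⟩ ⟨z1, z2⟩ ⟨hu, hu'⟩ ⟨hv, hv'⟩ ⟨hw, hw'⟩ ⟨hz, hz'⟩
    simp only at hu hv hw hz hu' hv' hw' hz'
    subst hu hv hw hz
    rw [Sm_FFBB h hA0 hP hδ]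
    have k1 := abs_bil (g p.1) hgs hgn (nu KF A Γ p (0, v2) (w1, 0)).1
      (nu KF A Γ p (0, u2) (z1, 0)).1
    have k2 := abs_bil (g p.1) hgs hgn (nu KF A Γ p (0, u2) (w1, 0)).1
      (nu KF A Γ p (0, v2) (z1, 0)).1
    have k3 : |g p.1 (nu KF A Γ p (0, v2) (w1, 0)).1 (nu KF A Γ p (0, u2) (z1, 0)).1| ≤
        (2 * (δ * M)) * (2 * (δ * M)) :=
      k1.trans (mul_le_mul (b1 _ _ hv' hw') (b1 _ _ hu' hz') (Real.sqrt_nonneg _) (by positivity))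
    have k4 : |g p.1 (nu KF A Γ p (0, u2) (w1, 0)).1 (nu KF A Γ p (0, v2) (z1, 0)).1| ≤
        (2 * (δ * M)) * (2 * (δ * M)) :=
      k2.trans (mul_le_mul (b1 _ _ hu' hw') (b1 _ _ hv' hz') (Real.sqrt_nonneg _) (by positivity))
    refine (abs_add_le _ _).trans ?_
    rw [abs_mul, abs_mul, abs_neg, abs_of_pos hHp]
    have k5 : HF κ δ p.2 * |g p.1 (nu KF A Γ p (0, v2) (w1, 0)).1
        (nu KF A Γ p (0, u2) (z1, 0)).1| ≤ 1 * ((2 * (δ * M)) * (2 * (δ * M))) :=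
      mul_le_mul hH1 k3 (abs_nonneg _) (by norm_num)
    have k6 : HF κ δ p.2 * |g p.1 (nu KF A Γ p (0, u2) (w1, 0)).1
        (nu KF A Γ p (0, v2) (z1, 0)).1| ≤ 1 * ((2 * (δ * M)) * (2 * (δ * M))) :=
      mul_le_mul hH1 k4 (abs_nonneg _) (by norm_num)
    have k7 : δ ^ 2 * M ^ 2 ≤ δ * M ^ 2 := mul_le_mul_of_nonneg_right hδ2 (by positivity)
    have k8 : 0 ≤ δ * M := by positivity
    nlinarith
  · rintro ⟨u1, u2⟩ ⟨v1, v2⟩ ⟨w1, w2⟩ ⟨z1, z2⟩ ⟨hu, hu'⟩ ⟨hv, hv'⟩ ⟨hw, hw'⟩ ⟨hz, hz'⟩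
    simp only at hu hv hw hz hu' hv' hw' hz'
    subst hu hv hw hz
    rw [Sm_BFFB h hA0 hP hδ]
    have k1 := abs_bil (g p.1) hgs hgn (nu KF A Γ p (0, w2) (u1, 0)).1
      (nu KF A Γ p (0, v2) (z1, 0)).1
    have k3 : |g p.1 (nu KF A Γ p (0, w2) (u1, 0)).1 (nu KF A Γ p (0, v2) (z1, 0)).1| ≤
        (2 * (δ * M)) * (2 * (δ * M)) :=
      k1.trans (mul_le_mul (b1 _ _ hw' hu') (b1 _ _ hv' hz') (Real.sqrt_nonneg _) (by positivity))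
    have k2 : |g p.1 u1 z1| ≤ 2 * 2 :=
      (abs_bil (g p.1) hgs hgn u1 z1).trans (mul_le_mul (sqrt_le_two hu') (sqrt_le_two hz')
        (Real.sqrt_nonneg _) (by norm_num))
    have k4 : |fderiv ℝ (mF δ) p.2 v2| ≤ c0 := by
      refine (hP.dm_abs hδ v2).trans ?_
      have := sqrt_le_one' hv'
      nlinarith
    have k5 : |fderiv ℝ (mF δ) p.2 w2| ≤ c0 := by
      refine (hP.dm_abs hδ w2).trans ?_
      have := sqrt_le_one' hw'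
      nlinarith
    refine (abs_add_le _ _).trans ?_
    have k6 : HF κ δ p.2 * |g p.1 (nu KF A Γ p (0, w2) (u1, 0)).1
        (nu KF A Γ p (0, v2) (z1, 0)).1| ≤ 1 * ((2 * (δ * M)) * (2 * (δ * M))) :=
      mul_le_mul hH1 k3 (abs_nonneg _) (by norm_num)
    have k8 : |(- 2 * (κ * δ) ^ 2 * HF κ δ p.2 * fderiv ℝ (mF δ) p.2 v2 *
        fderiv ℝ (mF δ) p.2 w2 * g p.1 u1 z1)| ≤ 2 * (κ * δ) ^ 2 * 1 * c0 * c0 * (2 * 2) := by
      rw [abs_mul, abs_mul, abs_mul, abs_mul, abs_mul, abs_neg, abs_of_pos hHp,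
        abs_of_pos (by norm_num : (0 : ℝ) < 2), abs_of_nonneg (sq_nonneg (κ * δ))]
      gcongr
    have k9 : |HF κ δ p.2 * g p.1 (nu KF A Γ p (0, w2) (u1, 0)).1
        (nu KF A Γ p (0, v2) (z1, 0)).1| ≤ 1 * ((2 * (δ * M)) * (2 * (δ * M))) := by
      rw [abs_mul, abs_of_pos hHp]
      exact k6
    have k7 : δ ^ 2 * M ^ 2 ≤ δ * M ^ 2 := mul_le_mul_of_nonneg_right hδ2 (by positivity)
    have k10 : 0 ≤ δ * M := by positivity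
    have k11 : (c0 * κ) * (c0 * κ) ≤ M * M := mul_le_mul hcκ hcκ (by positivity) hM0
    have k12 : δ ^ 2 * ((c0 * κ) * (c0 * κ)) ≤ δ ^ 2 * (M * M) :=
      mul_le_mul_of_nonneg_left k11 (by positivity)
    nlinarith
  · rintro ⟨u1, u2⟩ ⟨v1, v2⟩ ⟨w1, w2⟩ ⟨z1, z2⟩ ⟨hu, hu'⟩ ⟨hv, hv'⟩ ⟨hw, hw'⟩ ⟨hz, hz'⟩
    simp only at hu hv hw hz hu' hv' hw' hz'
    subst hu hv hw hz
    rw [Sm_BBBF h hA0]
    have k1 : Real.sqrt (g p.1 u1 u1) * Real.sqrt (g p.1 v1 v1) * Real.sqrt (g p.1 w1 w1) ≤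
        2 * 2 * 2 := by
      have a1 := sqrt_le_two hu'
      have a2 := sqrt_le_two hv'
      have a3 := sqrt_le_two hw'
      gcongr
    have k2 := hP.rot_abs hδ z2 (dcrv A p.1 u1 v1 w1 + crv A p.1 u1 (C p.1 v1 w1) -
        dcrv A p.1 v1 u1 w1 - crv A p.1 v1 (C p.1 u1 w1)) (Λ * (2 * 2 * 2)) (fun l =>
          (hB.xb u1 v1 w1 l).trans (mul_le_mul_of_nonneg_left k1 hΛ))
    have k3 := sqrt_le_one' hz'
    rw [abs_mul, abs_neg, abs_of_pos (by norm_num : (0 : ℝ) < 1 / 2)]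
    rw [← hc0] at k2
    have k4 : c0 * (Λ * (2 * 2 * 2)) * Real.sqrt (cF δ p.2 z2 z2) ≤
        c0 * (Λ * (2 * 2 * 2)) * 1 := mul_le_mul_of_nonneg_left k3 (by positivity)
    have k5 : δ * (c0 * (Λ * (2 * 2 * 2)) * Real.sqrt (cF δ p.2 z2 z2)) ≤
        δ * (c0 * (Λ * (2 * 2 * 2)) * 1) := mul_le_mul_of_nonneg_left k4 hδ.le
    have k6 : δ * (c0 * Λ * 2) ≤ δ * M := mul_le_mul_of_nonneg_left hcΛ hδ.le
    have k7 : 0 ≤ δ * M ^ 2 := by positivity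
    have k8 : 0 ≤ δ * M := by positivity
    nlinarith
  · rintro ⟨u1, u2⟩ ⟨v1, v2⟩ ⟨w1, w2⟩ ⟨z1, z2⟩ ⟨hu, hu'⟩ ⟨hv, hv'⟩ ⟨hw, hw'⟩ ⟨hz, hz'⟩
    simp only at hu hv hw hz hu' hv' hw' hz'
    subst hu hv hw hz
    rw [Sm_BBBB h hA0]
    have k1 : |cF δ p.2 (nu KF A Γ p (v1, 0) (w1, 0)).2 (nu KF A Γ p (u1, 0) (z1, 0)).2| ≤
        (4 * (δ * M)) * (4 * (δ * M)) :=
      (abs_bil (cF δ p.2) hcs hcn _ _).trans (mul_le_mul (b2 _ _ hv' hw') (b2 _ _ hu' hz')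
        (Real.sqrt_nonneg _) (by positivity))
    have k2 : |cF δ p.2 (nu KF A Γ p (u1, 0) (w1, 0)).2 (nu KF A Γ p (v1, 0) (z1, 0)).2| ≤
        (4 * (δ * M)) * (4 * (δ * M)) :=
      (abs_bil (cF δ p.2) hcs hcn _ _).trans (mul_le_mul (b2 _ _ hu' hw') (b2 _ _ hv' hz')
        (Real.sqrt_nonneg _) (by positivity))
    have fb : ∀ a b : B, g p.1 a a ≤ 4 → g p.1 b b ≤ 4 → ∀ l, |crv A p.1 a b l| ≤ Λ * 4 := by
      intro a b ha hb l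
      refine (hB.fb a b l).trans (mul_le_mul_of_nonneg_left ?_ hΛ)
      have a1 := sqrt_le_two ha
      have a2 := sqrt_le_two hb
      calc Real.sqrt (g p.1 a a) * Real.sqrt (g p.1 b b) ≤ 2 * 2 := by gcongr
        _ = 4 := by norm_num
    have k3 : |cF δ p.2 (KF (crv A p.1 w1 z1) p.2) (KF (crv A p.1 u1 v1) p.2)| ≤
        c0 * (δ ^ 2 * (Λ * 4) ^ 2) := by
      rw [hP.rot2 hδ]
      refine (Finset.abs_sum_le_sum_abs _ _).trans ?_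
      have h1 : ∀ l ∈ (Finset.univ : Finset ι), |crv A p.1 w1 z1 l * crv A p.1 u1 v1 l *
          (δ * th δ p.2 r l) ^ 2| ≤ δ ^ 2 * (Λ * 4) ^ 2 := by
        intro l _
        have a1 := fb w1 z1 hw' hz' l
        have a2 := fb u1 v1 hu' hv' l
        have a3 := hP.th_le hδ l
        have a4 := hP.th_nonneg hδ l
        rw [abs_mul, abs_mul, abs_of_nonneg (sq_nonneg (δ * th δ p.2 r l))]
        have a5 : (δ * th δ p.2 r l) ^ 2 ≤ δ ^ 2 := by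
          rw [mul_pow]
          have : th δ p.2 r l ^ 2 ≤ 1 := by nlinarith
          nlinarith [sq_nonneg δ]
        calc |crv A p.1 w1 z1 l| * |crv A p.1 u1 v1 l| * (δ * th δ p.2 r l) ^ 2 ≤
            (Λ * 4) * (Λ * 4) * δ ^ 2 := by gcongr
          _ = _ := by ring
      refine (Finset.sum_le_sum h1).trans ?_
      rw [Finset.sum_const, Finset.card_univ, nsmul_eq_mul]
    have k4 : |(- cF δ p.2 (nu KF A Γ p (v1, 0) (w1, 0)).2 (nu KF A Γ p (u1, 0) (z1, 0)).2 +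
      cF δ p.2 (nu KF A Γ p (u1, 0) (w1, 0)).2 (nu KF A Γ p (v1, 0) (z1, 0)).2 +
      (1 / 2) * cF δ p.2 (KF (crv A p.1 w1 z1) p.2) (KF (crv A p.1 u1 v1) p.2))| ≤
        (4 * (δ * M)) * (4 * (δ * M)) + (4 * (δ * M)) * (4 * (δ * M)) +
        (1 / 2) * (c0 * (δ ^ 2 * (Λ * 4) ^ 2)) := by
      refine (abs_add_le _ _).trans (add_le_add ((abs_add_le _ _).trans (add_le_add ?_ k2)) ?_)
      · rw [abs_neg]
        exact k1
      · rw [abs_mul, abs_of_pos (by norm_num : (0 : ℝ) < 1 / 2)]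
        exact mul_le_mul_of_nonneg_left k3 (by norm_num)
    refine k4.trans ?_
    have k5 : c0 * Λ ^ 2 ≤ M ^ 2 := by
      rcases Nat.eq_zero_or_pos (Fintype.card ι) with h0 | h0
      · rw [hc0, h0]
        simp
        positivity
      · have a1 : (1 : ℝ) ≤ c0 := by
          rw [hc0]
          exact_mod_cast h0
        have a2 : c0 * Λ ≤ M := by nlinarith [mul_nonneg hc1 hΛ]
        have a3 : (c0 * Λ) * (c0 * Λ) ≤ M * M := mul_le_mul a2 a2 (by positivity) hM0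
        have a4 : 0 ≤ c0 * Λ ^ 2 := by positivity
        nlinarith
    have k6 : δ ^ 2 * (c0 * Λ ^ 2) ≤ δ ^ 2 * M ^ 2 := mul_le_mul_of_nonneg_left k5 (by positivity)
    have k7 : δ ^ 2 * M ^ 2 ≤ δ * M ^ 2 := mul_le_mul_of_nonneg_right hδ2 (by positivity)
    have k10 : 0 ≤ δ * M := by positivity
    have k11 : 0 ≤ δ * M ^ 2 := by positivity
    nlinarith

end Pool.Agent.H21_anco
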