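import Pool.Agent.H21_anco.Point2

/-!
Lower curvature bound of the local model at a point.
-/

open scoped ContDiff Topology
open Filter ContinuousLinearMap

set_option maxSynthPendingDepth 3
set_option linter.unusedSimpArgs false
set_option linter.unusedSectionVars false

noncomputable section

namespace Pool.Agent.H21_anco

variable {ι : Type*} [Fintype ι] [DecidableEq ι]
  {Y : Type*} [NormedAddCommGroup Y] [InnerProductSpace ℝ Y] [FiniteDimensional ℝ Y]
  {δ κ : ℝ} {r : ι → ℝ} {e : ι → ℂ}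
  {B : Type*} [NormedAddCommGroup B] [NormedSpace ℝ B] [FiniteDimensional ℝ B]

/-- index set of the orthonormal basis -/
abbrev PI (B : Type*) [NormedAddCommGroup B] [NormedSpace ℝ B] (ι : Type*)
    (Y : Type*) [NormedAddCommGroup Y] [InnerProductSpace ℝ Y] : Type _ :=
  Fin (Module.finrank ℝ B) ⊕ ((ι ⊕ ι) ⊕ Fin (Module.finrank ℝ Y))

/-- the coordinates -/
def thE (b : B →L[ℝ] B →L[ℝ] ℝ) (f : Fin (Module.finrank ℝ B) → B) (H : ℝ) (δ : ℝ)
    (n : (ι → ℂ) × Y) (e : ι → ℂ) : PI B ι Y → B × ((ι → ℂ) × Y) → ℝ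
  | Sum.inl p => fun u => Real.sqrt H * b (f p) u.1
  | Sum.inr (Sum.inl (Sum.inl l)) => fun u => al e l u.2
  | Sum.inr (Sum.inl (Sum.inr l)) => fun u => be δ n e l u.2
  | Sum.inr (Sum.inr m) => fun u => inner ℝ (stdOrthonormalBasis ℝ Y m) u.2.2

/-- the basis -/
def evE (f : Fin (Module.finrank ℝ B) → B) (H : ℝ) (δ : ℝ)
    (n : (ι → ℂ) × Y) (e : ι → ℂ) : PI B ι Y → B × ((ι → ℂ) × Y)
  | Sum.inl p => ((Real.sqrt H)⁻¹ • f p, 0)
  | Sum.inr (Sum.inl (Sum.inl l)) => (0, ij l (e l))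
  | Sum.inr (Sum.inl (Sum.inr l)) => (0, ij l ((sg δ (n.1 l) / δ) • IL (e l)))
  | Sum.inr (Sum.inr m) => (0, (0, stdOrthonormalBasis ℝ Y m))

variable {b : B →L[ℝ] B →L[ℝ] ℝ} {f : Fin (Module.finrank ℝ B) → B} {H : ℝ}
  {n : (ι → ℂ) × Y}

theorem plane_expand {w a : ℂ} (hw : w.re ^ 2 + w.im ^ 2 = 1) :
    a = dt2 w a • w + cr2 w a • IL w := by
  apply Complex.ext
  · simp only [Complex.add_re, Complex.smul_re, smul_eq_mul, dt2_apply, cr2_apply, IL_re]
    linear_combination (- a.re) * hw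
  · simp only [Complex.add_im, Complex.smul_im, smul_eq_mul, dt2_apply, cr2_apply, IL_im]
    linear_combination (- a.im) * hw

theorem expand_E (hP : Pol n r e) (hδ : 0 < δ) (hH : 0 < H)
    (hf : ∀ a, a = ∑ p, b (f p) a • f p) (u : B × ((ι → ℂ) × Y)) :
    u = ∑ p, thE b f H δ n e p u • evE f H δ n e p := by
  rw [Fintype.sum_sum_type, Fintype.sum_sum_type, Fintype.sum_sum_type]
  simp only [thE, evE]
  have hs : Real.sqrt H ≠ 0 := (Real.sqrt_pos.2 hH).ne'
  refine Prod.ext ?_ (Prod.ext ?_ ?_)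
  · simp only [Prod.fst_add, Prod.fst_sum, Prod.smul_fst, smul_zero, Finset.sum_const_zero,
      add_zero]
    conv_lhs => rw [hf u.1]
    refine Finset.sum_congr rfl fun p _ => ?_
    rw [smul_smul]
    congr 1
    field_simp
  · funext l
    simp only [Prod.snd_add, Prod.snd_sum, Prod.smul_snd, smul_zero, Finset.sum_const_zero,
      zero_add, Prod.fst_add, Prod.fst_sum, Prod.smul_fst, Pi.add_apply, Finset.sum_apply,
      Pi.smul_apply, ij_fst, smul_ite, Finset.sum_ite_eq, Finset.mem_univ, if_true, Prod.fst_zero,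
      Pi.zero_apply, add_zero]
    conv_lhs => rw [plane_expand (a := u.2.1 l) (hP.he l)]
    have h2 := (sg_pos hδ (n.1 l)).ne'
    rw [al, be, smul_smul]
    congr 2
    field_simp
  · simp only [Prod.snd_add, Prod.snd_sum, Prod.smul_snd, smul_zero, Finset.sum_const_zero,
      zero_add, ij_snd, Prod.snd_zero]
    exact ((stdOrthonormalBasis ℝ Y).sum_repr' u.2.2).symm

theorem base_pair (hf : ∀ a, a = ∑ p, b (f p) a • f p) (hs : ∀ u v, b u v = b v u) (u v : B) :
    b u v = ∑ p, b (f p) u * b (f p) v := by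
  have h1 : b u v = b u (∑ p, b (f p) v • f p) := by rw [← hf v]
  rw [h1, map_sum]
  refine Finset.sum_congr rfl fun p _ => ?_
  rw [map_smul, smul_eq_mul, hs u (f p)]
  ring

theorem pair_E (hP : Pol n r e) (hδ : 0 < δ) (hH : 0 < H)
    (hf : ∀ a, a = ∑ p, b (f p) a • f p) (hs : ∀ u v, b u v = b v u)
    (u v : B × ((ι → ℂ) × Y)) :
    H * b u.1 v.1 + cF δ n u.2 v.2 = ∑ p, thE b f H δ n e p u * thE b f H δ n e p v := by
  rw [Fintype.sum_sum_type, Fintype.sum_sum_type, Fintype.sum_sum_type]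
  simp only [thE]
  rw [hP.cF_eq hδ, base_pair hf hs, Finset.mul_sum, Finset.sum_add_distrib]
  have h1 : ∀ p, Real.sqrt H * b (f p) u.1 * (Real.sqrt H * b (f p) v.1) =
      H * (b (f p) u.1 * b (f p) v.1) := by
    intro p
    have h2 := Real.mul_self_sqrt hH.le
    linear_combination (b (f p) u.1 * b (f p) v.1) * h2
  have h3 : ∑ m, inner ℝ (stdOrthonormalBasis ℝ Y m) u.2.2 *
      inner ℝ (stdOrthonormalBasis ℝ Y m) v.2.2 = inner ℝ u.2.2 v.2.2 := by
    rw [← (stdOrthonormalBasis ℝ Y).sum_inner_mul_inner u.2.2 v.2.2]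
    refine Finset.sum_congr rfl fun m _ => ?_
    rw [real_inner_comm]
  simp only [h1, h3]

theorem ev_type {g : B → B →L[ℝ] B →L[ℝ] ℝ} {p : B × ((ι → ℂ) × Y)} (hP : Pol p.2 r e)
    (hδ : 0 < δ) (hH : 1 / 4 ≤ H)
    (hf : ∀ q q', g p.1 (f q) (f q') = if q = q' then 1 else 0) (q : PI B ι Y) :
    isB g p (evE f H δ p.2 e q) ∨ isF δ p (evE f H δ p.2 e q) := by
  rcases q with q | (l | l) | m
  · left
    refine ⟨rfl, ?_⟩
    simp only [evE, map_smul, smul_apply, smul_eq_mul]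
    have h1 := hf q q
    rw [if_pos rfl] at h1
    rw [h1, mul_one, ← mul_inv, Real.mul_self_sqrt (by linarith)]
    rw [inv_le_comm₀ (by linarith) (by norm_num)]
    linarith
  · right
    refine ⟨rfl, ?_⟩
    simp only [evE]
    rw [hP.cF_eq hδ, ij_snd, inner_zero_left, add_zero]
    rw [Finset.sum_eq_single l]
    · have := hP.he l
      simp only [al, be, ij_fst, if_true, dt2_apply, cr2_apply]
      have e1 : (e l).re * (e l).im - (e l).im * (e l).re = 0 := by ring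
      rw [e1]
      nlinarith
    · intro l' _ hl'
      simp [al, be, hl']
    · intro hh
      exact absurd (Finset.mem_univ l) hh
  · right
    refine ⟨rfl, ?_⟩
    simp only [evE]
    rw [hP.cF_eq hδ, ij_snd, inner_zero_left, add_zero]
    rw [Finset.sum_eq_single l]
    · have := hP.he l
      have h2 := (sg_pos hδ (p.2.1 l)).ne'
      have h3 := hδ.ne'
      simp only [al, be, ij_fst, if_true, dt2_apply, cr2_apply, Complex.smul_re, Complex.smul_im,
        IL_re, IL_im, smul_eq_mul]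
      apply le_of_eq
      field_simp
      have e2 : (e l).re ^ 2 - -(e l).im ^ 2 = 1 := by linarith
      rw [e2]
      ring
    · intro l' _ hl'
      simp [al, be, hl']
    · intro hh
      exact absurd (Finset.mem_univ l) hh
  · right
    refine ⟨rfl, ?_⟩
    simp only [evE]
    rw [hP.cF_eq hδ]
    have h1 : ∀ l, al e l ((0, stdOrthonormalBasis ℝ Y m) : (ι → ℂ) × Y) = 0 := by
      intro l
      simp [al]
    have h2 : ∀ l, be δ p.2 e l ((0, stdOrthonormalBasis ℝ Y m) : (ι → ℂ) × Y) = 0 := by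
      intro l
      simp [be]
    simp [h1, h2]

/-- constant in the remainder estimate -/
def KC (B : Type*) [NormedAddCommGroup B] [NormedSpace ℝ B] (ι : Type*) [Fintype ι]
    (Y : Type*) [NormedAddCommGroup Y] [InnerProductSpace ℝ Y] (κ Λ : ℝ) : ℝ :=
  40 * (Fintype.card ι * (κ + 2 * Λ) + (Fintype.card ι * (κ + 2 * Λ)) ^ 2) *
    (Fintype.card (PI B ι Y) : ℝ) ^ 2 +
  6 * Fintype.card ι * (Λ ^ 2 * (Module.finrank ℝ B : ℝ) ^ 2)

/-- **lower curvature bound of the local model at a point** -/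
theorem local_curv {g : B → B →L[ℝ] B →L[ℝ] ℝ} {C : B → B →L[ℝ] B →L[ℝ] B}
    {A : B → B →L[ℝ] (ι → ℝ)}
    {G : B × ((ι → ℂ) × Y) → (B × ((ι → ℂ) × Y)) →L[ℝ] (B × ((ι → ℂ) × Y)) →L[ℝ] ℝ}
    {Γ : B × ((ι → ℂ) × Y) → (B × ((ι → ℂ) × Y)) →L[ℝ] (B × ((ι → ℂ) × Y)) →L[ℝ]
      (B × ((ι → ℂ) × Y))}
    {p : B × ((ι → ℂ) × Y)}
    (h : Mod g C (cF δ) (DF δ) (HF κ δ) KF A G Γ p) (hA0 : A p.1 = 0)
    (hδ : 0 < δ) (hδ1 : δ ≤ 1) {Λ : ℝ} (hB : Bds g C A Λ p.1) (hκ : 2 * Λ ≤ κ)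
    (hH : 1 / 4 ≤ HF κ δ p.2) (hH1 : HF κ δ p.2 ≤ 1) {ε : ℝ} (hε : 0 ≤ ε)
    (hR : ∀ (m : ℕ) (a b : Fin m → B), - ε * wed (fun u v => g p.1 u v) a b ≤
      ∑ i, ∑ j, g p.1 (riem C p.1 (a i) (b i) (b j)) (a j))
    {m : ℕ} (u v : Fin m → B × ((ι → ℂ) × Y)) :
    - (4 * ε + δ * KC B ι Y κ Λ) * wed (fun u v => G p u v) u v ≤
      ∑ i, ∑ j, G p (riem Γ p (u i) (v i) (v j)) (u j) := by
  obtain ⟨r, e, hP⟩ := exists_pol p.2
  have hΛ := hB.nn
  have hκ0 : 0 ≤ κ := by linarith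
  set H := HF κ δ p.2 with hHd
  have hHp : 0 < H := HF_pos
  obtain ⟨f, hf1, hf2⟩ := exists_onb
    ((ContinuousLinearMap.coeLM ℝ : (B →L[ℝ] ℝ) →ₗ[ℝ] (B →ₗ[ℝ] ℝ)).comp
      (g p.1).toLinearMap) hB.gs hB.gp
  have hf1' : ∀ q q', g p.1 (f q) (f q') = if q = q' then 1 else 0 := hf1
  have hf2' : ∀ a, a = ∑ q, g p.1 (f q) a • f q := hf2
  set b := g p.1 with hb
  set θ := thE b f H δ p.2 e with hθ
  set ev := evE f H δ p.2 e with hev
  have hexp : ∀ u, u = ∑ q, θ q u • ev q := fun u => expand_E hP hδ hHp hf2' u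
  have hpair : ∀ u v : B × ((ι → ℂ) × Y), G p u v = ∑ q, θ q u * θ q v := by
    intro u v
    rw [G_at h hA0]
    exact pair_E hP hδ hHp hf2' hB.gs u v
  have hty : ∀ q, isB g p (ev q) ∨ isF δ p (ev q) := fun q => ev_type hP hδ hH hf1' q
  set M := (Fintype.card ι : ℝ) * (κ + 2 * Λ) with hM
  have hM0 : 0 ≤ M := by rw [hM]; positivity
  -- the remainder
  have s1 := bound_small θ (Sm g C A G Γ δ κ e p)
    (fun q r s t => Sm g C A G Γ δ κ e p (ev q) (ev r) (ev s) (ev t))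
    (δ * (40 * (M + M ^ 2))) (by positivity)
    (fun u v w z => Sm_lin.expand θ ev hexp u v w z) Sm_anti1 (Sm_anti2 h)
    (fun q r s t => Sm_bound h hA0 hP hδ hδ1 hκ0 hB hH hH1 M hM _ _ _ _
      (hty q) (hty r) (hty s) (hty t)) (fun u v => G p u v) hpair u v
  -- wedge of the base parts
  have hwG : wed (fun u v => G p u v) u v = (1 / 2) * ∑ q, ∑ q', (mm θ u v q q') ^ 2 := by
    have := wed_diag θ (fun _ => 1) (fun u v => G p u v) (fun a b => by rw [hpair]; simp) u v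
    simpa using this
  have hwG0 : 0 ≤ wed (fun u v => G p u v) u v := by
    rw [hwG]
    positivity
  have hwB : H ^ 2 * wed (fun a c => b a c) (fun i => (u i).1) (fun i => (v i).1) ≤
      wed (fun u v => G p u v) u v := by
    have e1 := wed_diag θ (Sum.elim (fun _ => 1) (fun _ => 0))
      (fun u v : B × ((ι → ℂ) × Y) => H * b u.1 v.1) (fun a c => by
        rw [Fintype.sum_sum_type]
        simp only [Sum.elim_inl, Sum.elim_inr, one_mul, zero_mul, Finset.sum_const_zero, add_zero]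
        simp only [hθ, thE]
        rw [base_pair hf2' hB.gs, Finset.mul_sum]
        refine Finset.sum_congr rfl fun q _ => ?_
        have h2 := Real.mul_self_sqrt hHp.le
        linear_combination (- (b (f q) a.1 * b (f q) c.1)) * h2) u v
    have e2 : H ^ 2 * wed (fun a c => b a c) (fun i => (u i).1) (fun i => (v i).1) =
        wed (fun u v : B × ((ι → ℂ) × Y) => H * b u.1 v.1) u v := by
      simp only [wed, Finset.mul_sum]
      refine Finset.sum_congr rfl fun i _ => Finset.sum_congr rfl fun j _ => ?_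
      ring
    rw [e2, e1, hwG]
    gcongr with q _ q' _
    have e3 : ∀ s : PI B ι Y, 0 ≤ (Sum.elim (fun _ => (1 : ℝ)) (fun _ => 0) s : ℝ) ∧
        (Sum.elim (fun _ => (1 : ℝ)) (fun _ => 0) s : ℝ) ≤ 1 := by
      rintro (s | s) <;> simp
    have e4 := e3 q
    have e5 := e3 q'
    have e6 : (Sum.elim (fun _ => (1 : ℝ)) (fun _ => 0) q : ℝ) *
        (Sum.elim (fun _ => (1 : ℝ)) (fun _ => 0) q' : ℝ) ≤ 1 :=
      mul_le_one₀ e4.2 e5.1 e5.2
    nlinarith [sq_nonneg (mm θ u v q q')]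
  have hwb0 : 0 ≤ wed (fun a c => b a c) (fun i => (u i).1) (fun i => (v i).1) := by
    have := wed_diag (fun q a => b (f q) a) (fun _ => 1) (fun a c => b a c)
      (fun a c => by rw [base_pair hf2' hB.gs]; simp) (fun i => (u i).1) (fun i => (v i).1)
    rw [this]
    positivity
  -- the curvature forms
  have hFl : ∀ l, (∑ i, crvL A p.1 l (u i).1 (v i).1) ^ 2 ≤
      Λ ^ 2 * (Module.finrank ℝ B : ℝ) ^ 2 *
        wed (fun a c => b a c) (fun i => (u i).1) (fun i => (v i).1) := by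
    intro l
    have hlin : Lin4 (fun a c d e : B => - (crvL A p.1 l a c * crvL A p.1 l d e)) := by
      constructor <;> intros <;>
        simp only [map_add, map_smul, add_apply, smul_apply, smul_eq_mul] <;> ring
    have k := bound_small (m := m) (fun q a => b (f q) a)
      (fun a c d e : B => - (crvL A p.1 l a c * crvL A p.1 l d e))
      (fun q r s t => - (crvL A p.1 l (f q) (f r) * crvL A p.1 l (f s) (f t))) (Λ ^ 2)
      (by positivity) (fun a c d e => hlin.expand _ f hf2' a c d e)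
      (fun a c d e => by rw [crvL_anti A p.1 l a c]; ring)
      (fun a c d e => by rw [crvL_anti A p.1 l d e]; ring)
      (fun q r s t => by
        have hone : ∀ q, Real.sqrt (b (f q) (f q)) = 1 := by
          intro q
          rw [hf1' q q, if_pos rfl, Real.sqrt_one]
        have k1 := hB.fb (f q) (f r) l
        have k2 := hB.fb (f s) (f t) l
        rw [← hb, hone, hone, mul_one, mul_one, ← crvL_apply] at k1 k2
        rw [abs_neg, abs_mul, sq]
        exact mul_le_mul k1 k2 (abs_nonneg _) hΛ)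
      (fun a c => b a c) (fun a c => base_pair hf2' hB.gs a c)
      (fun i => (u i).1) (fun i => (v i).1)
    have k2 : ∑ i, ∑ j, - (crvL A p.1 l (u i).1 (v i).1 * crvL A p.1 l (v j).1 (u j).1) =
        (∑ i, crvL A p.1 l (u i).1 (v i).1) ^ 2 := by
      rw [sq, Finset.sum_mul_sum]
      refine Finset.sum_congr rfl fun i _ => Finset.sum_congr rfl fun j _ => ?_
      rw [crvL_anti A p.1 l (v j).1 (u j).1]
      ring
    rw [k2, Fintype.card_fin] at k
    exact (le_abs_self _).trans k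
  -- the main form
  have mb := main_bound b (crvL A p.1) (alL e) (beL δ p.2 e) H κ (fun l => tt δ p.2 l ^ 3)
    (fun l => 3 * δ ^ 2 / sg δ (p.2.1 l) ^ 4) (RB := fun a b c d => g p.1 (riem C p.1 a b c) d)
    (crvL_anti A p.1) hB.gnn Λ (δ ^ 2 / 3) hΛ
    (fun l a c => by
      rw [crvL_apply, mul_assoc]
      exact hB.fb a c l)
    (by nlinarith)
    (fun l => pow_nonneg (tt_pos hδ l).le 3)
    (fun l => by have := sg_pos hδ (p.2.1 l); positivity)
    (fun l => by
      have a1 := sg_pos hδ (p.2.1 l)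
      have a2 := hP.tt_le hδ l
      have a3 := tt_pos (n := p.2) hδ l
      have a4 : 3 * δ ^ 2 / sg δ (p.2.1 l) ^ 4 * (δ ^ 2 / 3) = tt δ p.2 l ^ 4 := by
        rw [tt]
        field_simp
      rw [a4, ← pow_mul]
      exact pow_le_pow_of_le_one a3.le a2 (by norm_num)) u v
  have hRu := hR m (fun i => (u i).1) (fun i => (v i).1)
  -- assemble
  have tot : ∑ i, ∑ j, G p (riem Γ p (u i) (v i) (v j)) (u j) =
      ∑ i, ∑ j, Mn b (crvL A p.1) (alL e) (beL δ p.2 e)
        (fun a b c d => g p.1 (riem C p.1 a b c) d) H κ (fun l => tt δ p.2 l ^ 3)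
        (fun l => 3 * δ ^ 2 / sg δ (p.2.1 l) ^ 4) (u i) (v i) (v j) (u j) +
      ∑ i, ∑ j, Sm g C A G Γ δ κ e p (u i) (v i) (v j) (u j) := by
    rw [← Finset.sum_add_distrib]
    refine Finset.sum_congr rfl fun i _ => ?_
    rw [← Finset.sum_add_distrib]
    refine Finset.sum_congr rfl fun j _ => ?_
    rw [Sm]
    ring
  rw [tot]
  set W := wed (fun u v => G p u v) u v with hW
  set w := wed (fun a c => b a c) (fun i => (u i).1) (fun i => (v i).1) with hw
  have z1 : w ≤ 16 * W := by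
    have : (1 / 16 : ℝ) ≤ H ^ 2 := by nlinarith
    nlinarith
  have z2 : H * w ≤ 4 * W := by
    have y1 : H * (H * w) ≤ H * (4 * W) := by nlinarith
    exact le_of_mul_le_mul_left y1 hHp
  have z3 : - (4 * ε) * W ≤ H * ∑ i, ∑ j, g p.1 (riem C p.1 (u i).1 (v i).1 (v j).1) (u j).1 := by
    have y1 := mul_le_mul_of_nonneg_left hRu hHp.le
    have y2 : ε * (H * w) ≤ ε * (4 * W) := mul_le_mul_of_nonneg_left z2 hε
    have y3 : H * (- ε * w) = - (ε * (H * w)) := by ring
    rw [y3] at y1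
    linarith
  have z4 : δ ^ 2 / 3 * ∑ l, (∑ i, crvL A p.1 l (u i).1 (v i).1) ^ 2 ≤
      δ * (6 * Fintype.card ι * (Λ ^ 2 * (Module.finrank ℝ B : ℝ) ^ 2)) * W := by
    have y1 : ∑ l, (∑ i, crvL A p.1 l (u i).1 (v i).1) ^ 2 ≤
        Fintype.card ι * (Λ ^ 2 * (Module.finrank ℝ B : ℝ) ^ 2 * w) := by
      refine (Finset.sum_le_sum fun l _ => hFl l).trans ?_
      rw [Finset.sum_const, Finset.card_univ, nsmul_eq_mul]
    have y2 : (Fintype.card ι : ℝ) * (Λ ^ 2 * (Module.finrank ℝ B : ℝ) ^ 2 * w) ≤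
        Fintype.card ι * (Λ ^ 2 * (Module.finrank ℝ B : ℝ) ^ 2 * (16 * W)) := by gcongr
    have y3 : δ ^ 2 ≤ δ := by nlinarith
    calc δ ^ 2 / 3 * ∑ l, (∑ i, crvL A p.1 l (u i).1 (v i).1) ^ 2 ≤
        δ / 3 * (Fintype.card ι * (Λ ^ 2 * (Module.finrank ℝ B : ℝ) ^ 2 * (16 * W))) := by
          refine mul_le_mul (by linarith) (y1.trans y2) ?_ (by positivity)
          exact Finset.sum_nonneg fun l _ => sq_nonneg _
      _ ≤ _ := by
          have y4 : 0 ≤ δ * (Fintype.card ι * (Λ ^ 2 * (Module.finrank ℝ B : ℝ) ^ 2 * W)) := by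
            positivity
          nlinarith
  have z5 := (abs_le.1 s1).1
  have z6 : δ * KC B ι Y κ Λ * W = δ * (40 * (M + M ^ 2)) * (Fintype.card (PI B ι Y) : ℝ) ^ 2 * W +
      δ * (6 * Fintype.card ι * (Λ ^ 2 * (Module.finrank ℝ B : ℝ) ^ 2)) * W := by
    rw [KC, ← hM]
    ring
  have z7 : - (4 * ε + δ * KC B ι Y κ Λ) * W = - (4 * ε) * W - δ * KC B ι Y κ Λ * W := by ring
  rw [z7, z6]
  linarith

end Pool.Agent.H21_anco
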