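import Pool.Agent.H21_anco.Diam2

/-!
Rescaling of metrics.
-/

open scoped ContDiff Topology
open Filter Set

set_option maxSynthPendingDepth 3
set_option linter.unusedSectionVars false

noncomputable section

namespace Pool.Agent.H21_anco

section coord

variable {V : Type*} [NormedAddCommGroup V] [NormedSpace ℝ V]
  {g : V → V →L[ℝ] V →L[ℝ] ℝ} {C : V → V →L[ℝ] V →L[ℝ] V} {U : Set V}

theorem IsMetricOn.scale (hg : IsMetricOn g U) {s : ℝ} (hs : 0 < s) :
    IsMetricOn (fun x => s • g x) U := by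
  refine ⟨hg.smooth.const_smul s, ?_, ?_⟩
  · intro x hx u v
    simp only [smul_apply, hg.symm x hx u v]
  · intro x hx u hu
    simp only [smul_apply, smul_eq_mul]
    exact mul_pos hs (hg.pos x hx u hu)

theorem IsChristoffel.scale (hU : IsOpen U) (hg : IsMetricOn g U) (hC : IsChristoffel g U C)
    (s : ℝ) : IsChristoffel (fun x => s • g x) U C := by
  refine ⟨hC.smooth, ?_⟩
  intro x hx u v w
  have h1 : DifferentiableAt ℝ g x :=
    (hg.smooth.contDiffAt (hU.mem_nhds hx)).differentiableAt (by simp)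
  have h2 : fderiv ℝ (fun x => s • g x) x = s • fderiv ℝ g x := fderiv_const_smul h1 s
  rw [h2]
  simp only [smul_apply, smul_eq_mul]
  have := hC.koszul x hx u v w
  linear_combination s * this

theorem wed_nonneg [FiniteDimensional ℝ V] (b : V →L[ℝ] V →L[ℝ] ℝ) (hs : ∀ u v, b u v = b v u)
    (hp : ∀ u, u ≠ 0 → 0 < b u u) {m : ℕ} (u v : Fin m → V) :
    0 ≤ wed (fun u v => b u v) u v := by
  obtain ⟨f, hf1, hf2⟩ := exists_onb
    ((ContinuousLinearMap.coeLM ℝ : (V →L[ℝ] ℝ) →ₗ[ℝ] (V →ₗ[ℝ] ℝ)).comp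
      b.toLinearMap) hs hp
  have hf2' : ∀ a, a = ∑ q, b (f q) a • f q := hf2
  have := wed_diag (fun q a => b (f q) a) (fun _ => 1) (fun a c => b a c)
    (fun a c => by rw [base_pair hf2' hs]; simp) u v
  rw [this]
  positivity

end coord

theorem wed_scale {Z : Type*} (S : Z → Z → ℝ) (s : ℝ) {m : ℕ} (u v : Fin m → Z) :
    wed (fun a b => s * S a b) u v = s ^ 2 * wed S u v := by
  simp only [wed, Finset.mul_sum]
  refine Finset.sum_congr rfl fun i _ => Finset.sum_congr rfl fun j _ => ?_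
  ring

theorem CurvGE.scale {n : ℕ} {g : RR n → RR n →L[ℝ] RR n →L[ℝ] ℝ} {U : Set (RR n)} {c : ℝ}
    (hU : IsOpen U) (hg : IsMetricOn g U) (h : CurvGE g U c) {s : ℝ} (hs : 0 < s) :
    CurvGE (fun x => s • g x) U (c / s) := by
  obtain ⟨C, hC, hb⟩ := h
  refine ⟨C, hC.scale hU hg s, ?_⟩
  intro x hx m a b
  simp only [smul_apply, smul_eq_mul]
  rw [wed_scale]
  have h1 := mul_le_mul_of_nonneg_left (hb x hx m a b) hs.le
  have h2 : c / s * (s ^ 2 * wed (fun a b => g x a b) a b) =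
      s * (c * wed (fun a b => g x a b) a b) := by
    field_simp
  rw [h2]
  refine h1.trans (le_of_eq ?_)
  simp only [Finset.mul_sum]

theorem CurvGE.mono {n : ℕ} {g : RR n → RR n →L[ℝ] RR n →L[ℝ] ℝ} {U : Set (RR n)} {c c' : ℝ}
    (hg : IsMetricOn g U) (h : CurvGE g U c) (hc : c' ≤ c) : CurvGE g U c' := by
  obtain ⟨C, hC, hb⟩ := h
  refine ⟨C, hC, ?_⟩
  intro x hx m a b
  refine le_trans ?_ (hb x hx m a b)
  exact mul_le_mul_of_nonneg_right hc (wed_nonneg (g x) (hg.symm x hx) (hg.pos x hx) a b)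

variable {Z : Type*} [NormedAddCommGroup Z] [NormedSpace ℝ Z] {H : Z → Z →L[ℝ] Z →L[ℝ] ℝ}
  {M : Set Z} {n : ℕ}

theorem pull_scale (H : Z → Z →L[ℝ] Z →L[ℝ] ℝ) (s : ℝ) (ψ : RR n → Z) :
    pull (fun p => s • H p) ψ = fun x => s • pull H ψ x := by
  funext x
  ext u v
  simp only [pull_apply, smul_apply]

theorem IsRiem.scale (h : IsRiem M n H) {s : ℝ} (hs : 0 < s) : IsRiem M n (fun p => s • H p) := by
  refine ⟨h.smooth.const_smul s, ?_⟩
  intro U ψ hp
  rw [pull_scale]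
  exact (h.metric U ψ hp).scale hs

theorem Connects.scale {p q : Z} {ℓ : ℝ} (h : Connects H M p q ℓ) {s : ℝ} (hs : 0 ≤ s) :
    Connects (fun p => s • H p) M p q (Real.sqrt s * ℓ) := by
  induction h with
  | curve γ hγ hM =>
    have h1 := Connects.curve (G := fun p => s • H p) γ hγ hM
    have h2 : ∀ t, Real.sqrt ((s • H (γ t)) (derivWithin γ (Icc 0 1) t)
        (derivWithin γ (Icc 0 1) t)) = Real.sqrt s * Real.sqrt (H (γ t)
        (derivWithin γ (Icc 0 1) t) (derivWithin γ (Icc 0 1) t)) := by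
      intro t
      rw [smul_apply, smul_apply, smul_eq_mul, Real.sqrt_mul hs]
    simp only [h2] at h1
    rw [intervalIntegral.integral_const_mul] at h1
    exact h1
  | trans _ _ ih1 ih2 =>
    rw [mul_add]
    exact ih1.trans ih2

theorem DiamLE.scale {D : ℝ} (h : DiamLE H M D) {s : ℝ} (hs : 0 < s) :
    DiamLE (fun p => s • H p) M (Real.sqrt s * D) := by
  intro p hp q hq η hη
  have h0 : 0 < Real.sqrt s := Real.sqrt_pos.2 hs
  obtain ⟨ℓ, hℓ, hc⟩ := h p hp q hq (η / Real.sqrt s) (by positivity)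
  refine ⟨_, ?_, hc.scale hs.le⟩
  calc Real.sqrt s * ℓ < Real.sqrt s * (D + η / Real.sqrt s) := mul_lt_mul_of_pos_left hℓ h0
    _ = Real.sqrt s * D + η := by
      field_simp

end Pool.Agent.H21_anco
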