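import Pool.Agent.H21_anco.Gauge

/-!
Identification of the sphere bundle with the local model.
-/

open scoped ContDiff Topology
open Filter Set

set_option maxSynthPendingDepth 3
set_option linter.unusedSectionVars false

noncomputable section

namespace Pool.Agent.H21_anco

section model

variable {V : Type*} [NormedAddCommGroup V] [NormedSpace ℝ V] [FiniteDimensional ℝ V]
  {ι : Type*} [Fintype ι] [DecidableEq ι]
  {Y : Type*} [NormedAddCommGroup Y] [InnerProductSpace ℝ Y] [FiniteDimensional ℝ Y]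
  {g : V → V →L[ℝ] V →L[ℝ] ℝ} {C : V → V →L[ℝ] V →L[ℝ] V}
  {A : V → V →L[ℝ] (ι → ℝ)} {U : Set V} {δ κ : ℝ}

theorem christoffel_unique {C' : V → V →L[ℝ] V →L[ℝ] V} (hU : IsOpen U) (hg : IsMetricOn g U)
    (hC : IsChristoffel g U C) (hC' : IsChristoffel g U C') {x : V} (hx : x ∈ U) (u v w : V) :
    riem C x u v w = riem C' x u v w := by
  have h1 : ∀ y ∈ U, C y = C' y := by
    intro y hy
    ext u v
    rw [← sub_eq_zero]
    by_contra hne
    have h2 := hg.pos y hy _ hne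
    have h3 := hC.koszul y hy u v (C y u v - C' y u v)
    have h4 := hC'.koszul y hy u v (C y u v - C' y u v)
    have h5 : ∀ z, g y (C y u v - C' y u v) z = g y (C y u v) z - g y (C' y u v) z := by
      intro z
      rw [map_sub, sub_apply]
    rw [h5] at h2
    linarith
  have h2 : C =ᶠ[𝓝 x] C' := by
    filter_upwards [hU.mem_nhds hx] with y hy using h1 y hy
  rw [riem, riem, h2.fderiv_eq, h1 x hx]

/-- the map `(a, γ) ↦ γ + K_{A a} n` -/
def Lq (A : V → V →L[ℝ] (ι → ℝ)) (q : V × ((ι → ℂ) × Y)) :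
    (V × ((ι → ℂ) × Y)) →L[ℝ] ((ι → ℂ) × Y) :=
  ContinuousLinearMap.snd ℝ V ((ι → ℂ) × Y) +
    (KF.flip q.2).comp ((A q.1).comp (ContinuousLinearMap.fst ℝ V ((ι → ℂ) × Y)))

theorem Lq_apply (q u : V × ((ι → ℂ) × Y)) : Lq A q u = u.2 + KF (A q.1 u.1) q.2 := by
  simp [Lq]

/-- the metric of the local model -/
def GE (g : V → V →L[ℝ] V →L[ℝ] ℝ) (δ κ : ℝ) (A : V → V →L[ℝ] (ι → ℝ))
    (q : V × ((ι → ℂ) × Y)) : (V × ((ι → ℂ) × Y)) →L[ℝ] (V × ((ι → ℂ) × Y)) →L[ℝ] ℝ :=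
  HF κ δ q.2 • (g q.1).bilinearComp (ContinuousLinearMap.fst ℝ V ((ι → ℂ) × Y))
    (ContinuousLinearMap.fst ℝ V ((ι → ℂ) × Y)) +
  (cF δ q.2).bilinearComp (Lq A q) (Lq A q)

theorem GE_apply (q u v : V × ((ι → ℂ) × Y)) : GE g δ κ A q u v =
    HF κ δ q.2 * g q.1 u.1 v.1 +
      cF δ q.2 (u.2 + KF (A q.1 u.1) q.2) (v.2 + KF (A q.1 v.1) q.2) := by
  simp only [GE, add_apply, smul_apply, ContinuousLinearMap.bilinearComp_apply,
    ContinuousLinearMap.coe_fst', smul_eq_mul, Lq_apply]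

theorem isMetric_GE (hg : IsMetricOn g U) (hA : ContDiffOn ℝ ∞ A U) (hδ : 0 < δ) :
    IsMetricOn (GE (V := V) (ι := ι) (Y := Y) g δ κ A) (U ×ˢ univ) := by
  refine ⟨?_, ?_, ?_⟩
  · apply contDiffOn_apply2
    intro u v
    simp only [GE_apply]
    have hfst : ContDiffOn ℝ ∞ (fun q : V × ((ι → ℂ) × Y) => q.1) (U ×ˢ univ) := contDiffOn_fst
    have hmaps : MapsTo (fun q : V × ((ι → ℂ) × Y) => q.1) (U ×ˢ univ) U := fun q hq => hq.1
    have hsnd : ContDiffOn ℝ ∞ (fun q : V × ((ι → ℂ) × Y) => q.2) (U ×ˢ univ) := contDiffOn_snd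
    have k1 : ContDiffOn ℝ ∞ (fun q : V × ((ι → ℂ) × Y) => g q.1) (U ×ˢ univ) :=
      hg.smooth.comp hfst hmaps
    have k2 : ContDiffOn ℝ ∞ (fun q : V × ((ι → ℂ) × Y) => A q.1) (U ×ˢ univ) :=
      hA.comp hfst hmaps
    have k3 : ContDiffOn ℝ ∞ (fun q : V × ((ι → ℂ) × Y) => HF κ δ q.2) (U ×ˢ univ) :=
      (contDiff_HF hδ).comp_contDiffOn hsnd
    have k4 : ContDiffOn ℝ ∞ (fun q : V × ((ι → ℂ) × Y) => cF δ q.2) (U ×ˢ univ) :=
      (contDiff_cF hδ).comp_contDiffOn hsnd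
    have k5 : ∀ z : V × ((ι → ℂ) × Y), ContDiffOn ℝ ∞ (fun q : V × ((ι → ℂ) × Y) =>
        z.2 + KF (A q.1 z.1) q.2) (U ×ˢ univ) := by
      intro z
      have k6 : ContDiffOn ℝ ∞ (fun q : V × ((ι → ℂ) × Y) =>
          (KF : (ι → ℝ) →L[ℝ] ((ι → ℂ) × Y) →L[ℝ] ((ι → ℂ) × Y)) (A q.1 z.1)) (U ×ˢ univ) :=
        (ContinuousLinearMap.contDiff
          (KF : (ι → ℝ) →L[ℝ] ((ι → ℂ) × Y) →L[ℝ] ((ι → ℂ) × Y))).comp_contDiffOn
          (k2.clm_apply contDiffOn_const)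
      exact contDiffOn_const.add (k6.clm_apply hsnd)
    exact (k3.mul ((k1.clm_apply contDiffOn_const).clm_apply contDiffOn_const)).add
      ((k4.clm_apply (k5 u)).clm_apply (k5 v))
  · rintro q ⟨hq, -⟩ u v
    rw [GE_apply, GE_apply, hg.symm q.1 hq, (isMetric_cF hδ).symm q.2 (mem_univ _)]
  · rintro q ⟨hq, -⟩ u hu
    rw [GE_apply]
    have hHp : 0 < HF κ δ q.2 := HF_pos
    have hc := cF_nonneg (n := q.2) hδ (u.2 + KF (A q.1 u.1) q.2)
    by_cases h0 : u.1 = 0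
    · have h1 : u.2 ≠ 0 := fun h1 => hu (Prod.ext h0 h1)
      have k3 := (isMetric_cF hδ).pos q.2 (mem_univ _) u.2 h1
      rw [h0]
      simpa using k3
    · have k3 := hg.pos q.1 hq u.1 h0
      have : 0 < HF κ δ q.2 * g q.1 u.1 u.1 := mul_pos hHp k3
      linarith

theorem mod_GE (hU : IsOpen U) (hg : IsMetricOn g U) (hC : IsChristoffel g U C)
    (hA : ContDiffOn ℝ ∞ A U) (hδ : 0 < δ)
    {Γ : V × ((ι → ℂ) × Y) → (V × ((ι → ℂ) × Y)) →L[ℝ] (V × ((ι → ℂ) × Y)) →L[ℝ]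
      (V × ((ι → ℂ) × Y))}
    (hΓ : IsChristoffel (V := V × ((ι → ℂ) × Y)) (GE (V := V) (ι := ι) (Y := Y) g δ κ A)
      (U ×ˢ univ) Γ) {p : V × ((ι → ℂ) × Y)} (hp : p.1 ∈ U) :
    Mod (B := V) (N := (ι → ℂ) × Y) (T := ι → ℝ) g C (cF δ) (DF δ) (HF κ δ) KF A
      (GE (V := V) (ι := ι) (Y := Y) g δ κ A) Γ p where
  lcG := LC.of (hU.prod isOpen_univ) (isMetric_GE hg hA hδ) hΓ ⟨hp, mem_univ _⟩
  lcg := LC.of hU hg hC hp
  lcc := lc_cF hδ p.2
  As := by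
    filter_upwards [hU.mem_nhds hp] with x hx using hA.contDiffAt (hU.mem_nhds hx)
  Hs := Eventually.of_forall fun n => (contDiff_HF hδ).contDiffAt
  Kc := fun ξ η n => KF_comm ξ η n
  Hinv := Eventually.of_forall fun n ξ => HF_inv hδ n ξ
  cinv := Eventually.of_forall fun n ξ γ η => cF_inv hδ n γ η ξ
  hG := Eventually.of_forall fun q u v => GE_apply q u v

end model

section theta

variable {E : Type*} [NormedAddCommGroup E] [NormedSpace ℝ E] [FiniteDimensional ℝ E]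
  {F : Type*} [NormedAddCommGroup F] [InnerProductSpace ℂ F] [FiniteDimensional ℂ F]
  {ι : Type*} [Fintype ι] [DecidableEq ι]
  {Y : Type*} [NormedAddCommGroup Y] [InnerProductSpace ℝ Y] [FiniteDimensional ℝ Y]
  {B : Set E} {n : ℕ} {P : ι → E → F →L[ℂ] F} {b : E} {U : Set (RR n)}
  {ψ : RR n → E} {W : Set E} {ρ : E → RR n} {e : ι → RR n → F}
  {A : RR n → RR n →L[ℝ] (ι → ℝ)} {δ κ : ℝ}

/-- local trivialisation of the vector bundle -/
def Th (ψ : RR n → E) (e : ι → RR n → F) (q : RR n × ((ι → ℂ) × Y)) : E × ((ι → F) × Y) :=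
  (ψ q.1, (fun i => q.2.1 i • e i q.1, q.2.2))

theorem hasFDerivAt_Th (h : LData B n P b U ψ W ρ e A) {q : RR n × ((ι → ℂ) × Y)}
    (hq : q.1 ∈ U) : ∃ L : (RR n × ((ι → ℂ) × Y)) →L[ℝ] (E × ((ι → F) × Y)),
    HasFDerivAt (Th ψ e) L q ∧ ∀ u, L u = (fderiv ℝ ψ q.1 u.1,
      (fun i => u.2.1 i • e i q.1 + q.2.1 i • fderiv ℝ (e i) q.1 u.1, u.2.2)) := by
  have hU := h.chart.param.isOpen.mem_nhds hq
  have h1 : HasFDerivAt (fun q : RR n × ((ι → ℂ) × Y) => ψ q.1)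
      ((fderiv ℝ ψ q.1).comp (ContinuousLinearMap.fst ℝ (RR n) ((ι → ℂ) × Y))) q :=
    ((h.chart.param.smooth.contDiffAt hU).differentiableAt (by simp)).hasFDerivAt.comp q
      hasFDerivAt_fst
  have h2 : ∀ i, HasFDerivAt (fun q : RR n × ((ι → ℂ) × Y) => e i q.1)
      ((fderiv ℝ (e i) q.1).comp (ContinuousLinearMap.fst ℝ (RR n) ((ι → ℂ) × Y))) q :=
    fun i => (((h.es i).contDiffAt hU).differentiableAt (by simp)).hasFDerivAt.comp q
      hasFDerivAt_fst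
  have h3 : ∀ i, HasFDerivAt (fun q : RR n × ((ι → ℂ) × Y) => q.2.1 i)
      ((pj i).comp (ContinuousLinearMap.snd ℝ (RR n) ((ι → ℂ) × Y))) q := fun i =>
    ((pj i).comp (ContinuousLinearMap.snd ℝ (RR n) ((ι → ℂ) × Y))).hasFDerivAt
  have h4 := fun i => (h3 i).smul (h2 i)
  have h5 : HasFDerivAt (fun q : RR n × ((ι → ℂ) × Y) => fun i => q.2.1 i • e i q.1) _ q :=
    hasFDerivAt_pi.2 h4
  have h6 : HasFDerivAt (fun q : RR n × ((ι → ℂ) × Y) => q.2.2)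
      ((ContinuousLinearMap.snd ℝ (ι → ℂ) Y).comp
        (ContinuousLinearMap.snd ℝ (RR n) ((ι → ℂ) × Y))) q :=
    ((ContinuousLinearMap.snd ℝ (ι → ℂ) Y).comp
        (ContinuousLinearMap.snd ℝ (RR n) ((ι → ℂ) × Y))).hasFDerivAt
  refine ⟨_, h1.prodMk (h5.prodMk h6), ?_⟩
  intro u
  refine Prod.ext ?_ (Prod.ext ?_ ?_)
  · simp
  · funext i
    simp
    abel
  · simp

/-- the ambient forms in the local trivialisation -/
theorem Gh_Th (h : LData B n P b U ψ W ρ e A) (hL : ∀ i, ∀ b ∈ B, IsLineProj (P i b))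
    (G : E → E →L[ℝ] E →L[ℝ] ℝ) {q : RR n × ((ι → ℂ) × Y)} (hq : q.1 ∈ U)
    (u v : RR n × ((ι → ℂ) × Y)) :
    Gh (E := E) (F := F) (ι := ι) (Y := Y) G P κ δ (Th ψ e q) (fderiv ℝ (Th ψ e) q u)
      (fderiv ℝ (Th ψ e) q v) =
      GE (V := RR n) (ι := ι) (Y := Y) (pull G ψ) δ κ A q u v := by
  obtain ⟨L, hL1, hL2⟩ := hasFDerivAt_Th (Y := Y) h hq
  rw [hL1.fderiv, hL2, hL2, Gh_apply, GE_apply, cF_apply, pull_apply]
  have he1 : ∀ i, ‖e i q.1‖ = 1 := fun i => h.en i q.1 hq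
  have hee : ∀ i, inner ℂ (e i q.1) (e i q.1) = (1 : ℂ) := by
    intro i
    rw [inner_self_eq_norm_sq_to_K, he1]
    simp
  have hn : ∀ i, ‖q.2.1 i • e i q.1‖ ^ 2 = (q.2.1 i).re ^ 2 + (q.2.1 i).im ^ 2 := by
    intro i
    rw [norm_smul, he1, mul_one, ← Complex.normSq_eq_norm_sq, Complex.normSq_apply]
    ring
  have hγ : ∀ i, ∀ u : RR n × ((ι → ℂ) × Y),
      inner ℂ (e i q.1) (u.2.1 i • e i q.1 + q.2.1 i • fderiv ℝ (e i) q.1 u.1) =
        (u.2 + KF (A q.1 u.1) q.2).1 i := by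
    intro i u
    rw [inner_add_right, inner_smul_right, inner_smul_right, hee, h.conn i q.1 hq, Prod.fst_add,
      Pi.add_apply, KF_fst, mul_one]
    congr 1
    apply Complex.ext <;> simp <;> ring
  have hPa : ∀ i, ∀ α : F, P i (ψ q.1) α = inner ℂ (e i q.1) α • e i q.1 := fun i α =>
    (hL i (ψ q.1) (h.chart.param.maps q.1 hq)).apply_eq (h.eP i q.1 hq) (he1 i) α
  have k1 : ∀ z : RR n × ((ι → ℂ) × Y), (z.2 + KF (A q.1 z.1) q.2).2 = z.2.2 := by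
    intro z
    rw [Prod.snd_add, KF_snd, add_zero]
  rw [k1, k1, ← add_assoc]
  congr 1
  · congr 1
    · simp only [Th, hn, HF, mF, sg, add_assoc]
    · refine Finset.sum_congr rfl fun i _ => ?_
      simp only [Th]
      rw [hn, hPa, hγ, inner_smul_left, hγ, inner_smul_left, inner_smul_left, hγ, hγ, c1_apply,
        kk, ← add_assoc]
      simp only [Complex.mul_re, Complex.mul_im, Complex.conj_re, Complex.conj_im]
      ring

end theta

end Pool.Agent.H21_anco
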